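import Pool.Agent.Lib_helper54.RS.Weights

/-!
# Block CU: unfolding of integrals of complex functions
-/

namespace Pool.Agent.GJ

open Complex MeasureTheory Filter Topology Matrix
open Pool.Agent.RS (Mt SLZ toR lm Xs wG)
open scoped ENNReal

theorem cu_wG_pos {r : ℕ} (A : Mt r) (hA : (Matrix.of A).det ≠ 0) : wG A ≠ 0 := by
  unfold wG RS.wt
  rw [Ne, ENNReal.div_eq_zero_iff, not_or]
  exact ⟨RS.gauss_pos A, RS.tsum_gauss_ne_top A hA⟩

theorem cu_wG_le {r : ℕ} (A : Mt r) : wG A ≤ 1 := RS.wt_le_one _ A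

theorem cu_enorm {r : ℕ} (A : Mt r) : ‖((wG A).toReal : ℂ)‖ₑ = wG A := by
  have h1 : wG A ≠ ⊤ := ne_top_of_le_ne_top ENNReal.one_ne_top (cu_wG_le A)
  rw [← ofReal_norm_eq_enorm, Complex.norm_real, Real.norm_of_nonneg ENNReal.toReal_nonneg,
    ENNReal.ofReal_toReal h1]

/-- CU: unfolding -/
theorem unf_c_pr {n : ℕ} {F : Mt n → ℂ} (hF : Measurable F) (hi : IntegrableOn F (Xs n)) :
    (∀ᵐ Y ∂(volume.restrict (Xs n)), Summable fun γ : SLZ n => ‖F (lm (toR γ) Y)‖) ∧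
    IntegrableOn (fun Y => ((wG Y).toReal : ℂ) * ∑' γ : SLZ n, F (lm (toR γ) Y)) (Xs n) ∧
    ∫ Y in Xs n, ((wG Y).toReal : ℂ) * ∑' γ : SLZ n, F (lm (toR γ) Y) = ∫ Y in Xs n, F Y := by
  have hlm : ∀ γ : SLZ n, Measurable (lm (toR γ)) := fun γ => RS.measurable_lm γ
  have hwm : Measurable fun Y : Mt n => ((wG Y).toReal : ℂ) :=
    Complex.measurable_ofReal.comp (RS.measurable_wG.ennreal_toReal)
  have hfin : ∫⁻ Y in Xs n, ‖F Y‖ₑ ≠ ⊤ := hi.2.ne
  have hunf := RS.unfold_SL (fun Y : Mt n => ‖F Y‖ₑ) hF.enorm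
  have hms : Measurable fun Y : Mt n => ∑' γ : SLZ n, ‖F (lm (toR γ) Y)‖ₑ :=
    Measurable.tsum fun γ => (hF.comp (hlm γ)).enorm
  have hsum : ∀ᵐ Y ∂(volume.restrict (Xs n)), Summable fun γ : SLZ n => ‖F (lm (toR γ) Y)‖ := by
    have h1 : ∀ᵐ Y ∂(volume.restrict (Xs n)), wG Y * ∑' γ : SLZ n, ‖F (lm (toR γ) Y)‖ₑ < ⊤ := by
      refine ae_lt_top (RS.measurable_wG.mul hms) ?_
      rw [hunf]
      exact hfin
    filter_upwards [h1, RS.ae_Xs n] with Y hY hYX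
    have h2 := cu_wG_pos Y (RS.Xs_det_ne hYX)
    have h3 : ∑' γ : SLZ n, ‖F (lm (toR γ) Y)‖ₑ ≠ ⊤ := by
      intro h4
      rw [h4, ENNReal.mul_top h2] at hY
      exact lt_irrefl _ hY
    exact tsum_enorm_ne_top_iff_summable_norm.1 h3
  have hmT : Measurable fun Y : Mt n => ∑' γ : SLZ n, F (lm (toR γ) Y) :=
    Measurable.tsum fun γ => hF.comp (hlm γ)
  have hint : IntegrableOn (fun Y => ((wG Y).toReal : ℂ) * ∑' γ : SLZ n, F (lm (toR γ) Y))
      (Xs n) := by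
    refine ⟨(hwm.mul hmT).aestronglyMeasurable, ?_⟩
    refine lt_of_le_of_lt (lintegral_mono fun Y => ?_) (hunf ▸ hfin.lt_top)
    simp only
    rw [enorm_mul, cu_enorm]
    exact mul_le_mul_right (enorm_tsum_le_tsum_enorm) _
  refine ⟨hsum, hint, ?_⟩
  -- the two families
  have hG : ∀ γ : SLZ n, ∫ Y in Xs n, ((wG Y).toReal : ℂ) * F (lm (toR γ) Y) =
      ∫ Y in Xs n, ((wG (lm (toR γ⁻¹) Y)).toReal : ℂ) * F Y := by
    intro γ
    have hmp := RS.mp_lm_Xs γ⁻¹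
    have hmf : Measurable fun Y : Mt n => ((wG Y).toReal : ℂ) * F (lm (toR γ) Y) :=
      hwm.mul (hF.comp (hlm γ))
    have h1 := integral_map hmp.measurable.aemeasurable
      (f := fun Y : Mt n => ((wG Y).toReal : ℂ) * F (lm (toR γ) Y))
      (by rw [hmp.map_eq]; exact hmf.aestronglyMeasurable)
    rw [hmp.map_eq] at h1
    rw [h1]
    congr 1
    funext Y
    congr 2
    rw [RS.lm_lm, RS.toR_mul_inv, RS.lm_one]
  have e1 : ∫ Y in Xs n, ((wG Y).toReal : ℂ) * ∑' γ : SLZ n, F (lm (toR γ) Y) =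
      ∑' γ : SLZ n, ∫ Y in Xs n, ((wG Y).toReal : ℂ) * F (lm (toR γ) Y) := by
    rw [← integral_tsum]
    · refine integral_congr_ae (Eventually.of_forall fun Y => ?_)
      simp only
      rw [tsum_mul_left]
    · exact fun γ => (hwm.mul (hF.comp (hlm γ))).aestronglyMeasurable
    · have hme : ∀ γ : SLZ n, AEMeasurable (fun Y : Mt n => wG Y * ‖F (lm (toR γ) Y)‖ₑ)
          (volume.restrict (Xs n)) := fun γ =>
        (RS.measurable_wG.mul (hF.comp (hlm γ)).enorm).aemeasurable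
      simp only [enorm_mul, cu_enorm]
      rw [← lintegral_tsum hme]
      simp only [ENNReal.tsum_mul_left]
      rw [hunf]
      exact hfin
  have hone : ∀ᵐ Y ∂(volume.restrict (Xs n)),
      ∑' γ : SLZ n, wG (lm (toR γ⁻¹) Y) = 1 := by
    filter_upwards [RS.ae_Xs n] with Y hY
    have h1 := (Equiv.inv (SLZ n)).tsum_eq (fun γ => wG (lm (toR γ) Y))
    simp only [Equiv.inv_apply] at h1
    rw [h1]
    exact RS.tsum_wG Y (RS.Xs_det_ne hY)
  have e2 : ∑' γ : SLZ n, ∫ Y in Xs n, ((wG (lm (toR γ⁻¹) Y)).toReal : ℂ) * F Y =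
      ∫ Y in Xs n, F Y := by
    rw [← integral_tsum]
    · refine integral_congr_ae ?_
      filter_upwards [hone] with Y hY
      have h1 : ∀ γ : SLZ n, wG (lm (toR γ⁻¹) Y) ≠ ⊤ := fun γ =>
        ne_top_of_le_ne_top ENNReal.one_ne_top (cu_wG_le _)
      rw [tsum_mul_right, ← Complex.ofReal_tsum, ← ENNReal.tsum_toReal_eq h1, hY]
      simp
    · exact fun γ => ((hwm.comp (hlm γ⁻¹)).mul hF).aestronglyMeasurable
    · have hme : ∀ γ : SLZ n, AEMeasurable (fun Y : Mt n => wG (lm (toR γ⁻¹) Y) * ‖F Y‖ₑ)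
          (volume.restrict (Xs n)) := fun γ =>
        ((RS.measurable_wG.comp (hlm γ⁻¹)).mul hF.enorm).aemeasurable
      simp only [enorm_mul, cu_enorm]
      rw [← lintegral_tsum hme]
      have h2 : ∫⁻ Y in Xs n, ∑' γ : SLZ n, wG (lm (toR γ⁻¹) Y) * ‖F Y‖ₑ =
          ∫⁻ Y in Xs n, ‖F Y‖ₑ := by
        refine lintegral_congr_ae ?_
        filter_upwards [hone] with Y hY
        rw [ENNReal.tsum_mul_right, hY, one_mul]
      rw [h2]
      exact hfin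
  rw [e1, ← e2]
  exact tsum_congr hG

alias unf_c := unf_c_pr

end Pool.Agent.GJ
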