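import Pool.Agent.Lib_helper19.GJ.Form
import Pool.Agent.Lib_helper44.G5.Defs
import Pool.Agent.Lib_helper54.RS.Cut

/-!
# Spherical Hecke eigenforms of level one on `GL_n(ℝ)`: auxiliary definitions for the proof
-/

namespace Pool.Agent.GJ

open Complex MeasureTheory Filter Topology Matrix

open Pool.Agent.RS (Mt SLZ toR lm Xs wG cut)

/-- the square of the Frobenius norm -/
def fro {n : ℕ} (X : Matrix (Fin n) (Fin n) ℝ) : ℝ := ∑ i, ∑ j, X i j ^ 2

/-- the matrix divided by the `n`-th root of the absolute value of its determinant -/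
noncomputable def nz {n : ℕ} (Y : Mt n) : Matrix (Fin n) (Fin n) ℝ :=
  Matrix.of fun i j => Y i j / |(Matrix.of Y).det| ^ ((n : ℝ)⁻¹)

/-- integral matrices as real matrices -/
def intM {n : ℕ} (A : Matrix (Fin n) (Fin n) ℤ) : Matrix (Fin n) (Fin n) ℝ :=
  A.map (fun z : ℤ => (z : ℝ))

/-- the terms of the theta kernel -/
noncomputable def thT {n q : ℕ} (χ : DirichletCharacter ℂ q) (a : ℕ) (t : ℝ)
    (x y : Matrix (Fin n) (Fin n) ℝ) (A : Matrix (Fin n) (Fin n) ℤ) : ℂ :=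
  χ ((A.det : ℤ) : ZMod q) * (((t ^ n * ((A.det : ℤ) : ℝ)) ^ a *
    Real.exp (-Real.pi * (t ^ 2 * fro (x⁻¹ * intM A * y))) : ℝ) : ℂ)

/-- the theta kernel `∑_A χ(det A) (t^n det A)^a exp(-π t² |x⁻¹ A y|²)` -/
noncomputable def th {n q : ℕ} (χ : DirichletCharacter ℂ q) (a : ℕ) (t : ℝ)
    (x y : Matrix (Fin n) (Fin n) ℝ) : ℂ := ∑' A : Matrix (Fin n) (Fin n) ℤ, thT χ a t x y A

/-- Gauss sums for matrices -/
noncomputable def gs {n q : ℕ} [NeZero q] (χ : DirichletCharacter ℂ q)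
    (C : Matrix (Fin n) (Fin n) (ZMod q)) : ℂ :=
  ∑ B : Matrix (Fin n) (Fin n) (ZMod q), χ B.det * ZMod.stdAddChar (∑ i, ∑ j, B i j * C i j)

/-- `diag(-1, 1, ..., 1)` -/
def sgnM (n : ℕ) : Matrix (Fin n) (Fin n) ℤ :=
  Matrix.diagonal fun i => if (i : ℕ) = 0 then -1 else 1

/-- the integral matrix of a natural matrix -/
def natZ {n : ℕ} (A : Fin n → Fin n → ℕ) : Matrix (Fin n) (Fin n) ℤ :=
  Matrix.of fun i j => (A i j : ℤ)

/-- the parametrization of the integral matrices of nonzero determinant -/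
def hmap (n : ℕ) (p : (Σ m : ℕ, ↥(hnf n (m + 1))) × Bool × SLZ n) :
    Matrix (Fin n) (Fin n) ℤ :=
  natZ p.1.2.1 * (if p.2.1 then sgnM n else 1) * p.2.2.1

/-- the block matrix `[A, b; 0, d]` -/
def blk {r : ℕ} (A : Fin r → Fin r → ℕ) (b : Fin r → ℕ) (d : ℕ) : Fin (r + 1) → Fin (r + 1) → ℕ :=
  Fin.snoc (fun i => Fin.snoc (A i) (b i)) (Fin.snoc (fun _ => 0) d)

/-- the parity of the gamma factor: `0` if the parities of the form and of the character agree -/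
def aa (e δ : Fin 2) : ℕ := if e = δ then 0 else 1

/-- the local integral at the archimedean place -/
noncomputable def Gk {n : ℕ} (φ : Matrix (Fin n) (Fin n) ℝ → ℂ) (a : ℕ) (τ : ℝ)
    (y : Matrix (Fin n) (Fin n) ℝ) : ℂ :=
  ∫ Z : Mt n in Xs n, φ (y * Matrix.of Z) *
    ((τ ^ (n * a) * Real.exp (-Real.pi * (τ ^ 2 * fro (nz Z))) : ℝ) : ℂ)

/-- its majorant -/
noncomputable def Gb (n a : ℕ) (τ : ℝ) : ℝ :=
  ∫ Z : Mt n in Xs n, τ ^ (n * a) * Real.exp (-Real.pi * (τ ^ 2 * fro (nz Z)))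

/-- the double theta integral -/
noncomputable def JJ {n q : ℕ} (φ : Matrix (Fin n) (Fin n) ℝ → ℂ) (χ : DirichletCharacter ℂ q)
    (a : ℕ) (t : ℝ) : ℂ :=
  ∫ x : Mt n in Xs n, ∫ y : Mt n in Xs n, (((wG x).toReal * (wG y).toReal : ℝ) : ℂ) *
    (starRingEnd ℂ (φ (Matrix.of x)) * φ (Matrix.of y)) * th χ a t (nz x) (nz y)

/-- the norm of the form -/
noncomputable def nrm {n : ℕ} (φ : Matrix (Fin n) (Fin n) ℝ → ℂ) : ℝ :=
  ∫ x : Mt n in Xs n, (wG x).toReal * ‖φ (Matrix.of x)‖ ^ 2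

end Pool.Agent.GJ
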