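import Mathlib

/-!
# Block EF: factorization of the Euler polynomial
-/

namespace Pool.Agent.GJ

open Polynomial

theorem ef_poly (n : ℕ) : ∀ E : ℂ[X], E.natDegree ≤ n → E.eval 0 = 1 →
    ∃ α : Fin n → ℂ, E = ∏ j, (1 - C (α j) * X) := by
  induction n with
  | zero =>
    intro E hE h0
    obtain ⟨c, hc⟩ := Polynomial.natDegree_eq_zero.1 (Nat.le_zero.1 hE)
    refine ⟨fun j => 0, ?_⟩
    rw [← hc] at h0 ⊢
    rw [eval_C] at h0
    rw [h0]
    simp
  | succ n ih =>
    intro E hE h0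
    by_cases hd : E.degree = 0
    · refine ⟨fun j => 0, ?_⟩
      have h1 := Polynomial.eq_C_of_degree_eq_zero hd
      have h2 : E.coeff 0 = 1 := by rw [Polynomial.coeff_zero_eq_eval_zero, h0]
      rw [h1, h2]
      simp
    · obtain ⟨r, hr⟩ := IsAlgClosed.exists_root E hd
      have hr0 : r ≠ 0 := by
        rintro rfl
        rw [Polynomial.IsRoot.def, h0] at hr
        exact one_ne_zero hr
      obtain ⟨E', hE'⟩ := Polynomial.dvd_iff_isRoot.2 hr
      have hE0 : E ≠ 0 := by
        rintro rfl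
        simp at h0
      have hE'0 : E' ≠ 0 := by
        rintro rfl
        exact hE0 (by rw [hE', mul_zero])
      have hdeg : E.natDegree = 1 + E'.natDegree := by
        rw [hE', Polynomial.natDegree_mul (X_sub_C_ne_zero r) hE'0, natDegree_X_sub_C]
      obtain ⟨α, hα⟩ := ih (C (-r) * E') (by
        rw [natDegree_C_mul (neg_ne_zero.2 hr0)]
        omega) (by
        rw [hE'] at h0
        simpa using h0)
      refine ⟨Fin.cons r⁻¹ α, ?_⟩
      rw [Fin.prod_univ_succ]
      simp only [Fin.cons_zero, Fin.cons_succ]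
      rw [← hα, hE', ← mul_assoc]
      congr 1
      have h3 : C r⁻¹ * C (-r) = (-1 : ℂ[X]) := by
        rw [← C_mul, mul_neg, inv_mul_cancel₀ hr0, C_neg, C_1]
      calc (X - C r : ℂ[X]) = C (-r) - C r⁻¹ * C (-r) * X := by
            rw [h3, C_neg]
            ring
        _ = (1 - C r⁻¹ * X) * C (-r) := by ring

/-- EF -/
theorem eul_fac_pr (n : ℕ) {l c : ℕ → ℂ} (h0 : l 0 = 1) (c0 : c 0 = 1) (cn : ∀ i, n < i → c i = 0)
    (hc : ∀ k : ℕ, 0 < k → ∑ i ∈ Finset.range (k + 1), c i * l (k - i) = 0) :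
    ∃ α : Fin n → ℂ, PowerSeries.mk l * ∏ j, (1 - PowerSeries.C (α j) * PowerSeries.X) = 1 := by
  set E : ℂ[X] := ∑ i ∈ Finset.range (n + 1), monomial i (c i) with hE
  have hcoeff : ∀ i, E.coeff i = c i := by
    intro i
    rw [hE, finset_sum_coeff]
    simp only [coeff_monomial]
    rw [Finset.sum_ite_eq']
    split_ifs with h
    · rfl
    · rw [cn i (by simpa using h)]
  obtain ⟨α, hα⟩ := ef_poly n E (by
    rw [Polynomial.natDegree_le_iff_coeff_eq_zero]
    intro i hi
    rw [hcoeff, cn i hi]) (by rw [← Polynomial.coeff_zero_eq_eval_zero, hcoeff, c0])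
  refine ⟨α, ?_⟩
  have h1 : ((E : ℂ[X]) : PowerSeries ℂ) = ∏ j, (1 - PowerSeries.C (α j) * PowerSeries.X) := by
    rw [hα]
    have h2 := map_prod (Polynomial.coeToPowerSeries.ringHom (R := ℂ))
      (fun j => (1 - C (α j) * X : ℂ[X])) Finset.univ
    simp only [Polynomial.coeToPowerSeries.ringHom_apply] at h2
    rw [h2]
    refine Finset.prod_congr rfl fun j _ => ?_
    simp
  rw [← h1]
  ext k
  rw [PowerSeries.coeff_mul, PowerSeries.coeff_one]
  have h3 : ∑ p ∈ Finset.HasAntidiagonal.antidiagonal k, (PowerSeries.coeff p.1) (PowerSeries.mk l) *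
      (PowerSeries.coeff p.2) (E : PowerSeries ℂ) =
      ∑ i ∈ Finset.range (k + 1), c i * l (k - i) := by
    rw [← Finset.Nat.sum_antidiagonal_swap, Finset.Nat.sum_antidiagonal_eq_sum_range_succ_mk]
    refine Finset.sum_congr rfl fun i _ => ?_
    simp only [Prod.swap_prod_mk, PowerSeries.coeff_mk, Polynomial.coeff_coe, hcoeff]
    ring
  rw [h3]
  split_ifs with hk
  · subst hk
    simp [h0, c0]
  · exact hc k (Nat.pos_of_ne_zero hk)

alias eul_fac := eul_fac_pr

end Pool.Agent.GJ
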