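import Pool.Agent.Lib_helper19.GJ.Defs

/-! # Gauss sums for matrices (block GS) -/

namespace Pool.Agent.GJ

open Complex MeasureTheory Filter Topology Matrix
open Pool.Agent.G4 (par RSB)
open Pool.Agent.RS (Mt SLZ toR lm Xs wG cut cube)
open scoped ENNReal

/-- change of variables `B ↦ B U` -/
theorem gs_sub {n q : ℕ} [NeZero q] (χ : DirichletCharacter ℂ q)
    (C U : Matrix (Fin n) (Fin n) (ZMod q)) (hU : IsUnit U) :
    gs χ C = χ U.det * gs χ (C * Uᵀ) := by
  unfold gs
  rw [Finset.mul_sum]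
  rw [← Equiv.sum_comp (Units.mulRight hU.unit)]
  refine Finset.sum_congr rfl fun B _ => ?_
  have e1 : (Units.mulRight hU.unit) B = B * U := rfl
  rw [e1, Matrix.det_mul, map_mul]
  have e2 : ∑ i, ∑ j, (B * U) i j * C i j = ∑ i, ∑ j, B i j * (C * Uᵀ) i j := by
    refine Finset.sum_congr rfl fun i _ => ?_
    simp only [Matrix.mul_apply, Matrix.transpose_apply, Finset.sum_mul, Finset.mul_sum]
    rw [Finset.sum_comm]
    refine Finset.sum_congr rfl fun j _ => Finset.sum_congr rfl fun k _ => ?_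
    ring
  rw [e2]
  ring

/-- a primitive character is nontrivial on the units congruent to one modulo `q / p` -/
theorem gs_unit {q p : ℕ} [NeZero q] {χ : DirichletCharacter ℂ q} (hχ : χ.IsPrimitive)
    (hp : p.Prime) (hpq : p ∣ q) :
    ∃ (u : (ZMod q)ˣ) (c : ZMod q), (u : ZMod q) = 1 + ((q / p : ℕ) : ZMod q) * c ∧
      χ (u : ZMod q) ≠ 1 := by
  by_contra hcon
  push Not at hcon
  have hd : q / p ∣ q := Nat.div_dvd_of_dvd hpq
  have hq0 : 0 < q := Nat.pos_of_ne_zero (NeZero.ne q)
  have h1 : χ.FactorsThrough (q / p) := by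
    rw [DirichletCharacter.factorsThrough_iff_ker_unitsMap hd]
    intro u hu
    rw [MonoidHom.mem_ker] at hu ⊢
    rw [Units.ext_iff, ZMod.unitsMap_val, Units.val_one] at hu
    have h2 : ∃ c : ZMod q, (u : ZMod q) = 1 + ((q / p : ℕ) : ZMod q) * c := by
      have h3 : ((u : ZMod q).val : ZMod (q / p)) = ((1 : ℕ) : ZMod (q / p)) := by
        rw [ZMod.natCast_val, hu]
        simp
      rw [ZMod.natCast_eq_natCast_iff, Nat.modEq_iff_dvd] at h3
      obtain ⟨c, hc⟩ := h3
      refine ⟨-(c : ZMod q), ?_⟩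
      have h4 : (((u : ZMod q).val : ℤ) : ZMod q) = ((1 - (((q / p : ℕ) : ℤ)) * c : ℤ) : ZMod q) := by
        rw [← hc]
        push_cast
        ring
      rw [Int.cast_natCast, ZMod.natCast_zmod_val] at h4
      rw [h4, Int.cast_sub, Int.cast_mul, Int.cast_natCast, Int.cast_one]
      ring
    obtain ⟨c, hc⟩ := h2
    have h5 := hcon u c hc
    rw [Units.ext_iff, MulChar.coe_toUnitHom, h5, Units.val_one]
  have h2 : χ.conductor ≤ q / p := Nat.sInf_le h1
  rw [(DirichletCharacter.isPrimitive_def χ).1 hχ] at h2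
  exact absurd h2 (not_le.2 (Nat.div_lt_self hq0 hp.one_lt))

/-- Gauss sums vanish at the singular matrices -/
theorem gs_zero {n q : ℕ} [NeZero q] {χ : DirichletCharacter ℂ q} (hχ : χ.IsPrimitive)
    (C : Matrix (Fin n) (Fin n) (ZMod q)) (hC : ¬ IsUnit C.det) : gs χ C = 0 := by
  have hq0 : 0 < q := Nat.pos_of_ne_zero (NeZero.ne q)
  -- the prime
  obtain ⟨p, hp, hpq, hpC⟩ : ∃ p : ℕ, p.Prime ∧ p ∣ q ∧ p ∣ C.det.val := by
    have h1 : ¬ Nat.Coprime C.det.val q := by
      intro h
      apply hC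
      have := (ZMod.isUnit_iff_coprime C.det.val q).2 h
      rwa [ZMod.natCast_zmod_val] at this
    obtain ⟨p, hp, h2⟩ := Nat.exists_prime_and_dvd h1
    exact ⟨p, hp, h2.trans (Nat.gcd_dvd_right _ _), h2.trans (Nat.gcd_dvd_left _ _)⟩
  have : Fact p.Prime := ⟨hp⟩
  have : NeZero p := ⟨hp.ne_zero⟩
  -- a null vector modulo `p`
  obtain ⟨v, hv0, hv⟩ : ∃ v : Fin n → ZMod p, v ≠ 0 ∧
      (C.map (ZMod.castHom hpq (ZMod p))) *ᵥ v = 0 := by
    refine Matrix.exists_mulVec_eq_zero_iff.2 ?_
    have : (C.map (ZMod.castHom hpq (ZMod p))).det = (ZMod.castHom hpq (ZMod p)) C.det := by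
      rw [RingHom.map_det]
      rfl
    rw [this]
    have h2 : (ZMod.castHom hpq (ZMod p)) C.det = ((C.det.val : ℕ) : ZMod p) := by
      conv_lhs => rw [← ZMod.natCast_zmod_val C.det]
      rw [map_natCast]
    rw [h2]
    exact (ZMod.natCast_eq_zero_iff _ _).2 hpC
  obtain ⟨k, hk⟩ : ∃ k, v k ≠ 0 := by
    by_contra h
    push Not at h
    exact hv0 (funext h)
  obtain ⟨u, c, huc, hu1⟩ := gs_unit hχ hp hpq
  -- the lift
  let w : Fin n → ZMod q := fun i => ((v i).val : ZMod q)
  have hqp : ((q / p : ℕ) : ZMod q) * (p : ZMod q) = 0 := by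
    rw [← Nat.cast_mul, Nat.div_mul_cancel hpq, ZMod.natCast_self]
  have hlift : ∀ x : ZMod q, ZMod.castHom hpq (ZMod p) x = 0 →
      ((q / p : ℕ) : ZMod q) * x = 0 := by
    intro x hx
    have h2 : (ZMod.castHom hpq (ZMod p)) x = ((x.val : ℕ) : ZMod p) := by
      conv_lhs => rw [← ZMod.natCast_zmod_val x]
      rw [map_natCast]
    rw [h2, ZMod.natCast_eq_zero_iff] at hx
    obtain ⟨y, hy⟩ := hx
    have h3 : x = (p : ZMod q) * (y : ZMod q) := by
      rw [← Nat.cast_mul, ← hy, ZMod.natCast_zmod_val]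
    rw [h3, ← mul_assoc, hqp, zero_mul]
  have hcw : ∀ i, ZMod.castHom hpq (ZMod p) (w i) = v i := by
    intro i
    simp only [w]
    rw [map_natCast, ZMod.natCast_zmod_val]
  have hCw : ∀ i, ((q / p : ℕ) : ZMod q) * (C *ᵥ w) i = 0 := by
    intro i
    apply hlift
    have h4 := congrFun hv i
    simp only [Matrix.mulVec, dotProduct, Matrix.map_apply, Pi.zero_apply] at h4 ⊢
    rw [map_sum, ← h4]
    refine Finset.sum_congr rfl fun j _ => ?_
    rw [map_mul, hcw]
  -- the scalar
  let c' : ZMod q := c * (((v k)⁻¹).val : ZMod q)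
  have hc' : ((q / p : ℕ) : ZMod q) * (c' * w k) = ((q / p : ℕ) : ZMod q) * c := by
    rw [← sub_eq_zero, ← mul_sub]
    apply hlift
    simp only [c']
    rw [map_sub, map_mul, map_mul, hcw, map_natCast, ZMod.natCast_zmod_val, mul_assoc,
      inv_mul_cancel₀ hk, mul_one, sub_self]
  let z : Fin n → ZMod q := Pi.single k c'
  let N : Matrix (Fin n) (Fin n) (ZMod q) :=
    Matrix.replicateCol Unit (((q / p : ℕ) : ZMod q) • w) * Matrix.replicateRow Unit z
  have hN : ∀ i j, N i j = ((q / p : ℕ) : ZMod q) * w i * z j := by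
    intro i j
    simp [N, Matrix.mul_apply, mul_assoc]
  have hCN : C * N = 0 := by
    ext i j
    rw [Matrix.mul_apply, Matrix.zero_apply]
    have : ∀ l, C i l * N l j = ((q / p : ℕ) : ZMod q) * (C i l * w l) * z j := by
      intro l
      rw [hN]
      ring
    simp only [this]
    rw [← Finset.sum_mul, ← Finset.mul_sum]
    have h5 := hCw i
    simp only [Matrix.mulVec, dotProduct] at h5
    rw [h5, zero_mul]
  have hdet : (1 + N).det = (u : ZMod q) := by
    simp only [N]
    rw [Matrix.det_one_add_replicateCol_mul_replicateRow, huc, ← hc']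
    congr 1
    simp only [z, dotProduct_smul, smul_eq_mul]
    rw [single_dotProduct]
  have hUnit : IsUnit (1 + N)ᵀ := by
    rw [Matrix.isUnit_iff_isUnit_det, Matrix.det_transpose, hdet]
    exact u.isUnit
  have h6 := gs_sub χ C (1 + N)ᵀ hUnit
  rw [Matrix.det_transpose, hdet, Matrix.transpose_transpose, Matrix.mul_add, Matrix.mul_one,
    hCN, add_zero] at h6
  have h7 : (1 - χ (u : ZMod q)) * gs χ C = 0 := by
    rw [sub_mul, one_mul, ← h6, sub_self]
  rcases mul_eq_zero.1 h7 with h | h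
  · exact absurd (sub_eq_zero.1 h).symm hu1
  · exact h

theorem gs_eq_pr {n q : ℕ} [NeZero q] {χ : DirichletCharacter ℂ q} (hχ : χ.IsPrimitive)
    (C : Matrix (Fin n) (Fin n) (ZMod q)) :
    gs χ C = starRingEnd ℂ (χ C.det) * gs χ (1 : Matrix (Fin n) (Fin n) (ZMod q)) := by
  by_cases hC : IsUnit C.det
  · have hCu : IsUnit (C⁻¹)ᵀ := by
      rw [Matrix.isUnit_iff_isUnit_det, Matrix.det_transpose]
      exact Matrix.isUnit_nonsing_inv_det C hC
    have h1 := gs_sub χ C (C⁻¹)ᵀ hCu
    rw [Matrix.transpose_transpose, Matrix.mul_nonsing_inv C hC, Matrix.det_transpose] at h1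
    rw [h1]
    congr 1
    have h2 : χ C.det * χ (C⁻¹).det = 1 := by
      rw [← map_mul, ← Matrix.det_mul, Matrix.mul_nonsing_inv C hC, Matrix.det_one, map_one]
    have h3 : χ C.det * starRingEnd ℂ (χ C.det) = 1 := by
      rw [Complex.mul_conj, Complex.normSq_eq_norm_sq]
      have := DirichletCharacter.unit_norm_eq_one χ hC.unit
      rw [IsUnit.unit_spec] at this
      rw [this]
      simp
    have h4 : χ C.det ≠ 0 := left_ne_zero_of_mul_eq_one h2
    exact mul_left_cancel₀ h4 (h2.trans h3.symm)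
  · rw [gs_zero hχ C hC, MulChar.map_nonunit χ hC, map_zero, zero_mul]

/-- orthogonality -/
theorem gs_orth {n q : ℕ} [NeZero q] (D : Matrix (Fin n) (Fin n) (ZMod q)) :
    ∑ C : Matrix (Fin n) (Fin n) (ZMod q), ZMod.stdAddChar (∑ i, ∑ j, D i j * C i j) =
      if D = 0 then ((q : ℂ) ^ (n ^ 2)) else 0 := by
  let ψ : AddChar (Matrix (Fin n) (Fin n) (ZMod q)) ℂ :=
    { toFun := fun C => ZMod.stdAddChar (∑ i, ∑ j, D i j * C i j)
      map_zero_eq_one' := by simp
      map_add_eq_mul' := by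
        intro A B
        rw [← AddChar.map_add_eq_mul]
        congr 1
        simp only [Matrix.add_apply, mul_add, Finset.sum_add_distrib] }
  have h1 : ∀ C, ψ C = ZMod.stdAddChar (∑ i, ∑ j, D i j * C i j) := fun C => rfl
  split_ifs with h
  · subst h
    simp only [Matrix.zero_apply, zero_mul, Finset.sum_const_zero, AddChar.map_zero_eq_one,
      Finset.sum_const, nsmul_eq_mul, mul_one]
    have h2 : Fintype.card (Matrix (Fin n) (Fin n) (ZMod q)) = q ^ (n ^ 2) := by
      have : Fintype.card (Matrix (Fin n) (Fin n) (ZMod q)) =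
          Fintype.card (Fin n → Fin n → ZMod q) := rfl
      rw [this]
      simp [ZMod.card]
      rw [← pow_mul, sq]
    rw [Finset.card_univ, h2]
    push_cast
    rfl
  · obtain ⟨i, j, hij⟩ : ∃ i j, D i j ≠ 0 := by
      by_contra hc
      push Not at hc
      exact h (Matrix.ext hc)
    have h3 : ψ ≠ 1 := by
      intro h4
      have h5 := DFunLike.congr_fun h4 (Matrix.single i j 1)
      rw [h1] at h5
      have h6 : ∑ a, ∑ b, D a b * (Matrix.single i j (1 : ZMod q)) a b = D i j := by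
        rw [Finset.sum_eq_single i, Finset.sum_eq_single j]
        · simp
        · intro b _ hb
          have hz : (Matrix.single i j (1 : ZMod q)) i b = 0 := by
            simp [Matrix.single, Ne.symm hb]
          rw [hz, mul_zero]
        · simp
        · intro a _ ha
          apply Finset.sum_eq_zero
          intro b _
          have hz : (Matrix.single i j (1 : ZMod q)) a b = 0 := by
            simp [Matrix.single, Ne.symm ha]
          rw [hz, mul_zero]
        · simp
      rw [h6, AddChar.one_apply] at h5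
      have h7 : ZMod.stdAddChar (D i j) = ZMod.stdAddChar (0 : ZMod q) := by
        rw [h5, AddChar.map_zero_eq_one]
      exact hij (ZMod.injective_stdAddChar h7)
    have h8 := AddChar.sum_eq_zero_of_ne_one h3
    simpa only [h1] using h8

theorem gs_norm_pr {n q : ℕ} [NeZero q] {χ : DirichletCharacter ℂ q} (hχ : χ.IsPrimitive) :
    ‖gs χ (1 : Matrix (Fin n) (Fin n) (ZMod q))‖ ^ 2 = (q : ℝ) ^ (n ^ 2) := by
  classical
  set G := gs χ (1 : Matrix (Fin n) (Fin n) (ZMod q)) with hG
  let S : ℂ := ∑ C : Matrix (Fin n) (Fin n) (ZMod q), χ C.det * starRingEnd ℂ (χ C.det)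
  -- first evaluation
  have h1 : ∑ C : Matrix (Fin n) (Fin n) (ZMod q), gs χ C * starRingEnd ℂ (gs χ C) =
      S * (G * starRingEnd ℂ G) := by
    simp only [S]
    rw [Finset.sum_mul]
    refine Finset.sum_congr rfl fun C _ => ?_
    rw [gs_eq_pr hχ C, map_mul, Complex.conj_conj]
    ring
  -- second evaluation
  have h2 : ∑ C : Matrix (Fin n) (Fin n) (ZMod q), gs χ C * starRingEnd ℂ (gs χ C) =
      (q : ℂ) ^ (n ^ 2) * S := by
    have h3 : ∀ C : Matrix (Fin n) (Fin n) (ZMod q), gs χ C * starRingEnd ℂ (gs χ C) =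
        ∑ B : Matrix (Fin n) (Fin n) (ZMod q), ∑ B' : Matrix (Fin n) (Fin n) (ZMod q),
          χ B.det * starRingEnd ℂ (χ B'.det) *
            ZMod.stdAddChar (∑ i, ∑ j, (B - B') i j * C i j) := by
      intro C
      unfold gs
      rw [map_sum, Finset.sum_mul_sum]
      refine Finset.sum_congr rfl fun B _ => Finset.sum_congr rfl fun B' _ => ?_
      have h4 : ZMod.stdAddChar (∑ i, ∑ j, (B - B') i j * C i j) =
          ZMod.stdAddChar (∑ i, ∑ j, B i j * C i j) *
            starRingEnd ℂ (ZMod.stdAddChar (∑ i, ∑ j, B' i j * C i j)) := by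
        rw [← AddChar.map_neg_eq_conj, ← AddChar.map_add_eq_mul]
        congr 1
        simp only [Matrix.sub_apply, sub_mul, Finset.sum_sub_distrib]
        ring
      rw [h4, map_mul]
      ring
    simp only [h3]
    rw [Finset.sum_comm]
    simp only [S]
    rw [Finset.mul_sum]
    refine Finset.sum_congr rfl fun B _ => ?_
    rw [Finset.sum_comm]
    rw [Finset.sum_eq_single B]
    · rw [← Finset.mul_sum, gs_orth, if_pos (sub_self B)]
      ring
    · intro B' _ hB'
      rw [← Finset.mul_sum, gs_orth, if_neg (sub_ne_zero.2 (Ne.symm hB')), mul_zero]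
    · simp
  have hS : S ≠ 0 := by
    have h5 : S = ((∑ C : Matrix (Fin n) (Fin n) (ZMod q), ‖χ C.det‖ ^ 2 : ℝ) : ℂ) := by
      simp only [S]
      push_cast
      refine Finset.sum_congr rfl fun C _ => ?_
      rw [Complex.mul_conj, Complex.normSq_eq_norm_sq]
      push_cast
      rfl
    rw [h5, Complex.ofReal_ne_zero]
    apply ne_of_gt
    apply Finset.sum_pos' (fun C _ => by positivity)
    refine ⟨1, Finset.mem_univ _, ?_⟩
    rw [Matrix.det_one, map_one]
    simp
  have h6 : G * starRingEnd ℂ G = (q : ℂ) ^ (n ^ 2) := by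
    have := h1.symm.trans h2
    have h7 : S * (G * starRingEnd ℂ G) = S * (q : ℂ) ^ (n ^ 2) := by
      rw [this]; ring
    exact mul_left_cancel₀ hS h7
  rw [Complex.mul_conj, Complex.normSq_eq_norm_sq] at h6
  exact_mod_cast h6

alias gs_eq := gs_eq_pr
alias gs_norm := gs_norm_pr

end Pool.Agent.GJ
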