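import Pool.Agent.Lib_helper19.GJ.Defs

set_option autoImplicit false

namespace Pool.Agent.GJ

open Complex MeasureTheory Filter Topology Matrix
open Pool.Agent.G4 (par RSB)
open Pool.Agent.RS (Mt SLZ toR lm Xs wG cut cube)
open scoped ENNReal

theorem nz_eq_smul {n : ℕ} (Y : Mt n) :
    nz Y = (|(Matrix.of Y).det| ^ ((n : ℝ)⁻¹))⁻¹ • Matrix.of Y := by
  ext i j
  simp only [nz, Matrix.of_apply, Matrix.smul_apply, smul_eq_mul]
  rw [div_eq_inv_mul]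

theorem nz_fro_smul {n : ℕ} (r : ℝ) (X : Matrix (Fin n) (Fin n) ℝ) :
    fro (r • X) = r ^ 2 * fro X := by
  simp only [fro, Matrix.smul_apply, smul_eq_mul, mul_pow, ← Finset.mul_sum]

theorem nz_rpow_pow {n : ℕ} (hn : 0 < n) {d : ℝ} (hd : 0 ≤ d) : (d ^ ((n : ℝ)⁻¹)) ^ n = d := by
  rw [← Real.rpow_natCast, ← Real.rpow_mul hd, inv_mul_cancel₀ (by positivity), Real.rpow_one]

/-- NZ -/
theorem nz_det_pr {n : ℕ} (hn : 0 < n) {Y : Mt n} (hY : (Matrix.of Y).det ≠ 0) :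
    |(nz Y).det| = 1 := by
  have h0 : 0 < |(Matrix.of Y).det| := abs_pos.2 hY
  rw [nz_eq_smul, Matrix.det_smul, Fintype.card_fin, abs_mul, abs_pow, abs_inv,
    abs_of_pos (Real.rpow_pos_of_pos h0 _), inv_pow, nz_rpow_pow hn h0.le]
  exact inv_mul_cancel₀ h0.ne'

/-- NZ -/
theorem nz_mul_pr {n : ℕ} {S : Matrix (Fin n) (Fin n) ℝ} (hS : |S.det| = 1) (Y : Mt n) :
    nz (lm S Y) = S * nz Y := by
  have h1 : |(Matrix.of (lm S Y)).det| = |(Matrix.of Y).det| := by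
    rw [Pool.Agent.RS.lm_eq, Matrix.det_mul, abs_mul, hS, one_mul]
  rw [nz_eq_smul, nz_eq_smul, h1, Pool.Agent.RS.lm_eq, Matrix.mul_smul]

/-- NZ -/
theorem nz_smul_pr {n : ℕ} (hn : 0 < n) {Y : Mt n} (hY : (Matrix.of Y).det ≠ 0) :
    ∃ r : ℝ, 0 < r ∧ nz Y = r • Matrix.of Y ∧ fro (nz Y) * |(Matrix.of Y).det| ^ (2 / (n : ℝ)) =
      fro (Matrix.of Y) := by
  have h0 : 0 < |(Matrix.of Y).det| := abs_pos.2 hY
  have h1 : 0 < |(Matrix.of Y).det| ^ ((n : ℝ)⁻¹) := Real.rpow_pos_of_pos h0 _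
  refine ⟨(|(Matrix.of Y).det| ^ ((n : ℝ)⁻¹))⁻¹, inv_pos.2 h1, nz_eq_smul Y, ?_⟩
  have h2 : |(Matrix.of Y).det| ^ (2 / (n : ℝ)) = (|(Matrix.of Y).det| ^ ((n : ℝ)⁻¹)) ^ 2 := by
    rw [← Real.rpow_natCast, ← Real.rpow_mul h0.le]
    congr 1
    push_cast
    ring
  rw [nz_eq_smul, nz_fro_smul, h2]
  field_simp

theorem nz_abs_le_sqrt {n : ℕ} (X : Matrix (Fin n) (Fin n) ℝ) (i j : Fin n) :
    |X i j| ≤ √(fro X) := by
  apply Real.abs_le_sqrt
  calc X i j ^ 2 ≤ ∑ j, X i j ^ 2 :=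
        Finset.single_le_sum (f := fun j => X i j ^ 2) (fun _ _ => sq_nonneg _) (Finset.mem_univ j)
    _ ≤ fro X := Finset.single_le_sum (f := fun i => ∑ j, X i j ^ 2)
        (fun _ _ => Finset.sum_nonneg fun _ _ => sq_nonneg _) (Finset.mem_univ i)

/-- NZ -/
theorem fro_low_pr {n : ℕ} (hn : 0 < n) : ∃ c : ℝ, 0 < c ∧
    ∀ X : Matrix (Fin n) (Fin n) ℝ, |X.det| = 1 → c ≤ fro X := by
  have hf : (0 : ℝ) < (n.factorial : ℝ) := by exact_mod_cast n.factorial_pos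
  refine ⟨(1 / ((n.factorial : ℝ) + 1)) ^ 2, by positivity, fun X hX => ?_⟩
  by_contra hcon
  push Not at hcon
  set s := √(fro X) with hs
  have hs0 : 0 ≤ s := Real.sqrt_nonneg _
  have hs1 : s < 1 / ((n.factorial : ℝ) + 1) := by
    rw [hs, Real.sqrt_lt' (by positivity)]
    exact hcon
  have hs2 : s ≤ 1 := by
    refine hs1.le.trans ?_
    rw [div_le_one (by positivity)]
    linarith
  have h1 : |X.det| ≤ (n.factorial : ℝ) * s ^ n := by
    have := Matrix.det_le (A := X) (abv := AbsoluteValue.abs) (x := s)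
      (fun i j => nz_abs_le_sqrt X i j)
    simpa [Fintype.card_fin, nsmul_eq_mul] using this
  have h2 : s ^ n ≤ s := by
    calc s ^ n ≤ s ^ 1 := pow_le_pow_of_le_one hs0 hs2 hn
      _ = s := pow_one s
  have h3 : (n.factorial : ℝ) * s ^ n < 1 := by
    calc (n.factorial : ℝ) * s ^ n ≤ (n.factorial : ℝ) * s :=
          mul_le_mul_of_nonneg_left h2 hf.le
      _ < (n.factorial : ℝ) * (1 / ((n.factorial : ℝ) + 1)) :=
          mul_lt_mul_of_pos_left hs1 hf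
      _ < 1 := by
          rw [mul_one_div, div_lt_one (by positivity)]
          linarith
  rw [hX] at h1
  linarith

theorem nz_fro_nonneg {n : ℕ} (X : Matrix (Fin n) (Fin n) ℝ) : 0 ≤ fro X :=
  Finset.sum_nonneg fun _ _ => Finset.sum_nonneg fun _ _ => sq_nonneg _

/-- NZ -/
theorem fro_nz_pr {n : ℕ} (hn : 0 < n) {Y : Mt n} (hY : Y ∈ Xs n) :
    fro (Matrix.of Y) ≤ 4 * fro (nz Y) := by
  obtain ⟨h1, h2⟩ := hY
  have h0 : (Matrix.of Y).det ≠ 0 := by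
    intro h
    rw [h, abs_zero] at h1
    linarith
  obtain ⟨r, _, _, h3⟩ := nz_smul_pr hn h0
  rw [← h3]
  have hn1 : (1 : ℝ) ≤ n := by exact_mod_cast hn
  have h4 : |(Matrix.of Y).det| ^ (2 / (n : ℝ)) ≤ 4 := by
    calc |(Matrix.of Y).det| ^ (2 / (n : ℝ)) ≤ (2 : ℝ) ^ (2 / (n : ℝ)) :=
          Real.rpow_le_rpow (abs_nonneg _) h2 (by positivity)
      _ ≤ (2 : ℝ) ^ (2 : ℝ) := by
          apply Real.rpow_le_rpow_of_exponent_le (by norm_num)
          rw [div_le_iff₀ (by linarith)]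
          linarith
      _ = 4 := by norm_num
  nlinarith [nz_fro_nonneg (nz Y)]

alias nz_det := nz_det_pr
alias nz_mul := nz_mul_pr
alias nz_smul := nz_smul_pr
alias fro_low := fro_low_pr
alias fro_nz := fro_nz_pr

end Pool.Agent.GJ
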