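import Pool.Agent.Lib_helper19.GJ.Defs
import Pool.Agent.Lib_helper19.GJ.NZ

set_option autoImplicit false

namespace Pool.Agent.GJ

open Complex MeasureTheory Filter Topology Matrix
open Pool.Agent.G4 (par RSB)
open Pool.Agent.RS (Mt SLZ toR lm Xs wG cut cube)
open scoped ENNReal

theorem gb_prod (n : ℕ) (b : ℝ) (Z : Mt n) :
    Real.exp (-b * fro (Matrix.of Z)) = ∏ i, ∏ j, Real.exp (-b * Z i j ^ 2) := by
  simp only [← Real.exp_sum, fro, Finset.mul_sum, Matrix.of_apply]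

theorem gb_gauss_int (n : ℕ) {b : ℝ} (hb : 0 < b) :
    Integrable (fun Z : Mt n => Real.exp (-b * fro (Matrix.of Z))) := by
  simp only [gb_prod]
  have h1 : Integrable (fun z : Fin n → ℝ => ∏ j, Real.exp (-b * z j ^ 2)) :=
    Integrable.fintype_prod (f := fun (_ : Fin n) (x : ℝ) => Real.exp (-b * x ^ 2))
      fun _ => integrable_exp_neg_mul_sq hb
  exact Integrable.fintype_prod
    (f := fun (_ : Fin n) (z : Fin n → ℝ) => ∏ j, Real.exp (-b * z j ^ 2)) fun _ => h1

theorem gb_gauss_eq (n : ℕ) (b : ℝ) :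
    ∫ Z : Mt n, Real.exp (-b * fro (Matrix.of Z)) = (√(Real.pi / b)) ^ (n * n) := by
  simp only [gb_prod]
  rw [integral_fintype_prod_volume_eq_prod
    (f := fun (_ : Fin n) (z : Fin n → ℝ) => ∏ j, Real.exp (-b * z j ^ 2))]
  have h1 : ∫ z : Fin n → ℝ, ∏ j, Real.exp (-b * z j ^ 2) = (√(Real.pi / b)) ^ n := by
    rw [integral_fintype_prod_volume_eq_prod
      (f := fun (_ : Fin n) (x : ℝ) => Real.exp (-b * x ^ 2))]
    simp only [integral_gaussian, Finset.prod_const, Finset.card_univ, Fintype.card_fin]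
  simp only [h1, Finset.prod_const, Finset.card_univ, Fintype.card_fin, pow_mul]

theorem gb_meas_nz (n : ℕ) : Measurable fun Z : Mt n => fro (nz Z) := by
  have hd : Measurable fun Z : Mt n => |(Matrix.of Z).det| ^ ((n : ℝ)⁻¹) := by
    have h1 : Measurable fun Z : Mt n => |(Matrix.of Z).det| :=
      continuous_abs.measurable.comp (Pool.Agent.RS.measurable_det n)
    exact h1.pow_const _
  have he : ∀ i j, Measurable fun Z : Mt n => Z i j := fun i j =>
    (measurable_pi_apply j).comp (measurable_pi_apply i)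
  simp only [fro, nz, Matrix.of_apply]
  exact Finset.measurable_sum _ fun i _ => Finset.measurable_sum _ fun j _ =>
    ((he i j).div hd).pow_const 2

theorem gb_meas_prod (n a : ℕ) : Measurable fun p : ℝ × Mt n =>
    p.1 ^ (n * a) * Real.exp (-Real.pi * (p.1 ^ 2 * fro (nz p.2))) := by
  refine (measurable_fst.pow_const _).mul (Real.measurable_exp.comp ?_)
  exact ((measurable_fst.pow_const 2).mul ((gb_meas_nz n).comp measurable_snd)).const_mul _

theorem gb_point {n : ℕ} (hn : 0 < n) {c : ℝ}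
    (hc : ∀ X : Matrix (Fin n) (Fin n) ℝ, |X.det| = 1 → c ≤ fro X) (τ : ℝ) {Z : Mt n}
    (hZ : Z ∈ Xs n) : Real.exp (-Real.pi * (τ ^ 2 * fro (nz Z))) ≤
      Real.exp (-(Real.pi * c / 2) * τ ^ 2) * Real.exp (-(Real.pi * τ ^ 2 / 8) *
        fro (Matrix.of Z)) := by
  have hZ0 : (Matrix.of Z).det ≠ 0 := by
    intro h
    obtain ⟨h1, _⟩ := hZ
    rw [h, abs_zero] at h1
    linarith
  have h1 := hc (nz Z) (nz_det hn hZ0)
  have h2 := fro_nz hn hZ
  rw [← Real.exp_add]
  apply Real.exp_le_exp.2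
  have h3 : c / 2 + fro (Matrix.of Z) / 8 ≤ fro (nz Z) := by linarith
  have h4 : 0 ≤ Real.pi * τ ^ 2 := by positivity
  nlinarith

theorem gb_pow_exp (s : ℝ) (hs : 0 ≤ s) {b : ℝ} (hb : 0 < b) : ∃ C : ℝ, 0 ≤ C ∧
    ∀ τ : ℝ, 0 < τ → τ ^ s * Real.exp (-b * τ ^ 2) ≤ C := by
  obtain ⟨m, hm⟩ := exists_nat_ge s
  have hf : (0 : ℝ) < (m.factorial : ℝ) := by exact_mod_cast m.factorial_pos
  refine ⟨1 + m.factorial / b ^ m, by positivity, fun τ hτ => ?_⟩
  rcases le_or_gt τ 1 with h1 | h1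
  · have h2 : τ ^ s ≤ 1 := Real.rpow_le_one hτ.le h1 hs
    have h3 : Real.exp (-b * τ ^ 2) ≤ 1 := by
      rw [Real.exp_le_one_iff]
      nlinarith [sq_nonneg τ]
    have h4 : τ ^ s * Real.exp (-b * τ ^ 2) ≤ 1 * 1 :=
      mul_le_mul h2 h3 (Real.exp_pos _).le zero_le_one
    have h5 : 0 ≤ (m.factorial : ℝ) / b ^ m := by positivity
    linarith
  · have h2 : τ ^ s ≤ (τ ^ 2) ^ m := by
      rw [← pow_mul, ← Real.rpow_natCast]
      apply Real.rpow_le_rpow_of_exponent_le h1.le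
      push_cast
      linarith [Nat.cast_nonneg (α := ℝ) m]
    have h3 := Real.pow_div_factorial_le_exp (b * τ ^ 2) (by positivity) m
    have h4 : (τ ^ 2) ^ m ≤ m.factorial / b ^ m * Real.exp (b * τ ^ 2) := by
      rw [div_le_iff₀ hf, mul_pow] at h3
      rw [div_mul_eq_mul_div, le_div_iff₀ (by positivity)]
      linarith
    have h5 : Real.exp (b * τ ^ 2) * Real.exp (-b * τ ^ 2) = 1 := by
      rw [← Real.exp_add]
      simp
    calc τ ^ s * Real.exp (-b * τ ^ 2)
        ≤ (m.factorial / b ^ m * Real.exp (b * τ ^ 2)) * Real.exp (-b * τ ^ 2) :=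
          mul_le_mul_of_nonneg_right (h2.trans h4) (Real.exp_pos _).le
      _ = m.factorial / b ^ m := by rw [mul_assoc, h5, mul_one]
      _ ≤ 1 + m.factorial / b ^ m := by linarith

/-- GB -/
theorem gb_bound_pr (n a : ℕ) (hn : 0 < n) :
    (∀ τ : ℝ, 0 < τ → IntegrableOn
      (fun Z : Mt n => τ ^ (n * a) * Real.exp (-Real.pi * (τ ^ 2 * fro (nz Z)))) (Xs n)) ∧
    Measurable (Gb n a) ∧
    ∀ K : ℝ, (n : ℝ) ^ 2 ≤ K → ∃ C : ℝ, 0 ≤ C ∧ ∀ τ : ℝ, 0 < τ → Gb n a τ ≤ C * τ ^ (-K) := by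
  obtain ⟨c, hc0, hc⟩ := fro_low hn
  have hXs : MeasurableSet (Xs n) := Pool.Agent.RS.measurableSet_Xs n
  have hint : ∀ τ : ℝ, 0 < τ → IntegrableOn
      (fun Z : Mt n => τ ^ (n * a) * Real.exp (-Real.pi * (τ ^ 2 * fro (nz Z)))) (Xs n) := by
    intro τ hτ
    refine Integrable.const_mul ?_ _
    have h1 : Integrable (fun Z : Mt n => Real.exp (-(Real.pi * c / 2) * τ ^ 2) *
        Real.exp (-(Real.pi * τ ^ 2 / 8) * fro (Matrix.of Z))) :=
      (gb_gauss_int n (by positivity)).const_mul _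
    refine Integrable.mono' (h1.integrableOn (s := Xs n)) ?_ ?_
    · exact (Real.measurable_exp.comp
        (((gb_meas_nz n).const_mul (τ ^ 2)).const_mul _)).aestronglyMeasurable
    · refine (ae_restrict_iff' hXs).2 (ae_of_all _ fun Z hZ => ?_)
      rw [Real.norm_eq_abs, Real.abs_exp]
      exact gb_point hn hc τ hZ
  refine ⟨hint, ?_, ?_⟩
  · have h1 := (gb_meas_prod n a).stronglyMeasurable
    have h2 := h1.integral_prod_right' (ν := volume.restrict (Xs n))
    exact h2.measurable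
  · intro K hK
    obtain ⟨C, hC0, hC⟩ := gb_pow_exp ((n * a : ℕ) + (K - (n : ℝ) ^ 2))
      (by have : (0 : ℝ) ≤ ((n * a : ℕ) : ℝ) := Nat.cast_nonneg _; linarith)
      (b := Real.pi * c / 2) (by positivity)
    refine ⟨C * (√8) ^ (n * n), by positivity, fun τ hτ => ?_⟩
    have h1 : Gb n a τ ≤ τ ^ (n * a) * (Real.exp (-(Real.pi * c / 2) * τ ^ 2) *
        (√(Real.pi / (Real.pi * τ ^ 2 / 8))) ^ (n * n)) := by
      rw [Gb, integral_const_mul]
      refine mul_le_mul_of_nonneg_left ?_ (by positivity)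
      have h2 : ∫ Z in Xs n, Real.exp (-Real.pi * (τ ^ 2 * fro (nz Z))) ≤
          ∫ Z in Xs n, Real.exp (-(Real.pi * c / 2) * τ ^ 2) *
            Real.exp (-(Real.pi * τ ^ 2 / 8) * fro (Matrix.of Z)) := by
        have h3 : IntegrableOn (fun Z : Mt n => Real.exp (-Real.pi * (τ ^ 2 * fro (nz Z))))
            (Xs n) := by
          have := (hint τ hτ).const_mul ((τ ^ (n * a))⁻¹)
          refine this.congr (ae_of_all _ fun Z => ?_)
          simp only
          rw [← mul_assoc, inv_mul_cancel₀ (by positivity), one_mul]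
        refine setIntegral_mono_on h3 ?_ hXs fun Z hZ => gb_point hn hc τ hZ
        exact ((gb_gauss_int n (by positivity)).const_mul _).integrableOn
      refine h2.trans ?_
      rw [integral_const_mul]
      refine mul_le_mul_of_nonneg_left ?_ (Real.exp_pos _).le
      rw [← gb_gauss_eq]
      exact setIntegral_le_integral (gb_gauss_int n (by positivity))
        (ae_of_all _ fun Z => (Real.exp_pos _).le)
    have h2 : √(Real.pi / (Real.pi * τ ^ 2 / 8)) = √8 * τ⁻¹ := by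
      rw [show Real.pi / (Real.pi * τ ^ 2 / 8) = 8 * (τ⁻¹) ^ 2 by
        have := Real.pi_pos.ne'
        field_simp]
      rw [Real.sqrt_mul (by norm_num), Real.sqrt_sq (by positivity)]
    rw [h2, mul_pow] at h1
    have h3 : τ ^ (n * a) * (τ⁻¹) ^ (n * n) =
        τ ^ (((n * a : ℕ) : ℝ) + (K - (n : ℝ) ^ 2)) * τ ^ (-K) := by
      rw [← Real.rpow_add hτ, inv_pow, ← Real.rpow_natCast, ← Real.rpow_natCast,
        ← Real.rpow_neg hτ.le, ← Real.rpow_add hτ]
      congr 1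
      push_cast
      ring
    calc Gb n a τ ≤ _ := h1
      _ = (√8) ^ (n * n) * (τ ^ (n * a) * (τ⁻¹) ^ (n * n)) *
          Real.exp (-(Real.pi * c / 2) * τ ^ 2) := by ring
      _ = (√8) ^ (n * n) * (τ ^ (((n * a : ℕ) : ℝ) + (K - (n : ℝ) ^ 2)) *
          Real.exp (-(Real.pi * c / 2) * τ ^ 2)) * τ ^ (-K) := by rw [h3]; ring
      _ ≤ (√8) ^ (n * n) * C * τ ^ (-K) := by
          refine mul_le_mul_of_nonneg_right ?_ (Real.rpow_nonneg hτ.le _)
          exact mul_le_mul_of_nonneg_left (hC τ hτ) (by positivity)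
      _ = C * (√8) ^ (n * n) * τ ^ (-K) := by ring

alias gb_bound := gb_bound_pr

end Pool.Agent.GJ
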