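import Pool.Agent.Lib_helper19.GJ.Defs

/-! GJ, block HC -/

namespace Pool.Agent.GJ

open Complex MeasureTheory Filter Topology Matrix
open Pool.Agent.G4 (par RSB)
open Pool.Agent.RS (Mt SLZ toR lm Xs wG cut cube)
open scoped ENNReal

theorem hnf_card_pr (n m : ℕ) : (hnf n m).card ≤ (m + 1) ^ (n ^ 2) := by
  unfold hnf
  refine (Finset.card_filter_le _ _).trans ?_
  rw [Fintype.card_piFinset]
  simp only [Fintype.card_piFinset, Finset.card_range, Finset.prod_const, Finset.card_univ,
    Fintype.card_fin]
  rw [← pow_mul, sq]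

theorem hnf_det_pr {n m : ℕ} {A : Fin n → Fin n → ℕ} (hA : A ∈ hnf n m) :
    (natZ A).det = m ∧ (natM A).det = m := by
  unfold hnf at hA
  rw [Finset.mem_filter] at hA
  obtain ⟨-, h1, -, h3⟩ := hA
  constructor
  · have hT : (natZ A).BlockTriangular id := by
      intro i j hij
      simp [natZ, h1 i j hij]
    rw [Matrix.det_of_isUpperTriangular hT, ← h3]
    simp [natZ]
  · have hT : (natM A).BlockTriangular id := by
      intro i j hij
      simp [natM, h1 i j hij]
    rw [Matrix.det_of_isUpperTriangular hT, ← h3]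
    simp [natM]

alias hnf_card := hnf_card_pr
alias hnf_det := hnf_det_pr

end Pool.Agent.GJ
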