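import Pool.Agent.Lib_helper19.GJ.Defs
import Pool.Agent.Lib_helper41.HZF.POI

/-! # Absolute convergence and measurability of the theta kernel (block TM) -/

namespace Pool.Agent.GJ

open Complex MeasureTheory Filter Topology Matrix
open Pool.Agent.G4 (par RSB)
open Pool.Agent.RS (Mt SLZ toR lm Xs wG cut cube)
open scoped ENNReal

theorem tm_sum {n : ℕ} : Summable fun A : Matrix (Fin n) (Fin n) ℤ =>
    Real.exp (-(∑ i, ∑ j, |(A i j : ℝ)|)) := by
  have h1 := HZ.poi_summable_prod (ι := Fin n × Fin n) (HZ.poi_summable_exp_int one_pos)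
    (fun n => Real.exp_nonneg _)
  have h2 := (Equiv.summable_iff (Equiv.curry (Fin n) (Fin n) ℤ).symm).2 h1
  refine h2.congr fun A => ?_
  simp only [Function.comp_apply, one_mul]
  rw [← Real.exp_sum, Finset.sum_neg_distrib, Fintype.sum_prod_type]
  rfl

theorem tm_rearr {n : ℕ} (u v : Fin n → Fin n → ℝ) (S : ℝ) :
    ∑ i, ∑ j, ∑ k, ∑ l, (u i k * v l j) * S = ((∑ i, ∑ k, u i k) * ∑ l, ∑ j, v l j) * S := by
  have e : ∀ i, ∑ j, ∑ k, ∑ l, (u i k * v l j) * S =
      (∑ k, u i k) * (∑ l, ∑ j, v l j) * S := by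
    intro i
    rw [Finset.sum_comm, Finset.sum_mul, Finset.sum_mul]
    refine Finset.sum_congr rfl fun k _ => ?_
    rw [Finset.sum_comm, Finset.mul_sum, Finset.sum_mul]
    refine Finset.sum_congr rfl fun l _ => ?_
    rw [Finset.mul_sum, Finset.sum_mul]
  rw [Finset.sum_congr rfl fun i _ => e i, ← Finset.sum_mul, ← Finset.sum_mul]

theorem tm_low {n : ℕ} {x y : Matrix (Fin n) (Fin n) ℝ} (hx : x.det ≠ 0) (hy : y.det ≠ 0) :
    ∃ c : ℝ, 0 < c ∧ ∀ A : Matrix (Fin n) (Fin n) ℤ,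
      c * (∑ i, ∑ j, |(A i j : ℝ)|) ^ 2 ≤ fro (x⁻¹ * intM A * y) := by
  set K : ℝ := 1 + ((∑ i, ∑ k, |x i k|) * ∑ l, ∑ j, |y⁻¹ l j|) with hK
  have hK0 : 0 < K := by positivity
  refine ⟨(K ^ 2 * (n + 1) ^ 2)⁻¹, by positivity, fun A => ?_⟩
  set X := x⁻¹ * intM A * y with hX
  have hA : intM A = x * X * y⁻¹ := by
    rw [hX]
    have e1 : x * (x⁻¹ * intM A * y) * y⁻¹ = (x * x⁻¹) * intM A * (y * y⁻¹) := by
      simp only [Matrix.mul_assoc]
    rw [e1, Matrix.mul_nonsing_inv x (isUnit_iff_ne_zero.2 hx),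
      Matrix.mul_nonsing_inv y (isUnit_iff_ne_zero.2 hy), Matrix.one_mul, Matrix.mul_one]
  have h1 : ∑ i, ∑ j, |(A i j : ℝ)| ≤ K * ∑ k, ∑ l, |X k l| := by
    have h2 : ∀ i j, |(A i j : ℝ)| ≤ ∑ k, ∑ l, |x i k| * |X k l| * |y⁻¹ l j| := by
      intro i j
      have h3 : (A i j : ℝ) = ∑ l, (∑ k, x i k * X k l) * y⁻¹ l j := by
        have : (A i j : ℝ) = (intM A) i j := rfl
        rw [this, hA, Matrix.mul_apply]
        simp only [Matrix.mul_apply]
      rw [h3, Finset.sum_comm]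
      refine (Finset.abs_sum_le_sum_abs _ _).trans (Finset.sum_le_sum fun l _ => ?_)
      rw [abs_mul, ← Finset.sum_mul]
      refine mul_le_mul_of_nonneg_right ?_ (abs_nonneg _)
      refine (Finset.abs_sum_le_sum_abs _ _).trans (Finset.sum_le_sum fun k _ => ?_)
      rw [abs_mul]
    have h4 : ∀ i j, |(A i j : ℝ)| ≤ ∑ k, ∑ l, (|x i k| * |y⁻¹ l j|) * ∑ k, ∑ l, |X k l| := by
      intro i j
      refine (h2 i j).trans (Finset.sum_le_sum fun k _ => Finset.sum_le_sum fun l _ => ?_)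
      have h5 : |X k l| ≤ ∑ k, ∑ l, |X k l| := by
        have h6 : |X k l| ≤ ∑ l, |X k l| :=
          Finset.single_le_sum (f := fun l => |X k l|) (fun l _ => abs_nonneg _) (Finset.mem_univ l)
        have h7 : ∑ l, |X k l| ≤ ∑ k, ∑ l, |X k l| :=
          Finset.single_le_sum (f := fun k => ∑ l, |X k l|)
            (fun i _ => Finset.sum_nonneg fun j _ => abs_nonneg _) (Finset.mem_univ k)
        exact h6.trans h7
      have h8 : 0 ≤ |x i k| * |y⁻¹ l j| := by positivity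
      calc |x i k| * |X k l| * |y⁻¹ l j| = (|x i k| * |y⁻¹ l j|) * |X k l| := by ring
        _ ≤ _ := mul_le_mul_of_nonneg_left h5 h8
    set S := ∑ k, ∑ l, |X k l| with hS
    have hS0 : 0 ≤ S := Finset.sum_nonneg fun i _ => Finset.sum_nonneg fun j _ => abs_nonneg _
    calc ∑ i, ∑ j, |(A i j : ℝ)| ≤ ∑ i, ∑ j, ∑ k, ∑ l, (|x i k| * |y⁻¹ l j|) * S :=
          Finset.sum_le_sum fun i _ => Finset.sum_le_sum fun j _ => h4 i j
      _ = ((∑ i, ∑ k, |x i k|) * ∑ l, ∑ j, |y⁻¹ l j|) * S := by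
          exact tm_rearr (fun i k => |x i k|) (fun l j => |y⁻¹ l j|) S
      _ ≤ K * S := by
          refine mul_le_mul_of_nonneg_right ?_ hS0
          rw [hK]; linarith
  have h5 : (∑ k, ∑ l, |X k l|) ^ 2 ≤ (n + 1) ^ 2 * fro X := by
    have h6 : ∑ k, ∑ l, |X k l| = ∑ p : Fin n × Fin n, |X p.1 p.2| := by
      rw [Fintype.sum_prod_type]
    have h7 : fro X = ∑ p : Fin n × Fin n, |X p.1 p.2| ^ 2 := by
      unfold fro
      rw [Fintype.sum_prod_type]
      simp only [sq_abs]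
    rw [h6, h7]
    have h8 := sq_sum_le_card_mul_sum_sq (s := (Finset.univ : Finset (Fin n × Fin n)))
      (f := fun p => |X p.1 p.2|)
    refine h8.trans (mul_le_mul_of_nonneg_right ?_ (Finset.sum_nonneg fun _ _ => by positivity))
    rw [Finset.card_univ, Fintype.card_prod, Fintype.card_fin]
    push_cast
    nlinarith
  have hA0 : 0 ≤ ∑ i, ∑ j, |(A i j : ℝ)| :=
    Finset.sum_nonneg fun i _ => Finset.sum_nonneg fun j _ => abs_nonneg _
  rw [inv_mul_le_iff₀ (by positivity)]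
  calc (∑ i, ∑ j, |(A i j : ℝ)|) ^ 2 ≤ (K * ∑ k, ∑ l, |X k l|) ^ 2 :=
        pow_le_pow_left₀ hA0 h1 2
    _ = K ^ 2 * (∑ k, ∑ l, |X k l|) ^ 2 := by ring
    _ ≤ K ^ 2 * ((n + 1) ^ 2 * fro X) := by gcongr
    _ = _ := by ring

theorem tm_det {n : ℕ} (A : Matrix (Fin n) (Fin n) ℤ) :
    |((A.det : ℤ) : ℝ)| ≤ (n.factorial : ℝ) * (∑ i, ∑ j, |(A i j : ℝ)|) ^ n := by
  have h1 : ((A.det : ℤ) : ℝ) = (intM A).det := by
    unfold intM
    rw [show (A.map fun z : ℤ => (z : ℝ)) = (Int.castRingHom ℝ).mapMatrix A from rfl,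
      ← RingHom.map_det]
    rfl
  rw [h1]
  have h2 := Matrix.det_le (A := intM A) (abv := AbsoluteValue.abs)
    (x := ∑ i, ∑ j, |(A i j : ℝ)|) (fun i j => by
      have h6 : |(A i j : ℝ)| ≤ ∑ l, |(A i l : ℝ)| :=
        Finset.single_le_sum (f := fun l => |(A i l : ℝ)|) (fun l _ => abs_nonneg _)
          (Finset.mem_univ j)
      have h7 : ∑ l, |(A i l : ℝ)| ≤ ∑ k, ∑ l, |(A k l : ℝ)| :=
        Finset.single_le_sum (f := fun k => ∑ l, |(A k l : ℝ)|)
          (fun i _ => Finset.sum_nonneg fun j _ => abs_nonneg _) (Finset.mem_univ i)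
      exact h6.trans h7)
  rw [Fintype.card_fin, nsmul_eq_mul] at h2
  exact h2

/-- the elementary bound -/
theorem tm_poly (N : ℕ) {b : ℝ} (hb : 0 < b) (S : ℝ) (hS : 0 ≤ S) :
    S ^ N * Real.exp (-(b * S ^ 2)) ≤ (N.factorial : ℝ) * Real.exp (1 / b) * Real.exp (-S) := by
  have h1 : S ^ N ≤ N.factorial * Real.exp S := by
    have := Real.pow_div_factorial_le_exp S hS N
    rwa [div_le_iff₀ (by positivity), mul_comm] at this
  calc S ^ N * Real.exp (-(b * S ^ 2)) ≤ (N.factorial * Real.exp S) * Real.exp (-(b * S ^ 2)) := by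
        gcongr
    _ = N.factorial * Real.exp (2 * S - b * S ^ 2) * Real.exp (-S) := by
        rw [mul_assoc, mul_assoc, ← Real.exp_add, ← Real.exp_add]
        congr 2
        ring
    _ ≤ (N.factorial : ℝ) * Real.exp (1 / b) * Real.exp (-S) := by
        gcongr
        rw [le_div_iff₀ hb]
        nlinarith [sq_nonneg (b * S - 1)]

theorem thT_summable_pr {n q : ℕ} (χ : DirichletCharacter ℂ q) (a : ℕ) {t : ℝ} (ht : 0 < t)
    {x y : Matrix (Fin n) (Fin n) ℝ} (hx : x.det ≠ 0) (hy : y.det ≠ 0) :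
    Summable fun A : Matrix (Fin n) (Fin n) ℤ => ‖thT χ a t x y A‖ := by
  obtain ⟨c, hc, hlow⟩ := tm_low hx hy
  have hb : 0 < Real.pi * t ^ 2 * c := by positivity
  set C : ℝ := (t ^ n * (n.factorial : ℝ)) ^ a * (((n * a).factorial : ℝ) *
    Real.exp (1 / (Real.pi * t ^ 2 * c))) with hC
  refine Summable.of_nonneg_of_le (fun A => norm_nonneg _) (fun A => ?_) (tm_sum.mul_left C)
  unfold thT
  set S := ∑ i, ∑ j, |(A i j : ℝ)| with hS
  have hS0 : 0 ≤ S := Finset.sum_nonneg fun i _ => Finset.sum_nonneg fun j _ => abs_nonneg _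
  rw [norm_mul, Complex.norm_real, norm_mul, norm_pow, Real.norm_eq_abs, Real.norm_eq_abs,
    abs_mul, abs_of_pos (Real.exp_pos _), abs_of_pos (pow_pos ht n)]
  have h1 : ‖χ ((A.det : ℤ) : ZMod q)‖ ≤ 1 := DirichletCharacter.norm_le_one χ _
  have h2 : (t ^ n * |((A.det : ℤ) : ℝ)|) ^ a ≤ (t ^ n * (n.factorial : ℝ)) ^ a * S ^ (n * a) := by
    rw [pow_mul, ← mul_pow]
    refine pow_le_pow_left₀ (by positivity) ?_ a
    calc t ^ n * |((A.det : ℤ) : ℝ)| ≤ t ^ n * ((n.factorial : ℝ) * S ^ n) := by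
          gcongr
          exact tm_det A
      _ = _ := by ring
  have h3 : Real.exp (-Real.pi * (t ^ 2 * fro (x⁻¹ * intM A * y))) ≤
      Real.exp (-(Real.pi * t ^ 2 * c * S ^ 2)) := by
    apply Real.exp_le_exp.2
    have h4 : Real.pi * t ^ 2 * (c * S ^ 2) ≤ Real.pi * t ^ 2 * fro (x⁻¹ * intM A * y) := by
      gcongr
      exact hlow A
    nlinarith
  have hpi : 0 ≤ Real.exp (-Real.pi * (t ^ 2 * fro (x⁻¹ * intM A * y))) := (Real.exp_pos _).le
  calc ‖χ ((A.det : ℤ) : ZMod q)‖ * ((t ^ n * |((A.det : ℤ) : ℝ)|) ^ a *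
        Real.exp (-Real.pi * (t ^ 2 * fro (x⁻¹ * intM A * y))))
      ≤ 1 * (((t ^ n * (n.factorial : ℝ)) ^ a * S ^ (n * a)) *
        Real.exp (-(Real.pi * t ^ 2 * c * S ^ 2))) := by gcongr
    _ = (t ^ n * (n.factorial : ℝ)) ^ a * (S ^ (n * a) *
        Real.exp (-(Real.pi * t ^ 2 * c * S ^ 2))) := by ring
    _ ≤ (t ^ n * (n.factorial : ℝ)) ^ a * (((n * a).factorial : ℝ) *
        Real.exp (1 / (Real.pi * t ^ 2 * c)) * Real.exp (-S)) :=
        mul_le_mul_of_nonneg_left (tm_poly (n * a) hb S hS0) (by positivity)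
    _ = _ := by rw [hC]; ring

theorem tm_nz {n : ℕ} (i j : Fin n) : Measurable fun Y : Mt n => nz Y i j := by
  unfold nz
  simp only [Matrix.of_apply]
  have h1 : Measurable fun Y : Mt n => (Matrix.of Y).det := RS.measurable_det n
  have h2 : Measurable fun Y : Mt n => Y i j := by fun_prop
  exact h2.div (h1.norm.pow_const _)

theorem tm_nz' {n : ℕ} : Measurable fun Y : Mt n => (fun i j => nz Y i j : Mt n) :=
  measurable_pi_lambda _ fun i => measurable_pi_lambda _ fun j => tm_nz i j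

theorem tm_inv {n : ℕ} (i j : Fin n) : Measurable fun Y : Mt n => ((Matrix.of Y)⁻¹) i j := by
  have h1 : Measurable fun Y : Mt n => (Matrix.of Y).det := RS.measurable_det n
  have h2 : Measurable fun Y : Mt n => (Matrix.of Y).adjugate i j :=
    (Continuous.matrix_elem (Continuous.matrix_adjugate (by exact continuous_id)) i j).measurable
  have h3 : (fun Y : Mt n => ((Matrix.of Y)⁻¹) i j) =
      fun Y : Mt n => ((Matrix.of Y).det)⁻¹ * (Matrix.of Y).adjugate i j := by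
    funext Y
    rw [Matrix.inv_def, Ring.inverse_eq_inv', Matrix.smul_apply, smul_eq_mul]
  rw [h3]
  exact h1.inv.mul h2

theorem th_meas_pr {n q : ℕ} (χ : DirichletCharacter ℂ q) (a : ℕ) :
    (∀ A, Measurable fun p : ℝ × Mt n × Mt n => thT χ a p.1 (nz p.2.1) (nz p.2.2) A) ∧
    Measurable fun p : ℝ × Mt n × Mt n => th χ a p.1 (nz p.2.1) (nz p.2.2) := by
  have h1 : ∀ A, Measurable fun p : ℝ × Mt n × Mt n => thT χ a p.1 (nz p.2.1) (nz p.2.2) A := by
    intro A
    have h2 : Measurable fun p : ℝ × Mt n × Mt n =>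
        fro ((nz p.2.1)⁻¹ * intM A * nz p.2.2) := by
      unfold fro
      refine Finset.measurable_sum _ fun i _ => Finset.measurable_sum _ fun j _ => ?_
      refine Measurable.pow_const ?_ 2
      have h3 : (fun p : ℝ × Mt n × Mt n => ((nz p.2.1)⁻¹ * intM A * nz p.2.2) i j) =
          fun p : ℝ × Mt n × Mt n => ∑ k, (∑ l, (nz p.2.1)⁻¹ i l * intM A l k) *
            nz p.2.2 k j := by
        funext p
        rw [Matrix.mul_apply]
        simp only [Matrix.mul_apply]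
      rw [h3]
      refine Finset.measurable_sum _ fun k _ => ?_
      refine Measurable.mul ?_ ((tm_nz k j).comp (measurable_snd.comp measurable_snd))
      refine Finset.measurable_sum _ fun l _ => ?_
      refine Measurable.mul_const ?_ _
      exact (tm_inv i l).comp (tm_nz'.comp (measurable_fst.comp measurable_snd))
    unfold thT
    refine Measurable.const_mul ?_ _
    refine Complex.measurable_ofReal.comp ?_
    refine Measurable.mul ?_ ?_
    · exact ((measurable_fst.pow_const n).mul_const _).pow_const a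
    · refine Real.measurable_exp.comp (Measurable.const_mul ?_ _)
      exact (measurable_fst.pow_const 2).mul h2
  refine ⟨h1, ?_⟩
  unfold th
  have : Countable (Matrix (Fin n) (Fin n) ℤ) := inferInstanceAs (Countable (Fin n → Fin n → ℤ))
  exact Measurable.tsum h1

alias thT_summable := thT_summable_pr
alias th_meas := th_meas_pr

end Pool.Agent.GJ
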