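import Pool.Agent.Lib_helper19.GJ.Defs
import Pool.Agent.Lib_helper41.HZF.POI
import Pool.Agent.Lib_helper54.RS.Minkowski
import Pool.Agent.Lib_helper19.GJ.HC

set_option autoImplicit false

namespace Pool.Agent.GJ

open Complex MeasureTheory Filter Topology Matrix
open Pool.Agent.G4 (par RSB)
open Pool.Agent.RS (Mt SLZ toR lm Xs wG cut cube)
open scoped ENNReal

/-! ### uniqueness -/

theorem HN_tri {n : ℕ} {M₁ M₂ g : Matrix (Fin n) (Fin n) ℤ}
    (h1 : ∀ i j, j < i → M₁ i j = 0) (h2 : ∀ i j, j < i → M₂ i j = 0)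
    (p1 : ∀ i, 0 < M₁ i i) (hg : M₁ * g = M₂) :
    ∀ i j : Fin n, j < i → g i j = 0 := by
  have key : ∀ (k : ℕ) (i j : Fin n), n - (i : ℕ) = k → j < i → g i j = 0 := by
    intro k
    induction k using Nat.strong_induction_on with
    | _ k ih =>
      intro i j hk hji
      have hs : (M₁ * g) i j = M₁ i i * g i j := by
        rw [Matrix.mul_apply]
        refine Finset.sum_eq_single i ?_ (fun h => absurd (Finset.mem_univ i) h)
        intro c _ hc
        rcases lt_or_gt_of_ne hc with h | h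
        · rw [h1 i c h, zero_mul]
        · rw [ih (n - (c : ℕ)) (by have := c.2; have := i.2; simp only [Fin.lt_def] at h; omega) c j rfl (hji.trans h),
            mul_zero]
      rw [hg, h2 i j hji] at hs
      rcases mul_eq_zero.1 hs.symm with h | h
      · exact absurd h (p1 i).ne'
      · exact h
  intro i j h
  exact key _ i j rfl h

theorem HN_diag {n : ℕ} {M₁ M₂ g : Matrix (Fin n) (Fin n) ℤ}
    (h1 : ∀ i j, j < i → M₁ i j = 0) (h2 : ∀ i j, j < i → M₂ i j = 0)
    (p1 : ∀ i, 0 < M₁ i i) (hg : M₁ * g = M₂) (i : Fin n) : M₁ i i * g i i = M₂ i i := by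
  have ht := HN_tri h1 h2 p1 hg
  have hs : (M₁ * g) i i = M₁ i i * g i i := by
    rw [Matrix.mul_apply]
    refine Finset.sum_eq_single i ?_ (fun h => absurd (Finset.mem_univ i) h)
    intro c _ hc
    rcases lt_or_gt_of_ne hc with h | h
    · rw [h1 i c h, zero_mul]
    · rw [ht c i h, mul_zero]
  rw [← hs, hg]

theorem HN_uniq {n : ℕ} {M₁ M₂ g : Matrix (Fin n) (Fin n) ℤ}
    (h1 : ∀ i j, j < i → M₁ i j = 0) (h2 : ∀ i j, j < i → M₂ i j = 0)
    (p1 : ∀ i, 0 < M₁ i i) (p2 : ∀ i, 0 < M₂ i i)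
    (n1 : ∀ i j, 0 ≤ M₁ i j) (n2 : ∀ i j, 0 ≤ M₂ i j)
    (r1 : ∀ i j, i < j → M₁ i j < M₁ i i) (r2 : ∀ i j, i < j → M₂ i j < M₂ i i)
    (hp : ∏ i, M₁ i i = ∏ i, M₂ i i) (hg : M₁ * g = M₂) : g = 1 := by
  have ht := HN_tri h1 h2 p1 hg
  have hd := HN_diag h1 h2 p1 hg
  have hgpos : ∀ i, 0 < g i i := by
    intro i
    have h := hd i
    have := p2 i
    rw [← h] at this
    exact (mul_pos_iff_of_pos_left (p1 i)).1 this
  have hprod : ∏ i, g i i = 1 := by
    have h3 : (∏ i, M₁ i i) * ∏ i, g i i = (∏ i, M₁ i i) * 1 := by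
      rw [← Finset.prod_mul_distrib, mul_one, hp]
      exact Finset.prod_congr rfl fun i _ => hd i
    exact mul_left_cancel₀ (Finset.prod_pos fun i _ => p1 i).ne' h3
  have hone : ∀ i, g i i = 1 := by
    intro i
    have h4 : g i i ∣ 1 := by
      rw [← hprod]; exact Finset.dvd_prod_of_mem _ (Finset.mem_univ i)
    exact Int.eq_one_of_dvd_one (hgpos i).le h4
  have hup : ∀ (k : ℕ) (i j : Fin n), n - (i : ℕ) = k → i < j → g i j = 0 := by
    intro k
    induction k using Nat.strong_induction_on with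
    | _ k ih =>
      intro i j hk hij
      have hs : (M₁ * g) i j = M₁ i i * g i j + M₁ i j * g j j := by
        rw [Matrix.mul_apply]
        refine Finset.sum_eq_add i j hij.ne ?_ (fun h => absurd (Finset.mem_univ i) h)
          (fun h => absurd (Finset.mem_univ j) h)
        rintro c - ⟨hc1, hc2⟩
        rcases lt_or_gt_of_ne hc1 with h | h
        · rw [h1 i c h, zero_mul]
        · rcases lt_or_gt_of_ne hc2 with h' | h'
          · rw [ih (n - (c : ℕ)) (by have := c.2; have := i.2; simp only [Fin.lt_def] at h; omega) c j rfl h',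
              mul_zero]
          · rw [ht c j h', mul_zero]
      rw [hg, hone j, mul_one] at hs
      have e1 := hd i
      rw [hone i, mul_one] at e1
      have a1 := r1 i j hij
      have a2 := r2 i j hij
      have a3 := n1 i j
      have a4 := n2 i j
      have a5 := p1 i
      rw [← e1] at a2
      -- M₁ i i * g i j ∈ (-M₁ i i, M₁ i i)
      by_contra hne
      rcases lt_or_gt_of_ne hne with h | h
      · have : g i j ≤ -1 := by omega
        nlinarith
      · have : 1 ≤ g i j := by omega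
        nlinarith
  ext i j
  rcases lt_trichotomy i j with h | h | h
  · rw [hup _ i j rfl h, Matrix.one_apply_ne h.ne]
  · subst h; rw [hone i, Matrix.one_apply_eq]
  · rw [ht i j h, Matrix.one_apply_ne h.ne']

theorem HN_mem {n m : ℕ} {A : Fin n → Fin n → ℕ} (hA : A ∈ hnf n m) :
    (∀ i j, j < i → A i j = 0) ∧ (∀ i j, i < j → A i j < A i i) ∧ ∏ i, A i i = m := by
  unfold hnf at hA
  exact (Finset.mem_filter.1 hA).2

theorem HN_mem_of {n m : ℕ} {A : Fin n → Fin n → ℕ} (hm : 0 < m)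
    (h1 : ∀ i j, j < i → A i j = 0) (h2 : ∀ i j, i < j → A i j < A i i)
    (h3 : ∏ i, A i i = m) : A ∈ hnf n m := by
  unfold hnf
  rw [Finset.mem_filter]
  refine ⟨?_, h1, h2, h3⟩
  have hd : ∀ i, A i i ≤ m := by
    intro i
    apply Nat.le_of_dvd hm
    rw [← h3]
    exact Finset.dvd_prod_of_mem (fun i => A i i) (Finset.mem_univ i)
  rw [Fintype.mem_piFinset]
  intro i
  rw [Fintype.mem_piFinset]
  intro j
  rw [Finset.mem_range]
  rcases lt_trichotomy i j with h | h | h
  · have := h2 i j h; have := hd i; omega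
  · subst h; have := hd i; omega
  · rw [h1 i j h]; omega

theorem HN_pos {n m : ℕ} (hm : 0 < m) {A : Fin n → Fin n → ℕ} (hA : A ∈ hnf n m) (i : Fin n) :
    0 < A i i := by
  have h3 := (HN_mem hA).2.2
  rcases Nat.eq_zero_or_pos (A i i) with h | h
  · exfalso
    have : ∏ i, A i i = 0 := Finset.prod_eq_zero (Finset.mem_univ i) h
    omega
  · exact h

theorem HN_uniq_hnf {n m : ℕ} (hm : 0 < m) {H₁ H₂ : Fin n → Fin n → ℕ} (h₁ : H₁ ∈ hnf n m)
    (h₂ : H₂ ∈ hnf n m) {g : Matrix (Fin n) (Fin n) ℤ} (hg : natZ H₁ * g = natZ H₂) : g = 1 := by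
  obtain ⟨a1, a2, a3⟩ := HN_mem h₁
  obtain ⟨b1, b2, b3⟩ := HN_mem h₂
  refine HN_uniq (M₁ := natZ H₁) (M₂ := natZ H₂) ?_ ?_ ?_ ?_ ?_ ?_ ?_ ?_ ?_ hg
  · intro i j h; simp [natZ, a1 i j h]
  · intro i j h; simp [natZ, b1 i j h]
  · intro i; have := HN_pos hm h₁ i; simpa [natZ] using this
  · intro i; have := HN_pos hm h₂ i; simpa [natZ] using this
  · intro i j; simp [natZ]
  · intro i j; simp [natZ]
  · intro i j h; simpa [natZ] using a2 i j h
  · intro i j h; simpa [natZ] using b2 i j h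
  · have e1 : ((∏ i, H₁ i i : ℕ) : ℤ) = ((∏ i, H₂ i i : ℕ) : ℤ) := by rw [a3, b3]
    push_cast at e1
    simpa [natZ] using e1

theorem HN_natZ_inj {n : ℕ} {H₁ H₂ : Fin n → Fin n → ℕ} (h : natZ H₁ = natZ H₂) : H₁ = H₂ := by
  funext i j
  have := congrFun (congrFun h i) j
  simpa [natZ] using this

theorem HN_sgn_det {n : ℕ} (hn : 0 < n) : (sgnM n).det = -1 := by
  obtain ⟨r, rfl⟩ : ∃ r, n = r + 1 := ⟨n - 1, by omega⟩
  unfold sgnM
  rw [Matrix.det_diagonal, Fin.prod_univ_succ]
  simp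

theorem HN_sgn_sq (n : ℕ) : sgnM n * sgnM n = 1 := by
  unfold sgnM
  rw [Matrix.diagonal_mul_diagonal, ← Matrix.diagonal_one]
  congr 1
  funext i
  split_ifs <;> simp

theorem HN_inj {n : ℕ} (hn : 0 < n) : Function.Injective (hmap n) := by
  rintro ⟨⟨m₁, H₁, hH₁⟩, b₁, γ₁⟩ ⟨⟨m₂, H₂, hH₂⟩, b₂, γ₂⟩ h
  simp only [hmap] at h
  have hd := congrArg Matrix.det h
  rw [Matrix.det_mul, Matrix.det_mul, Matrix.det_mul, Matrix.det_mul, (hnf_det hH₁).1,
    (hnf_det hH₂).1, γ₁.2, γ₂.2, mul_one, mul_one] at hd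
  have hs := HN_sgn_det hn
  have hsq := HN_sgn_sq n
  have hmm : m₁ = m₂ ∧ b₁ = b₂ := by
    rcases b₁ with _ | _ <;> rcases b₂ with _ | _ <;>
      simp only [if_true, if_false, hs, Matrix.det_one, Bool.false_eq_true] at hd <;>
      push_cast at hd <;> constructor <;> first | rfl | omega
  obtain ⟨rfl, rfl⟩ := hmm
  set S : Matrix (Fin n) (Fin n) ℤ := if b₁ then sgnM n else 1 with hS
  have hSS : S * S = 1 := by
    rw [hS]; split_ifs
    · exact hsq
    · rw [one_mul]
  have hγ : γ₂.1 * (γ₂⁻¹).1 = 1 := congrArg Subtype.val (mul_inv_cancel γ₂)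
  have h3 : natZ H₁ * (S * γ₁.1 * (γ₂⁻¹).1 * S) = natZ H₂ := by
    calc natZ H₁ * (S * γ₁.1 * (γ₂⁻¹).1 * S) = (natZ H₁ * S * γ₁.1) * (γ₂⁻¹).1 * S := by
          simp only [Matrix.mul_assoc]
      _ = (natZ H₂ * S * γ₂.1) * (γ₂⁻¹).1 * S := by rw [h]
      _ = natZ H₂ * S * (γ₂.1 * (γ₂⁻¹).1) * S := by simp only [Matrix.mul_assoc]
      _ = natZ H₂ * (S * S) := by rw [hγ, Matrix.mul_one, Matrix.mul_assoc]
      _ = natZ H₂ := by rw [hSS, Matrix.mul_one]
  have h4 := HN_uniq_hnf (Nat.succ_pos _) hH₁ hH₂ h3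
  have h5 : natZ H₁ = natZ H₂ := by rw [← h3, h4, Matrix.mul_one]
  have h6 := HN_natZ_inj h5
  subst h6
  have h7 : γ₁ = γ₂ := by
    apply Subtype.ext
    have h8 : S * (S * γ₁.1 * (γ₂⁻¹).1 * S) * (S * γ₂.1) = S * (S * γ₂.1) := by
      rw [h4, Matrix.mul_one]
    have hγ' : (γ₂⁻¹).1 * γ₂.1 = 1 := congrArg Subtype.val (inv_mul_cancel γ₂)
    have h9 : S * (S * γ₁.1 * (γ₂⁻¹).1 * S) * (S * γ₂.1) = γ₁.1 := by
      calc S * (S * γ₁.1 * (γ₂⁻¹).1 * S) * (S * γ₂.1)
          = (S * S) * γ₁.1 * ((γ₂⁻¹).1 * (S * S) * γ₂.1) := by simp only [Matrix.mul_assoc]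
        _ = γ₁.1 := by rw [hSS, Matrix.one_mul, Matrix.mul_one, hγ', Matrix.mul_one]
    have h10 : S * (S * γ₂.1) = γ₂.1 := by rw [← Matrix.mul_assoc, hSS, Matrix.one_mul]
    rw [← h9, h8, h10]
  rw [h7]

/-! ### existence -/

/-- reduction of a vector modulo the columns of a triangular matrix -/
theorem HN_red : ∀ (r : ℕ) (M : Matrix (Fin r) (Fin r) ℤ), (∀ i j, j < i → M i j = 0) →
    (∀ i, 0 < M i i) → ∀ b : Fin r → ℤ, ∃ c : Fin r → ℤ,
      ∀ i, 0 ≤ b i + ∑ j, M i j * c j ∧ b i + ∑ j, M i j * c j < M i i := by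
  intro r
  induction r with
  | zero => intro M _ _ b; exact ⟨fun _ => 0, fun i => i.elim0⟩
  | succ r ih =>
      intro M h1 h2 b
      obtain ⟨c, hc⟩ := ih (fun i j => M i.succ j.succ)
        (fun i j h => h1 _ _ (Fin.succ_lt_succ_iff.2 h)) (fun i => h2 _) (fun i => b i.succ)
      set T : ℤ := b 0 + ∑ j : Fin r, M 0 j.succ * c j with hT
      refine ⟨Fin.cons (-(T / M 0 0)) c, ?_⟩
      intro i
      refine Fin.cases ?_ (fun i => ?_) i
      · rw [Fin.sum_univ_succ]
        simp only [Fin.cons_zero, Fin.cons_succ]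
        have e1 : b 0 + (M 0 0 * -(T / M 0 0) + ∑ j : Fin r, M 0 j.succ * c j) = T % M 0 0 := by
          rw [Int.emod_def, hT]; ring
        rw [e1]
        exact ⟨Int.emod_nonneg _ (h2 0).ne', Int.emod_lt_of_pos _ (h2 0)⟩
      · rw [Fin.sum_univ_succ]
        simp only [Fin.cons_zero, Fin.cons_succ]
        rw [h1 i.succ 0 (Fin.succ_pos i), zero_mul, zero_add]
        exact hc i

/-- integral block matrices `[M, c; 0, d]` -/
def HN_blk {r : ℕ} (M : Matrix (Fin r) (Fin r) ℤ) (c : Fin r → ℤ) (d : ℤ) :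
    Matrix (Fin (r + 1)) (Fin (r + 1)) ℤ :=
  Matrix.of fun i j => Fin.lastCases (motive := fun _ => ℤ)
    (Fin.lastCases (motive := fun _ => ℤ) d (fun _ => 0) j)
    (fun i' => Fin.lastCases (motive := fun _ => ℤ) (c i') (fun j' => M i' j') j) i

section
variable {r : ℕ} (M : Matrix (Fin r) (Fin r) ℤ) (c : Fin r → ℤ) (d : ℤ)

theorem HN_blk_ll : HN_blk M c d (Fin.last r) (Fin.last r) = d := by simp [HN_blk]
theorem HN_blk_lc (j : Fin r) : HN_blk M c d (Fin.last r) j.castSucc = 0 := by simp [HN_blk]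
theorem HN_blk_cl (i : Fin r) : HN_blk M c d i.castSucc (Fin.last r) = c i := by simp [HN_blk]
theorem HN_blk_cc (i j : Fin r) : HN_blk M c d i.castSucc j.castSucc = M i j := by simp [HN_blk]
end

theorem HN_blk_mul {r : ℕ} (M M' : Matrix (Fin r) (Fin r) ℤ) (c c' : Fin r → ℤ) (d d' : ℤ) :
    HN_blk M c d * HN_blk M' c' d' =
      HN_blk (M * M') (fun i => ∑ j, M i j * c' j + c i * d') (d * d') := by
  ext i j
  rw [Matrix.mul_apply, Fin.sum_univ_castSucc]
  refine Fin.lastCases ?_ (fun i => ?_) i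
  · refine Fin.lastCases ?_ (fun j => ?_) j
    · simp only [HN_blk_ll, HN_blk_lc, zero_mul, Finset.sum_const_zero, zero_add]
    · simp only [HN_blk_ll, HN_blk_lc, zero_mul, Finset.sum_const_zero, zero_add, mul_zero]
  · refine Fin.lastCases ?_ (fun j => ?_) j
    · simp only [HN_blk_ll, HN_blk_cl, HN_blk_cc]
    · simp only [HN_blk_lc, HN_blk_cc, mul_zero, add_zero, Matrix.mul_apply]

theorem HN_blk_det {r : ℕ} (M : Matrix (Fin r) (Fin r) ℤ) (c : Fin r → ℤ) (d : ℤ) :
    (HN_blk M c d).det = d * M.det := by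
  rw [Matrix.det_succ_row _ (Fin.last r), Fin.sum_univ_castSucc]
  have h0 : ∀ j : Fin r, (-1 : ℤ) ^ (((Fin.last r : Fin (r + 1)) : ℕ) + (j.castSucc : ℕ)) *
      HN_blk M c d (Fin.last r) j.castSucc *
      ((HN_blk M c d).submatrix (Fin.last r).succAbove j.castSucc.succAbove).det = 0 := by
    intro j
    rw [HN_blk_lc, mul_zero, zero_mul]
  rw [Finset.sum_eq_zero fun j _ => h0 j, zero_add, HN_blk_ll]
  have h1 : (HN_blk M c d).submatrix (Fin.last r).succAbove (Fin.last r).succAbove = M := by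
    ext i j
    rw [Matrix.submatrix_apply, Fin.succAbove_last, HN_blk_cc]
  rw [h1]
  have h2 : (-1 : ℤ) ^ (((Fin.last r : Fin (r + 1)) : ℕ) + ((Fin.last r : Fin (r + 1)) : ℕ)) = 1 := by
    rw [← two_mul, pow_mul]; norm_num
  rw [h2, one_mul]

theorem HN_eq_blk {r : ℕ} (B : Matrix (Fin (r + 1)) (Fin (r + 1)) ℤ)
    (h : ∀ j : Fin r, B (Fin.last r) j.castSucc = 0) :
    B = HN_blk (Matrix.of fun i j => B i.castSucc j.castSucc) (fun i => B i.castSucc (Fin.last r))
      (B (Fin.last r) (Fin.last r)) := by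
  ext i j
  refine Fin.lastCases ?_ (fun i => ?_) i
  · refine Fin.lastCases ?_ (fun j => ?_) j
    · rw [HN_blk_ll]
    · rw [HN_blk_lc, h j]
  · refine Fin.lastCases ?_ (fun j => ?_) j
    · rw [HN_blk_cl]
    · rw [HN_blk_cc]; rfl

/-- the last row can be made `(0, ..., 0, d)` with `d > 0` -/
theorem HN_row {r : ℕ} (v : Fin (r + 1) → ℤ) (hv : v ≠ 0) :
    ∃ ε ε' : Matrix (Fin (r + 1)) (Fin (r + 1)) ℤ, ε * ε' = 1 ∧ IsUnit ε'.det ∧ ∃ d : ℤ, 0 < d ∧
      v ᵥ* ε = fun k => if k = Fin.last r then d else 0 := by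
  rcases r with _ | r
  · have h0 : v 0 ≠ 0 := by
      intro h; apply hv; funext i
      rw [Fin.fin_one_eq_zero i]; exact h
    rcases lt_or_gt_of_ne h0 with h | h
    · refine ⟨-1, -1, by simp, ?_, -(v 0), by omega, ?_⟩
      · rw [Matrix.det_fin_one]; simp
      · funext k
        obtain rfl : k = 0 := Fin.fin_one_eq_zero k
        simp [Matrix.vecMul, dotProduct]
    · refine ⟨1, 1, by simp, by simp, v 0, h, ?_⟩
      funext k
      obtain rfl : k = 0 := Fin.fin_one_eq_zero k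
      simp
  · obtain ⟨δ, g, hg, hvg⟩ := RS.good_all _ v hv rfl
    have h1 : δ.1 * (δ⁻¹).1 = 1 := congrArg Subtype.val (mul_inv_cancel δ)
    have h2 : (δ⁻¹).1 * δ.1 = 1 := congrArg Subtype.val (inv_mul_cancel δ)
    refine ⟨(δ⁻¹).1, δ.1, h2, ?_, g, hg, ?_⟩
    · rw [δ.2]; exact isUnit_one
    · have h3 : RS.lrow δ ᵥ* (δ⁻¹).1 = fun k => (1 : Matrix (Fin (r + 2)) (Fin (r + 2)) ℤ)
          (Fin.last (r + 1)) k := by
        funext k
        rw [← h1, Matrix.mul_apply]
        rfl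
      rw [hvg, Matrix.smul_vecMul, h3]
      funext k
      simp only [Pi.smul_apply, smul_eq_mul, Matrix.one_apply]
      by_cases hk : k = Fin.last (r + 1)
      · simp [hk]
      · simp [hk, Ne.symm hk]

theorem HN_exists : ∀ (n : ℕ) (A : Matrix (Fin n) (Fin n) ℤ), A.det ≠ 0 →
    ∃ m : ℕ, 0 < m ∧ ∃ H ∈ hnf n m, ∃ g : Matrix (Fin n) (Fin n) ℤ, IsUnit g.det ∧
      A = natZ H * g := by
  intro n
  induction n with
  | zero =>
      intro A _
      refine ⟨1, one_pos, fun i => i.elim0, ?_, 1, by simp, ?_⟩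
      · exact HN_mem_of one_pos (fun i => i.elim0) (fun i => i.elim0) (by simp)
      · ext i; exact i.elim0
  | succ r ih =>
      intro A hA
      have hv : A (Fin.last r) ≠ 0 := by
        intro h
        apply hA
        exact Matrix.det_eq_zero_of_row_eq_zero (Fin.last r) (fun j => congrFun h j)
      obtain ⟨ε, ε', hε, hu, d, hd, hvd⟩ := HN_row (A (Fin.last r)) hv
      set B := A * ε with hB
      have hrow : ∀ k, B (Fin.last r) k = if k = Fin.last r then d else 0 := by
        intro k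
        rw [← congrFun hvd k]
        rfl
      have hBz : ∀ j : Fin r, B (Fin.last r) j.castSucc = 0 := by
        intro j
        rw [hrow, if_neg (Fin.castSucc_lt_last j).ne]
      have hBl : B (Fin.last r) (Fin.last r) = d := by rw [hrow, if_pos rfl]
      have hBe := HN_eq_blk B hBz
      rw [hBl] at hBe
      set A' : Matrix (Fin r) (Fin r) ℤ := Matrix.of fun i j => B i.castSucc j.castSucc with hA'
      set b : Fin r → ℤ := fun i => B i.castSucc (Fin.last r) with hb
      have hdetB : B.det ≠ 0 := by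
        intro h
        apply hA
        have h5 : A = B * ε' := by rw [hB, Matrix.mul_assoc, hε, Matrix.mul_one]
        rw [h5, Matrix.det_mul, h, zero_mul]
      have hA'd : A'.det ≠ 0 := by
        intro h
        apply hdetB
        rw [hBe, HN_blk_det, h, mul_zero]
      obtain ⟨m', hm', H', hH', g', hg', hA'e⟩ := ih A' hA'd
      obtain ⟨a1, a2, a3⟩ := HN_mem hH'
      have hpos := HN_pos hm' hH'
      obtain ⟨c, hc⟩ := HN_red r (natZ H') (fun i j h => by simp [natZ, a1 i j h])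
        (fun i => by simpa [natZ] using hpos i) b
      set b' : Fin r → ℕ := fun i => (b i + ∑ j, natZ H' i j * c j).toNat with hb'
      have hb'c : ∀ i, ((b' i : ℕ) : ℤ) = b i + ∑ j, natZ H' i j * c j := by
        intro i; rw [hb']; exact Int.toNat_of_nonneg (hc i).1
      have hb'lt : ∀ i, b' i < H' i i := by
        intro i
        have h1 := (hc i).2
        rw [← hb'c i] at h1
        simpa [natZ] using h1
      set H : Fin (r + 1) → Fin (r + 1) → ℕ := blk H' b' d.toNat with hH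
      have dnat : ((d.toNat : ℕ) : ℤ) = d := Int.toNat_of_nonneg hd.le
      have dpos : 0 < d.toNat := by omega
      have Hll : H (Fin.last r) (Fin.last r) = d.toNat := by simp [hH, blk]
      have Hlc : ∀ j : Fin r, H (Fin.last r) j.castSucc = 0 := by intro j; simp [hH, blk]
      have Hcl : ∀ i : Fin r, H i.castSucc (Fin.last r) = b' i := by intro i; simp [hH, blk]
      have Hcc : ∀ i j : Fin r, H i.castSucc j.castSucc = H' i j := by intro i j; simp [hH, blk]
      have HZ : natZ H = HN_blk (natZ H') (fun i => (b' i : ℤ)) d := by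
        ext i j
        refine Fin.lastCases ?_ (fun i => ?_) i
        · refine Fin.lastCases ?_ (fun j => ?_) j
          · rw [HN_blk_ll]; simp only [natZ, Matrix.of_apply, Hll, dnat]
          · rw [HN_blk_lc]; simp only [natZ, Matrix.of_apply, Hlc]; rfl
        · refine Fin.lastCases ?_ (fun j => ?_) j
          · rw [HN_blk_cl]; simp only [natZ, Matrix.of_apply, Hcl]
          · rw [HN_blk_cc]; simp only [natZ, Matrix.of_apply, Hcc]
      have Hmem : H ∈ hnf (r + 1) (m' * d.toNat) := by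
        apply HN_mem_of (Nat.mul_pos hm' dpos)
        · intro i j
          refine Fin.lastCases ?_ (fun i => ?_) i
          · refine Fin.lastCases ?_ (fun j => ?_) j
            · intro h; exact absurd h (lt_irrefl _)
            · intro _; exact Hlc j
          · refine Fin.lastCases ?_ (fun j => ?_) j
            · intro h; exact absurd (h.trans (Fin.castSucc_lt_last i)) (lt_irrefl _)
            · intro h; rw [Hcc]; exact a1 i j (Fin.castSucc_lt_castSucc_iff.1 h)
        · intro i j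
          refine Fin.lastCases ?_ (fun i => ?_) i
          · refine Fin.lastCases ?_ (fun j => ?_) j
            · intro h; exact absurd h (lt_irrefl _)
            · intro h; exact absurd (h.trans (Fin.castSucc_lt_last j)) (lt_irrefl _)
          · refine Fin.lastCases ?_ (fun j => ?_) j
            · intro _; rw [Hcl, Hcc]; exact hb'lt i
            · intro h; rw [Hcc, Hcc]; exact a2 i j (Fin.castSucc_lt_castSucc_iff.1 h)
        · rw [Fin.prod_univ_castSucc, Hll]
          simp only [Hcc]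
          rw [a3]
      refine ⟨m' * d.toNat, Nat.mul_pos hm' dpos, H, Hmem,
        HN_blk g' (fun i => -c i) 1 * ε', ?_, ?_⟩
      · rw [Matrix.det_mul, HN_blk_det, one_mul]
        exact hg'.mul hu
      · have h5 : A = B * ε' := by rw [hB, Matrix.mul_assoc, hε, Matrix.mul_one]
        rw [h5, ← Matrix.mul_assoc]
        congr 1
        rw [HZ, HN_blk_mul, ← hA'e, mul_one]
        rw [hBe]
        congr 1
        funext i
        rw [hb'c i, mul_one]
        have : ∑ j, natZ H' i j * -c j = -∑ j, natZ H' i j * c j := by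
          rw [← Finset.sum_neg_distrib]
          exact Finset.sum_congr rfl fun j _ => by ring
        rw [this]
        ring

/-- HN: Hermite normal form -/
theorem hnf_bij_pr {n : ℕ} (hn : 0 < n) : Function.Injective (hmap n) ∧
    Set.range (hmap n) = {A : Matrix (Fin n) (Fin n) ℤ | A.det ≠ 0} := by
  refine ⟨HN_inj hn, ?_⟩
  ext A
  constructor
  · rintro ⟨⟨⟨m, H, hH⟩, b, γ⟩, rfl⟩
    simp only [hmap, Set.mem_ofPred_eq]
    rw [Matrix.det_mul, Matrix.det_mul, (hnf_det hH).1, γ.2, mul_one]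
    have hs := HN_sgn_det hn
    refine mul_ne_zero (by positivity) ?_
    rcases b with _ | _
    · simp
    · simp [hs]
  · intro hA
    obtain ⟨m, hm, H, hH, g, hg, hAe⟩ := HN_exists n A hA
    obtain ⟨m', rfl⟩ : ∃ m', m = m' + 1 := ⟨m - 1, by omega⟩
    rcases Int.isUnit_iff.1 hg with h | h
    · refine ⟨⟨⟨m', H, hH⟩, false, ⟨g, h⟩⟩, ?_⟩
      simp only [hmap, Bool.false_eq_true, if_false, Matrix.mul_one]
      exact hAe.symm
    · refine ⟨⟨⟨m', H, hH⟩, true, ⟨sgnM n * g, by
        rw [Matrix.det_mul, HN_sgn_det hn, h]; norm_num⟩⟩, ?_⟩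
      simp only [hmap, if_true]
      rw [Matrix.mul_assoc, ← Matrix.mul_assoc (sgnM n), HN_sgn_sq, Matrix.one_mul]
      exact hAe.symm

alias hnf_bij := hnf_bij_pr

end Pool.Agent.GJ
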