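import Pool.Agent.Lib_helper19.GJ.Defs

/-! GJ, block MP -/

namespace Pool.Agent.GJ

open Complex MeasureTheory Filter Topology Matrix
open Pool.Agent.G4 (par RSB)
open Pool.Agent.RS (Mt SLZ toR lm Xs wG cut cube)
open scoped ENNReal

theorem mp_block_mulVec {r : ℕ} (G : Matrix (Fin r) (Fin r) ℝ) (h : |G.det| = 1) :
    MeasurePreserving (fun b : Fin r → ℝ => G *ᵥ b) volume volume := by
  have h0 : G.det ≠ 0 := by
    intro h0
    rw [h0, abs_zero] at h
    exact zero_ne_one h
  have h1 := Real.map_matrix_volume_pi_eq_smul_volume_pi (M := G) h0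
  refine ⟨?_, ?_⟩
  · exact (Matrix.toLin' G).continuous_of_finiteDimensional.measurable
  · rw [abs_inv, h, inv_one, ENNReal.ofReal_one, one_smul] at h1
    exact h1

/-- MP: matrices of determinant ± 1 preserve the measure -/
theorem mp_lm_abs_pr {n : ℕ} {S : Matrix (Fin n) (Fin n) ℝ} (hS : |S.det| = 1) :
    MeasurePreserving (lm S) (volume.restrict (Xs n)) (volume.restrict (Xs n)) := by
  have h1 := RS.mp_swap n
  have h2 : MeasurePreserving (fun (A : Fin n → Fin n → ℝ) (i : Fin n) => S *ᵥ (A i))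
      volume volume := volume_preserving_pi fun i => mp_block_mulVec S hS
  have h3 := h1.comp (h2.comp h1)
  have h4 : lm S = (fun (A : Fin n → Fin n → ℝ) (i j : Fin n) => A j i) ∘
      (fun (A : Fin n → Fin n → ℝ) (i : Fin n) => S *ᵥ (A i)) ∘
      (fun (A : Fin n → Fin n → ℝ) (i j : Fin n) => A j i) := by
    ext A i j
    simp [lm, Matrix.mul_apply, Matrix.mulVec, dotProduct]
  have h5 : MeasurePreserving (lm S) volume volume := by
    rw [h4]
    exact h3
  have h6 := h5.restrict_preimage (RS.measurableSet_Xs n)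
  have h7 : lm S ⁻¹' (Xs n) = Xs n := by
    ext A
    have h8 : |(Matrix.of (lm S A)).det| = |(Matrix.of A).det| := by
      rw [RS.lm_eq, Matrix.det_mul, abs_mul, hS, one_mul]
    simp only [Set.mem_preimage, Xs, Set.mem_ofPred_eq, h8]
  rw [h7] at h6
  exact h6

alias mp_lm_abs := mp_lm_abs_pr

end Pool.Agent.GJ
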