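import Pool.Agent.Lib_helper19.GJ.Defs
import Pool.Agent.Lib_helper19.GJ.GB
import Pool.Agent.Lib_helper19.GJ.HC
import Pool.Agent.Lib_helper19.GJ.HN
import Pool.Agent.Lib_helper19.GJ.MP
import Pool.Agent.Lib_helper19.GJ.NZ

/-! Block UB: the unfolding bound. -/

namespace Pool.Agent.GJ

open Complex MeasureTheory Filter Topology Matrix
open Pool.Agent.G4 (par RSB)
open Pool.Agent.RS (Mt SLZ toR lm Xs wG cut cube)
open scoped ENNReal

theorem ub_fro_smul {n : ℕ} (c : ℝ) (X : Matrix (Fin n) (Fin n) ℝ) :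
    fro (c • X) = c ^ 2 * fro X := by
  unfold fro
  simp only [Matrix.smul_apply, smul_eq_mul, mul_pow, Finset.mul_sum]

theorem ub_fro_meas (n : ℕ) : Measurable (fun Y : Mt n => fro (nz Y)) := by
  unfold fro nz
  apply Finset.measurable_fun_sum
  intro i _
  apply Finset.measurable_fun_sum
  intro j _
  apply Measurable.pow_const
  simp only [Matrix.of_apply]
  apply Measurable.div
  · exact (measurable_pi_apply j).comp (measurable_pi_apply i)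
  · exact ((RS.measurable_det n).abs).pow_const _

theorem ub_g_meas (n a : ℕ) (τ : ℝ) : Measurable (fun Z : Mt n =>
    τ ^ (n * a) * Real.exp (-Real.pi * (τ ^ 2 * fro (nz Z)))) := by
  apply Measurable.const_mul
  exact Real.measurable_exp.comp (((ub_fro_meas n).const_mul _).const_mul _)

theorem ub_intM_mul {n : ℕ} (A B : Matrix (Fin n) (Fin n) ℤ) :
    intM (A * B) = intM A * intM B := by
  unfold intM
  have := (Int.castRingHom ℝ).mapMatrix.map_mul A B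
  exact this

theorem ub_intM_det {n : ℕ} (A : Matrix (Fin n) (Fin n) ℤ) :
    (intM A).det = ((A.det : ℤ) : ℝ) := by
  have := (Int.castRingHom ℝ).map_det A
  exact this.symm

theorem ub_sgn {n : ℕ} (hn : 0 < n) (b : Bool) :
    |((if b then sgnM n else 1 : Matrix (Fin n) (Fin n) ℤ)).det| = 1 := by
  cases b with
  | false => simp
  | true =>
    simp only [if_true]
    unfold sgnM
    rw [Matrix.det_diagonal]
    obtain ⟨k, rfl⟩ : ∃ k, n = k + 1 := ⟨n - 1, by omega⟩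
    rw [Fin.prod_univ_succ]
    simp

/-- the substitution -/
theorem ub_sub {n : ℕ} (hn : 0 < n) (a : ℕ) (t : ℝ)
    {x : Matrix (Fin n) (Fin n) ℝ} (hx : |x.det| = 1) {m : ℕ} {H : Fin n → Fin n → ℕ}
    (hH : H ∈ hnf n (m + 1)) (b : Bool) :
    ∃ S : Matrix (Fin n) (Fin n) ℝ, |S.det| = 1 ∧ ∀ Z : Mt n,
      (t ^ n * ((m + 1 : ℕ) : ℝ)) ^ a * Real.exp (-Real.pi * (t ^ 2 *
        fro (x⁻¹ * intM (natZ H * (if b then sgnM n else 1)) * nz Z))) =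
      (t * ((m + 1 : ℕ) : ℝ) ^ ((n : ℝ)⁻¹)) ^ (n * a) * Real.exp (-Real.pi *
        ((t * ((m + 1 : ℕ) : ℝ) ^ ((n : ℝ)⁻¹)) ^ 2 * fro (nz (lm S Z)))) := by
  set μ : ℝ := ((m + 1 : ℕ) : ℝ) ^ ((n : ℝ)⁻¹) with hμ
  have hm0 : (0 : ℝ) < ((m + 1 : ℕ) : ℝ) := by exact_mod_cast Nat.succ_pos m
  have hμ0 : 0 < μ := Real.rpow_pos_of_pos hm0 _
  have hn0 : (n : ℝ) ≠ 0 := Nat.cast_ne_zero.mpr hn.ne'
  have hμn : μ ^ n = ((m + 1 : ℕ) : ℝ) := by
    rw [hμ, ← Real.rpow_natCast, ← Real.rpow_mul hm0.le, inv_mul_cancel₀ hn0, Real.rpow_one]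
  set P : Matrix (Fin n) (Fin n) ℝ := x⁻¹ * intM (natZ H * (if b then sgnM n else 1)) with hP
  have hdetP : |P.det| = ((m + 1 : ℕ) : ℝ) := by
    rw [hP, Matrix.det_mul, Matrix.det_nonsing_inv, Ring.inverse_eq_inv', abs_mul, abs_inv, hx,
      inv_one, one_mul, ub_intM_det, Matrix.det_mul, (hnf_det hH).1]
    have h1 := ub_sgn hn b
    rw [← Int.cast_abs, abs_mul, h1, mul_one]
    push_cast
    rw [abs_of_pos]
    have : (0 : ℝ) ≤ m := Nat.cast_nonneg m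
    linarith
  refine ⟨μ⁻¹ • P, ?_, fun Z => ?_⟩
  · rw [Matrix.det_smul, Fintype.card_fin, abs_mul, hdetP, abs_pow, abs_inv, abs_of_pos hμ0,
      inv_pow, hμn]
    exact inv_mul_cancel₀ hm0.ne'
  · have hS : |(μ⁻¹ • P).det| = 1 := by
      rw [Matrix.det_smul, Fintype.card_fin, abs_mul, hdetP, abs_pow, abs_inv, abs_of_pos hμ0,
        inv_pow, hμn]
      exact inv_mul_cancel₀ hm0.ne'
    rw [nz_mul hS Z]
    have h1 : P * nz Z = μ • ((μ⁻¹ • P) * nz Z) := by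
      rw [Matrix.smul_mul, smul_smul, mul_inv_cancel₀ hμ0.ne', one_smul]
    rw [h1, ub_fro_smul]
    have h2 : (t * μ) ^ (n * a) = (t ^ n * ((m + 1 : ℕ) : ℝ)) ^ a := by
      rw [pow_mul, mul_pow, hμn]
    rw [h2, mul_pow t μ 2, mul_assoc (t ^ 2)]

theorem ub_term {n : ℕ} (hn : 0 < n) (a : ℕ) {t : ℝ} (ht : 0 < t)
    {x : Matrix (Fin n) (Fin n) ℝ} (hx : |x.det| = 1) {m : ℕ} {H : Fin n → Fin n → ℕ}
    (hH : H ∈ hnf n (m + 1)) (b : Bool) :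
    Measurable (fun Z : Mt n => ENNReal.ofReal ((t ^ n * ((m + 1 : ℕ) : ℝ)) ^ a *
      Real.exp (-Real.pi * (t ^ 2 *
        fro (x⁻¹ * intM (natZ H * (if b then sgnM n else 1)) * nz Z))))) ∧
    ∫⁻ Z in Xs n, ENNReal.ofReal ((t ^ n * ((m + 1 : ℕ) : ℝ)) ^ a * Real.exp (-Real.pi * (t ^ 2 *
        fro (x⁻¹ * intM (natZ H * (if b then sgnM n else 1)) * nz Z)))) =
      ENNReal.ofReal (Gb n a (t * ((m + 1 : ℕ) : ℝ) ^ ((n : ℝ)⁻¹))) := by
  obtain ⟨S, hS, h1⟩ := ub_sub hn a t hx hH b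
  set τ : ℝ := t * ((m + 1 : ℕ) : ℝ) ^ ((n : ℝ)⁻¹) with hτ
  have hm0 : (0 : ℝ) < ((m + 1 : ℕ) : ℝ) := by exact_mod_cast Nat.succ_pos m
  have hτ0 : 0 < τ := mul_pos ht (Real.rpow_pos_of_pos hm0 _)
  simp only [h1]
  have hm := (ub_g_meas n a τ).ennreal_ofReal
  refine ⟨hm.comp (mp_lm_abs hS).measurable, ?_⟩
  have h2 := (mp_lm_abs hS).lintegral_comp hm
  rw [h2]
  unfold Gb
  rw [ofReal_integral_eq_lintegral_ofReal ((gb_bound n a hn).1 τ hτ0)]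
  exact Filter.Eventually.of_forall fun Z => by positivity

theorem ub_norm {n q : ℕ} (χ : DirichletCharacter ℂ q) (a : ℕ)
    {t : ℝ} (ht : 0 < t) (x : Matrix (Fin n) (Fin n) ℝ) (Y : Mt n) (hn : 0 < n)
    (m : ℕ) (H : Fin n → Fin n → ℕ) (hH : H ∈ hnf n (m + 1)) (b : Bool) (γ : SLZ n) :
    ‖thT χ a t x (nz Y) (natZ H * (if b then sgnM n else 1) * γ.1)‖ₑ ≤
      ENNReal.ofReal ((t ^ n * ((m + 1 : ℕ) : ℝ)) ^ a * Real.exp (-Real.pi * (t ^ 2 *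
        fro (x⁻¹ * intM (natZ H * (if b then sgnM n else 1)) * nz (lm (toR γ) Y))))) := by
  rw [← ofReal_norm]
  apply ENNReal.ofReal_le_ofReal
  unfold thT
  rw [norm_mul, Complex.norm_real, Real.norm_eq_abs, abs_mul, abs_of_pos (Real.exp_pos _), abs_pow,
    abs_mul]
  have h1 : |((natZ H * (if b then sgnM n else 1) * γ.1).det : ℤ)| = ((m + 1 : ℕ) : ℤ) := by
    rw [Matrix.det_mul, γ.2, mul_one, Matrix.det_mul, (hnf_det hH).1, abs_mul, ub_sgn hn b, mul_one,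
      abs_of_nonneg (by positivity)]
  have h2 : |(((natZ H * (if b then sgnM n else 1) * γ.1).det : ℤ) : ℝ)| = ((m + 1 : ℕ) : ℝ) := by
    rw [← Int.cast_abs, h1]
    push_cast
    rfl
  have h3 : nz (lm (toR γ) Y) = toR γ * nz Y := nz_mul (by rw [RS.det_toR, abs_one]) Y
  have h4 : intM (natZ H * (if b then sgnM n else 1) * γ.1) =
      intM (natZ H * (if b then sgnM n else 1)) * toR γ := ub_intM_mul _ _
  rw [h2, abs_of_pos (pow_pos ht n), h3, h4]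
  have h5 : x⁻¹ * (intM (natZ H * (if b then sgnM n else 1)) * toR γ) * nz Y =
      x⁻¹ * intM (natZ H * (if b then sgnM n else 1)) * (toR γ * nz Y) := by
    simp only [Matrix.mul_assoc]
  rw [h5]
  calc ‖χ (((natZ H * (if b then sgnM n else 1) * γ.1).det : ℤ) : ZMod q)‖ *
        ((t ^ n * ((m + 1 : ℕ) : ℝ)) ^ a * Real.exp (-Real.pi * (t ^ 2 *
        fro (x⁻¹ * intM (natZ H * (if b then sgnM n else 1)) * (toR γ * nz Y))))) ≤
        1 * ((t ^ n * ((m + 1 : ℕ) : ℝ)) ^ a * Real.exp (-Real.pi * (t ^ 2 *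
        fro (x⁻¹ * intM (natZ H * (if b then sgnM n else 1)) * (toR γ * nz Y))))) :=
        mul_le_mul_of_nonneg_right (DirichletCharacter.norm_le_one χ _) (by positivity)
    _ = _ := one_mul _

theorem ub_zero {n q : ℕ} (hq : 1 < q) (χ : DirichletCharacter ℂ q) (a : ℕ)
    (t : ℝ) (x y : Matrix (Fin n) (Fin n) ℝ) {A : Matrix (Fin n) (Fin n) ℤ} (hA : A.det = 0) :
    thT χ a t x y A = 0 := by
  unfold thT
  have : Fact (1 < q) := ⟨hq⟩
  have : Nontrivial (ZMod q) := ZMod.nontrivial q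
  rw [hA, Int.cast_zero, MulChar.map_zero, zero_mul]

/-- abstract form -/
theorem ub_abs {n : ℕ} {P : Type} [Countable P] (K : P → Bool → Mt n → ℝ≥0∞)
    (hKm : ∀ p b, Measurable (K p b)) (G : P → ℝ≥0∞) (hKi : ∀ p b, ∫⁻ Z in Xs n, K p b Z = G p)
    (T : Mt n → ℝ≥0∞) (hpt : ∀ Y, T Y ≤ ∑' p, ∑' b, ∑' γ : SLZ n, K p b (lm (toR γ) Y)) :
    ∫⁻ Y in Xs n, wG Y * T Y ≤ ∑' p, 2 * G p := by
  have hmeas : ∀ p b, Measurable fun Y : Mt n => wG Y * ∑' γ : SLZ n, K p b (lm (toR γ) Y) :=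
    fun p b => RS.measurable_wG.mul (Measurable.tsum fun γ => (hKm p b).comp (RS.measurable_lm γ))
  have h1 : ∫⁻ Y in Xs n, wG Y * T Y ≤
      ∫⁻ Y in Xs n, ∑' p, ∑' b, wG Y * ∑' γ : SLZ n, K p b (lm (toR γ) Y) := by
    apply lintegral_mono
    intro Y
    simp only [ENNReal.tsum_mul_left]
    gcongr
    exact hpt Y
  have h2 : ∫⁻ Y in Xs n, ∑' p, ∑' b, wG Y * ∑' γ : SLZ n, K p b (lm (toR γ) Y) =
      ∑' p, ∫⁻ Y in Xs n, ∑' b, wG Y * ∑' γ : SLZ n, K p b (lm (toR γ) Y) :=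
    lintegral_tsum fun p => (Measurable.tsum fun b => hmeas p b).aemeasurable
  have h3 : ∀ p, ∫⁻ Y in Xs n, ∑' b, wG Y * ∑' γ : SLZ n, K p b (lm (toR γ) Y) = 2 * G p := by
    intro p
    rw [lintegral_tsum fun b => (hmeas p b).aemeasurable, tsum_bool]
    rw [RS.unfold_SL (K p false) (hKm p false), RS.unfold_SL (K p true) (hKm p true), hKi, hKi,
      two_mul]
  rw [h2] at h1
  refine h1.trans (le_of_eq ?_)
  exact tsum_congr h3

theorem ub_pt {n q : ℕ} (hn : 0 < n) (hq : 1 < q) (χ : DirichletCharacter ℂ q) (a : ℕ)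
    {t : ℝ} (ht : 0 < t) (x : Matrix (Fin n) (Fin n) ℝ) (Y : Mt n) :
    ∑' A : Matrix (Fin n) (Fin n) ℤ, ‖thT χ a t x (nz Y) A‖ₑ ≤
      ∑' p : (Σ m : ℕ, ↥(hnf n (m + 1))), ∑' b : Bool, ∑' γ : SLZ n,
        ENNReal.ofReal ((t ^ n * ((p.1 + 1 : ℕ) : ℝ)) ^ a * Real.exp (-Real.pi * (t ^ 2 *
        fro (x⁻¹ * intM (natZ p.2.1 * (if b then sgnM n else 1)) * nz (lm (toR γ) Y))))) := by
  obtain ⟨hinj, hran⟩ := hnf_bij hn
  have h1 : Function.support (fun A : Matrix (Fin n) (Fin n) ℤ => ‖thT χ a t x (nz Y) A‖ₑ) ⊆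
      Set.range (hmap n) := by
    intro A hA
    rw [hran]
    intro h0
    apply hA
    show ‖thT χ a t x (nz Y) A‖ₑ = 0
    rw [ub_zero hq χ a t x (nz Y) h0, enorm_zero]
  rw [← hinj.tsum_eq h1, ENNReal.tsum_prod']
  refine ENNReal.tsum_le_tsum fun p => ?_
  rw [ENNReal.tsum_prod']
  refine ENNReal.tsum_le_tsum fun b => ?_
  refine ENNReal.tsum_le_tsum fun γ => ?_
  exact ub_norm χ a ht x Y hn p.1 p.2.1 p.2.2 b γ

theorem unf_bound_pr {n q : ℕ} (hn : 0 < n) (hq : 1 < q) (χ : DirichletCharacter ℂ q) (a : ℕ)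
    {t : ℝ} (ht : 0 < t) {x : Matrix (Fin n) (Fin n) ℝ} (hx : |x.det| = 1) :
    ∫⁻ Y in Xs n, wG Y * ∑' A : Matrix (Fin n) (Fin n) ℤ, ‖thT χ a t x (nz Y) A‖ₑ ≤
      2 * ∑' m : ℕ, ((hnf n (m + 1)).card : ℝ≥0∞) *
        ENNReal.ofReal (Gb n a (t * ((m + 1 : ℕ) : ℝ) ^ ((n : ℝ)⁻¹))) := by
  have h1 := ub_abs (P := (Σ m : ℕ, ↥(hnf n (m + 1)))) (fun p b Z =>
    ENNReal.ofReal ((t ^ n * ((p.1 + 1 : ℕ) : ℝ)) ^ a * Real.exp (-Real.pi * (t ^ 2 *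
        fro (x⁻¹ * intM (natZ p.2.1 * (if b then sgnM n else 1)) * nz Z)))))
    (fun p b => (ub_term hn a ht hx p.2.2 b).1)
    (fun p => ENNReal.ofReal (Gb n a (t * ((p.1 + 1 : ℕ) : ℝ) ^ ((n : ℝ)⁻¹))))
    (fun p b => (ub_term hn a ht hx p.2.2 b).2)
    (fun Y => ∑' A : Matrix (Fin n) (Fin n) ℤ, ‖thT χ a t x (nz Y) A‖ₑ)
    (fun Y => ub_pt hn hq χ a ht x Y)
  refine h1.trans (le_of_eq ?_)
  rw [ENNReal.tsum_mul_left]
  congr 1
  rw [ENNReal.tsum_sigma']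
  refine tsum_congr fun m => ?_
  simp only [tsum_fintype, Finset.sum_const, Finset.card_univ, Fintype.card_coe, nsmul_eq_mul]

alias unf_bound := unf_bound_pr

end Pool.Agent.GJ
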