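import Pool.Agent.Lib_helper19.GJ.Defs
import Pool.Agent.Lib_helper19.GJ.GB
import Pool.Agent.Lib_helper19.GJ.HC
import Pool.Agent.Lib_helper19.GJ.NZ
import Pool.Agent.Lib_helper19.GJ.TM
import Pool.Agent.Lib_helper19.GJ.UB

/-! Block JB: absolute convergence of the double theta integral. -/

namespace Pool.Agent.GJ

open Complex MeasureTheory Filter Topology Matrix
open Pool.Agent.G4 (par RSB)
open Pool.Agent.RS (Mt SLZ toR lm Xs wG cut cube)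
open scoped ENNReal

theorem jb_m1 (n : ℕ) : Measurable fun z : (ℝ × Mt n) × Mt n => (z.1.1, z.1.2, z.2) := by fun_prop

theorem jb_meas3 {n : ℕ} {G : ℝ → Mt n → Mt n → ℂ}
    (hG : Measurable fun p : ℝ × Mt n × Mt n => G p.1 p.2.1 p.2.2) :
    Measurable fun z : (ℝ × Mt n) × Mt n => G z.1.1 z.1.2 z.2 :=
  hG.comp (jb_m1 n)

theorem jb_sm {n : ℕ} {G : ℝ → Mt n → Mt n → ℂ}
    (hG : Measurable fun p : ℝ × Mt n × Mt n => G p.1 p.2.1 p.2.2) :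
    StronglyMeasurable fun t : ℝ => ∫ x in Xs n, ∫ y in Xs n, G t x y := by
  have h1 := (jb_meas3 hG).stronglyMeasurable
  have h2 : StronglyMeasurable fun p : ℝ × Mt n => ∫ y in Xs n, G p.1 p.2 y :=
    StronglyMeasurable.integral_prod_right (f := fun (p : ℝ × Mt n) (y : Mt n) => G p.1 p.2 y)
      (ν := volume.restrict (Xs n)) h1
  exact StronglyMeasurable.integral_prod_right (f := fun (t : ℝ) (x : Mt n) =>
      ∫ y in Xs n, G t x y) (ν := volume.restrict (Xs n)) h2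

theorem jb_meas2 {n : ℕ} {G : ℝ → Mt n → Mt n → ℂ}
    (hG : Measurable fun p : ℝ × Mt n × Mt n => G p.1 p.2.1 p.2.2) (t : ℝ) :
    Measurable fun z : Mt n × Mt n => G t z.1 z.2 := by
  have m1 : Measurable fun p : Mt n × Mt n => (t, p.1, p.2) := by fun_prop
  exact hG.comp m1

/-- the integrand, with the form cut off at the singular matrices -/
noncomputable def jb_G {n q : ℕ} (φ : Matrix (Fin n) (Fin n) ℝ → ℂ) (χ : DirichletCharacter ℂ q)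
    (a : ℕ) (t : ℝ) (x y : Mt n) : ℂ :=
  (((wG x).toReal * (wG y).toReal : ℝ) : ℂ) * (starRingEnd ℂ (cut φ x) * cut φ y) *
    th χ a t (nz x) (nz y)

theorem jb_G_meas {n q : ℕ} {φ : Matrix (Fin n) (Fin n) ℝ → ℂ} (hφ : Measurable (cut φ))
    (χ : DirichletCharacter ℂ q) (a : ℕ) :
    Measurable fun p : ℝ × Mt n × Mt n => jb_G φ χ a p.1 p.2.1 p.2.2 := by
  unfold jb_G
  have m1 : Measurable fun p : ℝ × Mt n × Mt n => p.2.1 := measurable_fst.comp measurable_snd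
  have m2 : Measurable fun p : ℝ × Mt n × Mt n => p.2.2 := measurable_snd.comp measurable_snd
  have w1 : Measurable fun p : ℝ × Mt n × Mt n => (wG p.2.1).toReal :=
    (RS.measurable_wG.comp m1).ennreal_toReal
  have w2 : Measurable fun p : ℝ × Mt n × Mt n => (wG p.2.2).toReal :=
    (RS.measurable_wG.comp m2).ennreal_toReal
  have c1 : Measurable fun p : ℝ × Mt n × Mt n => starRingEnd ℂ (cut φ p.2.1) :=
    Complex.continuous_conj.measurable.comp (hφ.comp m1)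
  have c2 : Measurable fun p : ℝ × Mt n × Mt n => cut φ p.2.2 := hφ.comp m2
  exact ((Complex.measurable_ofReal.comp (w1.mul w2)).mul (c1.mul c2)).mul (th_meas χ a).2

variable {n : ℕ} {e : Fin 2} {ν : Fin n → ℂ} {lam : ℕ → ℂ} {φ : Matrix (Fin n) (Fin n) ℝ → ℂ}

theorem jb_eq {q : ℕ} (χ : DirichletCharacter ℂ q) (a : ℕ) (t : ℝ) {x y : Mt n}
    (hx : x ∈ Xs n) (hy : y ∈ Xs n) :
    (((wG x).toReal * (wG y).toReal : ℝ) : ℂ) *
      (starRingEnd ℂ (φ (Matrix.of x)) * φ (Matrix.of y)) * th χ a t (nz x) (nz y) =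
    jb_G φ χ a t x y := by
  unfold jb_G
  rw [RS.cut_of_ne φ (RS.Xs_det_ne hx), RS.cut_of_ne φ (RS.Xs_det_ne hy)]

theorem jb_JJ {q : ℕ} (χ : DirichletCharacter ℂ q) (a : ℕ) (t : ℝ) :
    JJ φ χ a t = ∫ x in Xs n, ∫ y in Xs n, jb_G φ χ a t x y := by
  unfold JJ
  refine setIntegral_congr_fun (RS.measurableSet_Xs n) (fun x hx => ?_)
  exact setIntegral_congr_fun (RS.measurableSet_Xs n) (fun y hy => jb_eq χ a t hx hy)

/-- JB -/
theorem jj_meas_pr (h : SphericalForm n e ν lam φ) {q : ℕ} (χ : DirichletCharacter ℂ q) (a : ℕ) :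
    AEStronglyMeasurable (JJ φ χ a) (volume.restrict (Set.Ioi 0)) := by
  have h5 : JJ φ χ a = fun t : ℝ => ∫ x in Xs n, ∫ y in Xs n, jb_G φ χ a t x y := by
    funext t
    exact jb_JJ χ a t
  rw [h5]
  exact (jb_sm (jb_G_meas (RS.measurable_cut h.continuous) χ a)).aestronglyMeasurable

theorem jb_wG_ne_top (x : Mt n) : wG x ≠ ⊤ :=
  ne_top_of_le_ne_top ENNReal.one_ne_top (RS.wt_le_one _ x)

theorem jb_mass (hn : 0 < n) : ∫⁻ x in Xs n, wG x ≠ ⊤ := by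
  obtain ⟨s, rfl⟩ : ∃ s, n = s + 1 := ⟨n - 1, by omega⟩
  exact RS.mass_ne_top s

/-- pointwise bound of the integrand -/
theorem jb_pt {q : ℕ} (χ : DirichletCharacter ℂ q) (a : ℕ) (t : ℝ) {M : ℝ}
    (hM : ∀ Y : Mt n, ‖cut φ Y‖ ≤ M) (x y : Mt n) :
    ‖jb_G φ χ a t x y‖ₑ ≤ ENNReal.ofReal (M * M) * (wG x *
      (wG y * ∑' A : Matrix (Fin n) (Fin n) ℤ, ‖thT χ a t (nz x) (nz y) A‖ₑ)) := by
  have hM0 : 0 ≤ M := (norm_nonneg _).trans (hM x)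
  unfold jb_G
  rw [enorm_mul, enorm_mul]
  have h1 : ‖(((wG x).toReal * (wG y).toReal : ℝ) : ℂ)‖ₑ = wG x * wG y := by
    rw [← ofReal_norm, Complex.norm_real, Real.norm_eq_abs, abs_of_nonneg (by positivity),
      ENNReal.ofReal_mul ENNReal.toReal_nonneg, ENNReal.ofReal_toReal (jb_wG_ne_top x),
      ENNReal.ofReal_toReal (jb_wG_ne_top y)]
  have h2 : ‖starRingEnd ℂ (cut φ x) * cut φ y‖ₑ ≤ ENNReal.ofReal (M * M) := by
    rw [← ofReal_norm]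
    apply ENNReal.ofReal_le_ofReal
    rw [norm_mul, RCLike.norm_conj]
    exact mul_le_mul (hM x) (hM y) (norm_nonneg _) hM0
  have h3 : ‖th χ a t (nz x) (nz y)‖ₑ ≤
      ∑' A : Matrix (Fin n) (Fin n) ℤ, ‖thT χ a t (nz x) (nz y) A‖ₑ := enorm_tsum_le_tsum_enorm
  rw [h1]
  calc wG x * wG y * ‖starRingEnd ℂ (cut φ x) * cut φ y‖ₑ * ‖th χ a t (nz x) (nz y)‖ₑ ≤
      wG x * wG y * ENNReal.ofReal (M * M) *
        ∑' A : Matrix (Fin n) (Fin n) ℤ, ‖thT χ a t (nz x) (nz y) A‖ₑ := by gcongr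
    _ = _ := by ring

/-- the double integral -/
theorem jb_lint (hn : 0 < n) {q : ℕ} (hq : 1 < q) (χ : DirichletCharacter ℂ q) (a : ℕ) {t : ℝ}
    (ht : 0 < t) {M : ℝ} (hM : ∀ Y : Mt n, ‖cut φ Y‖ ≤ M) :
    ∫⁻ x in Xs n, ∫⁻ y in Xs n, ‖jb_G φ χ a t x y‖ₑ ≤ ENNReal.ofReal (M * M) *
      ((∫⁻ x in Xs n, wG x) * (2 * ∑' m : ℕ, ((hnf n (m + 1)).card : ℝ≥0∞) *
        ENNReal.ofReal (Gb n a (t * ((m + 1 : ℕ) : ℝ) ^ ((n : ℝ)⁻¹))))) := by
  set S : ℝ≥0∞ := 2 * ∑' m : ℕ, ((hnf n (m + 1)).card : ℝ≥0∞) *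
        ENNReal.ofReal (Gb n a (t * ((m + 1 : ℕ) : ℝ) ^ ((n : ℝ)⁻¹))) with hS
  have h1 : ∀ x ∈ Xs n, ∫⁻ y in Xs n, ‖jb_G φ χ a t x y‖ₑ ≤
      ENNReal.ofReal (M * M) * (wG x * S) := by
    intro x hx
    have h2 : ∫⁻ y in Xs n, ‖jb_G φ χ a t x y‖ₑ ≤ ∫⁻ y in Xs n, ENNReal.ofReal (M * M) * (wG x *
        (wG y * ∑' A : Matrix (Fin n) (Fin n) ℤ, ‖thT χ a t (nz x) (nz y) A‖ₑ)) :=
      lintegral_mono fun y => jb_pt χ a t hM x y
    refine h2.trans ?_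
    rw [lintegral_const_mul' _ _ ENNReal.ofReal_ne_top, lintegral_const_mul' _ _ (jb_wG_ne_top x)]
    have h3 := unf_bound hn hq χ a ht (nz_det hn (RS.Xs_det_ne hx))
    rw [← hS] at h3
    gcongr
  calc ∫⁻ x in Xs n, ∫⁻ y in Xs n, ‖jb_G φ χ a t x y‖ₑ ≤
        ∫⁻ x in Xs n, ENNReal.ofReal (M * M) * (wG x * S) :=
        setLIntegral_mono' (RS.measurableSet_Xs n) h1
    _ = _ := by
        rw [lintegral_const_mul' _ _ ENNReal.ofReal_ne_top, lintegral_mul_const _ RS.measurable_wG]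

/-- bound of the sum over the Hermite normal forms -/
theorem jb_S (n a : ℕ) (hn : 0 < n) (K : ℝ) (hK : (n : ℝ) ^ 3 + 2 * n + 2 ≤ K) :
    ∃ C : ℝ, 0 ≤ C ∧ ∀ t : ℝ, 0 < t → 2 * ∑' m : ℕ, ((hnf n (m + 1)).card : ℝ≥0∞) *
        ENNReal.ofReal (Gb n a (t * ((m + 1 : ℕ) : ℝ) ^ ((n : ℝ)⁻¹))) ≤
      ENNReal.ofReal (C * t ^ (-K)) := by
  have hn1 : (1 : ℝ) ≤ n := by exact_mod_cast hn
  have hKn : (n : ℝ) ^ 2 ≤ K := by nlinarith [sq_nonneg ((n : ℝ) - 1)]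
  obtain ⟨C, hC, hb⟩ := (gb_bound n a hn).2.2 K hKn
  have hsum : Summable fun m : ℕ => (((m + 1 : ℕ) : ℝ) ^ 2)⁻¹ := by
    have h1 := (summable_nat_add_iff 1).mpr (Real.summable_nat_pow_inv.mpr (by norm_num : 1 < 2))
    exact h1
  set Z : ℝ := ∑' m : ℕ, (((m + 1 : ℕ) : ℝ) ^ 2)⁻¹ with hZ
  have hZ0 : 0 ≤ Z := tsum_nonneg fun m => by positivity
  refine ⟨2 * (2 ^ (n ^ 2) * C * Z), by positivity, fun t ht => ?_⟩
  have hterm : ∀ m : ℕ, ((hnf n (m + 1)).card : ℝ≥0∞) *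
        ENNReal.ofReal (Gb n a (t * ((m + 1 : ℕ) : ℝ) ^ ((n : ℝ)⁻¹))) ≤
      ENNReal.ofReal (2 ^ (n ^ 2) * C * t ^ (-K) * (((m + 1 : ℕ) : ℝ) ^ 2)⁻¹) := by
    intro m
    set μ : ℝ := ((m + 1 : ℕ) : ℝ) with hμ
    have hμ1 : 1 ≤ μ := by
      rw [hμ]
      exact_mod_cast Nat.succ_le_succ (Nat.zero_le m)
    have hμ0 : 0 < μ := by linarith
    have hroot : 0 < μ ^ ((n : ℝ)⁻¹) := Real.rpow_pos_of_pos hμ0 _
    have h1 := hb (t * μ ^ ((n : ℝ)⁻¹)) (mul_pos ht hroot)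
    have h2 : (t * μ ^ ((n : ℝ)⁻¹)) ^ (-K) = t ^ (-K) * μ ^ (-(K / n)) := by
      rw [Real.mul_rpow ht.le hroot.le, ← Real.rpow_mul hμ0.le]
      congr 2
      field_simp
    rw [h2] at h1
    have h3 : ((hnf n (m + 1)).card : ℝ) ≤ 2 ^ (n ^ 2) * μ ^ (n ^ 2) := by
      have h4 : ((hnf n (m + 1)).card : ℝ) ≤ (((m + 1 + 1) ^ (n ^ 2) : ℕ) : ℝ) := by
        exact_mod_cast hnf_card n (m + 1)
      refine h4.trans ?_
      rw [← mul_pow]
      push_cast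
      apply pow_le_pow_left₀ (by positivity)
      have h5 : μ = (m : ℝ) + 1 := by rw [hμ]; push_cast; ring
      rw [h5]
      have : (0 : ℝ) ≤ m := Nat.cast_nonneg m
      linarith
    have h4 : μ ^ (n ^ 2) * μ ^ (-(K / n)) ≤ (μ ^ 2)⁻¹ := by
      have e1 : (μ ^ (n ^ 2) : ℝ) = μ ^ (((n ^ 2 : ℕ) : ℝ)) := (Real.rpow_natCast μ (n ^ 2)).symm
      have e2 : (μ ^ 2)⁻¹ = μ ^ (-(2 : ℝ)) := by
        rw [Real.rpow_neg hμ0.le]
        congr 1
        exact (Real.rpow_natCast μ 2).symm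
      rw [e1, e2, ← Real.rpow_add hμ0]
      apply Real.rpow_le_rpow_of_exponent_le hμ1
      push_cast
      have hn0 : (0 : ℝ) < n := by linarith
      have h5 : (n : ℝ) ^ 2 + 2 ≤ K / n := by
        rw [le_div_iff₀ hn0]
        nlinarith
      linarith
    have h6 : ((hnf n (m + 1)).card : ℝ≥0∞) *
        ENNReal.ofReal (Gb n a (t * μ ^ ((n : ℝ)⁻¹))) =
        ENNReal.ofReal ((hnf n (m + 1)).card * Gb n a (t * μ ^ ((n : ℝ)⁻¹))) := by
      rw [ENNReal.ofReal_mul (Nat.cast_nonneg _), ENNReal.ofReal_natCast]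
    rw [h6]
    apply ENNReal.ofReal_le_ofReal
    have htK : 0 ≤ t ^ (-K) := (Real.rpow_pos_of_pos ht _).le
    calc ((hnf n (m + 1)).card : ℝ) * Gb n a (t * μ ^ ((n : ℝ)⁻¹)) ≤
          ((hnf n (m + 1)).card : ℝ) * (C * (t ^ (-K) * μ ^ (-(K / n)))) :=
          mul_le_mul_of_nonneg_left h1 (Nat.cast_nonneg _)
      _ ≤ (2 ^ (n ^ 2) * μ ^ (n ^ 2)) * (C * (t ^ (-K) * μ ^ (-(K / n)))) := by
          apply mul_le_mul_of_nonneg_right h3
          have := (Real.rpow_pos_of_pos hμ0 (-(K / n))).le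
          positivity
      _ = 2 ^ (n ^ 2) * C * t ^ (-K) * (μ ^ (n ^ 2) * μ ^ (-(K / n))) := by ring
      _ ≤ 2 ^ (n ^ 2) * C * t ^ (-K) * (μ ^ 2)⁻¹ :=
          mul_le_mul_of_nonneg_left h4 (by positivity)
  have htK : 0 ≤ t ^ (-K) := (Real.rpow_pos_of_pos ht _).le
  calc 2 * ∑' m : ℕ, ((hnf n (m + 1)).card : ℝ≥0∞) *
        ENNReal.ofReal (Gb n a (t * ((m + 1 : ℕ) : ℝ) ^ ((n : ℝ)⁻¹))) ≤
        2 * ∑' m : ℕ, ENNReal.ofReal (2 ^ (n ^ 2) * C * t ^ (-K) * (((m + 1 : ℕ) : ℝ) ^ 2)⁻¹) := by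
        gcongr with m
        exact hterm m
    _ = 2 * ENNReal.ofReal (2 ^ (n ^ 2) * C * t ^ (-K) * Z) := by
        rw [← ENNReal.ofReal_tsum_of_nonneg (fun m => by positivity) (hsum.mul_left _), tsum_mul_left]
    _ = ENNReal.ofReal (2 * (2 ^ (n ^ 2) * C * Z) * t ^ (-K)) := by
        rw [show (2 : ℝ≥0∞) = ENNReal.ofReal 2 by simp, ← ENNReal.ofReal_mul (by norm_num)]
        congr 1
        ring

/-- JB -/
theorem jj_int_pr (h : SphericalForm n e ν lam φ) (hn : 0 < n) {q : ℕ} (hq : 1 < q)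
    (χ : DirichletCharacter ℂ q) (a : ℕ) {t : ℝ} (ht : 0 < t) :
    Integrable (fun p : Mt n × Mt n => (((wG p.1).toReal * (wG p.2).toReal : ℝ) : ℂ) *
      (starRingEnd ℂ (φ (Matrix.of p.1)) * φ (Matrix.of p.2)) * th χ a t (nz p.1) (nz p.2))
      ((volume.restrict (Xs n)).prod (volume.restrict (Xs n))) := by
  obtain ⟨M, hM⟩ := h.bounded
  have hM' : ∀ Y : Mt n, ‖cut φ Y‖ ≤ max M 0 := RS.norm_cut_le hM
  have hGm : Measurable fun p : Mt n × Mt n => jb_G φ χ a t p.1 p.2 :=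
    jb_meas2 (jb_G_meas (RS.measurable_cut h.continuous) χ a) t
  have hint : Integrable (fun p : Mt n × Mt n => jb_G φ χ a t p.1 p.2)
      ((volume.restrict (Xs n)).prod (volume.restrict (Xs n))) := by
    refine ⟨hGm.aestronglyMeasurable, ?_⟩
    unfold HasFiniteIntegral
    rw [lintegral_prod _ hGm.enorm.aemeasurable]
    refine lt_of_le_of_lt (jb_lint hn hq χ a ht hM') ?_
    obtain ⟨C, -, hC⟩ := jb_S n a hn _ (le_refl _)
    have h1 := (hC t ht).trans_lt ENNReal.ofReal_lt_top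
    exact ENNReal.mul_lt_top ENNReal.ofReal_lt_top
      (ENNReal.mul_lt_top (lt_top_iff_ne_top.mpr (jb_mass hn)) h1)
  refine hint.congr ?_
  rw [Measure.prod_restrict]
  have hms : MeasurableSet ((Xs n) ×ˢ (Xs n)) :=
    (RS.measurableSet_Xs n).prod (RS.measurableSet_Xs n)
  filter_upwards [ae_restrict_mem hms] with p hp
  exact (jb_eq χ a t hp.1 hp.2).symm

/-- JB -/
theorem jj_bound_pr (h : SphericalForm n e ν lam φ) (hn : 0 < n) {q : ℕ} (hq : 1 < q)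
    (χ : DirichletCharacter ℂ q) (a : ℕ) (K : ℝ) (hK : (n : ℝ) ^ 3 + 2 * n + 2 ≤ K) :
    ∃ C : ℝ, 0 ≤ C ∧ ∀ t : ℝ, 0 < t → ‖JJ φ χ a t‖ ≤ C * t ^ (-K) := by
  obtain ⟨M, hM⟩ := h.bounded
  have hM' : ∀ Y : Mt n, ‖cut φ Y‖ ≤ max M 0 := RS.norm_cut_le hM
  obtain ⟨C, hC0, hC⟩ := jb_S n a hn K hK
  set m0 : ℝ := (∫⁻ x in Xs n, wG x).toReal with hm0
  refine ⟨max M 0 * max M 0 * (m0 * C), ?_, fun t ht => ?_⟩
  · have : 0 ≤ m0 := ENNReal.toReal_nonneg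
    have : 0 ≤ max M 0 := le_max_right _ _
    positivity
  · have htK : 0 ≤ t ^ (-K) := (Real.rpow_pos_of_pos ht _).le
    have hm00 : 0 ≤ m0 := ENNReal.toReal_nonneg
    have hMM : 0 ≤ max M 0 := le_max_right _ _
    have h1 : ‖JJ φ χ a t‖ₑ ≤ ENNReal.ofReal (max M 0 * max M 0 * (m0 * C) * t ^ (-K)) := by
      rw [jb_JJ]
      calc ‖∫ x in Xs n, ∫ y in Xs n, jb_G φ χ a t x y‖ₑ ≤
            ∫⁻ x in Xs n, ‖∫ y in Xs n, jb_G φ χ a t x y‖ₑ := enorm_integral_le_lintegral_enorm _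
        _ ≤ ∫⁻ x in Xs n, ∫⁻ y in Xs n, ‖jb_G φ χ a t x y‖ₑ :=
            lintegral_mono fun x => enorm_integral_le_lintegral_enorm _
        _ ≤ _ := jb_lint hn hq χ a ht hM'
        _ ≤ ENNReal.ofReal (max M 0 * max M 0) * (ENNReal.ofReal m0 *
              ENNReal.ofReal (C * t ^ (-K))) := by
            rw [hm0, ENNReal.ofReal_toReal (jb_mass hn)]
            gcongr
            exact hC t ht
        _ = _ := by
            rw [← ENNReal.ofReal_mul hm00, ← ENNReal.ofReal_mul (mul_nonneg hMM hMM)]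
            congr 1
            ring
    rw [← ofReal_norm] at h1
    exact (ENNReal.ofReal_le_ofReal_iff (by positivity)).mp h1

alias jj_int := jj_int_pr
alias jj_bound := jj_bound_pr
alias jj_meas := jj_meas_pr

end Pool.Agent.GJ
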