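import Pool.Agent.Lib_helper19.GJ.Defs
import Pool.Agent.Lib_helper41.HZF.POI

/-! # Fourier transform of the Gaussian times a power of the determinant (block GF) -/

namespace Pool.Agent.GJ

open Complex MeasureTheory Filter Topology Matrix
open Pool.Agent.G4 (par RSB)
open Pool.Agent.RS (Mt SLZ toR lm Xs wG cut cube)
open scoped ENNReal

theorem gf_fun (K x : ℝ) : ((Real.exp (-Real.pi * x ^ 2) : ℝ) : ℂ) * HZ.ee (-(K * x)) =
    cexp (-(Real.pi : ℂ) * x ^ 2) * cexp (((-2 * Real.pi * x * K : ℝ) : ℂ) * I) := by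
  unfold HZ.ee
  push_cast
  congr 2
  ring

theorem gf_int (m : ℕ) (hm : m ≤ 1) (K : ℝ) : Integrable fun x : ℝ =>
    ((x ^ m * Real.exp (-Real.pi * x ^ 2) : ℝ) : ℂ) * HZ.ee (-(K * x)) := by
  have h0 : Integrable fun x : ℝ => x ^ m * Real.exp (-Real.pi * x ^ 2) := by
    interval_cases m
    · simpa using integrable_exp_neg_mul_sq Real.pi_pos
    · simpa using integrable_mul_exp_neg_mul_sq Real.pi_pos
  refine Integrable.mul_bdd (c := 1) h0.ofReal ?_ ?_
  · exact (HZ.poi_ee_continuous.comp (by fun_prop)).aestronglyMeasurable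
  · exact Eventually.of_forall fun x => (HZ.poi_ee_norm _).le

theorem gf_one (m : ℕ) (hm : m ≤ 1) (K : ℝ) :
    ∫ x : ℝ, ((x ^ m * Real.exp (-Real.pi * x ^ 2) : ℝ) : ℂ) * HZ.ee (-(K * x)) =
      (-I) ^ m * ((K ^ m * Real.exp (-Real.pi * K ^ 2) : ℝ) : ℂ) := by
  have hF : (FourierTransform.fourier fun x : ℝ => cexp (-(Real.pi : ℂ) * x ^ 2)) =
      fun t : ℝ => cexp (-(Real.pi : ℂ) * t ^ 2) := by
    have := fourier_gaussian_pi (b := 1) (by simp)
    simpa using this
  interval_cases m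
  · have h1 := congrFun hF K
    rw [Real.fourier_real_eq_integral_exp_smul] at h1
    simp only [pow_zero, one_mul]
    rw [show (((Real.exp (-Real.pi * K ^ 2) : ℝ)) : ℂ) = cexp (-(Real.pi : ℂ) * K ^ 2) by
      push_cast; rfl, ← h1]
    refine integral_congr_ae (Eventually.of_forall fun x => ?_)
    simp only [smul_eq_mul]
    rw [gf_fun, mul_comm]
  · have hi0 : Integrable fun x : ℝ => cexp (-(Real.pi : ℂ) * x ^ 2) :=
      integrable_cexp_neg_mul_sq (by simpa using Real.pi_pos)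
    have hi1 : Integrable fun x : ℝ => x • cexp (-(Real.pi : ℂ) * x ^ 2) := by
      have := integrable_mul_cexp_neg_mul_sq (b := (Real.pi : ℂ)) (by simpa using Real.pi_pos)
      refine this.congr (Eventually.of_forall fun x => ?_)
      simp
    have h1 := Real.hasDerivAt_fourier hi0 hi1 K
    rw [hF] at h1
    have h2 : HasDerivAt (fun t : ℝ => cexp (-(Real.pi : ℂ) * t ^ 2))
        (cexp (-(Real.pi : ℂ) * K ^ 2) * (-(Real.pi : ℂ) * (2 * K))) K := by
      have h3 : HasDerivAt (fun t : ℝ => -(Real.pi : ℂ) * (t : ℂ) ^ 2)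
          (-(Real.pi : ℂ) * (2 * K)) K := by
        have := ((Complex.ofRealCLM.hasDerivAt (x := K)).pow 2).const_mul (-(Real.pi : ℂ))
        simpa using this
      exact h3.cexp
    have h4 := h1.unique h2
    rw [Real.fourier_real_eq_integral_exp_smul] at h4
    have h5 : (-2 * Real.pi * I : ℂ) * ∫ x : ℝ,
        ((x ^ 1 * Real.exp (-Real.pi * x ^ 2) : ℝ) : ℂ) * HZ.ee (-(K * x)) =
        cexp (-(Real.pi : ℂ) * K ^ 2) * (-(Real.pi : ℂ) * (2 * K)) := by
      rw [← h4, ← integral_const_mul]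
      refine integral_congr_ae (Eventually.of_forall fun x => ?_)
      simp only [smul_eq_mul, pow_one]
      rw [Complex.ofReal_mul, mul_assoc (x : ℂ), gf_fun]
      ring
    have hne : (-2 * Real.pi * I : ℂ) ≠ 0 := by
      simp [Real.pi_ne_zero]
    apply mul_left_cancel₀ hne
    rw [h5]
    push_cast
    have hI : I * I = -1 := I_mul_I
    linear_combination (-2 * (Real.pi : ℂ) * K * cexp (-(Real.pi : ℂ) * K ^ 2)) * hI

/-- monomials -/
theorem gf_mono {ι : Type} [Fintype ι] (e : ι → ℕ) (he : ∀ k, e k ≤ 1) (K : ι → ℝ) :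
    Integrable (fun X : ι → ℝ => (((∏ k, X k ^ e k) *
      Real.exp (-Real.pi * ∑ k, X k ^ 2) : ℝ) : ℂ) * HZ.ee (-(∑ k, K k * X k))) ∧
    ∫ X : ι → ℝ, (((∏ k, X k ^ e k) *
      Real.exp (-Real.pi * ∑ k, X k ^ 2) : ℝ) : ℂ) * HZ.ee (-(∑ k, K k * X k)) =
      (-I) ^ (∑ k, e k) * (((∏ k, K k ^ e k) * Real.exp (-Real.pi * ∑ k, K k ^ 2) : ℝ) : ℂ) := by
  have h1 : ∀ X : ι → ℝ, (((∏ k, X k ^ e k) *
      Real.exp (-Real.pi * ∑ k, X k ^ 2) : ℝ) : ℂ) * HZ.ee (-(∑ k, K k * X k)) =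
      ∏ k, (((X k ^ e k * Real.exp (-Real.pi * X k ^ 2) : ℝ) : ℂ) * HZ.ee (-(K k * X k))) := by
    intro X
    rw [Finset.prod_mul_distrib]
    congr 1
    · rw [← Complex.ofReal_prod, Finset.prod_mul_distrib, ← Real.exp_sum, Finset.mul_sum]
    · unfold HZ.ee
      rw [← Complex.exp_sum, ← Finset.mul_sum]
      congr 1
      push_cast
      rw [Finset.sum_neg_distrib]
  constructor
  · simp only [h1]
    exact Integrable.fintype_prod (μ := fun _ => volume) fun k => gf_int (e k) (he k) (K k)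
  · simp only [h1]
    rw [integral_fintype_prod_volume_eq_prod (fun k (x : ℝ) =>
      ((x ^ e k * Real.exp (-Real.pi * x ^ 2) : ℝ) : ℂ) * HZ.ee (-(K k * x)))]
    rw [Finset.prod_congr rfl fun k _ => gf_one (e k) (he k) (K k), Finset.prod_mul_distrib,
      Finset.prod_pow_eq_pow_sum, ← Complex.ofReal_prod, Finset.prod_mul_distrib, ← Real.exp_sum,
      Finset.mul_sum]

theorem gf_fro {n : ℕ} (X : Fin n × Fin n → ℝ) :
    fro (Matrix.of fun i j => X (i, j)) = ∑ k, X k ^ 2 := by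
  unfold fro
  rw [Fintype.sum_prod_type]
  rfl

theorem gf_det {n : ℕ} (X : Fin n × Fin n → ℝ) :
    (Matrix.of fun i j => X (i, j)).det = ∑ σ : Equiv.Perm (Fin n),
      ((Equiv.Perm.sign σ : ℤ) : ℝ) * ∏ k : Fin n × Fin n, X k ^ (if k.1 = σ k.2 then 1 else 0) := by
  rw [Matrix.det_apply']
  refine Finset.sum_congr rfl fun σ _ => ?_
  congr 1
  rw [Fintype.prod_prod_type_right]
  refine Finset.prod_congr rfl fun j _ => ?_
  rw [Finset.prod_eq_single (σ j)]
  · simp
  · intro i _ hi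
    simp [hi]
  · simp

theorem gau_ft_pr (n a : ℕ) (ha : a ≤ 1) (K : Fin n × Fin n → ℝ) :
    ∫ X : Fin n × Fin n → ℝ,
      (((Matrix.of fun i j => X (i, j)).det ^ a *
        Real.exp (-Real.pi * fro (Matrix.of fun i j => X (i, j))) : ℝ) : ℂ) *
        HZ.ee (-(∑ k, K k * X k)) =
    (-I) ^ (n * a) * (((Matrix.of fun i j => K (i, j)).det ^ a *
        Real.exp (-Real.pi * fro (Matrix.of fun i j => K (i, j))) : ℝ) : ℂ) := by
  simp only [gf_fro]
  interval_cases a
  · have := (gf_mono (fun _ : Fin n × Fin n => 0) (by simp) K).2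
    simpa using this
  · simp only [pow_one, gf_det, mul_one]
    have hsum : ∀ (X : Fin n × Fin n → ℝ) (z : ℂ), (((∑ σ : Equiv.Perm (Fin n),
        ((Equiv.Perm.sign σ : ℤ) : ℝ) * ∏ k : Fin n × Fin n, X k ^ (if k.1 = σ k.2 then 1 else 0)) *
        Real.exp (-Real.pi * ∑ k, X k ^ 2) : ℝ) : ℂ) * z =
        ∑ σ : Equiv.Perm (Fin n), ((Equiv.Perm.sign σ : ℤ) : ℂ) *
          ((((∏ k : Fin n × Fin n, X k ^ (if k.1 = σ k.2 then 1 else 0)) *
          Real.exp (-Real.pi * ∑ k, X k ^ 2) : ℝ) : ℂ) * z) := by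
      intro X z
      rw [Finset.sum_mul, Complex.ofReal_sum, Finset.sum_mul]
      refine Finset.sum_congr rfl fun σ _ => ?_
      push_cast
      ring
    simp only [hsum]
    rw [integral_finsetSum]
    · have hc : ∀ σ : Equiv.Perm (Fin n),
          ∑ k : Fin n × Fin n, (if k.1 = σ k.2 then 1 else 0) = n := by
        intro σ
        rw [Fintype.sum_prod_type_right]
        simp
      have e1 : ∀ σ : Equiv.Perm (Fin n), ∫ X : Fin n × Fin n → ℝ,
          ((Equiv.Perm.sign σ : ℤ) : ℂ) *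
          ((((∏ k : Fin n × Fin n, X k ^ (if k.1 = σ k.2 then 1 else 0)) *
          Real.exp (-Real.pi * ∑ k, X k ^ 2) : ℝ) : ℂ) * HZ.ee (-(∑ k, K k * X k))) =
          (-I) ^ n * (((Equiv.Perm.sign σ : ℤ) : ℂ) *
          ((((∏ k : Fin n × Fin n, K k ^ (if k.1 = σ k.2 then 1 else 0)) *
          Real.exp (-Real.pi * ∑ k, K k ^ 2) : ℝ) : ℂ) * 1)) := by
        intro σ
        rw [integral_const_mul, (gf_mono (fun k : Fin n × Fin n => if k.1 = σ k.2 then 1 else 0)
          (fun k => by split_ifs <;> simp) K).2, hc σ]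
        ring
      rw [Finset.sum_congr rfl fun σ _ => e1 σ, ← Finset.mul_sum, ← hsum, mul_one]
    · intro σ _
      exact ((gf_mono (fun k : Fin n × Fin n => if k.1 = σ k.2 then 1 else 0)
          (fun k => by split_ifs <;> simp) K).1).const_mul _

alias gau_ft := gau_ft_pr

end Pool.Agent.GJ
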