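import Pool.Agent.Lib_helper19.GJ.Defs
import Pool.Agent.Lib_helper41.HZF.POI
import Pool.Agent.Lib_helper19.GJ.GF
import Pool.Agent.Lib_helper19.GJ.TM

/-!
# Block TP: Poisson summation for the theta kernel
-/

namespace Pool.Agent.GJ

open Complex MeasureTheory Filter Topology Matrix
open Pool.Agent.G4 (par RSB)
open Pool.Agent.RS (Mt SLZ toR lm Xs wG cut cube)
open scoped ENNReal

/-- matrices from functions of pairs -/
def tpM {n : ℕ} (X : Fin n × Fin n → ℝ) : Matrix (Fin n) (Fin n) ℝ :=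
  Matrix.of fun i j => X (i, j)

/-- the determinant to the power `a` times a Gaussian -/
noncomputable def tpF {n : ℕ} (a : ℕ) (s β : ℝ) (P Q : Matrix (Fin n) (Fin n) ℝ)
    (X : Fin n × Fin n → ℝ) : ℝ :=
  (s * (tpM X).det) ^ a * Real.exp (-Real.pi * (β * fro (P * tpM X * Q)))

theorem tp_fro_nonneg {n : ℕ} (X : Matrix (Fin n) (Fin n) ℝ) : 0 ≤ fro X :=
  Finset.sum_nonneg fun _ _ => Finset.sum_nonneg fun _ _ => sq_nonneg _

theorem tp_entry_fro {n : ℕ} (W : Matrix (Fin n) (Fin n) ℝ) (i j : Fin n) :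
    |W i j| ≤ Real.sqrt (fro W) := by
  apply Real.abs_le_sqrt
  unfold fro
  calc W i j ^ 2 ≤ ∑ l, W i l ^ 2 :=
        Finset.single_le_sum (f := fun l => W i l ^ 2) (fun _ _ => sq_nonneg _) (Finset.mem_univ j)
    _ ≤ _ := Finset.single_le_sum (f := fun k => ∑ l, W k l ^ 2)
        (fun _ _ => Finset.sum_nonneg fun _ _ => sq_nonneg _) (Finset.mem_univ i)

theorem tp_fro_smul {n : ℕ} (T : ℝ) (X : Matrix (Fin n) (Fin n) ℝ) :
    fro (T • X) = T ^ 2 * fro X := by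
  unfold fro
  simp only [Matrix.smul_apply, smul_eq_mul, mul_pow, Finset.mul_sum]

theorem tp_fro_transpose {n : ℕ} (X : Matrix (Fin n) (Fin n) ℝ) : fro Xᵀ = fro X := by
  unfold fro
  simp only [Matrix.transpose_apply]
  exact Finset.sum_comm

/-- the entries are bounded by the Frobenius norm of `P X Q` -/
theorem tp_entry {n : ℕ} {P Q : Matrix (Fin n) (Fin n) ℝ} (hP : P.det ≠ 0) (hQ : Q.det ≠ 0) :
    ∃ c : ℝ, 0 < c ∧ ∀ (X : Matrix (Fin n) (Fin n) ℝ) (i j : Fin n),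
      |X i j| ≤ c * Real.sqrt (fro (P * X * Q)) := by
  refine ⟨(∑ i, ∑ k, |P⁻¹ i k|) * (∑ j, ∑ l, |Q⁻¹ l j|) + 1, ?_, ?_⟩
  · have h1 : 0 ≤ ∑ i, ∑ k, |P⁻¹ i k| :=
      Finset.sum_nonneg fun _ _ => Finset.sum_nonneg fun _ _ => abs_nonneg _
    have h2 : 0 ≤ ∑ j, ∑ l, |Q⁻¹ l j| :=
      Finset.sum_nonneg fun _ _ => Finset.sum_nonneg fun _ _ => abs_nonneg _
    positivity
  · intro X i j
    set W := P * X * Q with hW
    set S := Real.sqrt (fro W) with hS
    have hS0 : 0 ≤ S := Real.sqrt_nonneg _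
    have hX : X = P⁻¹ * W * Q⁻¹ := by
      rw [hW]
      have e1 : P⁻¹ * P = 1 := Matrix.nonsing_inv_mul _ (isUnit_iff_ne_zero.2 hP)
      have e2 : Q * Q⁻¹ = 1 := Matrix.mul_nonsing_inv _ (isUnit_iff_ne_zero.2 hQ)
      calc X = (P⁻¹ * P) * X * (Q * Q⁻¹) := by rw [e1, e2, Matrix.one_mul, Matrix.mul_one]
        _ = _ := by simp only [Matrix.mul_assoc]
    have h1 : X i j = ∑ l, ∑ k, P⁻¹ i k * W k l * Q⁻¹ l j := by
      conv_lhs => rw [hX]
      rw [Matrix.mul_apply]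
      refine Finset.sum_congr rfl fun l _ => ?_
      rw [Matrix.mul_apply, Finset.sum_mul]
    rw [h1]
    calc |∑ l, ∑ k, P⁻¹ i k * W k l * Q⁻¹ l j|
        ≤ ∑ l, ∑ k, |P⁻¹ i k * W k l * Q⁻¹ l j| :=
          (Finset.abs_sum_le_sum_abs _ _).trans
            (Finset.sum_le_sum fun _ _ => Finset.abs_sum_le_sum_abs _ _)
      _ ≤ ∑ l, ∑ k, |P⁻¹ i k| * S * |Q⁻¹ l j| := by
          refine Finset.sum_le_sum fun l _ => Finset.sum_le_sum fun k _ => ?_
          rw [abs_mul, abs_mul]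
          exact mul_le_mul_of_nonneg_right (mul_le_mul_of_nonneg_left (tp_entry_fro W k l)
            (abs_nonneg _)) (abs_nonneg _)
      _ = (∑ k, |P⁻¹ i k|) * (∑ l, |Q⁻¹ l j|) * S := by
          rw [Finset.sum_mul_sum, Finset.sum_comm, Finset.sum_mul]
          refine Finset.sum_congr rfl fun k _ => ?_
          rw [Finset.sum_mul]
          refine Finset.sum_congr rfl fun l _ => ?_
          ring
      _ ≤ ((∑ i, ∑ k, |P⁻¹ i k|) * (∑ j, ∑ l, |Q⁻¹ l j|) + 1) * S := by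
          refine mul_le_mul_of_nonneg_right ?_ hS0
          have g1 : ∑ k, |P⁻¹ i k| ≤ ∑ i, ∑ k, |P⁻¹ i k| :=
            Finset.single_le_sum (f := fun i => ∑ k, |P⁻¹ i k|)
              (fun _ _ => Finset.sum_nonneg fun _ _ => abs_nonneg _) (Finset.mem_univ i)
          have g2 : ∑ l, |Q⁻¹ l j| ≤ ∑ j, ∑ l, |Q⁻¹ l j| :=
            Finset.single_le_sum (f := fun j => ∑ l, |Q⁻¹ l j|)
              (fun _ _ => Finset.sum_nonneg fun _ _ => abs_nonneg _) (Finset.mem_univ j)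
          have g3 : 0 ≤ ∑ l, |Q⁻¹ l j| := Finset.sum_nonneg fun _ _ => abs_nonneg _
          have g4 : 0 ≤ ∑ i, ∑ k, |P⁻¹ i k| :=
            Finset.sum_nonneg fun _ _ => Finset.sum_nonneg fun _ _ => abs_nonneg _
          have := mul_le_mul g1 g2 g3 g4
          linarith

theorem tp_continuous {n : ℕ} (a : ℕ) (s β : ℝ) (P Q : Matrix (Fin n) (Fin n) ℝ) :
    Continuous (tpF a s β P Q) := by
  have h1 : Continuous (tpM (n := n)) := by
    unfold tpM
    exact continuous_matrix fun i j => continuous_apply (i, j)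
  have h2 : Continuous fun X : Fin n × Fin n → ℝ => (tpM X).det := h1.matrix_det
  have h3 : Continuous fun X : Fin n × Fin n → ℝ => fro (P * tpM X * Q) := by
    have h4 : Continuous fun X : Fin n × Fin n → ℝ => P * tpM X * Q :=
      (continuous_const.matrix_mul h1).matrix_mul continuous_const
    unfold fro
    refine continuous_finsetSum _ fun i _ => continuous_finsetSum _ fun j _ => ?_
    exact (h4.matrix_elem i j).pow 2
  unfold tpF
  exact ((continuous_const.mul h2).pow a).mul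
    (Real.continuous_exp.comp (continuous_const.mul (continuous_const.mul h3)))

theorem tp_decay {n : ℕ} (a : ℕ) (s : ℝ) {β : ℝ} (hβ : 0 < β) {P Q : Matrix (Fin n) (Fin n) ℝ}
    (hP : P.det ≠ 0) (hQ : Q.det ≠ 0) : ∃ C : ℝ, 0 ≤ C ∧ ∀ X : Fin n × Fin n → ℝ,
      |tpF a s β P Q X| ≤ C * Real.exp (-(1 * ‖X‖)) := by
  obtain ⟨c, hc, hcX⟩ := tp_entry hP hQ
  have hpi := Real.pi_pos
  set α : ℝ := Real.pi * β / c ^ 2 with hα
  have hα0 : 0 < α := by positivity
  refine ⟨|s| ^ a * ((n.factorial : ℝ) ^ a * ((n * a).factorial : ℝ)) * Real.exp (1 / α),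
    by positivity, ?_⟩
  intro X
  set u : ℝ := ‖X‖ with hu
  have hu0 : 0 ≤ u := norm_nonneg _
  -- lower bound for the quadratic form
  have h1 : u ≤ c * Real.sqrt (fro (P * tpM X * Q)) := by
    refine (pi_norm_le_iff_of_nonneg (by positivity)).2 fun k => ?_
    exact hcX (tpM X) k.1 k.2
  have h2 : α * u ^ 2 ≤ Real.pi * (β * fro (P * tpM X * Q)) := by
    have h3 : u ^ 2 ≤ c ^ 2 * fro (P * tpM X * Q) := by
      calc u ^ 2 ≤ (c * Real.sqrt (fro (P * tpM X * Q))) ^ 2 := by gcongr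
        _ = _ := by rw [mul_pow, Real.sq_sqrt (tp_fro_nonneg _)]
    calc α * u ^ 2 ≤ α * (c ^ 2 * fro (P * tpM X * Q)) := by gcongr
      _ = _ := by rw [hα]; field_simp
  -- upper bound for the determinant
  have h4 : |(tpM X).det| ≤ (n.factorial : ℝ) * u ^ n := by
    have := Matrix.det_le (A := tpM X) (abv := AbsoluteValue.abs) (x := u) (fun i j => by
      exact norm_le_pi_norm X (i, j))
    rw [Fintype.card_fin, nsmul_eq_mul] at this
    exact this
  have h5 : |s * (tpM X).det| ^ a ≤ |s| ^ a * ((n.factorial : ℝ) ^ a * ((n * a).factorial : ℝ)) *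
      Real.exp u := by
    rw [abs_mul, mul_pow, mul_assoc]
    refine mul_le_mul_of_nonneg_left ?_ (by positivity)
    calc |(tpM X).det| ^ a ≤ ((n.factorial : ℝ) * u ^ n) ^ a := by gcongr
      _ = (n.factorial : ℝ) ^ a * u ^ (n * a) := by rw [mul_pow, ← pow_mul]
      _ ≤ (n.factorial : ℝ) ^ a * (((n * a).factorial : ℝ) * Real.exp u) := by
          refine mul_le_mul_of_nonneg_left ?_ (by positivity)
          have := Real.pow_div_factorial_le_exp u hu0 (n * a)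
          rw [div_le_iff₀ (by positivity)] at this
          linarith
      _ = _ := by ring
  unfold tpF
  rw [abs_mul, abs_pow, Real.abs_exp]
  have h6 : Real.exp (-Real.pi * (β * fro (P * tpM X * Q))) ≤ Real.exp (-(α * u ^ 2)) := by
    apply Real.exp_le_exp.2
    linarith
  have h7 : Real.exp u * Real.exp (-(α * u ^ 2)) ≤ Real.exp (1 / α) * Real.exp (-(1 * u)) := by
    rw [← Real.exp_add, ← Real.exp_add]
    apply Real.exp_le_exp.2
    have h8 : 0 ≤ (α * u - 1) ^ 2 / α := by positivity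
    have h9 : (α * u - 1) ^ 2 / α = α * u ^ 2 - 2 * u + 1 / α := by
      field_simp
      ring
    linarith
  calc |s * (tpM X).det| ^ a * Real.exp (-Real.pi * (β * fro (P * tpM X * Q)))
      ≤ (|s| ^ a * ((n.factorial : ℝ) ^ a * ((n * a).factorial : ℝ)) * Real.exp u) *
        Real.exp (-(α * u ^ 2)) := by
        refine mul_le_mul h5 h6 (Real.exp_nonneg _) (by positivity)
    _ = |s| ^ a * ((n.factorial : ℝ) ^ a * ((n * a).factorial : ℝ)) *
        (Real.exp u * Real.exp (-(α * u ^ 2))) := by ring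
    _ ≤ |s| ^ a * ((n.factorial : ℝ) ^ a * ((n * a).factorial : ℝ)) *
        (Real.exp (1 / α) * Real.exp (-(1 * u))) :=
        mul_le_mul_of_nonneg_left h7 (by positivity)
    _ = _ := by ring

theorem tp_kron {n : ℕ} (P Q : Matrix (Fin n) (Fin n) ℝ) (X : Fin n × Fin n → ℝ) :
    tpM (Matrix.kroneckerMap (· * ·) P Qᵀ *ᵥ X) = P * tpM X * Q := by
  ext i j
  simp only [tpM, Matrix.of_apply, Matrix.mulVec, dotProduct, Matrix.kroneckerMap_apply,
    Matrix.transpose_apply, Matrix.mul_apply, Fintype.sum_prod_type, Finset.sum_mul]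
  rw [Finset.sum_comm]
  refine Finset.sum_congr rfl fun l _ => Finset.sum_congr rfl fun k _ => ?_
  ring

theorem tp_trace {n : ℕ} (A B : Matrix (Fin n) (Fin n) ℝ) :
    ∑ k : Fin n × Fin n, A k.1 k.2 * B k.1 k.2 = (Aᵀ * B).trace := by
  rw [Fintype.sum_prod_type, Finset.sum_comm]
  simp only [Matrix.trace, Matrix.diag, Matrix.mul_apply, Matrix.transpose_apply]

theorem tp_sq {d : ℝ} (h : |d| = 1) : d * d = 1 := by
  have := abs_mul_abs_self d
  rw [h] at this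
  linarith

theorem tp_ne {d : ℝ} (h : |d| = 1) : d ≠ 0 := by
  intro h0
  rw [h0, abs_zero] at h
  exact zero_ne_one h

theorem tp_inv_det {n : ℕ} {x : Matrix (Fin n) (Fin n) ℝ} (h : |x.det| = 1) :
    (x⁻¹).det = x.det := by
  rw [Matrix.det_nonsing_inv, Ring.inverse_eq_inv']
  exact inv_eq_of_mul_eq_one_left (tp_sq h)

/-- the Fourier transform -/
theorem tp_ft {n a : ℕ} (ha : a ≤ 1) {T : ℝ} (hT : 0 < T) {x y : Matrix (Fin n) (Fin n) ℝ}
    (hx : |x.det| = 1) (hy : |y.det| = 1) (K : Fin n × Fin n → ℝ) :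
    ∫ X : Fin n × Fin n → ℝ, ((tpF a (T ^ n) (T ^ 2) x⁻¹ y X : ℝ) : ℂ) *
        HZ.ee (-(∑ k, K k * X k)) =
      (-I) ^ (n * a) * (((T ^ (n ^ 2))⁻¹ : ℝ) : ℂ) *
        ((tpF a (T⁻¹ ^ n) (T⁻¹ ^ 2) xᵀ (y⁻¹)ᵀ K : ℝ) : ℂ) := by
  have hxu : IsUnit x.det := isUnit_iff_ne_zero.2 (tp_ne hx)
  have hyu : IsUnit y.det := isUnit_iff_ne_zero.2 (tp_ne hy)
  set L : Matrix (Fin n × Fin n) (Fin n × Fin n) ℝ :=
    Matrix.kroneckerMap (· * ·) (T • x⁻¹) yᵀ with hL
  have hLM : ∀ X, tpM (L *ᵥ X) = (T • x⁻¹) * tpM X * y := fun X => tp_kron _ _ X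
  have hdetL : |L.det| = T ^ (n ^ 2) := by
    have h1 : L.det = (T • x⁻¹).det ^ n * yᵀ.det ^ n := by
      have := Matrix.det_kronecker (T • x⁻¹) yᵀ
      rw [Fintype.card_fin] at this
      exact this
    rw [h1, Matrix.det_smul, Fintype.card_fin, tp_inv_det hx, Matrix.det_transpose, abs_mul,
      abs_pow, abs_pow, abs_mul, hx, hy, one_pow, mul_one, mul_one, abs_pow, abs_of_pos hT,
      ← pow_mul, sq]
  have hdetL0 : L.det ≠ 0 := by
    intro h0
    rw [h0, abs_zero] at hdetL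
    have : 0 < T ^ (n ^ 2) := by positivity
    linarith
  -- the dual variable
  set K' : Fin n × Fin n → ℝ := fun k => (T⁻¹ • (xᵀ * tpM K * (y⁻¹)ᵀ)) k.1 k.2 with hK'
  have hK'M : tpM K' = T⁻¹ • (xᵀ * tpM K * (y⁻¹)ᵀ) := by
    ext i j; rfl
  have hdual : ∀ X, ∑ k, K' k * (L *ᵥ X) k = ∑ k, K k * X k := by
    intro X
    have e1 : ∑ k, K' k * (L *ᵥ X) k =
        ∑ k : Fin n × Fin n, (tpM K') k.1 k.2 * (tpM (L *ᵥ X)) k.1 k.2 := rfl
    have e2 : ∑ k, K k * X k = ∑ k : Fin n × Fin n, (tpM K) k.1 k.2 * (tpM X) k.1 k.2 := rfl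
    rw [e1, e2, tp_trace, tp_trace, hK'M, hLM]
    have e3 : (T⁻¹ • (xᵀ * tpM K * (y⁻¹)ᵀ))ᵀ * (T • x⁻¹ * tpM X * y) =
        y⁻¹ * ((tpM K)ᵀ * tpM X * y) := by
      rw [Matrix.transpose_smul, Matrix.transpose_mul, Matrix.transpose_mul,
        Matrix.transpose_transpose, Matrix.transpose_transpose, Matrix.smul_mul,
        Matrix.smul_mul, Matrix.smul_mul, Matrix.mul_smul, smul_smul, inv_mul_cancel₀ hT.ne',
        one_smul]
      have e4 : x * x⁻¹ = 1 := Matrix.mul_nonsing_inv _ hxu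
      calc y⁻¹ * ((tpM K)ᵀ * x) * (x⁻¹ * tpM X * y)
          = y⁻¹ * ((tpM K)ᵀ * ((x * x⁻¹) * (tpM X * y))) := by simp only [Matrix.mul_assoc]
        _ = _ := by rw [e4, Matrix.one_mul, Matrix.mul_assoc]
    rw [e3, Matrix.trace_mul_comm, Matrix.mul_assoc, Matrix.mul_nonsing_inv _ hyu,
      Matrix.mul_one]
  set h : (Fin n × Fin n → ℝ) → ℂ := fun Z =>
    (((tpM Z).det ^ a * Real.exp (-Real.pi * fro (tpM Z)) : ℝ) : ℂ) *
      HZ.ee (-(∑ k, K' k * Z k)) with hh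
  have hhc : Continuous h := by
    have h1 := tp_continuous a 1 1 (1 : Matrix (Fin n) (Fin n) ℝ) 1
    have h2 : (fun Z : Fin n × Fin n → ℝ => ((tpM Z).det ^ a *
        Real.exp (-Real.pi * fro (tpM Z)) : ℝ)) = tpF a 1 1 (1 : Matrix (Fin n) (Fin n) ℝ) 1 := by
      funext Z
      unfold tpF
      rw [one_mul, one_mul, Matrix.one_mul, Matrix.mul_one]
    rw [← h2] at h1
    refine (Complex.continuous_ofReal.comp h1).mul (HZ.poi_ee_continuous.comp ?_)
    fun_prop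
  set ε : ℝ := x.det * y.det with hε
  have hεε : ε * ε = 1 := by
    calc ε * ε = (x.det * x.det) * (y.det * y.det) := by rw [hε]; ring
      _ = 1 := by rw [tp_sq hx, tp_sq hy, one_mul]
  have hint : ∀ X, ((tpF a (T ^ n) (T ^ 2) x⁻¹ y X : ℝ) : ℂ) * HZ.ee (-(∑ k, K k * X k)) =
      ((ε ^ a : ℝ) : ℂ) * h (Matrix.toLin' L X) := by
    intro X
    rw [Matrix.toLin'_apply, hh]
    simp only
    rw [hdual X, hLM X, ← mul_assoc, ← Complex.ofReal_mul]
    congr 2
    unfold tpF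
    rw [Matrix.smul_mul, Matrix.smul_mul, tp_fro_smul, Matrix.det_smul, Fintype.card_fin,
      Matrix.det_mul, Matrix.det_mul, tp_inv_det hx]
    have hE : (T ^ n * (tpM X).det) ^ a = ε ^ a * (T ^ n * (x.det * (tpM X).det * y.det)) ^ a := by
      rw [← mul_pow]
      congr 1
      calc T ^ n * (tpM X).det = (ε * ε) * (T ^ n * (tpM X).det) := by rw [hεε, one_mul]
        _ = _ := by rw [hε]; ring
    rw [hE, mul_assoc]
  have hmap : ∫ X : Fin n × Fin n → ℝ, h (Matrix.toLin' L X) =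
      (((T ^ (n ^ 2))⁻¹ : ℝ) : ℂ) * ∫ Z, h Z := by
    have h1 : ∫ X : Fin n × Fin n → ℝ, h (Matrix.toLin' L X) =
        ∫ Z, h Z ∂(Measure.map (Matrix.toLin' L) volume) := by
      rw [integral_map]
      · exact (LinearMap.continuous_of_finiteDimensional _).aemeasurable
      · exact hhc.aestronglyMeasurable
    rw [h1, Real.map_matrix_volume_pi_eq_smul_volume_pi hdetL0, integral_smul_measure,
      ENNReal.toReal_ofReal (abs_nonneg _), abs_inv, hdetL]
    rfl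
  simp_rw [hint]
  rw [integral_const_mul, hmap]
  have hg := gau_ft n a ha K'
  have hg' : ∫ Z, h Z = (-I) ^ (n * a) * (((tpM K').det ^ a *
      Real.exp (-Real.pi * fro (tpM K')) : ℝ) : ℂ) := hg
  rw [hg', hK'M, Matrix.det_smul, Fintype.card_fin, Matrix.det_mul, Matrix.det_mul,
    Matrix.det_transpose, Matrix.det_transpose, tp_inv_det hy, tp_fro_smul]
  unfold tpF
  have hfin : ε ^ a * (T⁻¹ ^ n * (x.det * (tpM K).det * y.det)) ^ a =
      (T⁻¹ ^ n * (tpM K).det) ^ a := by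
    rw [← mul_pow]
    congr 1
    calc ε * (T⁻¹ ^ n * (x.det * (tpM K).det * y.det)) = (ε * ε) * (T⁻¹ ^ n * (tpM K).det) := by
          rw [hε]; ring
      _ = _ := by rw [hεε, one_mul]
  rw [← hfin]
  push_cast
  ring

/-- division with remainder for matrices -/
noncomputable def tpE (n q : ℕ) [NeZero q] :
    Matrix (Fin n) (Fin n) ℤ ≃ Matrix (Fin n) (Fin n) (ZMod q) × (Fin n × Fin n → ℤ) where
  toFun A := (A.map (fun z : ℤ => (z : ZMod q)), fun k => A k.1 k.2 / q)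
  invFun p := Matrix.of fun i j => ((p.1 i j).val : ℤ) + q * p.2 (i, j)
  left_inv A := by
    ext i j
    simp only [Matrix.of_apply, Matrix.map_apply, ZMod.val_intCast]
    exact Int.emod_add_mul_ediv (A i j) q
  right_inv p := by
    have hq : (0 : ℤ) < q := by exact_mod_cast Nat.pos_of_ne_zero (NeZero.ne q)
    refine Prod.ext ?_ ?_
    · ext i j
      simp only [Matrix.of_apply, Matrix.map_apply, Int.cast_add, Int.cast_natCast,
        ZMod.natCast_zmod_val, Int.cast_mul, ZMod.natCast_self, zero_mul, add_zero]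
    · funext k
      simp only [Matrix.of_apply]
      rw [Int.add_mul_ediv_left _ _ hq.ne', Int.ediv_eq_zero_of_lt (by positivity)
        (by exact_mod_cast ZMod.val_lt _), zero_add]

/-- functions of pairs as matrices -/
def tpC (n : ℕ) : (Fin n × Fin n → ℤ) ≃ Matrix (Fin n) (Fin n) ℤ :=
  (Equiv.curry (Fin n) (Fin n) ℤ).trans Matrix.of

theorem tpC_apply {n : ℕ} (K : Fin n × Fin n → ℤ) (i j : Fin n) : tpC n K i j = K (i, j) := rfl

theorem th_pois_pr {n q a : ℕ} [NeZero q] (ha : a ≤ 1) (χ : DirichletCharacter ℂ q) {t : ℝ}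
    (ht : 0 < t) {x y : Matrix (Fin n) (Fin n) ℝ} (hx : |x.det| = 1) (hy : |y.det| = 1) :
    th χ a t x y = (-I) ^ (n * a) / (q : ℂ) ^ (n ^ 2) * (((t ^ (n ^ 2))⁻¹ : ℝ) : ℂ) *
      ∑' C : Matrix (Fin n) (Fin n) ℤ, gs χ (C.map (fun z : ℤ => (z : ZMod q))) *
        ((((((t * q)⁻¹) ^ n * ((C.det : ℤ) : ℝ)) ^ a *
          Real.exp (-Real.pi * (((t * q)⁻¹) ^ 2 * fro (y⁻¹ * (intM C)ᵀ * x)))) : ℝ) : ℂ) := by
  have hq0 : (0 : ℝ) < q := by exact_mod_cast Nat.pos_of_ne_zero (NeZero.ne q)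
  have hxu : x.det ≠ 0 := tp_ne hx
  have hyu : y.det ≠ 0 := tp_ne hy
  set T : ℝ := t * q with hT
  have hT0 : 0 < T := by positivity
  -- the function
  set f : (Fin n × Fin n → ℝ) → ℂ := fun X => ((tpF a (T ^ n) (T ^ 2) x⁻¹ y X : ℝ) : ℂ) with hf
  have hfc : Continuous f := Complex.continuous_ofReal.comp (tp_continuous _ _ _ _ _)
  have hxi : (x⁻¹).det ≠ 0 := by rw [tp_inv_det hx]; exact hxu
  obtain ⟨C, hC0, hC⟩ := tp_decay a (T ^ n) (β := T ^ 2) (by positivity) hxi hyu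
  have hfC : ∀ X, ‖f X‖ ≤ C * Real.exp (-(1 * ‖X‖)) := by
    intro X
    rw [hf]
    simp only
    rw [Complex.norm_real]
    exact hC X
  -- the Fourier coefficients
  set G : (Fin n × Fin n → ℤ) → ℂ := fun K =>
    ((tpF a (T⁻¹ ^ n) (T⁻¹ ^ 2) xᵀ (y⁻¹)ᵀ (fun k => (K k : ℝ)) : ℝ) : ℂ) with hG
  have hcoef : ∀ K : Fin n × Fin n → ℤ, ∫ X : Fin n × Fin n → ℝ, f X *
      HZ.ee (-(∑ k, (K k : ℝ) * X k)) = (-I) ^ (n * a) * (((T ^ (n ^ 2))⁻¹ : ℝ) : ℂ) * G K :=
    fun K => tp_ft ha hT0 hx hy (fun k => (K k : ℝ))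
  have hyi : ((y⁻¹)ᵀ).det ≠ 0 := by rw [Matrix.det_transpose, tp_inv_det hy]; exact hyu
  have hxt : (xᵀ).det ≠ 0 := by rw [Matrix.det_transpose]; exact hxu
  obtain ⟨C', hC0', hC'⟩ := tp_decay a (T⁻¹ ^ n) (β := T⁻¹ ^ 2) (by positivity) hxt hyi
  have hGs : Summable fun K => ‖G K‖ := by
    refine Summable.of_nonneg_of_le (fun _ => norm_nonneg _) (fun K => ?_)
      ((HZ.poi_summable_exp (ι := Fin n × Fin n) one_pos).mul_left C')
    rw [hG]
    simp only
    rw [Complex.norm_real]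
    exact hC' _
  have hs : Summable fun K : Fin n × Fin n → ℤ => ‖∫ X : Fin n × Fin n → ℝ, f X *
      HZ.ee (-(∑ k, (K k : ℝ) * X k))‖ := by
    simp_rw [hcoef, norm_mul]
    exact hGs.mul_left _
  have hpois := fun z => HZ.poisson f hfc C 1 one_pos hfC hs z
  -- the terms of the theta series
  have hterm : ∀ p : Matrix (Fin n) (Fin n) (ZMod q) × (Fin n × Fin n → ℤ),
      thT χ a t x y ((tpE n q).symm p) = χ p.1.det *
        f (fun k => ((p.1 k.1 k.2).val : ℝ) / q + (p.2 k : ℝ)) := by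
    rintro ⟨B, M⟩
    set A := (tpE n q).symm (B, M) with hA
    have hA1 : A.map (fun z : ℤ => (z : ZMod q)) = B := congrArg Prod.fst ((tpE n q).apply_symm_apply (B, M))
    have hAij : ∀ i j, A i j = ((B i j).val : ℤ) + q * M (i, j) := fun i j => rfl
    have hdet : ((A.det : ℤ) : ZMod q) = B.det := by
      rw [← hA1]
      exact Int.cast_det A
    have hAM : intM A = (q : ℝ) • tpM (fun k => ((B k.1 k.2).val : ℝ) / q + (M k : ℝ)) := by
      ext i j
      simp only [intM, Matrix.map_apply, Matrix.smul_apply, tpM, Matrix.of_apply, smul_eq_mul]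
      rw [hAij]
      push_cast
      field_simp
    have hdetR : ((A.det : ℤ) : ℝ) = (q : ℝ) ^ n *
        (tpM (fun k => ((B k.1 k.2).val : ℝ) / q + (M k : ℝ))).det := by
      have e1 : ((A.det : ℤ) : ℝ) = (intM A).det := Int.cast_det A
      rw [e1, hAM, Matrix.det_smul, Fintype.card_fin]
    unfold thT
    rw [hdet]
    congr 1
    rw [hf]
    simp only
    unfold tpF
    rw [hdetR, hAM, Matrix.mul_smul, Matrix.smul_mul, tp_fro_smul]
    have e1 : ∀ D : ℝ, t ^ n * ((q : ℝ) ^ n * D) = T ^ n * D := by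
      intro D; rw [hT, mul_pow]; ring
    have e2 : ∀ D : ℝ, t ^ 2 * ((q : ℝ) ^ 2 * D) = T ^ 2 * D := by
      intro D; rw [hT, mul_pow]; ring
    rw [e1, e2]
  have hsum : Summable fun A : Matrix (Fin n) (Fin n) ℤ => thT χ a t x y A :=
    (thT_summable χ a ht hxu hyu).of_norm
  have hsum2 : Summable fun p : Matrix (Fin n) (Fin n) (ZMod q) × (Fin n × Fin n → ℤ) =>
      thT χ a t x y ((tpE n q).symm p) := (Equiv.summable_iff (tpE n q).symm).2 hsum
  have hth : th χ a t x y = ∑ B : Matrix (Fin n) (Fin n) (ZMod q),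
      ∑' M : Fin n × Fin n → ℤ, thT χ a t x y ((tpE n q).symm (B, M)) := by
    unfold th
    rw [← (tpE n q).symm.tsum_eq, hsum2.tsum_prod, tsum_fintype]
  rw [hth]
  have hB : ∀ B : Matrix (Fin n) (Fin n) (ZMod q),
      ∑' M : Fin n × Fin n → ℤ, thT χ a t x y ((tpE n q).symm (B, M)) =
      ∑' K : Fin n × Fin n → ℤ, (-I) ^ (n * a) * (((T ^ (n ^ 2))⁻¹ : ℝ) : ℂ) * G K *
        (χ B.det * HZ.ee (∑ k, (K k : ℝ) * (((B k.1 k.2).val : ℝ) / q))) := by
    intro B
    simp_rw [hterm]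
    rw [tsum_mul_left, hpois (fun k => ((B k.1 k.2).val : ℝ) / q)]
    simp_rw [hcoef]
    rw [← tsum_mul_left]
    refine tsum_congr fun K => ?_
    ring
  simp_rw [hB]
  have hsumB : ∀ B ∈ (Finset.univ : Finset (Matrix (Fin n) (Fin n) (ZMod q))),
      Summable fun K : Fin n × Fin n → ℤ => (-I) ^ (n * a) * (((T ^ (n ^ 2))⁻¹ : ℝ) : ℂ) * G K *
        (χ B.det * HZ.ee (∑ k, (K k : ℝ) * (((B k.1 k.2).val : ℝ) / q))) := by
    intro B _
    refine Summable.of_norm_bounded (hGs.mul_left ‖(-I) ^ (n * a) * (((T ^ (n ^ 2))⁻¹ : ℝ) : ℂ)‖)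
      fun K => ?_
    rw [norm_mul, norm_mul ((-I) ^ (n * a) * (((T ^ (n ^ 2))⁻¹ : ℝ) : ℂ)) (G K), norm_mul (χ B.det),
      HZ.poi_ee_norm, mul_one]
    exact mul_le_of_le_one_right (by positivity) (DirichletCharacter.norm_le_one _ _)
  rw [← Summable.tsum_finsetSum hsumB, ← tsum_mul_left, ← (tpC n).tsum_eq]
  refine tsum_congr fun K => ?_
  rw [← Finset.mul_sum]
  -- the Gauss sum
  have hgs : ∑ B : Matrix (Fin n) (Fin n) (ZMod q), (χ B.det *
      HZ.ee (∑ k, (K k : ℝ) * (((B k.1 k.2).val : ℝ) / q))) =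
      gs χ (Matrix.map (tpC n K) (fun z : ℤ => (z : ZMod q))) := by
    unfold gs
    refine Finset.sum_congr rfl fun B _ => ?_
    congr 1
    have e1 : ∑ i, ∑ j, B i j * (Matrix.map (tpC n K)
        (fun z : ℤ => (z : ZMod q))) i j =
        ((∑ k : Fin n × Fin n, ((B k.1 k.2).val : ℤ) * K k : ℤ) : ZMod q) := by
      rw [Fintype.sum_prod_type]
      push_cast
      refine Finset.sum_congr rfl fun i _ => Finset.sum_congr rfl fun j _ => ?_
      rw [ZMod.natCast_zmod_val]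
      rfl
    rw [e1, ZMod.stdAddChar_coe]
    unfold HZ.ee
    congr 1
    push_cast
    rw [mul_div_assoc, Finset.sum_div]
    congr 1
    refine Finset.sum_congr rfl fun k _ => ?_
    ring
  rw [hgs]
  have hGK : G K = ((((T⁻¹) ^ n * (((tpC n K).det : ℤ) : ℝ)) ^ a *
      Real.exp (-Real.pi * ((T⁻¹) ^ 2 * fro (y⁻¹ *
        (intM (tpC n K))ᵀ * x))) : ℝ) : ℂ) := by
    rw [hG]
    simp only
    unfold tpF
    have e1 : tpM (fun k => (K k : ℝ)) = intM (tpC n K) := by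
      ext i j; rfl
    have e2 : (intM (tpC n K)).det =
        (((tpC n K).det : ℤ) : ℝ) := (Int.cast_det _).symm
    rw [e1, e2]
    congr 2
    rw [← tp_fro_transpose (xᵀ * _ * (y⁻¹)ᵀ), Matrix.transpose_mul, Matrix.transpose_mul,
      Matrix.transpose_transpose, Matrix.transpose_transpose, Matrix.mul_assoc]
  rw [hGK]
  have hTq : (((T ^ (n ^ 2))⁻¹ : ℝ) : ℂ) = (((t ^ (n ^ 2))⁻¹ : ℝ) : ℂ) / (q : ℂ) ^ (n ^ 2) := by
    rw [hT, mul_pow, mul_inv]
    push_cast
    rw [div_eq_mul_inv]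
  rw [hTq]
  ring

alias th_pois := th_pois_pr

end Pool.Agent.GJ
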