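import Pool.Agent.Lib_helper19.GJ.Defs
import Pool.Agent.Lib_helper19.GJ.GS
import Pool.Agent.Lib_helper19.GJ.TP

/-! GJ, block TF -/

namespace Pool.Agent.GJ

open Complex MeasureTheory Filter Topology Matrix
open Pool.Agent.G4 (par RSB)
open Pool.Agent.RS (Mt SLZ toR lm Xs wG cut cube)
open scoped ENNReal

/-- TF: the functional equation of the theta kernel -/
theorem th_fe_pr {n q a : ℕ} [NeZero q] (ha : a ≤ 1) {χ : DirichletCharacter ℂ q}
    (hχ : χ.IsPrimitive) {t : ℝ} (ht : 0 < t) {x y : Matrix (Fin n) (Fin n) ℝ}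
    (hx : |x.det| = 1) (hy : |y.det| = 1) :
    th χ a t x y = gs χ (1 : Matrix (Fin n) (Fin n) (ZMod q)) * (-I) ^ (n * a) /
      (q : ℂ) ^ (n ^ 2) * (((t ^ (n ^ 2))⁻¹ : ℝ) : ℂ) *
      starRingEnd ℂ (th χ a ((t * q)⁻¹) y x) := by
  rw [th_pois ha χ ht hx hy]
  have h1 : (∑' C : Matrix (Fin n) (Fin n) ℤ, gs χ (C.map (fun z : ℤ => (z : ZMod q))) *
        ((((((t * q)⁻¹) ^ n * ((C.det : ℤ) : ℝ)) ^ a *
          Real.exp (-Real.pi * (((t * q)⁻¹) ^ 2 * fro (y⁻¹ * (intM C)ᵀ * x)))) : ℝ) : ℂ)) =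
      gs χ (1 : Matrix (Fin n) (Fin n) (ZMod q)) *
        starRingEnd ℂ (th χ a ((t * q)⁻¹) y x) := by
    have hT : Function.Involutive
        (Matrix.transpose : Matrix (Fin n) (Fin n) ℤ → Matrix (Fin n) (Fin n) ℤ) :=
      Matrix.transpose_transpose
    rw [← (Function.Involutive.toPerm _ hT).tsum_eq, th, Complex.conj_tsum, ← tsum_mul_left]
    refine tsum_congr fun C => ?_
    have e1 : (Function.Involutive.toPerm _ hT) C = Cᵀ := rfl
    rw [e1]
    have hdet : (Cᵀ.map (fun z : ℤ => (z : ZMod q))).det = ((C.det : ℤ) : ZMod q) := by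
      have h2 := (Int.castRingHom (ZMod q)).map_det Cᵀ
      rw [Matrix.det_transpose] at h2
      exact h2.symm
    have hint : (intM Cᵀ)ᵀ = intM C := by
      ext i j
      simp [intM]
    rw [gs_eq hχ, hdet, hint, Matrix.det_transpose, thT, map_mul, Complex.conj_ofReal]
    ring
  rw [h1]
  ring

alias th_fe := th_fe_pr

end Pool.Agent.GJ
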