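import Pool.Agent.Lib_helper19.GJ.Defs
import Pool.Agent.Lib_helper19.GJ.JB
import Pool.Agent.Lib_helper19.GJ.NZ
import Pool.Agent.Lib_helper19.GJ.TF

/-! Block JF: the functional equation of the double theta integral. -/

namespace Pool.Agent.GJ

open Complex MeasureTheory Filter Topology Matrix
open Pool.Agent.G4 (par RSB)
open Pool.Agent.RS (Mt SLZ toR lm Xs wG cut cube)
open scoped ENNReal

variable {n : ℕ} {e : Fin 2} {ν : Fin n → ℂ} {lam : ℕ → ℂ} {φ : Matrix (Fin n) (Fin n) ℝ → ℂ}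

theorem jj_fe_pr (h : SphericalForm n e ν lam φ) (hn : 0 < n) {q : ℕ} [NeZero q] (hq : 1 < q)
    {χ : DirichletCharacter ℂ q} (hχ : χ.IsPrimitive) {a : ℕ} (ha : a ≤ 1) {t : ℝ}
    (ht : 0 < t) : JJ φ χ a t = gs χ (1 : Matrix (Fin n) (Fin n) (ZMod q)) * (-I) ^ (n * a) /
      (q : ℂ) ^ (n ^ 2) * (((t ^ (n ^ 2))⁻¹ : ℝ) : ℂ) *
      starRingEnd ℂ (JJ φ χ a ((t * q)⁻¹)) := by
  have hq0 : (0 : ℝ) < q := by exact_mod_cast (by omega : 0 < q)
  have ht' : 0 < (t * q)⁻¹ := by positivity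
  have hint := jj_int h hn hq χ a ht'
  have h1 : JJ φ χ a ((t * q)⁻¹) = ∫ y in Xs n, ∫ x in Xs n,
      (((wG x).toReal * (wG y).toReal : ℝ) : ℂ) *
        (starRingEnd ℂ (φ (Matrix.of x)) * φ (Matrix.of y)) *
          th χ a ((t * q)⁻¹) (nz x) (nz y) := by
    rw [JJ]
    exact integral_integral_swap (f := fun x y : Mt n => (((wG x).toReal * (wG y).toReal : ℝ) : ℂ) *
        (starRingEnd ℂ (φ (Matrix.of x)) * φ (Matrix.of y)) *
          th χ a ((t * q)⁻¹) (nz x) (nz y)) hint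
  rw [h1, ← integral_conj, JJ, ← integral_const_mul]
  refine setIntegral_congr_fun (RS.measurableSet_Xs n) fun x hx => ?_
  rw [← integral_conj, ← integral_const_mul]
  refine setIntegral_congr_fun (RS.measurableSet_Xs n) fun y hy => ?_
  rw [th_fe ha hχ ht (nz_det hn (RS.Xs_det_ne hx)) (nz_det hn (RS.Xs_det_ne hy))]
  simp only [map_mul, Complex.conj_ofReal, Complex.conj_conj]
  push_cast
  ring


alias jj_fe := jj_fe_pr

end Pool.Agent.GJ
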