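import Pool.Agent.Lib_helper19.GJ.Defs
import Pool.Agent.Lib_helper19.GJ.GB

/-! Block GK: the local integral at the archimedean place: majorant and measurability. -/

namespace Pool.Agent.GJ

open Complex MeasureTheory Filter Topology Matrix
open Pool.Agent.G4 (par RSB)
open Pool.Agent.RS (Mt SLZ toR lm Xs wG cut cube)
open scoped ENNReal

variable {n : ℕ} {e : Fin 2} {ν : Fin n → ℂ} {lam : ℕ → ℂ} {φ : Matrix (Fin n) (Fin n) ℝ → ℂ}

theorem gk_meas_nz (n : ℕ) (i j : Fin n) : Measurable fun Y : Mt n => nz Y i j := by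
  have h1 : Measurable fun Y : Mt n => Y i j := (measurable_pi_apply j).comp (measurable_pi_apply i)
  have h2 : Measurable fun Y : Mt n => |(Matrix.of Y).det| ^ ((n : ℝ)⁻¹) :=
    (RS.measurable_det n).abs.pow_const _
  exact h1.div h2

theorem gk_meas_fro (n : ℕ) : Measurable fun Y : Mt n => fro (nz Y) := by
  unfold fro
  exact Finset.measurable_fun_sum _ fun i _ => Finset.measurable_fun_sum _ fun j _ =>
    (gk_meas_nz n i j).pow_const 2

theorem gk_det_nz {Y : Mt n} (hY : (Matrix.of Y).det ≠ 0) : (nz Y).det ≠ 0 := by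
  have h1 : nz Y = (|(Matrix.of Y).det| ^ ((n : ℝ)⁻¹))⁻¹ • Matrix.of Y := by
    ext i j
    simp only [nz, Matrix.of_apply, Matrix.smul_apply, smul_eq_mul]
    rw [div_eq_inv_mul]
  rw [h1, Matrix.det_smul]
  have h2 : 0 < |(Matrix.of Y).det| := abs_pos.2 hY
  have h3 : 0 < |(Matrix.of Y).det| ^ ((n : ℝ)⁻¹) := Real.rpow_pos_of_pos h2 _
  exact mul_ne_zero (pow_ne_zero _ (inv_ne_zero h3.ne')) hY

theorem gk_le_pr (h : SphericalForm n e ν lam φ) (hn : 0 < n) : ∃ M : ℝ, 0 ≤ M ∧
    ∀ (a : ℕ) (τ : ℝ), 0 < τ → ∀ y : Matrix (Fin n) (Fin n) ℝ, y.det ≠ 0 →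
      ‖Gk φ a τ y‖ ≤ M * Gb n a τ := by
  obtain ⟨M, hM⟩ := h.bounded
  refine ⟨max M 0, le_max_right _ _, fun a τ hτ y hy => ?_⟩
  have hi := (gb_bound n a hn).1 τ hτ
  rw [Gk, Gb, ← integral_const_mul]
  refine norm_integral_le_of_norm_le (hi.const_mul _) ?_
  refine (ae_restrict_mem (RS.measurableSet_Xs n)).mono fun Z hZ => ?_
  rw [norm_mul, Complex.norm_real, Real.norm_of_nonneg (by positivity)]
  have hd : (y * Matrix.of Z).det ≠ 0 := by
    rw [Matrix.det_mul]
    exact mul_ne_zero hy (RS.Xs_det_ne hZ)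
  exact mul_le_mul_of_nonneg_right ((hM _ hd).trans (le_max_left _ _)) (by positivity)

theorem gk_meas_pr (h : SphericalForm n e ν lam φ) (a : ℕ) (y : Matrix (Fin n) (Fin n) ℝ)
    (hy : y.det ≠ 0) : Measurable fun p : ℝ × Mt n => if (Matrix.of p.2).det = 0 then 0 else
      Gk φ a p.1 (y * nz p.2) := by
  have hc : Measurable (cut φ) := RS.measurable_cut h.continuous
  have h1 : Measurable fun p : (ℝ × Mt n) × Mt n =>
      (Matrix.of.symm (y * nz p.1.2 * Matrix.of p.2) : Mt n) := by
    refine measurable_pi_lambda _ fun i => measurable_pi_lambda _ fun j => ?_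
    simp only [Matrix.of_symm_apply, Matrix.mul_apply, Matrix.of_apply]
    refine Finset.measurable_fun_sum _ fun k _ => Measurable.mul ?_ ?_
    · refine Finset.measurable_fun_sum _ fun l _ => Measurable.mul measurable_const ?_
      exact (gk_meas_nz n l k).comp (measurable_snd.comp measurable_fst)
    · have h0 : Measurable fun Y : Mt n => Y k j :=
        (measurable_pi_apply j).comp (measurable_pi_apply k)
      exact h0.comp measurable_snd
  have h2 : Measurable fun p : (ℝ × Mt n) × Mt n =>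
      cut φ (Matrix.of.symm (y * nz p.1.2 * Matrix.of p.2)) *
        ((p.1.1 ^ (n * a) * Real.exp (-Real.pi * (p.1.1 ^ 2 * fro (nz p.2))) : ℝ) : ℂ) := by
    refine (hc.comp h1).mul (Complex.measurable_ofReal.comp ?_)
    refine ((measurable_fst.comp measurable_fst).pow_const _).mul (Real.measurable_exp.comp ?_)
    refine Measurable.const_mul ?_ _
    exact ((measurable_fst.comp measurable_fst).pow_const 2).mul
      ((gk_meas_fro n).comp measurable_snd)
  have h3 : Measurable fun p : ℝ × Mt n => ∫ Z in Xs n,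
      cut φ (Matrix.of.symm (y * nz p.2 * Matrix.of Z)) *
        ((p.1 ^ (n * a) * Real.exp (-Real.pi * (p.1 ^ 2 * fro (nz Z))) : ℝ) : ℂ) :=
    (h2.stronglyMeasurable.integral_prod_right' (ν := volume.restrict (Xs n))).measurable
  have h4 : MeasurableSet {p : ℝ × Mt n | (Matrix.of p.2).det = 0} :=
    measurableSet_eq_fun ((RS.measurable_det n).comp measurable_snd) measurable_const
  have h5 : (fun p : ℝ × Mt n => if (Matrix.of p.2).det = 0 then 0 else
      Gk φ a p.1 (y * nz p.2)) = fun p : ℝ × Mt n => if (Matrix.of p.2).det = 0 then 0 else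
        ∫ Z in Xs n, cut φ (Matrix.of.symm (y * nz p.2 * Matrix.of Z)) *
        ((p.1 ^ (n * a) * Real.exp (-Real.pi * (p.1 ^ 2 * fro (nz Z))) : ℝ) : ℂ) := by
    funext p
    split_ifs with hp
    · rfl
    · rw [Gk]
      refine setIntegral_congr_fun (RS.measurableSet_Xs n) fun Z hZ => ?_
      have hd : (Matrix.of (Matrix.of.symm (y * nz p.2 * Matrix.of Z))).det ≠ 0 := by
        rw [Equiv.apply_symm_apply, Matrix.det_mul, Matrix.det_mul]
        exact mul_ne_zero (mul_ne_zero hy (gk_det_nz hp)) (RS.Xs_det_ne hZ)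
      rw [RS.cut_of_ne φ hd, Equiv.apply_symm_apply]
  rw [h5]
  exact Measurable.ite h4 measurable_const h3


alias gk_le := gk_le_pr
alias gk_meas := gk_meas_pr

end Pool.Agent.GJ
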