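import Pool.Agent.Lib_helper19.GJ.Defs

namespace Pool.Agent.GJ

open Complex MeasureTheory Filter Topology Matrix
open Pool.Agent.G4 (par RSB)
open Pool.Agent.RS (Mt SLZ toR lm Xs wG cut cube)
open scoped ENNReal

theorem po_fin (n : ℕ) : Module.finrank ℝ (Mt n) = n * n := by
  rw [Module.finrank_pi_fintype]
  simp

theorem po_mem {n : ℕ} {t : ℝ} (ht : 0 < t) (g : Mt n) :
    t⁻¹ • g ∈ Xs n ↔ (t ^ n ≤ |(Matrix.of g).det| ∧ |(Matrix.of g).det| ≤ 2 * t ^ n) := by
  have h1 : (Matrix.of (t⁻¹ • g)).det = t⁻¹ ^ n * (Matrix.of g).det := by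
    have h2 : (Matrix.of (t⁻¹ • g) : Matrix (Fin n) (Fin n) ℝ) = t⁻¹ • Matrix.of g := rfl
    rw [h2, Matrix.det_smul, Fintype.card_fin]
  have ht2 : 0 < t ^ n := pow_pos ht n
  unfold Xs
  rw [Set.mem_ofPred_eq, h1, abs_mul, abs_of_pos (pow_pos (inv_pos.mpr ht) n), inv_pow,
    inv_mul_eq_div, le_div_iff₀ ht2, div_le_iff₀ ht2, one_mul]

theorem po_scale {n : ℕ} {t : ℝ} (ht : 0 < t) (F : Mt n → ℝ≥0∞) (hF : Measurable F) :
    ∫⁻ Z in Xs n, F (t • Z) = ∫⁻ g : Mt n,
      (if t ^ n ≤ |(Matrix.of g).det| ∧ |(Matrix.of g).det| ≤ 2 * t ^ n then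
        ENNReal.ofReal ((t ^ (n * n))⁻¹) else 0) * F g := by
  have hS := Pool.Agent.RS.measurableSet_Xs n
  set G : Mt n → ℝ≥0∞ := fun g => (Xs n).indicator (fun Z => F (t • Z)) (t⁻¹ • g) with hG
  have hGm : Measurable G := by
    apply Measurable.comp (Measurable.indicator _ hS) (measurable_const_smul t⁻¹)
    exact hF.comp (measurable_const_smul t)
  have e1 : ∫⁻ Z in Xs n, F (t • Z) = ∫⁻ Z : Mt n, G (t • Z) := by
    rw [← lintegral_indicator hS]
    apply lintegral_congr
    intro Z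
    rw [hG]
    simp only
    rw [smul_smul, inv_mul_cancel₀ ht.ne', one_smul]
  have e2 : ∫⁻ Z : Mt n, G (t • Z) = ∫⁻ g : Mt n, G g ∂(Measure.map (fun x => t • x) volume) := by
    rw [lintegral_map hGm (measurable_const_smul t)]
  rw [e1, e2, Measure.map_addHaar_smul _ ht.ne', lintegral_smul_measure, po_fin, smul_eq_mul,
    ← lintegral_const_mul _ hGm]
  apply lintegral_congr
  intro g
  rw [hG]
  simp only
  by_cases h : t⁻¹ • g ∈ Xs n
  · rw [Set.indicator_of_mem h, if_pos ((po_mem ht g).mp h), smul_smul, mul_inv_cancel₀ ht.ne',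
      one_smul, abs_of_pos (inv_pos.mpr (pow_pos ht _))]
  · rw [Set.indicator_of_notMem h, if_neg (fun h2 => h ((po_mem ht g).mpr h2)), mul_zero, zero_mul]

theorem po_one {n : ℕ} (hn : 0 < n) (D : ℝ) (hD : 0 ≤ D) :
    ∫⁻ t in Set.Ioi (0 : ℝ), (if t ^ n ≤ D ∧ D ≤ 2 * t ^ n then
      ENNReal.ofReal ((t ^ (n * n))⁻¹) else 0) * ENNReal.ofReal t⁻¹ =
      ENNReal.ofReal ((2 ^ n - 1) / (n : ℝ) ^ 2) * ENNReal.ofReal ((D ^ n)⁻¹) := by
  rcases hD.eq_or_lt with h0 | h0
  · rw [← h0, zero_pow hn.ne', _root_.inv_zero, ENNReal.ofReal_zero, mul_zero]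
    rw [setLIntegral_congr_fun (g := fun _ => 0) measurableSet_Ioi]
    · simp
    · intro t ht
      have ht2 : 0 < t ^ n := pow_pos ht n
      simp only
      rw [if_neg (fun h => absurd h.1 (not_le.mpr ht2)), zero_mul]
  · set a : ℝ := (D / 2) ^ ((n : ℝ)⁻¹) with ha
    set b : ℝ := D ^ ((n : ℝ)⁻¹) with hb
    have hD2 : 0 < D / 2 := by linarith
    have ha0 : 0 < a := Real.rpow_pos_of_pos hD2 _
    have hb0 : 0 < b := Real.rpow_pos_of_pos h0 _
    have han : a ^ n = D / 2 := Real.rpow_inv_natCast_pow hD2.le hn.ne'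
    have hbn : b ^ n = D := Real.rpow_inv_natCast_pow h0.le hn.ne'
    have hab : a ≤ b := by
      apply Real.rpow_le_rpow hD2.le (by linarith) (by positivity)
    have h1 : ∫⁻ t in Set.Ioi (0 : ℝ), (if t ^ n ≤ D ∧ D ≤ 2 * t ^ n then
        ENNReal.ofReal ((t ^ (n * n))⁻¹) else 0) * ENNReal.ofReal t⁻¹ =
        ∫⁻ t in Set.Ioi (0 : ℝ), (Set.Icc a b).indicator
          (fun t => ENNReal.ofReal (t ^ (-((n * n + 1 : ℕ) : ℤ)))) t := by
      apply setLIntegral_congr_fun measurableSet_Ioi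
      intro t ht
      have ht0 : 0 < t := ht
      simp only
      by_cases hm : t ∈ Set.Icc a b
      · have c1 : t ^ n ≤ D := by
          rw [← hbn]; exact pow_le_pow_left₀ ht0.le hm.2 n
        have c2 : D ≤ 2 * t ^ n := by
          have : D / 2 ≤ t ^ n := by rw [← han]; exact pow_le_pow_left₀ ha0.le hm.1 n
          linarith
        rw [if_pos ⟨c1, c2⟩, Set.indicator_of_mem hm, ← ENNReal.ofReal_mul (by positivity)]
        congr 1
        rw [_root_.zpow_neg, zpow_natCast, pow_succ, mul_inv]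
      · rw [Set.indicator_of_notMem hm, if_neg, zero_mul]
        rintro ⟨c1, c2⟩
        apply hm
        constructor
        · by_contra hlt
          push Not at hlt
          have : t ^ n < a ^ n := pow_lt_pow_left₀ hlt ht0.le hn.ne'
          rw [han] at this
          linarith
        · by_contra hlt
          push Not at hlt
          have : b ^ n < t ^ n := pow_lt_pow_left₀ hlt hb0.le hn.ne'
          rw [hbn] at this
          linarith
    rw [h1, setLIntegral_indicator measurableSet_Icc]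
    have h2 : Set.Icc a b ∩ Set.Ioi 0 = Set.Icc a b := by
      apply Set.inter_eq_left.mpr
      intro t ht
      exact lt_of_lt_of_le ha0 ht.1
    rw [h2]
    have hcont : ContinuousOn (fun t : ℝ => t ^ (-((n * n + 1 : ℕ) : ℤ))) (Set.Icc a b) := by
      intro t ht
      exact (continuousAt_zpow₀ t _ (Or.inl (lt_of_lt_of_le ha0 ht.1).ne')).continuousWithinAt
    have hint : IntegrableOn (fun t : ℝ => t ^ (-((n * n + 1 : ℕ) : ℤ))) (Set.Icc a b) :=
      hcont.integrableOn_Icc
    rw [← ofReal_integral_eq_lintegral_ofReal hint]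
    · rw [integral_Icc_eq_integral_Ioc, ← intervalIntegral.integral_of_le hab, integral_zpow]
      · rw [← ENNReal.ofReal_mul]
        · congr 1
          have e1 : -((n * n + 1 : ℕ) : ℤ) + 1 = -((n * n : ℕ) : ℤ) := by push_cast; ring
          rw [e1, _root_.zpow_neg, _root_.zpow_neg, zpow_natCast, zpow_natCast, pow_mul, pow_mul, han, hbn]
          have hn' : (n : ℝ) ≠ 0 := by exact_mod_cast hn.ne'
          have hDn : D ^ n ≠ 0 := (pow_pos h0 n).ne'
          push_cast
          rw [div_pow]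
          field_simp
          ring
        · apply div_nonneg _ (by positivity)
          have : (1 : ℝ) ≤ 2 ^ n := one_le_pow₀ (by norm_num)
          linarith
      · right
        constructor
        · intro h
          have : (n * n : ℤ) = 0 := by push_cast at h; linarith
          have : n * n = 0 := by exact_mod_cast this
          have := Nat.mul_pos hn hn
          omega
        · rw [Set.uIcc_of_le hab]
          intro h
          exact absurd h.1 (not_le.mpr ha0)
    · filter_upwards [ae_restrict_mem measurableSet_Icc] with t ht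
      have : 0 < t := lt_of_lt_of_le ha0 ht.1
      simp only [Pi.zero_apply]
      positivity

theorem po_meas (n : ℕ) : Measurable fun p : ℝ × Mt n =>
    (if p.1 ^ n ≤ |(Matrix.of p.2).det| ∧ |(Matrix.of p.2).det| ≤ 2 * p.1 ^ n then
        ENNReal.ofReal ((p.1 ^ (n * n))⁻¹) else 0) := by
  have hd : Measurable fun p : ℝ × Mt n => |(Matrix.of p.2).det| := by
    have : Measurable fun p : ℝ × Mt n => (Matrix.of p.2).det :=
      (Pool.Agent.RS.measurable_det n).comp measurable_snd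
    exact this.abs
  have ht : Measurable fun p : ℝ × Mt n => p.1 ^ n := measurable_fst.pow_const n
  apply Measurable.ite
  · exact (measurableSet_le ht hd).inter (measurableSet_le hd (ht.const_mul 2))
  · exact (measurable_fst.pow_const (n * n)).inv.ennreal_ofReal
  · exact measurable_const

/-- PO: integration in polar coordinates -/
theorem polar_lint_pr {n : ℕ} (hn : 0 < n) (F : Mt n → ℝ≥0∞) (hF : Measurable F) :
    ∫⁻ t in Set.Ioi (0 : ℝ), (∫⁻ Z in Xs n, F (t • Z)) * ENNReal.ofReal t⁻¹ =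
      ENNReal.ofReal ((2 ^ n - 1) / (n : ℝ) ^ 2) *
        ∫⁻ g : Mt n, F g * ENNReal.ofReal ((|(Matrix.of g).det| ^ n)⁻¹) := by
  have hK := po_meas n
  have e1 : ∫⁻ t in Set.Ioi (0 : ℝ), (∫⁻ Z in Xs n, F (t • Z)) * ENNReal.ofReal t⁻¹ =
      ∫⁻ t in Set.Ioi (0 : ℝ), ∫⁻ g : Mt n,
        (if t ^ n ≤ |(Matrix.of g).det| ∧ |(Matrix.of g).det| ≤ 2 * t ^ n then
        ENNReal.ofReal ((t ^ (n * n))⁻¹) else 0) * F g * ENNReal.ofReal t⁻¹ := by
    apply setLIntegral_congr_fun measurableSet_Ioi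
    intro t ht
    simp only
    rw [po_scale ht F hF, lintegral_mul_const]
    exact (hK.comp (measurable_prodMk_left (x := t))).mul hF
  rw [e1, lintegral_lintegral_swap]
  · rw [← lintegral_const_mul]
    · apply lintegral_congr
      intro g
      have := po_one hn |(Matrix.of g).det| (abs_nonneg _)
      calc ∫⁻ t in Set.Ioi (0 : ℝ), (if t ^ n ≤ |(Matrix.of g).det| ∧ |(Matrix.of g).det| ≤ 2 * t ^ n then
            ENNReal.ofReal ((t ^ (n * n))⁻¹) else 0) * F g * ENNReal.ofReal t⁻¹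
          = ∫⁻ t in Set.Ioi (0 : ℝ), F g * ((if t ^ n ≤ |(Matrix.of g).det| ∧ |(Matrix.of g).det| ≤ 2 * t ^ n then
            ENNReal.ofReal ((t ^ (n * n))⁻¹) else 0) * ENNReal.ofReal t⁻¹) := by
            apply lintegral_congr
            intro t
            ring
        _ = F g * ∫⁻ t in Set.Ioi (0 : ℝ), ((if t ^ n ≤ |(Matrix.of g).det| ∧ |(Matrix.of g).det| ≤ 2 * t ^ n then
            ENNReal.ofReal ((t ^ (n * n))⁻¹) else 0) * ENNReal.ofReal t⁻¹) := by
            rw [lintegral_const_mul]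
            exact (hK.comp (measurable_prodMk_right (y := g))).mul measurable_inv.ennreal_ofReal
        _ = _ := by
            rw [this]
            ring
    · exact hF.mul ((Pool.Agent.RS.measurable_det n).abs.pow_const n).inv.ennreal_ofReal
  · apply Measurable.aemeasurable
    exact (hK.mul (hF.comp measurable_snd)).mul (measurable_fst.inv.ennreal_ofReal)

/-- from the identity for nonnegative functions to complex functions -/
theorem po_gen {n : ℕ} {c : ℝ} (hc : 0 ≤ c) (T : ℝ × Mt n → Mt n) (hT : Measurable T)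
    (h : ∀ F : Mt n → ℝ≥0∞, Measurable F →
      ∫⁻ t in Set.Ioi (0 : ℝ), (∫⁻ Z in Xs n, F (T (t, Z))) * ENNReal.ofReal t⁻¹ =
      ENNReal.ofReal c * ∫⁻ g : Mt n, F g * ENNReal.ofReal ((|(Matrix.of g).det| ^ n)⁻¹))
    (F : Mt n → ℂ) (hF : Measurable F)
    (hi : Integrable fun g : Mt n => F g * (((|(Matrix.of g).det| ^ n)⁻¹ : ℝ) : ℂ)) :
    IntegrableOn (fun t : ℝ => (∫ Z in Xs n, F (T (t, Z))) * ((t⁻¹ : ℝ) : ℂ)) (Set.Ioi 0) ∧
    ∫ t in Set.Ioi (0 : ℝ), (∫ Z in Xs n, F (T (t, Z))) * ((t⁻¹ : ℝ) : ℂ) =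
      (c : ℂ) * ∫ g : Mt n, F g * (((|(Matrix.of g).det| ^ n)⁻¹ : ℝ) : ℂ) := by
  set μ1 : Measure ℝ := (volume.restrict (Set.Ioi 0)).withDensity (fun t => ENNReal.ofReal t⁻¹)
    with hμ1
  set μ2 : Measure (Mt n) := volume.restrict (Xs n) with hμ2
  have hm1 : Measurable fun t : ℝ => ENNReal.ofReal t⁻¹ := measurable_inv.ennreal_ofReal
  have hm2 : Measurable fun g : Mt n => ENNReal.ofReal (c * (|(Matrix.of g).det| ^ n)⁻¹) :=
    (((Pool.Agent.RS.measurable_det n).abs.pow_const n).inv.const_mul c).ennreal_ofReal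
  have hρ : (μ1.prod μ2).map T =
      volume.withDensity (fun g : Mt n => ENNReal.ofReal (c * (|(Matrix.of g).det| ^ n)⁻¹)) := by
    apply Measure.ext_of_lintegral
    intro f hf
    rw [lintegral_map hf hT, lintegral_prod (fun p => f (T p)) (hf.comp hT).aemeasurable,
      lintegral_withDensity_eq_lintegral_mul _ hm2 hf, hμ1,
      lintegral_withDensity_eq_lintegral_mul _ hm1]
    · have e1 := h f hf
      rw [← lintegral_const_mul] at e1
      · calc _ = ∫⁻ t in Set.Ioi (0 : ℝ), (∫⁻ Z in Xs n, f (T (t, Z))) * ENNReal.ofReal t⁻¹ := by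
              apply lintegral_congr
              intro t
              rw [Pi.mul_apply, mul_comm]
          _ = _ := by
              rw [e1]
              apply lintegral_congr
              intro g
              rw [Pi.mul_apply, ENNReal.ofReal_mul hc]
              ring
      · exact hf.mul ((Pool.Agent.RS.measurable_det n).abs.pow_const n).inv.ennreal_ofReal
    · exact (hf.comp hT).lintegral_prod_right'
  have hlt2 : ∀ᵐ g : Mt n, ENNReal.ofReal (c * (|(Matrix.of g).det| ^ n)⁻¹) < ⊤ :=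
    Filter.Eventually.of_forall fun g => ENNReal.ofReal_lt_top
  have hlt1 : ∀ᵐ t : ℝ ∂(volume.restrict (Set.Ioi 0)), ENNReal.ofReal t⁻¹ < ⊤ :=
    Filter.Eventually.of_forall fun g => ENNReal.ofReal_lt_top
  have htr : ∀ g : Mt n, (ENNReal.ofReal (c * (|(Matrix.of g).det| ^ n)⁻¹)).toReal • F g =
      (c : ℂ) * (F g * (((|(Matrix.of g).det| ^ n)⁻¹ : ℝ) : ℂ)) := by
    intro g
    rw [ENNReal.toReal_ofReal (by positivity), Complex.real_smul]
    push_cast
    ring
  have hiρ : Integrable F ((μ1.prod μ2).map T) := by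
    rw [hρ, integrable_withDensity_iff_integrable_smul' hm2 hlt2]
    simp_rw [htr]
    exact hi.const_mul _
  have hiT : Integrable (fun p => F (T p)) (μ1.prod μ2) :=
    (integrable_map_measure hF.aestronglyMeasurable hT.aemeasurable).mp hiρ
  have hleft := hiT.integral_prod_left
  rw [hμ1, integrable_withDensity_iff_integrable_smul' hm1 hlt1] at hleft
  have htr1 : ∀ t ∈ Set.Ioi (0 : ℝ), (ENNReal.ofReal t⁻¹).toReal • (∫ Z, F (T (t, Z)) ∂μ2) =
      (∫ Z in Xs n, F (T (t, Z))) * ((t⁻¹ : ℝ) : ℂ) := by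
    intro t ht
    rw [ENNReal.toReal_ofReal (inv_nonneg.mpr (le_of_lt ht)), Complex.real_smul, mul_comm]
  constructor
  · refine Integrable.congr hleft ?_
    filter_upwards [ae_restrict_mem measurableSet_Ioi] with t ht
    exact htr1 t ht
  · calc ∫ t in Set.Ioi (0 : ℝ), (∫ Z in Xs n, F (T (t, Z))) * ((t⁻¹ : ℝ) : ℂ)
        = ∫ t in Set.Ioi (0 : ℝ), (ENNReal.ofReal t⁻¹).toReal • (∫ Z, F (T (t, Z)) ∂μ2) := by
          apply setIntegral_congr_fun measurableSet_Ioi
          intro t ht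
          exact (htr1 t ht).symm
      _ = ∫ t, (∫ Z, F (T (t, Z)) ∂μ2) ∂μ1 := by
          rw [hμ1, integral_withDensity_eq_integral_toReal_smul hm1 hlt1]
      _ = ∫ p, F (T p) ∂(μ1.prod μ2) := (integral_prod _ hiT).symm
      _ = ∫ g, F g ∂((μ1.prod μ2).map T) :=
          (integral_map hT.aemeasurable hF.aestronglyMeasurable).symm
      _ = ∫ g, (ENNReal.ofReal (c * (|(Matrix.of g).det| ^ n)⁻¹)).toReal • F g := by
          rw [hρ, integral_withDensity_eq_integral_toReal_smul hm2 hlt2]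
      _ = _ := by
          simp_rw [htr]
          rw [integral_const_mul]

/-- PO -/
theorem polar_int_pr {n : ℕ} (hn : 0 < n) (F : Mt n → ℂ) (hF : Measurable F)
    (hi : Integrable fun g : Mt n => F g * (((|(Matrix.of g).det| ^ n)⁻¹ : ℝ) : ℂ)) :
    IntegrableOn (fun t : ℝ => (∫ Z in Xs n, F (t • Z)) * ((t⁻¹ : ℝ) : ℂ)) (Set.Ioi 0) ∧
    ∫ t in Set.Ioi (0 : ℝ), (∫ Z in Xs n, F (t • Z)) * ((t⁻¹ : ℝ) : ℂ) =
      (((2 ^ n - 1) / (n : ℝ) ^ 2 : ℝ) : ℂ) *
        ∫ g : Mt n, F g * (((|(Matrix.of g).det| ^ n)⁻¹ : ℝ) : ℂ) := by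
  have hc : 0 ≤ (2 ^ n - 1) / (n : ℝ) ^ 2 := by
    apply div_nonneg _ (by positivity)
    have : (1 : ℝ) ≤ 2 ^ n := one_le_pow₀ (by norm_num)
    linarith
  exact po_gen hc (fun p => p.1 • p.2) (measurable_fst.smul measurable_snd)
    (fun F hF => polar_lint_pr hn F hF) F hF hi

alias polar_lint := polar_lint_pr
alias polar_int := polar_int_pr

end Pool.Agent.GJ
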