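import Pool.Agent.Lib_helper19.GJ.Defs

/-!
# The spherical transform of the Gaussian (block SB)
-/

namespace Pool.Agent.GJ

open Complex MeasureTheory Filter Topology Matrix
open Pool.Agent.G4 (par RSB)
open Pool.Agent.RS (Mt SLZ toR lm Xs wG cut cube)
open scoped ENNReal

/-- the coordinate sets -/
def sb_T {n : ℕ} (i j : Fin n) : Set ℝ :=
  if j < i then Set.Ico 0 1 else if i = j then Set.Ioi 0 else Set.univ

theorem sb_T_meas {n : ℕ} (i j : Fin n) : MeasurableSet (sb_T i j) := by
  unfold sb_T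
  split_ifs
  · exact measurableSet_Ico
  · exact measurableSet_Ioi
  · exact MeasurableSet.univ

/-- the factors of the integrand -/
noncomputable def sb_h {n : ℕ} (ν : Fin n → ℂ) (w : ℂ) (i j : Fin n) (x : ℝ) : ℂ :=
  if j < i then 1 else if i = j then
    (x : ℂ) ^ (w - (n - 1) / 2 + ν i - 1) * (Real.exp (-Real.pi * x ^ 2) : ℂ)
  else (Real.exp (-Real.pi * x ^ 2) : ℂ)

theorem sb_set_eq {n : ℕ} :
    {z : Fin n → Fin n → ℝ | (∀ i, 0 < z i i) ∧ ∀ i j, j < i → 0 ≤ z i j ∧ z i j < 1} =
      Set.pi Set.univ fun i => Set.pi Set.univ fun j => sb_T i j := by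
  ext z
  simp only [Set.mem_ofPred_eq, Set.mem_pi, Set.mem_univ, true_implies]
  constructor
  · rintro ⟨h1, h2⟩ i j
    unfold sb_T
    split_ifs with h3 h4
    · exact h2 i j h3
    · subst h4
      exact h1 i
    · trivial
  · intro h
    constructor
    · intro i
      have := h i i
      unfold sb_T at this
      simpa using this
    · intro i j hij
      have := h i j
      unfold sb_T at this
      rw [if_pos hij] at this
      exact this

theorem sb_gauss : ∫ x : ℝ, ((Real.exp (-Real.pi * x ^ 2) : ℝ) : ℂ) = 1 := by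
  rw [integral_complex_ofReal]
  have := integral_gaussian Real.pi
  rw [this, div_self Real.pi_ne_zero]
  simp

theorem sb_mellin {s : ℂ} (hs : 0 < s.re) :
    ∫ x in Set.Ioi (0 : ℝ), (x : ℂ) ^ (s - 1) * ((Real.exp (-Real.pi * x ^ 2) : ℝ) : ℂ) =
      Gammaℝ s / 2 := by
  have h1 : ∫ x in Set.Ioi (0 : ℝ), (x : ℂ) ^ (s - 1) * ((Real.exp (-Real.pi * x ^ 2) : ℝ) : ℂ)
      = mellin (fun x : ℝ => (fun y : ℝ => Complex.exp (-(Real.pi * y))) (x ^ (2 : ℝ))) s := by
    unfold mellin
    refine setIntegral_congr_fun measurableSet_Ioi ?_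
    intro x hx
    simp only [smul_eq_mul]
    congr 1
    push_cast
    congr 1
    have : (x : ℝ) ^ (2 : ℝ) = x ^ 2 := by
      rw [← Real.rpow_natCast]; norm_num
    rw [this]
    push_cast
    ring
  rw [h1, mellin_comp_rpow (fun y : ℝ => Complex.exp (-(Real.pi * y))) s 2]
  have hs2 : 0 < (s / ((2 : ℝ) : ℂ)).re := by
    rw [Complex.div_ofReal_re]
    linarith
  have h2 : mellin (fun y : ℝ => Complex.exp (-(Real.pi * y))) (s / ((2 : ℝ) : ℂ))
      = (1 / (Real.pi : ℂ)) ^ (s / ((2 : ℝ) : ℂ)) * Gamma (s / ((2 : ℝ) : ℂ)) := by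
    unfold mellin
    simp only [smul_eq_mul]
    exact Complex.integral_cpow_mul_exp_neg_mul_Ioi hs2 Real.pi_pos
  rw [h2, Complex.Gammaℝ_def]
  have h3 : (1 / (Real.pi : ℂ)) ^ (s / ((2 : ℝ) : ℂ)) = (Real.pi : ℂ) ^ (-s / 2) := by
    rw [one_div, Complex.inv_cpow, ← Complex.cpow_neg]
    · congr 1
      push_cast
      ring
    · rw [Complex.arg_ofReal_of_nonneg Real.pi_pos.le]
      exact Real.pi_pos.ne
  rw [h3]
  rw [abs_of_pos (by norm_num : (0 : ℝ) < 2)]
  simp only [Complex.real_smul]
  push_cast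
  ring

theorem sb_cpow_prod {ι : Type*} (s : Finset ι) (f : ι → ℝ) (hf : ∀ i ∈ s, 0 ≤ f i) (w : ℂ) :
    (((∏ i ∈ s, f i : ℝ)) : ℂ) ^ w = ∏ i ∈ s, ((f i : ℝ) : ℂ) ^ w := by
  classical
  induction s using Finset.induction_on with
  | empty => simp
  | insert a s ha ih =>
    rw [Finset.prod_insert ha, Finset.prod_insert ha]
    have h1 : 0 ≤ f a := hf a (Finset.mem_insert_self a s)
    have h2 : ∀ i ∈ s, 0 ≤ f i := fun i hi => hf i (Finset.mem_insert_of_mem hi)
    rw [← ih h2]
    rw [Complex.ofReal_mul, Complex.mul_cpow_ofReal_nonneg h1 (Finset.prod_nonneg h2)]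

theorem sb_det {n : ℕ} (z : Fin n → Fin n → ℝ) : (upTri z).det = ∏ i, z i i := by
  rw [Matrix.det_of_isUpperTriangular]
  · refine Finset.prod_congr rfl ?_
    intro i _
    simp [upTri]
  · intro i j hij
    simp only [id] at hij
    simp [upTri, hij]

theorem sphT_gauss_pr (n : ℕ) (ν : Fin n → ℂ) (w : ℂ)
    (hw : ∀ i, (n - 1 : ℝ) / 2 - (ν i).re < w.re) :
    sphT ν (fun g => ((|g.det| : ℝ) : ℂ) ^ w * (Real.exp (-Real.pi * fro g) : ℂ)) =
      ∏ i, Gammaℝ (w - (n - 1) / 2 + ν i) / 2 := by
  unfold sphT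
  rw [sb_set_eq]
  have hmeas : MeasurableSet (Set.pi Set.univ fun i : Fin n => Set.pi Set.univ fun j => sb_T i j) :=
    MeasurableSet.univ_pi fun i => MeasurableSet.univ_pi fun j => sb_T_meas i j
  rw [← integral_indicator hmeas]
  have hpt : ∀ z : Fin n → Fin n → ℝ,
      (Set.pi Set.univ fun i : Fin n => Set.pi Set.univ fun j => sb_T i j).indicator
        (fun z => (((|(upTri z).det| : ℝ) : ℂ) ^ w * (Real.exp (-Real.pi * fro (upTri z)) : ℂ)) *
          ∏ i, ((z i i : ℝ) : ℂ) ^ (ν i - (n + 1) / 2)) z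
      = ∏ i, ∏ j, (sb_T i j).indicator (sb_h ν w i j) (z i j) := by
    intro z
    by_cases hz : z ∈ (Set.pi Set.univ fun i : Fin n => Set.pi Set.univ fun j => sb_T i j)
    · rw [Set.indicator_of_mem hz]
      have hz2 : ∀ i j, z i j ∈ sb_T i j := fun i j => hz i (Set.mem_univ i) j (Set.mem_univ j)
      have hpos : ∀ i, 0 < z i i := by
        intro i
        have := hz2 i i
        unfold sb_T at this
        simpa using this
      have e1 : ∏ i, ∏ j, (sb_T i j).indicator (sb_h ν w i j) (z i j)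
          = ∏ i, ∏ j, ((if i = j then (z i j : ℂ) ^ (w - (n - 1) / 2 + ν i - 1) else 1) *
            (Real.exp (-Real.pi * (upTri z i j) ^ 2) : ℂ)) := by
        refine Finset.prod_congr rfl ?_
        intro i _
        refine Finset.prod_congr rfl ?_
        intro j _
        rw [Set.indicator_of_mem (hz2 i j)]
        unfold sb_h upTri
        simp only [Matrix.of_apply]
        by_cases h1 : j < i
        · rw [if_pos h1, if_pos h1, if_neg (by intro h; subst h; exact lt_irrefl _ h1)]
          simp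
        · rw [if_neg h1, if_neg h1]
          by_cases h2 : i = j
          · rw [if_pos h2, if_pos h2]
          · rw [if_neg h2, if_neg h2, one_mul]
      rw [e1]
      simp_rw [Finset.prod_mul_distrib]
      have e2 : ∏ i, ∏ j, (Real.exp (-Real.pi * (upTri z i j) ^ 2) : ℂ)
          = (Real.exp (-Real.pi * fro (upTri z)) : ℂ) := by
        unfold fro
        rw [Finset.mul_sum, Real.exp_sum, Complex.ofReal_prod]
        refine Finset.prod_congr rfl ?_
        intro i _
        rw [Finset.mul_sum, Real.exp_sum, Complex.ofReal_prod]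
      have e3 : ∏ i, ∏ j, (if i = j then (z i j : ℂ) ^ (w - (n - 1) / 2 + ν i - 1) else 1)
          = ∏ i, (z i i : ℂ) ^ (w - (n - 1) / 2 + ν i - 1) := by
        refine Finset.prod_congr rfl ?_
        intro i _
        rw [Finset.prod_ite_eq]
        simp
      rw [e2, e3, sb_det, abs_of_nonneg (Finset.prod_nonneg fun i _ => (hpos i).le),
        sb_cpow_prod _ _ (fun i _ => (hpos i).le)]
      have e4 : ∏ i, (z i i : ℂ) ^ (w - (n - 1) / 2 + ν i - 1)
          = (∏ i, (z i i : ℂ) ^ w) * ∏ i, ((z i i : ℝ) : ℂ) ^ (ν i - (n + 1) / 2) := by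
        rw [← Finset.prod_mul_distrib]
        refine Finset.prod_congr rfl ?_
        intro i _
        have h0 : (z i i : ℂ) ≠ 0 := by
          exact_mod_cast (hpos i).ne'
        rw [← Complex.cpow_add _ _ h0]
        congr 1
        ring
      rw [e4]
      ring
    · rw [Set.indicator_of_notMem hz]
      have : ∃ i j, z i j ∉ sb_T i j := by
        by_contra hc
        push Not at hc
        exact hz fun i _ j _ => hc i j
      obtain ⟨i, j, hij⟩ := this
      symm
      apply Finset.prod_eq_zero (Finset.mem_univ i)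
      apply Finset.prod_eq_zero (Finset.mem_univ j)
      rw [Set.indicator_of_notMem hij]
  rw [integral_congr_ae (Filter.Eventually.of_forall hpt)]
  rw [integral_fintype_prod_volume_eq_prod
    (fun (i : Fin n) (zi : Fin n → ℝ) => ∏ j, (sb_T i j).indicator (sb_h ν w i j) (zi j))]
  refine Finset.prod_congr rfl ?_
  intro i _
  rw [integral_fintype_prod_volume_eq_prod
    (fun (j : Fin n) (x : ℝ) => (sb_T i j).indicator (sb_h ν w i j) x)]
  rw [Finset.prod_eq_single i]
  · rw [integral_indicator (sb_T_meas i i)]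
    have hs : 0 < (w - (n - 1) / 2 + ν i).re := by
      have h1 := hw i
      have h2 : (((n : ℂ) - 1) / 2).re = ((n : ℝ) - 1) / 2 := by
        have h3 : ((n : ℂ) - 1) / 2 = (((((n : ℝ) - 1) / 2) : ℝ) : ℂ) := by push_cast; rfl
        rw [h3, Complex.ofReal_re]
      rw [Complex.add_re, Complex.sub_re, h2]
      linarith
    have hT : sb_T i i = Set.Ioi 0 := by
      unfold sb_T
      simp
    rw [hT, ← sb_mellin hs]
    refine setIntegral_congr_fun measurableSet_Ioi ?_
    intro x _
    simp [sb_h]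
  · intro j _ hj
    rw [integral_indicator (sb_T_meas i j)]
    by_cases h1 : j < i
    · have hT : sb_T i j = Set.Ico 0 1 := by
        unfold sb_T
        rw [if_pos h1]
      rw [hT]
      have : ∀ x : ℝ, sb_h ν w i j x = 1 := by
        intro x
        unfold sb_h
        rw [if_pos h1]
      simp [this]
    · have hT : sb_T i j = Set.univ := by
        unfold sb_T
        rw [if_neg h1, if_neg (Ne.symm hj)]
      rw [hT, Measure.restrict_univ, ← sb_gauss]
      refine integral_congr_ae (Filter.Eventually.of_forall ?_)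
      intro x
      show sb_h ν w i j x = _
      unfold sb_h
      rw [if_neg h1, if_neg (Ne.symm hj)]
  · intro h
    exact absurd (Finset.mem_univ i) h

alias sphT_gauss := sphT_gauss_pr

end Pool.Agent.GJ
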