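import Pool.Agent.Lib_helper19.GJ.Defs
import Pool.Agent.Lib_helper19.GJ.SB

namespace Pool.Agent.GJ

open Complex MeasureTheory Filter Topology Matrix
open Pool.Agent.G4 (par RSB)
open Pool.Agent.RS (Mt SLZ toR lm Xs wG cut cube)
open scoped ENNReal

/-- the cut off function -/
noncomputable def sg_cl (x : ℝ) : ℝ := max 0 (min 1 x)

theorem sg_cl_nonneg (x : ℝ) : 0 ≤ sg_cl x := le_max_left _ _

theorem sg_cl_le (x : ℝ) : sg_cl x ≤ 1 := max_le zero_le_one (min_le_left _ _)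

theorem sg_cl_one {x : ℝ} (h : 1 ≤ x) : sg_cl x = 1 := by
  unfold sg_cl
  rw [min_eq_left h, max_eq_right zero_le_one]

theorem sg_cl_zero {x : ℝ} (h : x ≤ 0) : sg_cl x = 0 := by
  unfold sg_cl
  rw [min_eq_right (by linarith), max_eq_left h]

theorem sg_cl_cont : Continuous sg_cl := by
  unfold sg_cl
  fun_prop

theorem sg_fro_nonneg {n : ℕ} (X : Matrix (Fin n) (Fin n) ℝ) : 0 ≤ fro X := by
  unfold fro
  positivity

theorem sg_fro_cont (n : ℕ) : Continuous (fun X : Matrix (Fin n) (Fin n) ℝ => fro X) := by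
  unfold fro
  fun_prop

theorem sg_det_cont (n : ℕ) : Continuous (fun X : Matrix (Fin n) (Fin n) ℝ => X.det) :=
  Continuous.matrix_det continuous_id

theorem sg_entry {n : ℕ} (X : Matrix (Fin n) (Fin n) ℝ) (i j : Fin n) : X i j ^ 2 ≤ fro X := by
  unfold fro
  calc X i j ^ 2 ≤ ∑ j, X i j ^ 2 := Finset.single_le_sum (f := fun j => X i j ^ 2)
        (fun j _ => by positivity) (Finset.mem_univ j)
    _ ≤ _ := Finset.single_le_sum (f := fun i => ∑ j, X i j ^ 2)
        (fun i _ => by positivity) (Finset.mem_univ i)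

theorem sg_det_le {n : ℕ} (X : Matrix (Fin n) (Fin n) ℝ) :
    |X.det| ≤ (n.factorial : ℝ) * (1 + fro X) ^ n := by
  have h1 : ∀ i j, |X i j| ≤ 1 + fro X := by
    intro i j
    have h2 := sg_entry X i j
    have h3 := sg_fro_nonneg X
    have h4 : |X i j| ^ 2 ≤ (1 + fro X) ^ 2 := by rw [sq_abs]; nlinarith
    exact (abs_le_of_sq_le_sq h4 (by linarith)).trans' (le_abs_self _) |>.trans le_rfl
  have h5 := Matrix.det_le (A := X) (abv := AbsoluteValue.abs) (x := 1 + fro X) h1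
  rw [Fintype.card_fin, nsmul_eq_mul] at h5
  exact h5

/-- the Gaussian times a power of the determinant -/
noncomputable def sg_f {n : ℕ} (w : ℂ) (g : Matrix (Fin n) (Fin n) ℝ) : ℂ :=
  ((|g.det| : ℝ) : ℂ) ^ w * (Real.exp (-Real.pi * fro g) : ℂ)

/-- the approximations -/
noncomputable def sg_fN {n : ℕ} (w : ℂ) (N : ℕ) (g : Matrix (Fin n) (Fin n) ℝ) : ℂ :=
  sg_f w g * ((sg_cl (N * |g.det| - 1) * sg_cl (N + 1 - fro g) : ℝ) : ℂ)

theorem sg_f_cont {n : ℕ} {w : ℂ} (hw : 0 < w.re) : Continuous (sg_f (n := n) w) := by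
  unfold sg_f
  have h1 : Continuous fun g : Matrix (Fin n) (Fin n) ℝ => ((|g.det| : ℝ) : ℂ) ^ w :=
    (Complex.continuous_ofReal_cpow_const hw).comp ((sg_det_cont n).abs)
  have h2 := sg_fro_cont n
  fun_prop

theorem sg_fN_cont {n : ℕ} {w : ℂ} (hw : 0 < w.re) (N : ℕ) :
    Continuous (sg_fN (n := n) w N) := by
  unfold sg_fN
  have h1 := sg_f_cont (n := n) hw
  have h2 := sg_fro_cont n
  have h3 := sg_det_cont n
  have h4 := sg_cl_cont
  fun_prop

theorem sg_f_zero {n : ℕ} {w : ℂ} (hw : 0 < w.re) {g : Matrix (Fin n) (Fin n) ℝ}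
    (hg : g.det = 0) : sg_f w g = 0 := by
  unfold sg_f
  have : w ≠ 0 := by rintro rfl; simp at hw
  rw [hg, abs_zero, Complex.ofReal_zero, Complex.zero_cpow this, zero_mul]

theorem sg_fN_zero {n : ℕ} {w : ℂ} (hw : 0 < w.re) (N : ℕ) {g : Matrix (Fin n) (Fin n) ℝ}
    (hg : g.det = 0) : sg_fN w N g = 0 := by
  unfold sg_fN
  rw [sg_f_zero hw hg, zero_mul]

theorem sg_fN_le {n : ℕ} (w : ℂ) (N : ℕ) (g : Matrix (Fin n) (Fin n) ℝ) :
    ‖sg_fN w N g‖ ≤ ‖sg_f w g‖ := by
  unfold sg_fN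
  rw [norm_mul, Complex.norm_real, Real.norm_eq_abs]
  have h1 := sg_cl_nonneg (N * |g.det| - 1)
  have h2 := sg_cl_nonneg (N + 1 - fro g)
  have h3 := sg_cl_le (N * |g.det| - 1)
  have h4 := sg_cl_le (N + 1 - fro g)
  rw [abs_of_nonneg (mul_nonneg h1 h2)]
  have h5 : sg_cl (N * |g.det| - 1) * sg_cl (N + 1 - fro g) ≤ 1 := mul_le_one₀ h3 h2 h4
  exact mul_le_of_le_one_right (norm_nonneg _) h5

theorem sg_fN_lim {n : ℕ} {w : ℂ} (hw : 0 < w.re) (g : Matrix (Fin n) (Fin n) ℝ) :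
    ∀ᶠ N : ℕ in atTop, sg_fN w N g = sg_f w g := by
  by_cases hg : g.det = 0
  · refine Eventually.of_forall fun N => ?_
    rw [sg_fN_zero hw N hg, sg_f_zero hw hg]
  · have hpos : 0 < |g.det| := abs_pos.mpr hg
    filter_upwards [eventually_ge_atTop ⌈2 / |g.det|⌉₊, eventually_ge_atTop ⌈fro g⌉₊] with N h1 h2
    have h3 : 2 / |g.det| ≤ N := Nat.ceil_le.mp h1
    have h4 : fro g ≤ N := Nat.ceil_le.mp h2
    rw [div_le_iff₀ hpos] at h3
    unfold sg_fN
    rw [sg_cl_one (by linarith), sg_cl_one (by linarith)]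
    simp

theorem sg_fN_supp {n : ℕ} (w : ℂ) {N : ℕ} :
    ∃ K : Set (Matrix (Fin n) (Fin n) ℝ), IsCompact K ∧ (∀ g ∈ K, g.det ≠ 0) ∧
      ∀ g, g ∉ K → sg_fN w N g = 0 := by
  refine ⟨{g | 1 ≤ (N : ℝ) * |g.det|} ∩ {g | fro g ≤ N + 1}, ?_, ?_, ?_⟩
  · have hc1 : IsClosed {g : Matrix (Fin n) (Fin n) ℝ | 1 ≤ (N : ℝ) * |g.det|} :=
      isClosed_le continuous_const (continuous_const.mul (sg_det_cont n).abs)
    have hc2 : IsClosed {g : Matrix (Fin n) (Fin n) ℝ | fro g ≤ N + 1} :=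
      isClosed_le (sg_fro_cont n) continuous_const
    have hbox : IsCompact (Set.univ.pi fun _ : Fin n => Set.univ.pi fun _ : Fin n =>
        Set.Icc (-((N : ℝ) + 1)) ((N : ℝ) + 1)) :=
      isCompact_univ_pi fun _ => isCompact_univ_pi fun _ => isCompact_Icc
    refine hbox.of_isClosed_subset (hc1.inter hc2) ?_
    rintro g ⟨-, hg⟩
    rw [Set.mem_univ_pi]
    intro i
    rw [Set.mem_univ_pi]
    intro j
    have h1 := sg_entry g i j
    have h2 : fro g ≤ N + 1 := hg
    have h3 : |g i j| ^ 2 ≤ ((N : ℝ) + 1) ^ 2 := by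
      rw [sq_abs]
      have : (0 : ℝ) ≤ N := Nat.cast_nonneg N
      nlinarith
    have h4 : |g i j| ≤ (N : ℝ) + 1 := by
      have := abs_le_of_sq_le_sq h3 (by positivity)
      exact (le_abs_self _).trans this
    exact abs_le.mp h4
  · rintro g ⟨h1, -⟩ h2
    have h1' : 1 ≤ (N : ℝ) * |g.det| := h1
    rw [h2, abs_zero, mul_zero] at h1'
    linarith
  · intro g hg
    unfold sg_fN
    by_cases h1 : 1 ≤ (N : ℝ) * |g.det|
    · have h2 : ¬ fro g ≤ N + 1 := fun h => hg ⟨h1, h⟩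
      rw [sg_cl_zero (x := N + 1 - fro g) (by linarith)]
      simp
    · rw [sg_cl_zero (x := N * |g.det| - 1) (by linarith)]
      simp

theorem sg_fro_trace {n : ℕ} (X : Matrix (Fin n) (Fin n) ℝ) : fro X = (X * Xᵀ).trace := by
  unfold fro
  rw [Matrix.trace]
  refine Finset.sum_congr rfl fun i _ => ?_
  rw [Matrix.diag_apply, Matrix.mul_apply]
  refine Finset.sum_congr rfl fun j _ => ?_
  rw [Matrix.transpose_apply, pow_two]

theorem sg_fro_inv {n : ℕ} {k k' : Matrix (Fin n) (Fin n) ℝ} (hk : k * kᵀ = 1)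
    (hk' : k' * k'ᵀ = 1) (g : Matrix (Fin n) (Fin n) ℝ) : fro (k * g * k') = fro g := by
  rw [sg_fro_trace, sg_fro_trace, Matrix.transpose_mul, Matrix.transpose_mul]
  have h1 : k * g * k' * (k'ᵀ * (gᵀ * kᵀ)) = k * (g * (k' * k'ᵀ) * gᵀ) * kᵀ := by
    simp only [Matrix.mul_assoc]
  rw [h1, hk', Matrix.mul_one, Matrix.trace_mul_comm, ← Matrix.mul_assoc,
    mul_eq_one_comm.mp hk, Matrix.one_mul]

theorem sg_det_inv {n : ℕ} {k k' : Matrix (Fin n) (Fin n) ℝ} (hk : k * kᵀ = 1)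
    (hk' : k' * k'ᵀ = 1) (g : Matrix (Fin n) (Fin n) ℝ) : |(k * g * k').det| = |g.det| := by
  have h : ∀ {k : Matrix (Fin n) (Fin n) ℝ}, k * kᵀ = 1 → |k.det| = 1 := by
    intro k hk
    have h1 := congrArg Matrix.det hk
    rw [Matrix.det_mul, Matrix.det_transpose, Matrix.det_one] at h1
    have h2 : |k.det| * |k.det| = 1 := by rw [← abs_mul, h1, abs_one]
    nlinarith [abs_nonneg k.det]
  rw [Matrix.det_mul, Matrix.det_mul, abs_mul, abs_mul, h hk, h hk', one_mul, mul_one]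

theorem sg_fN_inv {n : ℕ} (w : ℂ) (N : ℕ) {k k' : Matrix (Fin n) (Fin n) ℝ} (hk : k * kᵀ = 1)
    (hk' : k' * k'ᵀ = 1) (g : Matrix (Fin n) (Fin n) ℝ) :
    sg_fN w N (k * g * k') = sg_fN w N g := by
  unfold sg_fN sg_f
  rw [sg_det_inv hk hk', sg_fro_inv hk hk']

theorem sg_poly {x : ℝ} (hx : 0 ≤ x) {m : ℕ} (hm : 0 < m) :
    (1 + x) ^ m ≤ (m : ℝ) ^ m * Real.exp x := by
  have hm1 : (1 : ℝ) ≤ m := by exact_mod_cast hm
  have h1 : 1 + x ≤ m * Real.exp (x / m) := by
    have h2 := Real.add_one_le_exp (x / m)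
    have h3 : m * (x / m + 1) ≤ m * Real.exp (x / m) :=
      mul_le_mul_of_nonneg_left h2 (by linarith)
    have h4 : (m : ℝ) * (x / m + 1) = x + m := by field_simp
    linarith
  calc (1 + x) ^ m ≤ (m * Real.exp (x / m)) ^ m := pow_le_pow_left₀ (by linarith) h1 m
    _ = (m : ℝ) ^ m * Real.exp x := by
      rw [mul_pow, ← Real.exp_nat_mul]
      congr 2
      field_simp

/-- the determinant is dominated by the exponential -/
theorem sg_dom {n : ℕ} {α : ℝ} (hα : 0 ≤ α) : ∃ K : ℝ, 0 ≤ K ∧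
    ∀ g : Matrix (Fin n) (Fin n) ℝ, |g.det| ^ α ≤ K * Real.exp (fro g) := by
  set m : ℕ := ⌈(n : ℝ) * α⌉₊ + 1 with hm
  refine ⟨(n.factorial : ℝ) ^ α * (m : ℝ) ^ m, by positivity, fun g => ?_⟩
  have h0 := sg_fro_nonneg g
  have h1 := sg_det_le g
  have h2 : |g.det| ^ α ≤ ((n.factorial : ℝ) * (1 + fro g) ^ n) ^ α :=
    Real.rpow_le_rpow (abs_nonneg _) h1 hα
  have h3 : ((n.factorial : ℝ) * (1 + fro g) ^ n) ^ α =
      (n.factorial : ℝ) ^ α * (1 + fro g) ^ ((n : ℝ) * α) := by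
    rw [Real.mul_rpow (by positivity) (by positivity), ← Real.rpow_natCast (1 + fro g) n,
      ← Real.rpow_mul (by linarith)]
  have h4 : (1 + fro g) ^ ((n : ℝ) * α) ≤ (1 + fro g) ^ m := by
    rw [← Real.rpow_natCast (1 + fro g) m]
    apply Real.rpow_le_rpow_of_exponent_le (by linarith)
    rw [hm]
    push_cast
    have := Nat.le_ceil ((n : ℝ) * α)
    linarith
  have h5 := sg_poly h0 (m := m) (by rw [hm]; omega)
  calc |g.det| ^ α ≤ (n.factorial : ℝ) ^ α * (1 + fro g) ^ ((n : ℝ) * α) := by rw [← h3]; exact h2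
    _ ≤ (n.factorial : ℝ) ^ α * ((m : ℝ) ^ m * Real.exp (fro g)) :=
      mul_le_mul_of_nonneg_left (h4.trans h5) (by positivity)
    _ = _ := by ring

theorem sg_gauss_int (n : ℕ) {b : ℝ} (hb : 0 < b) :
    Integrable (fun g : Mt n => Real.exp (-b * fro (Matrix.of g))) := by
  have h1 : ∀ g : Mt n, Real.exp (-b * fro (Matrix.of g)) =
      ∏ i, ∏ j, Real.exp (-b * (g i j) ^ 2) := by
    intro g
    unfold fro
    rw [Finset.mul_sum, Real.exp_sum]
    refine Finset.prod_congr rfl fun i _ => ?_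
    rw [Finset.mul_sum, Real.exp_sum]
    rfl
  have h2 : Integrable (fun g : Mt n => ∏ i, ∏ j, Real.exp (-b * (g i j) ^ 2)) := by
    apply Integrable.fintype_prod (f := fun (_ : Fin n) (x : Fin n → ℝ) =>
      ∏ j, Real.exp (-b * (x j) ^ 2))
    intro i
    apply Integrable.fintype_prod (f := fun (_ : Fin n) (x : ℝ) => Real.exp (-b * x ^ 2))
    intro j
    exact integrable_exp_neg_mul_sq hb
  exact h2.congr (ae_of_all _ fun g => (h1 g).symm)

theorem sg_norm_f {n : ℕ} (w : ℂ) {g : Matrix (Fin n) (Fin n) ℝ} (hg : g.det ≠ 0) :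
    ‖sg_f w g‖ = |g.det| ^ w.re * Real.exp (-Real.pi * fro g) := by
  unfold sg_f
  rw [norm_mul, Complex.norm_cpow_eq_rpow_re_of_pos (abs_pos.mpr hg), Complex.norm_real,
    Real.norm_eq_abs, abs_of_pos (Real.exp_pos _)]

/-- the limit of the left sides -/
theorem sg_left {n : ℕ} {φ : Matrix (Fin n) (Fin n) ℝ → ℂ}
    (hφc : ContinuousOn φ {g | g.det ≠ 0})
    (hφb : ∃ M : ℝ, ∀ g : Matrix (Fin n) (Fin n) ℝ, g.det ≠ 0 → ‖φ g‖ ≤ M) {w : ℂ}
    (hw : (n : ℝ) < w.re) {y : Matrix (Fin n) (Fin n) ℝ} (hy : y.det ≠ 0) :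
    Tendsto (fun N : ℕ => ∫ g : Mt n, sg_fN w N (Matrix.of g) * φ (y * Matrix.of g) *
        (((|(Matrix.of g).det| ^ n)⁻¹ : ℝ) : ℂ)) atTop
      (𝓝 (∫ g : Mt n, sg_f w (Matrix.of g) * φ (y * Matrix.of g) *
        (((|(Matrix.of g).det| ^ n)⁻¹ : ℝ) : ℂ))) := by
  obtain ⟨M, hM⟩ := hφb
  have hw0 : 0 < w.re := lt_of_le_of_lt (Nat.cast_nonneg n) hw
  obtain ⟨K, hK0, hK⟩ := sg_dom (n := n) (α := w.re - n) (by linarith)
  set M' : ℝ := max M 0 with hM'
  have hcont : ContinuousOn (fun g : Matrix (Fin n) (Fin n) ℝ => φ (y * g)) {g | g.det ≠ 0} := by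
    refine hφc.comp (Continuous.continuousOn (by fun_prop)) ?_
    intro g hg
    change (y * g).det ≠ 0
    rw [Matrix.det_mul]
    exact mul_ne_zero hy hg
  have hmeas := RS.measurable_cut hcont
  apply tendsto_integral_of_dominated_convergence
    (fun g : Mt n => M' * K * Real.exp (-(Real.pi - 1) * fro (Matrix.of g)))
  · intro N
    have h1 : (fun g : Mt n => sg_fN w N (Matrix.of g) * φ (y * Matrix.of g) *
        (((|(Matrix.of g).det| ^ n)⁻¹ : ℝ) : ℂ)) = fun g : Mt n => sg_fN w N (Matrix.of g) *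
        cut (fun g : Matrix (Fin n) (Fin n) ℝ => φ (y * g)) g *
        (((|(Matrix.of g).det| ^ n)⁻¹ : ℝ) : ℂ) := by
      funext g
      by_cases hg : (Matrix.of g).det = 0
      · rw [sg_fN_zero hw0 N hg]; simp
      · rw [RS.cut_of_ne _ hg]
    rw [h1]
    apply Measurable.aestronglyMeasurable
    have hof : Continuous fun A : Mt n => (Matrix.of A : Matrix (Fin n) (Fin n) ℝ) := continuous_id
    have h2 : Measurable fun g : Mt n => sg_fN w N (Matrix.of g) :=
      ((sg_fN_cont hw0 N).comp hof).measurable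
    have h3 : Measurable fun g : Mt n => (((|(Matrix.of g).det| ^ n)⁻¹ : ℝ) : ℂ) := by
      have h4 : Measurable fun g : Mt n => (Matrix.of g).det := (RS.continuous_detMt n).measurable
      fun_prop
    exact (h2.mul hmeas).mul h3
  · exact (sg_gauss_int n (by linarith [Real.pi_gt_three])).const_mul _
  · intro N
    refine ae_of_all _ fun g => ?_
    by_cases hg : (Matrix.of g).det = 0
    · rw [sg_fN_zero hw0 N hg]
      simp
      positivity
    · have hpos : 0 < |(Matrix.of g).det| := abs_pos.mpr hg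
      rw [norm_mul, norm_mul, Complex.norm_real, Real.norm_eq_abs, abs_of_pos (by positivity)]
      have h1 := sg_fN_le w N (Matrix.of g)
      rw [sg_norm_f w hg] at h1
      have h2 : ‖φ (y * Matrix.of g)‖ ≤ M' := (hM _ (by
        rw [Matrix.det_mul]; exact mul_ne_zero hy hg)).trans (le_max_left _ _)
      have h3 := hK (Matrix.of g)
      have h4 : |(Matrix.of g).det| ^ (w.re - n) = |(Matrix.of g).det| ^ w.re *
          (|(Matrix.of g).det| ^ n)⁻¹ := by
        rw [Real.rpow_sub hpos, Real.rpow_natCast]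
        rfl
      calc ‖sg_fN w N (Matrix.of g)‖ * ‖φ (y * Matrix.of g)‖ * (|(Matrix.of g).det| ^ n)⁻¹
          ≤ (|(Matrix.of g).det| ^ w.re * Real.exp (-Real.pi * fro (Matrix.of g))) * M' *
            (|(Matrix.of g).det| ^ n)⁻¹ := by gcongr
        _ = M' * |(Matrix.of g).det| ^ (w.re - n) * Real.exp (-Real.pi * fro (Matrix.of g)) := by
            rw [h4]; ring
        _ ≤ M' * (K * Real.exp (fro (Matrix.of g))) * Real.exp (-Real.pi * fro (Matrix.of g)) := by
            gcongr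
        _ = _ := by
            have : Real.exp (-(Real.pi - 1) * fro (Matrix.of g)) =
              Real.exp (fro (Matrix.of g)) * Real.exp (-Real.pi * fro (Matrix.of g)) := by
              rw [← Real.exp_add]; congr 1; ring
            rw [this]; ring
  · refine ae_of_all _ fun g => ?_
    refine tendsto_const_nhds.congr' ?_
    filter_upwards [sg_fN_lim hw0 (Matrix.of g)] with N hN
    rw [hN]

theorem sg_upTri_cont (n : ℕ) : Continuous fun z : Fin n → Fin n → ℝ => upTri z := by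
  unfold upTri
  refine continuous_pi fun i => continuous_pi fun j => ?_
  by_cases h : j < i
  · simp only [Matrix.of_apply, if_pos h]
    exact continuous_const
  · simp only [Matrix.of_apply, if_neg h]
    fun_prop

theorem sg_upTri_det {n : ℕ} (z : Fin n → Fin n → ℝ) : (upTri z).det = ∏ i, z i i := by
  rw [Matrix.det_of_isUpperTriangular]
  · refine Finset.prod_congr rfl fun i _ => ?_
    unfold upTri
    simp
  · intro i j hij
    have : j < i := hij
    unfold upTri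
    simp [this]

/-- the region of the triangular coordinates -/
def sg_D (n : ℕ) : Set (Fin n → Fin n → ℝ) :=
  {z | (∀ i, 0 < z i i) ∧ ∀ i j, j < i → 0 ≤ z i j ∧ z i j < 1}

theorem sg_D_meas (n : ℕ) : MeasurableSet (sg_D n) := by
  have h1 : sg_D n = (⋂ i : Fin n, {z | 0 < z i i}) ∩ ⋂ i : Fin n, ⋂ j : Fin n,
      {z | j < i → 0 ≤ z i j ∧ z i j < 1} := by
    ext z
    simp [sg_D]
  rw [h1]
  have hm : ∀ i j : Fin n, Measurable fun z : Fin n → Fin n → ℝ => z i j := fun i j => by fun_prop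
  refine (MeasurableSet.iInter fun i => measurableSet_lt measurable_const (hm i i)).inter
    (MeasurableSet.iInter fun i => MeasurableSet.iInter fun j => ?_)
  by_cases h : j < i
  · simp only [h, forall_const]
    exact (measurableSet_le measurable_const (hm i j)).inter
      (measurableSet_lt (hm i j) measurable_const)
  · simp [h]

/-- the majorant in one variable -/
noncomputable def sg_h {n : ℕ} (β : Fin n → ℝ) (i j : Fin n) (x : ℝ) : ℝ :=
  if j < i then (Set.Ico (0 : ℝ) 1).indicator (fun _ => 1) x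
  else if i < j then Real.exp (-Real.pi * x ^ 2)
  else (Set.Ioi (0 : ℝ)).indicator (fun x => x ^ β i * Real.exp (-Real.pi * x ^ 2)) x

theorem sg_h_int {n : ℕ} {β : Fin n → ℝ} (hβ : ∀ i, -1 < β i) (i j : Fin n) :
    Integrable (sg_h β i j) := by
  by_cases h1 : j < i
  · have : sg_h β i j = (Set.Ico (0 : ℝ) 1).indicator (fun _ => 1) := by
      funext x; unfold sg_h; rw [if_pos h1]
    rw [this]
    exact (integrable_indicator_iff measurableSet_Ico).mpr (by
      rw [integrableOn_const_iff]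
      right
      simp)
  · by_cases h2 : i < j
    · have : sg_h β i j = fun x => Real.exp (-Real.pi * x ^ 2) := by
        funext x; unfold sg_h; rw [if_neg h1, if_pos h2]
      rw [this]
      exact integrable_exp_neg_mul_sq Real.pi_pos
    · have : sg_h β i j = (Set.Ioi (0 : ℝ)).indicator
          (fun x => x ^ β i * Real.exp (-Real.pi * x ^ 2)) := by
        funext x; unfold sg_h; rw [if_neg h1, if_neg h2]
      rw [this]
      exact (integrable_indicator_iff measurableSet_Ioi).mpr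
        (integrableOn_rpow_mul_exp_neg_mul_sq Real.pi_pos (hβ i))

theorem sg_fro_upTri {n : ℕ} (z : Fin n → Fin n → ℝ) : Real.exp (-Real.pi * fro (upTri z)) =
    ∏ i, ∏ j, (if j < i then 1 else Real.exp (-Real.pi * (z i j) ^ 2)) := by
  unfold fro
  rw [Finset.mul_sum, Real.exp_sum]
  refine Finset.prod_congr rfl fun i _ => ?_
  rw [Finset.mul_sum, Real.exp_sum]
  refine Finset.prod_congr rfl fun j _ => ?_
  unfold upTri
  by_cases h : j < i
  · simp [h]
  · simp [h]

theorem sg_major {n : ℕ} (ν : Fin n → ℂ) (w : ℂ) {z : Fin n → Fin n → ℝ} (hz : z ∈ sg_D n) :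
    ‖sg_f w (upTri z) * ∏ i, ((z i i : ℝ) : ℂ) ^ (ν i - (n + 1) / 2)‖ =
      ∏ i, ∏ j, sg_h (fun i => w.re + (ν i).re - (n + 1) / 2) i j (z i j) := by
  obtain ⟨hz1, hz2⟩ := hz
  have hdet : (upTri z).det = ∏ i, z i i := sg_upTri_det z
  have hpos : 0 < ∏ i, z i i := Finset.prod_pos fun i _ => hz1 i
  rw [norm_mul, sg_norm_f w (by rw [hdet]; exact hpos.ne'), hdet, abs_of_pos hpos,
    ← Real.finsetProd_rpow _ _ (fun i _ => (hz1 i).le), sg_fro_upTri, norm_prod,
    ← Finset.prod_mul_distrib, ← Finset.prod_mul_distrib]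
  refine Finset.prod_congr rfl fun i _ => ?_
  rw [Complex.norm_cpow_eq_rpow_re_of_pos (hz1 i)]
  have hre : (ν i - (n + 1) / 2).re = (ν i).re - (n + 1) / 2 := by
    have : ((n : ℂ) + 1) / 2 = (((n + 1) / 2 : ℝ) : ℂ) := by push_cast; rfl
    rw [this, Complex.sub_re, Complex.ofReal_re]
  rw [hre]
  have h1 : (z i i) ^ w.re * (∏ j, if j < i then 1 else Real.exp (-Real.pi * z i j ^ 2)) *
      (z i i) ^ ((ν i).re - (n + 1) / 2) =
      (∏ j, if j = i then (z i i) ^ (w.re + (ν i).re - (n + 1) / 2) else 1) *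
        ∏ j, if j < i then 1 else Real.exp (-Real.pi * z i j ^ 2) := by
    rw [Finset.prod_ite_eq' Finset.univ i, if_pos (Finset.mem_univ i), mul_right_comm,
      ← Real.rpow_add (hz1 i)]
    congr 2
    ring
  rw [h1, ← Finset.prod_mul_distrib]
  refine Finset.prod_congr rfl fun j _ => ?_
  unfold sg_h
  by_cases h2 : j < i
  · have hmem : z i j ∈ Set.Ico (0 : ℝ) 1 := hz2 i j h2
    rw [if_neg h2.ne, if_pos h2, if_pos h2, Set.indicator_of_mem hmem]
    norm_num
  · by_cases h3 : i < j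
    · rw [if_neg h3.ne', if_neg h2, if_neg h2, if_pos h3, one_mul]
    · have h4 : j = i := le_antisymm (not_lt.mp h3) (not_lt.mp h2)
      subst h4
      have hmem : z j j ∈ Set.Ioi (0 : ℝ) := hz1 j
      rw [if_pos rfl, if_neg h2, if_neg h2, if_neg h3, Set.indicator_of_mem hmem]

/-- the limit of the right sides -/
theorem sg_right {n : ℕ} (ν : Fin n → ℂ) {w : ℂ} (hw : 0 < w.re)
    (hwν : ∀ i, -1 < w.re + (ν i).re - (n + 1) / 2) :
    Tendsto (fun N : ℕ => sphT ν (sg_fN w N)) atTop (𝓝 (sphT ν (sg_f w))) := by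
  unfold sphT
  apply tendsto_integral_of_dominated_convergence
    (fun z : Fin n → Fin n → ℝ =>
      ∏ i, ∏ j, sg_h (fun i => w.re + (ν i).re - (n + 1) / 2) i j (z i j))
  · intro N
    apply Measurable.aestronglyMeasurable
    have h1 : Measurable fun z : Fin n → Fin n → ℝ => sg_fN w N (upTri z) :=
      ((sg_fN_cont hw N).comp (sg_upTri_cont n)).measurable
    refine h1.mul ?_
    refine Finset.measurable_prod _ fun i _ => ?_
    have h2 : Measurable fun z : Fin n → Fin n → ℝ => ((z i i : ℝ) : ℂ) := by fun_prop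
    exact h2.pow_const _
  · refine Integrable.integrableOn ?_
    apply Integrable.fintype_prod (f := fun (i : Fin n) (x : Fin n → ℝ) =>
      ∏ j, sg_h (fun i => w.re + (ν i).re - (n + 1) / 2) i j (x j))
    intro i
    apply Integrable.fintype_prod
    intro j
    exact sg_h_int hwν i j
  · intro N
    refine (ae_restrict_iff' (sg_D_meas n)).mpr (ae_of_all _ fun z hz => ?_)
    rw [← sg_major ν w hz, norm_mul, norm_mul]
    exact mul_le_mul_of_nonneg_right (sg_fN_le w N _) (norm_nonneg _)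
  · refine ae_of_all _ fun z => ?_
    refine tendsto_const_nhds.congr' ?_
    filter_upwards [sg_fN_lim hw (upTri z)] with N hN
    rw [hN]

variable {n : ℕ} {e : Fin 2} {ν : Fin n → ℂ} {lam : ℕ → ℂ} {φ : Matrix (Fin n) (Fin n) ℝ → ℂ}

/-- SG: the spherical property for the Gaussian -/
theorem sph_gauss_pr (h : SphericalForm n e ν lam φ) (hn : 0 < n) : ∃ c : ℝ, 0 < c ∧ ∃ σ₀ : ℝ,
    ∀ w : ℂ, σ₀ < w.re → ∀ y : Matrix (Fin n) (Fin n) ℝ, y.det ≠ 0 →
      ∫ g : Mt n, ((|(Matrix.of g).det| : ℝ) : ℂ) ^ w *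
          (Real.exp (-Real.pi * fro (Matrix.of g)) : ℂ) * φ (y * Matrix.of g) *
          (((|(Matrix.of g).det| ^ n)⁻¹ : ℝ) : ℂ) =
        c * (∏ i, Gammaℝ (w - (n - 1) / 2 + ν i) / 2) * φ y := by
  obtain ⟨c, hc, hsph⟩ := h.spherical
  refine ⟨c, hc, n + ∑ i, |(ν i).re|, fun w hw y hy => ?_⟩
  have hν : ∀ i, |(ν i).re| ≤ ∑ i, |(ν i).re| := fun i =>
    Finset.single_le_sum (f := fun i => |(ν i).re|) (fun i _ => abs_nonneg _) (Finset.mem_univ i)
  have hsum0 : 0 ≤ ∑ i, |(ν i).re| := Finset.sum_nonneg fun i _ => abs_nonneg _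
  have hn1 : (1 : ℝ) ≤ n := by exact_mod_cast hn
  have hwn : (n : ℝ) < w.re := by linarith
  have hw0 : 0 < w.re := by linarith
  have hlo : ∀ i, (n : ℝ) < w.re + (ν i).re := by
    intro i
    have h1 := hν i
    have h2 := neg_abs_le (ν i).re
    linarith
  have h1 := sg_left h.continuous h.bounded hwn hy
  have h2 : ∀ N : ℕ, ∫ g : Mt n, sg_fN w N (Matrix.of g) * φ (y * Matrix.of g) *
        (((|(Matrix.of g).det| ^ n)⁻¹ : ℝ) : ℂ) = c * sphT ν (sg_fN w N) * φ y := by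
    intro N
    exact hsph (sg_fN w N) (sg_fN_cont hw0 N) (sg_fN_supp w)
      (fun k k' hk hk' g => sg_fN_inv w N hk hk' g) y hy
  have h3 := ((sg_right ν hw0 (fun i => by have := hlo i; linarith)).const_mul
    (c : ℂ)).mul_const (φ y)
  rw [funext h2] at h1
  have h4 := tendsto_nhds_unique h1 h3
  have h5 := sphT_gauss n ν w (fun i => by have := hlo i; linarith)
  rw [← h5]
  exact h4

alias sph_gauss := sph_gauss_pr

end Pool.Agent.GJ
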