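import Pool.Agent.Lib_helper19.GJ.Defs
import Pool.Agent.Lib_helper19.GJ.NZ
import Pool.Agent.Lib_helper19.GJ.PO
import Pool.Agent.Lib_helper19.GJ.SG

namespace Pool.Agent.GJ

open Complex MeasureTheory Filter Topology Matrix
open Pool.Agent.G4 (par RSB)
open Pool.Agent.RS (Mt SLZ toR lm Xs wG cut cube)
open scoped ENNReal

/-- from the identity for nonnegative functions to complex functions -/
theorem mg_gen {n : ℕ} {c : ℝ} (hc : 0 ≤ c) (T : ℝ × Mt n → Mt n) (hT : Measurable T)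
    (h : ∀ F : Mt n → ℝ≥0∞, Measurable F →
      ∫⁻ t in Set.Ioi (0 : ℝ), (∫⁻ Z in Xs n, F (T (t, Z))) * ENNReal.ofReal t⁻¹ =
      ENNReal.ofReal c * ∫⁻ g : Mt n, F g * ENNReal.ofReal ((|(Matrix.of g).det| ^ n)⁻¹))
    (F : Mt n → ℂ) (hF : Measurable F)
    (hi : Integrable fun g : Mt n => F g * (((|(Matrix.of g).det| ^ n)⁻¹ : ℝ) : ℂ)) :
    IntegrableOn (fun t : ℝ => (∫ Z in Xs n, F (T (t, Z))) * ((t⁻¹ : ℝ) : ℂ)) (Set.Ioi 0) ∧
    ∫ t in Set.Ioi (0 : ℝ), (∫ Z in Xs n, F (T (t, Z))) * ((t⁻¹ : ℝ) : ℂ) =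
      (c : ℂ) * ∫ g : Mt n, F g * (((|(Matrix.of g).det| ^ n)⁻¹ : ℝ) : ℂ) := by
  set μ1 : Measure ℝ := (volume.restrict (Set.Ioi 0)).withDensity (fun t => ENNReal.ofReal t⁻¹)
    with hμ1
  set μ2 : Measure (Mt n) := volume.restrict (Xs n) with hμ2
  have hm1 : Measurable fun t : ℝ => ENNReal.ofReal t⁻¹ := measurable_inv.ennreal_ofReal
  have hm2 : Measurable fun g : Mt n => ENNReal.ofReal (c * (|(Matrix.of g).det| ^ n)⁻¹) :=
    (((Pool.Agent.RS.measurable_det n).abs.pow_const n).inv.const_mul c).ennreal_ofReal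
  have hρ : (μ1.prod μ2).map T =
      volume.withDensity (fun g : Mt n => ENNReal.ofReal (c * (|(Matrix.of g).det| ^ n)⁻¹)) := by
    apply Measure.ext_of_lintegral
    intro f hf
    rw [lintegral_map hf hT, lintegral_prod (fun p => f (T p)) (hf.comp hT).aemeasurable,
      lintegral_withDensity_eq_lintegral_mul _ hm2 hf, hμ1,
      lintegral_withDensity_eq_lintegral_mul _ hm1]
    · have e1 := h f hf
      rw [← lintegral_const_mul] at e1
      · calc _ = ∫⁻ t in Set.Ioi (0 : ℝ), (∫⁻ Z in Xs n, f (T (t, Z))) * ENNReal.ofReal t⁻¹ := by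
              apply lintegral_congr
              intro t
              rw [Pi.mul_apply, mul_comm]
          _ = _ := by
              rw [e1]
              apply lintegral_congr
              intro g
              rw [Pi.mul_apply, ENNReal.ofReal_mul hc]
              ring
      · exact hf.mul ((Pool.Agent.RS.measurable_det n).abs.pow_const n).inv.ennreal_ofReal
    · exact (hf.comp hT).lintegral_prod_right'
  have hlt2 : ∀ᵐ g : Mt n, ENNReal.ofReal (c * (|(Matrix.of g).det| ^ n)⁻¹) < ⊤ :=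
    Filter.Eventually.of_forall fun g => ENNReal.ofReal_lt_top
  have hlt1 : ∀ᵐ t : ℝ ∂(volume.restrict (Set.Ioi 0)), ENNReal.ofReal t⁻¹ < ⊤ :=
    Filter.Eventually.of_forall fun g => ENNReal.ofReal_lt_top
  have htr : ∀ g : Mt n, (ENNReal.ofReal (c * (|(Matrix.of g).det| ^ n)⁻¹)).toReal • F g =
      (c : ℂ) * (F g * (((|(Matrix.of g).det| ^ n)⁻¹ : ℝ) : ℂ)) := by
    intro g
    rw [ENNReal.toReal_ofReal (by positivity), Complex.real_smul]
    push_cast
    ring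
  have hiρ : Integrable F ((μ1.prod μ2).map T) := by
    rw [hρ, integrable_withDensity_iff_integrable_smul' hm2 hlt2]
    simp_rw [htr]
    exact hi.const_mul _
  have hiT : Integrable (fun p => F (T p)) (μ1.prod μ2) :=
    (integrable_map_measure hF.aestronglyMeasurable hT.aemeasurable).mp hiρ
  have hleft := hiT.integral_prod_left
  rw [hμ1, integrable_withDensity_iff_integrable_smul' hm1 hlt1] at hleft
  have htr1 : ∀ t ∈ Set.Ioi (0 : ℝ), (ENNReal.ofReal t⁻¹).toReal • (∫ Z, F (T (t, Z)) ∂μ2) =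
      (∫ Z in Xs n, F (T (t, Z))) * ((t⁻¹ : ℝ) : ℂ) := by
    intro t ht
    rw [ENNReal.toReal_ofReal (inv_nonneg.mpr (le_of_lt ht)), Complex.real_smul, mul_comm]
  constructor
  · refine Integrable.congr hleft ?_
    filter_upwards [ae_restrict_mem measurableSet_Ioi] with t ht
    exact htr1 t ht
  · calc ∫ t in Set.Ioi (0 : ℝ), (∫ Z in Xs n, F (T (t, Z))) * ((t⁻¹ : ℝ) : ℂ)
        = ∫ t in Set.Ioi (0 : ℝ), (ENNReal.ofReal t⁻¹).toReal • (∫ Z, F (T (t, Z)) ∂μ2) := by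
          apply setIntegral_congr_fun measurableSet_Ioi
          intro t ht
          exact (htr1 t ht).symm
      _ = ∫ t, (∫ Z, F (T (t, Z)) ∂μ2) ∂μ1 := by
          rw [hμ1, integral_withDensity_eq_integral_toReal_smul hm1 hlt1]
      _ = ∫ p, F (T p) ∂(μ1.prod μ2) := (integral_prod _ hiT).symm
      _ = ∫ g, F g ∂((μ1.prod μ2).map T) :=
          (integral_map hT.aemeasurable hF.aestronglyMeasurable).symm
      _ = ∫ g, (ENNReal.ofReal (c * (|(Matrix.of g).det| ^ n)⁻¹)).toReal • F g := by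
          rw [hρ, integral_withDensity_eq_integral_toReal_smul hm2 hlt2]
      _ = _ := by
          simp_rw [htr]
          rw [integral_const_mul]

/-- invariance of `dt / t` -/
theorem mg_scale {r : ℝ} (hr : 0 < r) (G : ℝ → ℝ≥0∞) (hG : Measurable G) :
    ∫⁻ t in Set.Ioi (0 : ℝ), G (t * r) * ENNReal.ofReal t⁻¹ =
      ∫⁻ t in Set.Ioi (0 : ℝ), G t * ENNReal.ofReal t⁻¹ := by
  set H : ℝ → ℝ≥0∞ := (Set.Ioi (0 : ℝ)).indicator (fun t => G t * ENNReal.ofReal t⁻¹) with hH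
  have hHm : Measurable H := (hG.mul measurable_inv.ennreal_ofReal).indicator measurableSet_Ioi
  have e1 : ∫⁻ t, H (r * t) = ENNReal.ofReal r⁻¹ * ∫⁻ t, H t := by
    rw [← lintegral_map hHm (measurable_const_mul r), Real.map_volume_mul_left hr.ne',
      lintegral_smul_measure, smul_eq_mul, abs_of_pos (inv_pos.mpr hr)]
  have e2 : ∫⁻ t, H (r * t) = ENNReal.ofReal r⁻¹ *
      ∫⁻ t in Set.Ioi (0 : ℝ), G (t * r) * ENNReal.ofReal t⁻¹ := by
    rw [← lintegral_const_mul, ← lintegral_indicator measurableSet_Ioi]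
    · apply lintegral_congr
      intro t
      by_cases ht : t ∈ Set.Ioi (0 : ℝ)
      · have ht' : r * t ∈ Set.Ioi (0 : ℝ) := mul_pos hr ht
        rw [hH, Set.indicator_of_mem ht', Set.indicator_of_mem ht, mul_inv,
          ENNReal.ofReal_mul (inv_nonneg.mpr hr.le), mul_comm r t]
        ring
      · have ht' : r * t ∉ Set.Ioi (0 : ℝ) := by
          intro h
          exact ht ((mul_pos_iff_of_pos_left hr).mp h)
        rw [hH, Set.indicator_of_notMem ht', Set.indicator_of_notMem ht]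
    · exact (hG.comp (measurable_mul_const r)).mul measurable_inv.ennreal_ofReal
  rw [e1, hH, lintegral_indicator measurableSet_Ioi] at e2
  have h0 : ENNReal.ofReal r⁻¹ ≠ 0 := by
    simpa using hr
  exact ((ENNReal.mul_right_inj h0 ENNReal.ofReal_ne_top).mp e2).symm

/-- the map `(t, Z) ↦ t • nz Z` -/
noncomputable def mg_T (n : ℕ) (p : ℝ × Mt n) : Mt n := fun i j => p.1 * nz p.2 i j

theorem mg_T_meas (n : ℕ) : Measurable (mg_T n) := by
  have hd : Measurable fun p : ℝ × Mt n => (Matrix.of p.2).det :=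
    (Pool.Agent.RS.measurable_det n).comp measurable_snd
  apply measurable_pi_lambda
  intro i
  apply measurable_pi_lambda
  intro j
  apply measurable_fst.mul
  have h1 : Measurable fun p : ℝ × Mt n => p.2 i j :=
    (measurable_pi_apply j).comp ((measurable_pi_apply i).comp measurable_snd)
  exact h1.div (hd.abs.pow_const _)

theorem mg_lint {n : ℕ} (hn : 0 < n) (F : Mt n → ℝ≥0∞) (hF : Measurable F) :
    ∫⁻ t in Set.Ioi (0 : ℝ), (∫⁻ Z in Xs n, F (mg_T n (t, Z))) * ENNReal.ofReal t⁻¹ =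
      ENNReal.ofReal ((2 ^ n - 1) / (n : ℝ) ^ 2) *
        ∫⁻ g : Mt n, F g * ENNReal.ofReal ((|(Matrix.of g).det| ^ n)⁻¹) := by
  rw [← polar_lint hn F hF]
  have hm : Measurable fun p : ℝ × Mt n => F (mg_T n p) := hF.comp (mg_T_meas n)
  have hm2 : Measurable fun p : ℝ × Mt n => F (p.1 • p.2) :=
    hF.comp (measurable_fst.smul measurable_snd)
  have e1 : ∫⁻ t in Set.Ioi (0 : ℝ), (∫⁻ Z in Xs n, F (mg_T n (t, Z))) * ENNReal.ofReal t⁻¹ =
      ∫⁻ t in Set.Ioi (0 : ℝ), ∫⁻ Z in Xs n, F (mg_T n (t, Z)) * ENNReal.ofReal t⁻¹ := by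
    apply lintegral_congr
    intro t
    rw [lintegral_mul_const]
    exact hm.comp measurable_prodMk_left
  have e2 : ∫⁻ t in Set.Ioi (0 : ℝ), (∫⁻ Z in Xs n, F (t • Z)) * ENNReal.ofReal t⁻¹ =
      ∫⁻ t in Set.Ioi (0 : ℝ), ∫⁻ Z in Xs n, F (t • Z) * ENNReal.ofReal t⁻¹ := by
    apply lintegral_congr
    intro t
    rw [lintegral_mul_const]
    exact hm2.comp measurable_prodMk_left
  have s1 : ∫⁻ t in Set.Ioi (0 : ℝ), ∫⁻ Z in Xs n, F (mg_T n (t, Z)) * ENNReal.ofReal t⁻¹ =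
      ∫⁻ Z in Xs n, ∫⁻ t in Set.Ioi (0 : ℝ), F (mg_T n (t, Z)) * ENNReal.ofReal t⁻¹ :=
    lintegral_lintegral_swap (hm.mul (measurable_fst.inv.ennreal_ofReal)).aemeasurable
  have s2 : ∫⁻ t in Set.Ioi (0 : ℝ), ∫⁻ Z in Xs n, F (t • Z) * ENNReal.ofReal t⁻¹ =
      ∫⁻ Z in Xs n, ∫⁻ t in Set.Ioi (0 : ℝ), F (t • Z) * ENNReal.ofReal t⁻¹ :=
    lintegral_lintegral_swap (hm2.mul (measurable_fst.inv.ennreal_ofReal)).aemeasurable
  rw [e1, e2, s1, s2]
  apply setLIntegral_congr_fun (Pool.Agent.RS.measurableSet_Xs n)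
  intro Z hZ
  obtain ⟨r, hr, hr2, _⟩ := nz_smul hn (Pool.Agent.RS.Xs_det_ne hZ)
  have h3 : ∀ t : ℝ, mg_T n (t, Z) = (t * r) • Z := by
    intro t
    funext i j
    unfold mg_T
    simp only
    rw [hr2]
    simp [mul_assoc]
  simp only
  simp_rw [h3]
  exact mg_scale hr (fun t => F (t • Z)) (hF.comp (measurable_id.smul_const Z))

/-! integrability -/

theorem mg_entry {n : ℕ} (X : Matrix (Fin n) (Fin n) ℝ) (i j : Fin n) :
    |X i j| ≤ Real.sqrt (fro X) := by
  apply Real.abs_le_sqrt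
  unfold fro
  calc X i j ^ 2 ≤ ∑ j', X i j' ^ 2 :=
        Finset.single_le_sum (f := fun j' => X i j' ^ 2) (fun _ _ => sq_nonneg _) (Finset.mem_univ j)
    _ ≤ ∑ i', ∑ j', X i' j' ^ 2 :=
        Finset.single_le_sum (f := fun i' => ∑ j', X i' j' ^ 2)
          (fun _ _ => Finset.sum_nonneg fun _ _ => sq_nonneg _) (Finset.mem_univ i)

theorem mg_fro_nonneg {n : ℕ} (X : Matrix (Fin n) (Fin n) ℝ) : 0 ≤ fro X :=
  Finset.sum_nonneg fun _ _ => Finset.sum_nonneg fun _ _ => sq_nonneg _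

theorem mg_det_le {n : ℕ} (X : Matrix (Fin n) (Fin n) ℝ) :
    |X.det| ≤ (n.factorial : ℝ) * Real.sqrt (fro X) ^ n := by
  have := Matrix.det_le (A := X) (abv := AbsoluteValue.abs) (x := Real.sqrt (fro X))
    (fun i j => mg_entry X i j)
  rw [Fintype.card_fin, nsmul_eq_mul] at this
  exact this

theorem mg_bound (n : ℕ) {σ : ℝ} (hσ : 0 ≤ σ) : ∃ K : ℝ, 0 ≤ K ∧
    ∀ X : Matrix (Fin n) (Fin n) ℝ, |X.det| ^ σ ≤ K * Real.exp (Real.pi / 2 * fro X) := by
  obtain ⟨k, hk⟩ := exists_nat_ge ((n : ℝ) * σ)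
  refine ⟨(n.factorial : ℝ) ^ σ * (1 + (k.factorial : ℝ) * (2 / Real.pi) ^ k), by positivity, ?_⟩
  intro X
  set s := Real.sqrt (fro X) with hs
  have hs0 : 0 ≤ s := Real.sqrt_nonneg _
  have hf0 := mg_fro_nonneg X
  have h1 : |X.det| ^ σ ≤ ((n.factorial : ℝ) * s ^ n) ^ σ :=
    Real.rpow_le_rpow (abs_nonneg _) (mg_det_le X) hσ
  have h2 : ((n.factorial : ℝ) * s ^ n) ^ σ = (n.factorial : ℝ) ^ σ * s ^ ((n : ℝ) * σ) := by
    rw [Real.mul_rpow (by positivity) (by positivity), ← Real.rpow_natCast_mul hs0]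
  have h3 : s ^ ((n : ℝ) * σ) ≤ 1 + (fro X) ^ k := by
    rcases le_or_gt s 1 with h | h
    · have : s ^ ((n : ℝ) * σ) ≤ 1 := Real.rpow_le_one hs0 h (by positivity)
      have : 0 ≤ (fro X) ^ k := by positivity
      linarith
    · have e1 : s ^ ((n : ℝ) * σ) ≤ s ^ ((2 * k : ℕ) : ℝ) := by
        apply Real.rpow_le_rpow_of_exponent_le h.le
        push_cast
        have : (0 : ℝ) ≤ k := Nat.cast_nonneg k
        linarith
      rw [Real.rpow_natCast, pow_mul, hs, Real.sq_sqrt hf0] at e1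
      linarith
  have h4 : (fro X) ^ k ≤ (k.factorial : ℝ) * (2 / Real.pi) ^ k * Real.exp (Real.pi / 2 * fro X) := by
    have hpi := Real.pi_pos
    have e1 := Real.pow_div_factorial_le_exp (Real.pi / 2 * fro X) (by positivity) k
    rw [div_le_iff₀ (by positivity), mul_pow] at e1
    have e2 : (2 / Real.pi) ^ k * (Real.pi / 2) ^ k = 1 := by
      rw [← mul_pow]
      have : 2 / Real.pi * (Real.pi / 2) = 1 := by field_simp
      rw [this, one_pow]
    calc (fro X) ^ k = (2 / Real.pi) ^ k * ((Real.pi / 2) ^ k * (fro X) ^ k) := by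
          rw [← mul_assoc, e2, one_mul]
      _ ≤ (2 / Real.pi) ^ k * (Real.exp (Real.pi / 2 * fro X) * k.factorial) :=
          mul_le_mul_of_nonneg_left e1 (by positivity)
      _ = _ := by ring
  have h5 : 1 ≤ Real.exp (Real.pi / 2 * fro X) := by
    apply Real.one_le_exp
    have := Real.pi_pos
    positivity
  calc |X.det| ^ σ ≤ (n.factorial : ℝ) ^ σ * s ^ ((n : ℝ) * σ) := by rw [← h2]; exact h1
    _ ≤ (n.factorial : ℝ) ^ σ * (1 * Real.exp (Real.pi / 2 * fro X) +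
        (k.factorial : ℝ) * (2 / Real.pi) ^ k * Real.exp (Real.pi / 2 * fro X)) := by
        apply mul_le_mul_of_nonneg_left _ (by positivity)
        linarith
    _ = _ := by ring

theorem mg_gauss_int (n : ℕ) {b : ℝ} (hb : 0 < b) :
    Integrable fun g : Mt n => Real.exp (-b * fro (Matrix.of g)) := by
  have h1 : Integrable (fun x : Fin n → ℝ => ∏ j, Real.exp (-b * x j ^ 2)) :=
    Integrable.fintype_prod (f := fun _ x => Real.exp (-b * x ^ 2))
      (fun _ => integrable_exp_neg_mul_sq hb)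
  have h2 : Integrable (fun x : Fin n → Fin n → ℝ => ∏ i, ∏ j, Real.exp (-b * x i j ^ 2)) :=
    Integrable.fintype_prod (f := fun _ (x : Fin n → ℝ) => ∏ j, Real.exp (-b * x j ^ 2))
      (fun _ => h1)
  have h3 : (fun g : Mt n => Real.exp (-b * fro (Matrix.of g))) =
      fun x : Fin n → Fin n → ℝ => ∏ i, ∏ j, Real.exp (-b * x i j ^ 2) := by
    funext g
    unfold fro
    rw [Finset.mul_sum, Real.exp_sum]
    refine Finset.prod_congr rfl fun i _ => ?_
    rw [Finset.mul_sum, Real.exp_sum]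
    rfl
  rw [h3]
  exact h2

variable {n : ℕ} {e : Fin 2} {ν : Fin n → ℂ} {lam : ℕ → ℂ} {φ : Matrix (Fin n) (Fin n) ℝ → ℂ}

/-- the function on the group -/
noncomputable def mg_F (φ : Matrix (Fin n) (Fin n) ℝ → ℂ) (w : ℂ)
    (y : Matrix (Fin n) (Fin n) ℝ) (g : Mt n) : ℂ :=
  ((|(Matrix.of g).det| : ℝ) : ℂ) ^ w * (Real.exp (-Real.pi * fro (Matrix.of g)) : ℂ) *
    cut (fun g => φ (y * g)) g

theorem mg_fro_cont (n : ℕ) : Continuous fun g : Mt n => fro (Matrix.of g) := by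
  unfold fro
  refine continuous_finsetSum _ fun i _ => continuous_finsetSum _ fun j _ => ?_
  exact ((continuous_apply j).comp (continuous_apply i)).pow 2

theorem mg_F_meas (h : SphericalForm n e ν lam φ) (w : ℂ) {y : Matrix (Fin n) (Fin n) ℝ}
    (hy : y.det ≠ 0) : Measurable (mg_F φ w y) := by
  have h1 : Measurable fun g : Mt n => ((|(Matrix.of g).det| : ℝ) : ℂ) ^ w :=
    (Complex.measurable_ofReal.comp (Pool.Agent.RS.measurable_det n).abs).pow_const w
  have h2 : Measurable fun g : Mt n => (Real.exp (-Real.pi * fro (Matrix.of g)) : ℂ) := by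
    apply Complex.measurable_ofReal.comp
    exact Real.measurable_exp.comp ((mg_fro_cont n).measurable.const_mul _)
  have h3 : Measurable (cut (fun g => φ (y * g))) := by
    apply Pool.Agent.RS.measurable_cut
    apply h.continuous.comp (by fun_prop)
    intro g hg
    rw [Set.mem_ofPred_eq, Matrix.det_mul]
    exact mul_ne_zero hy hg
  exact (h1.mul h2).mul h3

theorem mg_F_int (h : SphericalForm n e ν lam φ) {w : ℂ} (hw : (n : ℝ) ≤ w.re)
    {y : Matrix (Fin n) (Fin n) ℝ} (hy : y.det ≠ 0) :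
    Integrable fun g : Mt n => mg_F φ w y g * (((|(Matrix.of g).det| ^ n)⁻¹ : ℝ) : ℂ) := by
  obtain ⟨M, hM⟩ := h.bounded
  obtain ⟨K, hK0, hK⟩ := mg_bound n (σ := w.re - n) (by linarith)
  have hmeas : Measurable fun g : Mt n => mg_F φ w y g * (((|(Matrix.of g).det| ^ n)⁻¹ : ℝ) : ℂ) :=
    (mg_F_meas h w hy).mul (Complex.measurable_ofReal.comp
      ((Pool.Agent.RS.measurable_det n).abs.pow_const n).inv)
  have hint : Integrable fun g : Mt n => |M| * K * Real.exp (-(Real.pi / 2) * fro (Matrix.of g)) :=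
    (mg_gauss_int n (by have := Real.pi_pos; positivity)).const_mul _
  refine hint.mono' hmeas.aestronglyMeasurable (Filter.Eventually.of_forall fun g => ?_)
  by_cases hg : (Matrix.of g).det = 0
  · unfold mg_F
    rw [Pool.Agent.RS.cut_of_eq _ hg, mul_zero, zero_mul, norm_zero]
    positivity
  · unfold mg_F
    have hd : 0 < |(Matrix.of g).det| := abs_pos.mpr hg
    rw [Pool.Agent.RS.cut_of_ne _ hg, norm_mul, norm_mul, norm_mul,
      Complex.norm_cpow_eq_rpow_re_of_pos hd, Complex.norm_real, Complex.norm_real,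
      Real.norm_eq_abs, Real.norm_eq_abs, abs_of_pos (Real.exp_pos _),
      abs_of_pos (inv_pos.mpr (pow_pos hd n))]
    have h1 : ‖φ (y * Matrix.of g)‖ ≤ |M| := by
      refine (hM _ ?_).trans (le_abs_self M)
      rw [Matrix.det_mul]
      exact mul_ne_zero hy hg
    have h2 : |(Matrix.of g).det| ^ w.re * (|(Matrix.of g).det| ^ n)⁻¹ =
        |(Matrix.of g).det| ^ (w.re - n) := by
      rw [Real.rpow_sub hd, Real.rpow_natCast, div_eq_mul_inv]
    have h3 := hK (Matrix.of g)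
    calc |(Matrix.of g).det| ^ w.re * Real.exp (-Real.pi * fro (Matrix.of g)) *
          ‖φ (y * Matrix.of g)‖ * (|(Matrix.of g).det| ^ n)⁻¹
        = (|(Matrix.of g).det| ^ (w.re - n)) * Real.exp (-Real.pi * fro (Matrix.of g)) *
          ‖φ (y * Matrix.of g)‖ := by rw [← h2]; ring
      _ ≤ (K * Real.exp (Real.pi / 2 * fro (Matrix.of g))) *
          Real.exp (-Real.pi * fro (Matrix.of g)) * |M| := by
          apply mul_le_mul _ h1 (norm_nonneg _) (by positivity)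
          exact mul_le_mul_of_nonneg_right h3 (Real.exp_pos _).le
      _ = |M| * K * (Real.exp (Real.pi / 2 * fro (Matrix.of g)) *
          Real.exp (-Real.pi * fro (Matrix.of g))) := by ring
      _ = |M| * K * Real.exp (-(Real.pi / 2) * fro (Matrix.of g)) := by
          rw [← Real.exp_add]
          congr 2
          ring

theorem mg_pow {τ : ℝ} (hτ : 0 < τ) (n a : ℕ) (w : ℂ) :
    ((τ ^ n : ℝ) : ℂ) ^ (w + a) * ((τ⁻¹ : ℝ) : ℂ) =
      ((τ ^ (n * a) : ℝ) : ℂ) * (τ : ℂ) ^ (n * w - 1) := by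
  obtain ⟨L, rfl⟩ : ∃ L : ℝ, τ = Real.exp L := ⟨Real.log τ, (Real.exp_log hτ).symm⟩
  have h1 : ((Real.exp L ^ n : ℝ) : ℂ) ^ (w + a) = Complex.exp (n * L * (w + a)) := by
    have e1 : (Real.exp L ^ n : ℝ) = Real.exp (n * L) := by rw [Real.exp_nat_mul]
    rw [e1, Complex.cpow_def_of_ne_zero (by exact_mod_cast (Real.exp_pos _).ne'),
      ← Complex.ofReal_log (Real.exp_pos _).le, Real.log_exp]
    push_cast
    ring_nf
  have h2 : ((Real.exp L : ℝ) : ℂ) ^ (n * w - 1) = Complex.exp (L * (n * w - 1)) := by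
    rw [Complex.cpow_def_of_ne_zero (by exact_mod_cast (Real.exp_pos _).ne'),
      ← Complex.ofReal_log (Real.exp_pos _).le, Real.log_exp]
  have h3 : (((Real.exp L)⁻¹ : ℝ) : ℂ) = Complex.exp (-L) := by
    rw [← Real.exp_neg]
    push_cast
    rfl
  have h4 : ((Real.exp L ^ (n * a) : ℝ) : ℂ) = Complex.exp ((n * a : ℕ) * L) := by
    rw [Complex.exp_nat_mul]
    push_cast
    rfl
  rw [h1, h2, h3, h4, ← Complex.exp_add, ← Complex.exp_add]
  congr 1
  push_cast
  ring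

theorem mg_slice (h : SphericalForm n e ν lam φ) (hn : 0 < n) (a : ℕ) (w : ℂ)
    {y : Matrix (Fin n) (Fin n) ℝ} (hy : y.det ≠ 0) {τ : ℝ} (hτ : 0 < τ) :
    (∫ Z in Xs n, mg_F φ (w + a) y (mg_T n (τ, Z))) * ((τ⁻¹ : ℝ) : ℂ) =
      Gk φ a τ y * (τ : ℂ) ^ (n * w - 1) := by
  unfold Gk
  rw [← integral_mul_const, ← integral_mul_const]
  apply setIntegral_congr_fun (Pool.Agent.RS.measurableSet_Xs n)
  intro Z hZ
  simp only
  have hZd := Pool.Agent.RS.Xs_det_ne hZ
  obtain ⟨r, hr, hr2, _⟩ := nz_smul hn hZd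
  have e1 : (Matrix.of (mg_T n (τ, Z)) : Matrix (Fin n) (Fin n) ℝ) = τ • nz Z := rfl
  have e2 : |(Matrix.of (mg_T n (τ, Z))).det| = τ ^ n := by
    rw [e1, Matrix.det_smul, Fintype.card_fin, abs_mul, nz_det hn hZd, mul_one,
      abs_of_pos (pow_pos hτ n)]
  have e3 : fro (Matrix.of (mg_T n (τ, Z))) = τ ^ 2 * fro (nz Z) := by
    rw [e1]
    unfold fro
    rw [Finset.mul_sum]
    refine Finset.sum_congr rfl fun i _ => ?_
    rw [Finset.mul_sum]
    refine Finset.sum_congr rfl fun j _ => ?_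
    rw [Matrix.smul_apply, smul_eq_mul, mul_pow]
  have e4 : (Matrix.of (mg_T n (τ, Z))).det ≠ 0 := by
    rw [← abs_pos, e2]
    exact pow_pos hτ n
  have e5 : φ (y * Matrix.of (mg_T n (τ, Z))) = φ (y * Matrix.of Z) := by
    have e6 : y * Matrix.of (mg_T n (τ, Z)) = (τ * r) • (y * Matrix.of Z) := by
      rw [e1, hr2, smul_smul, Matrix.mul_smul]
    rw [e6]
    apply h.scalar _ _ (mul_pos hτ hr)
    rw [Matrix.det_mul]
    exact mul_ne_zero hy hZd
  unfold mg_F
  rw [Pool.Agent.RS.cut_of_ne _ e4, e5, e2, e3]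
  have e7 := mg_pow hτ n a w
  have e8 : ∀ A B C D : ℂ, A * B * C * D = (A * D) * B * C := fun A B C D => by ring
  rw [e8, e7]
  push_cast
  ring_nf

/-- MG: the Mellin transform of the local integral -/
theorem mel_Gk_pr (h : SphericalForm n e ν lam φ) (hn : 0 < n) : ∃ κ : ℝ, 0 < κ ∧ ∃ σ₀ : ℝ,
    ∀ (a : ℕ) (w : ℂ), σ₀ < w.re → ∀ y : Matrix (Fin n) (Fin n) ℝ, y.det ≠ 0 →
      ∫ τ in Set.Ioi (0 : ℝ), Gk φ a τ y * (τ : ℂ) ^ (n * w - 1) =
        κ * (∏ i, Gammaℝ (w + a - (n - 1) / 2 + ν i)) * φ y := by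
  obtain ⟨c, hc, σ₀, hσ⟩ := sph_gauss h hn
  have hn' : (0 : ℝ) < n := by exact_mod_cast hn
  have h2n : (1 : ℝ) < 2 ^ n := one_lt_pow₀ (by norm_num) hn.ne'
  have hcn : 0 < (2 ^ n - 1) / (n : ℝ) ^ 2 := div_pos (by linarith) (by positivity)
  refine ⟨(2 ^ n - 1) / (n : ℝ) ^ 2 * (c / 2 ^ n), by positivity, max σ₀ n, ?_⟩
  intro a w hw y hy
  have hw1 : σ₀ < w.re := lt_of_le_of_lt (le_max_left _ _) hw
  have hw2 : (n : ℝ) < w.re := lt_of_le_of_lt (le_max_right _ _) hw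
  have hre : (w + a).re = w.re + a := by simp
  have ha : (0 : ℝ) ≤ a := Nat.cast_nonneg a
  have key := (mg_gen hcn.le (mg_T n) (mg_T_meas n) (fun F hF => mg_lint hn F hF)
    (mg_F φ (w + a) y) (mg_F_meas h (w + a) hy)
    (mg_F_int h (w := w + a) (by rw [hre]; linarith) hy)).2
  have e1 : ∫ τ in Set.Ioi (0 : ℝ), Gk φ a τ y * (τ : ℂ) ^ (n * w - 1) =
      ∫ t in Set.Ioi (0 : ℝ), (∫ Z in Xs n, mg_F φ (w + a) y (mg_T n (t, Z))) * ((t⁻¹ : ℝ) : ℂ) := by
    apply setIntegral_congr_fun measurableSet_Ioi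
    intro τ hτ
    exact (mg_slice h hn a w hy hτ).symm
  have e2 : ∫ g : Mt n, mg_F φ (w + a) y g * (((|(Matrix.of g).det| ^ n)⁻¹ : ℝ) : ℂ) =
      ∫ g : Mt n, ((|(Matrix.of g).det| : ℝ) : ℂ) ^ (w + a) *
          (Real.exp (-Real.pi * fro (Matrix.of g)) : ℂ) * φ (y * Matrix.of g) *
          (((|(Matrix.of g).det| ^ n)⁻¹ : ℝ) : ℂ) := by
    apply integral_congr_ae
    refine Filter.Eventually.of_forall fun g => ?_
    simp only
    by_cases hg : (Matrix.of g).det = 0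
    · rw [hg, abs_zero, zero_pow hn.ne', _root_.inv_zero, Complex.ofReal_zero, mul_zero, mul_zero]
    · unfold mg_F
      rw [Pool.Agent.RS.cut_of_ne _ hg]
  rw [e1, key, e2, hσ (w + a) (by rw [hre]; linarith) y hy, Finset.prod_div_distrib,
    Finset.prod_const, Finset.card_univ, Fintype.card_fin]
  push_cast
  field_simp

alias mel_Gk := mel_Gk_pr

end Pool.Agent.GJ
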