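import Pool.Agent.Lib_helper19.GJ.Defs

/-! Block NP: the norm of a spherical form is positive. -/

namespace Pool.Agent.GJ

open Complex MeasureTheory Filter Topology Matrix
open Pool.Agent.G4 (par RSB)
open Pool.Agent.RS (Mt SLZ toR lm Xs wG cut)
open scoped ENNReal

variable {n : ℕ} {e : Fin 2} {ν : Fin n → ℂ} {lam : ℕ → ℂ} {φ : Matrix (Fin n) (Fin n) ℝ → ℂ}

theorem np_det_unipotent (x : Fin n → Fin n → ℝ) : (RS.Main.unipotent x).det = 1 := by
  have h : (RS.Main.unipotent x).BlockTriangular id := by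
    intro i j hij
    have hij' : j < i := hij
    simp only [RS.Main.unipotent, Matrix.of_apply]
    rw [if_neg hij'.ne', if_neg (not_lt.2 hij'.le)]
  rw [Matrix.det_of_isUpperTriangular h]
  refine Finset.prod_eq_one fun i _ => ?_
  simp [RS.Main.unipotent]

theorem np_exists (h : SphericalForm n e ν lam φ) :
    ∃ g : Matrix (Fin n) (Fin n) ℝ, g.det ≠ 0 ∧ φ g ≠ 0 := by
  obtain ⟨g, hg, hw⟩ := h.generic
  by_contra hcon
  push Not at hcon
  apply hw
  rw [RS.Main.whittaker]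
  refine integral_eq_zero_of_ae (Eventually.of_forall fun x => ?_)
  have h1 : (RS.Main.unipotent x * g).det ≠ 0 := by
    rw [Matrix.det_mul, np_det_unipotent, one_mul]
    exact hg
  simp [hcon _ h1]

theorem np_exists' (h : SphericalForm n e ν lam φ) (hn : 0 < n) :
    ∃ Y : Mt n, 1 < |(Matrix.of Y).det| ∧ |(Matrix.of Y).det| < 2 ∧ φ (Matrix.of Y) ≠ 0 := by
  obtain ⟨g, hg, hφ⟩ := np_exists h
  have hg' : 0 < |g.det| := abs_pos.2 hg
  set t : ℝ := (3 / 2 / |g.det|) ^ ((n : ℝ)⁻¹) with ht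
  have ht0 : 0 < t := Real.rpow_pos_of_pos (by positivity) _
  have htn : t ^ n = 3 / 2 / |g.det| := by
    rw [ht]
    exact Real.rpow_inv_natCast_pow (by positivity) hn.ne'
  have hd : |(t • g).det| = 3 / 2 := by
    rw [Matrix.det_smul, Fintype.card_fin, abs_mul, abs_of_pos (pow_pos ht0 n), htn,
      div_mul_cancel₀ _ hg'.ne']
  refine ⟨(Matrix.of.symm (t • g) : Mt n), ?_, ?_, ?_⟩
  · rw [Equiv.apply_symm_apply, hd]
    norm_num
  · rw [Equiv.apply_symm_apply, hd]
    norm_num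
  · rw [Equiv.apply_symm_apply, h.scalar t g ht0 hg]
    exact hφ

theorem np_wG_pos {Y : Mt n} (hY : (Matrix.of Y).det ≠ 0) : 0 < (wG Y).toReal := by
  refine ENNReal.toReal_pos ?_ ?_
  · rw [wG, RS.wt]
    refine (ENNReal.div_pos (RS.gauss_pos Y) ?_).ne'
    exact RS.tsum_gauss_ne_top Y hY
  · exact ne_top_of_le_ne_top ENNReal.one_ne_top (RS.wt_le_one _ Y)

theorem nrm_pos_pr (h : SphericalForm n e ν lam φ) (hn : 0 < n) : 0 < nrm φ := by
  obtain ⟨M, hM⟩ := h.bounded
  have hcut : Measurable (cut φ) := RS.measurable_cut h.continuous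
  -- replace `φ` by `cut φ`
  have h1 : nrm φ = ∫ x in Xs n, (wG x).toReal * ‖cut φ x‖ ^ 2 := by
    rw [nrm]
    refine setIntegral_congr_fun (RS.measurableSet_Xs n) fun x hx => ?_
    rw [RS.cut_of_ne φ (RS.Xs_det_ne hx)]
  have hmeas : Measurable fun x : Mt n => (wG x).toReal * ‖cut φ x‖ ^ 2 :=
    RS.measurable_wG.ennreal_toReal.mul (hcut.norm.pow_const 2)
  -- integrability
  have hmass : ∫⁻ A in Xs n, wG A ≠ ⊤ := by
    obtain ⟨s, rfl⟩ : ∃ s, n = s + 1 := ⟨n - 1, by omega⟩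
    exact RS.mass_ne_top s
  have hwi : IntegrableOn (fun x : Mt n => (wG x).toReal) (Xs n) :=
    integrable_toReal_of_lintegral_ne_top RS.measurable_wG.aemeasurable hmass
  have hint : IntegrableOn (fun x : Mt n => (wG x).toReal * ‖cut φ x‖ ^ 2) (Xs n) := by
    refine (hwi.mul_const (max M 0 ^ 2)).mono' hmeas.aestronglyMeasurable ?_
    refine Eventually.of_forall fun x => ?_
    rw [Real.norm_of_nonneg (by positivity)]
    exact mul_le_mul_of_nonneg_left
      (pow_le_pow_left₀ (norm_nonneg _) (RS.norm_cut_le hM x) 2) ENNReal.toReal_nonneg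
  rw [h1, setIntegral_pos_iff_support_of_nonneg_ae (Eventually.of_forall fun x => by positivity)
    hint]
  -- an open set in the support
  set V : Set (Mt n) := {Y : Mt n | (Matrix.of Y).det ≠ 0} with hV
  have hVo : IsOpen V := RS.isOpen_inv n
  have hco : ContinuousOn (fun Y : Mt n => φ (Matrix.of Y)) V := RS.continuousOn_cut h.continuous
  have hUo : IsOpen (V ∩ (fun Y : Mt n => φ (Matrix.of Y)) ⁻¹' {0}ᶜ) :=
    hco.isOpen_inter_preimage hVo isOpen_compl_singleton
  have hWo : IsOpen {Y : Mt n | 1 < |(Matrix.of Y).det| ∧ |(Matrix.of Y).det| < 2} := by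
    have hc := (RS.continuous_detMt n).abs
    exact (isOpen_lt continuous_const hc).inter (isOpen_lt hc continuous_const)
  obtain ⟨Y, hY1, hY2, hY3⟩ := np_exists' h hn
  have hYV : (Matrix.of Y).det ≠ 0 := by
    intro h0
    rw [h0, abs_zero] at hY1
    linarith
  have hpos := (hUo.inter hWo).measure_pos volume ⟨Y, ⟨⟨hYV, hY3⟩, hY1, hY2⟩⟩
  refine hpos.trans_le (measure_mono ?_)
  rintro Z ⟨⟨hZV, hZ3⟩, hZ1, hZ2⟩
  refine ⟨?_, hZ1.le, hZ2.le⟩
  rw [Function.mem_support, RS.cut_of_ne φ hZV]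
  have h2 := np_wG_pos hZV
  have h3 : 0 < ‖φ (Matrix.of Z)‖ := norm_pos_iff.2 hZ3
  positivity

alias nrm_pos := nrm_pos_pr

end Pool.Agent.GJ
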