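import Pool.Agent.Lib_helper19.GJ.Defs
import Pool.Agent.Lib_helper19.GJ.HC
import Pool.Agent.Lib_helper19.GJ.MP
import Pool.Agent.Lib_helper19.GJ.NZ

set_option autoImplicit false

namespace Pool.Agent.GJ

open Complex MeasureTheory Filter Topology Matrix
open Pool.Agent.G4 (par RSB)
open Pool.Agent.RS (Mt SLZ toR lm Xs wG cut cube)
open scoped ENNReal

theorem ut_fro_smul {n : ℕ} (r : ℝ) (X : Matrix (Fin n) (Fin n) ℝ) :
    fro (r • X) = r ^ 2 * fro X := by
  simp only [fro, Matrix.smul_apply, smul_eq_mul, mul_pow, ← Finset.mul_sum]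

/-- the real matrix of the sign matrix -/
noncomputable def utE (n : ℕ) (b : Bool) : Matrix (Fin n) (Fin n) ℝ :=
  intM (if b then sgnM n else 1)

theorem ut_sgnM_sq (n : ℕ) : sgnM n * sgnM n = 1 := by
  rw [sgnM, Matrix.diagonal_mul_diagonal, ← Matrix.diagonal_one]
  congr 1
  ext i
  split_ifs <;> simp

theorem ut_sgnM_det {n : ℕ} (hn : 0 < n) : (sgnM n).det = -1 := by
  obtain ⟨m, rfl⟩ : ∃ m, n = m + 1 := ⟨n - 1, by omega⟩
  rw [sgnM, Matrix.det_diagonal, Fin.prod_univ_succ]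
  simp

theorem ut_intM_mul {n : ℕ} (A B : Matrix (Fin n) (Fin n) ℤ) : intM (A * B) = intM A * intM B := by
  simp only [intM]
  exact Matrix.map_mul (f := Int.castRingHom ℝ)

theorem ut_intM_natZ {n : ℕ} (A : Fin n → Fin n → ℕ) : intM (natZ A) = natM A := by
  ext i j
  simp [intM, natZ, natM]

theorem ut_intM_one (n : ℕ) : intM (1 : Matrix (Fin n) (Fin n) ℤ) = 1 := by
  simp only [intM]
  exact Matrix.map_one _ (by simp) (by simp)

theorem utE_sq (n : ℕ) (b : Bool) : utE n b * utE n b = 1 := by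
  rw [utE, ← ut_intM_mul]
  cases b
  · simp [ut_intM_one]
  · simp [ut_sgnM_sq, ut_intM_one]

theorem utE_det_ne (n : ℕ) (b : Bool) : (utE n b).det ≠ 0 := by
  intro h
  have h1 := congrArg Matrix.det (utE_sq n b)
  rw [Matrix.det_mul, h, mul_zero, Matrix.det_one] at h1
  exact zero_ne_one h1

theorem utE_abs_det (n : ℕ) (b : Bool) : |(utE n b).det| = 1 := by
  have h1 := congrArg Matrix.det (utE_sq n b)
  rw [Matrix.det_mul, Matrix.det_one] at h1
  have h2 : |(utE n b).det| * |(utE n b).det| = 1 := by rw [← abs_mul, h1, abs_one]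
  nlinarith [abs_nonneg (utE n b).det]

theorem ut_ne_of_mem {n : ℕ} {Y : Mt n} (hY : Y ∈ Xs n) : (Matrix.of Y).det ≠ 0 := by
  intro h
  obtain ⟨h1, _⟩ := hY
  rw [h, abs_zero] at h1
  linarith

variable {n : ℕ} {e : Fin 2} {ν : Fin n → ℂ} {lam : ℕ → ℂ} {φ : Matrix (Fin n) (Fin n) ℝ → ℂ}

theorem ut_phi_E (h : SphericalForm n e ν lam φ) (hn : 0 < n) (b : Bool)
    {g : Matrix (Fin n) (Fin n) ℝ} (hg : g.det ≠ 0) :
    φ (utE n b * g) = (if b then (-1 : ℂ) ^ (e : ℕ) else 1) * φ g := by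
  cases b
  · simp [utE, ut_intM_one]
  · have h1 := h.left (sgnM n) (by rw [ut_sgnM_det hn]; decide) g hg
    rw [ut_sgnM_det hn] at h1
    simpa [utE, intM] using h1

/-- UT: one term of the unfolding -/
theorem unf_term_pr (h : SphericalForm n e ν lam φ) (hn : 0 < n) (a : ℕ) {t : ℝ} (ht : 0 < t)
    {x : Matrix (Fin n) (Fin n) ℝ} (hx : |x.det| = 1) {m : ℕ} {H : Fin n → Fin n → ℕ}
    (hH : H ∈ hnf n (m + 1)) (b : Bool) :
    ∫ Y in Xs n, φ (Matrix.of Y) * (((t ^ n * ((m + 1 : ℕ) : ℝ)) ^ a *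
      Real.exp (-Real.pi * (t ^ 2 * fro (x⁻¹ * intM (natZ H * (if b then sgnM n else 1)) *
        nz Y))) : ℝ) : ℂ) =
      (if b then (-1 : ℂ) ^ (e : ℕ) else 1) *
        Gk φ a (t * ((m + 1 : ℕ) : ℝ) ^ ((n : ℝ)⁻¹)) ((natM H)⁻¹ * x) := by
  set k : ℝ := ((m + 1 : ℕ) : ℝ) with hk
  have hk0 : 0 < k := by positivity
  set c : ℝ := k ^ ((n : ℝ)⁻¹) with hc
  have hc0 : 0 < c := Real.rpow_pos_of_pos hk0 _
  have hcn : c ^ n = k := by
    rw [hc, ← Real.rpow_natCast, ← Real.rpow_mul hk0.le, inv_mul_cancel₀ (by positivity),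
      Real.rpow_one]
  have hdH : (natM H).det = k := by rw [(hnf_det hH).2, hk]
  have hdH0 : (natM H).det ≠ 0 := by rw [hdH]; exact hk0.ne'
  have hx0 : x.det ≠ 0 := by
    intro h0
    rw [h0, abs_zero] at hx
    exact zero_ne_one hx
  -- the matrix S
  set T : Matrix (Fin n) (Fin n) ℝ := x⁻¹ * natM H * utE n b with hT
  set S : Matrix (Fin n) (Fin n) ℝ := c⁻¹ • T with hS
  have hdT : |T.det| = k := by
    rw [hT, Matrix.det_mul, Matrix.det_mul, abs_mul, abs_mul, utE_abs_det, mul_one, hdH,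
      Matrix.det_nonsing_inv, Ring.inverse_eq_inv', abs_inv, hx, inv_one, one_mul,
      abs_of_pos hk0]
  have hdS : |S.det| = 1 := by
    rw [hS, Matrix.det_smul, Fintype.card_fin, abs_mul, hdT, abs_pow, abs_inv, abs_of_pos hc0,
      inv_pow, hcn]
    exact inv_mul_cancel₀ hk0.ne'
  have hTS : T = c • S := by rw [hS, smul_smul, mul_inv_cancel₀ hc0.ne', one_smul]
  -- the inverse of T on the left
  have hinv : ∀ Y : Mt n, Matrix.of Y = c • (utE n b * ((natM H)⁻¹ * x * Matrix.of (lm S Y))) := by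
    intro Y
    rw [Pool.Agent.RS.lm_eq]
    have h1 : c • (utE n b * ((natM H)⁻¹ * x * (S * Matrix.of Y))) =
        utE n b * ((natM H)⁻¹ * x * (T * Matrix.of Y)) := by
      rw [hTS]
      simp only [Matrix.smul_mul, Matrix.mul_smul]
    rw [h1, hT]
    have hu1 : IsUnit (natM H).det := isUnit_iff_ne_zero.2 hdH0
    have hu2 : IsUnit x.det := isUnit_iff_ne_zero.2 hx0
    calc Matrix.of Y = utE n b * utE n b * Matrix.of Y := by rw [utE_sq, Matrix.one_mul]
      _ = utE n b * ((natM H)⁻¹ * (x * x⁻¹) * natM H * utE n b * Matrix.of Y) := by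
          rw [Matrix.mul_nonsing_inv _ hu2, Matrix.mul_one, Matrix.nonsing_inv_mul _ hu1,
            Matrix.one_mul, Matrix.mul_assoc]
      _ = utE n b * ((natM H)⁻¹ * x * (x⁻¹ * natM H * utE n b * Matrix.of Y)) := by
          simp only [Matrix.mul_assoc]
  -- the function of Z = lm S Y
  set F : Mt n → ℂ := fun Z => (if b then (-1 : ℂ) ^ (e : ℕ) else 1) *
    (φ ((natM H)⁻¹ * x * Matrix.of Z) *
      (((t * c) ^ (n * a) * Real.exp (-Real.pi * ((t * c) ^ 2 * fro (nz Z))) : ℝ) : ℂ)) with hF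
  have hpt : ∀ Y ∈ Xs n, φ (Matrix.of Y) * (((t ^ n * k) ^ a *
      Real.exp (-Real.pi * (t ^ 2 * fro (x⁻¹ * intM (natZ H * (if b then sgnM n else 1)) *
        nz Y))) : ℝ) : ℂ) = F (lm S Y) := by
    intro Y hY
    have hY0 := ut_ne_of_mem hY
    have h1 : x⁻¹ * intM (natZ H * (if b then sgnM n else 1)) * nz Y = c • nz (lm S Y) := by
      rw [ut_intM_mul, ut_intM_natZ, nz_mul hdS]
      change x⁻¹ * (natM H * utE n b) * nz Y = _
      rw [← Matrix.mul_assoc, ← hT, hTS, Matrix.smul_mul]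
    have h2 : (t ^ n * k) ^ a = (t * c) ^ (n * a) := by
      rw [pow_mul, mul_pow t c n, hcn]
    have hdet : ((natM H)⁻¹ * x * Matrix.of (lm S Y)).det ≠ 0 := by
      rw [Matrix.det_mul, Matrix.det_mul, Pool.Agent.RS.lm_eq, Matrix.det_mul,
        Matrix.det_nonsing_inv, Ring.inverse_eq_inv']
      have hS0 : S.det ≠ 0 := by
        intro h0
        rw [h0, abs_zero] at hdS
        exact zero_ne_one hdS
      exact mul_ne_zero (mul_ne_zero (inv_ne_zero hdH0) hx0) (mul_ne_zero hS0 hY0)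
    have hdet' : (utE n b * ((natM H)⁻¹ * x * Matrix.of (lm S Y))).det ≠ 0 := by
      rw [Matrix.det_mul]
      exact mul_ne_zero (utE_det_ne n b) hdet
    have h3 : φ (Matrix.of Y) = (if b then (-1 : ℂ) ^ (e : ℕ) else 1) *
        φ ((natM H)⁻¹ * x * Matrix.of (lm S Y)) := by
      rw [hinv Y, h.scalar c _ hc0 hdet', ut_phi_E h hn b hdet]
    rw [h1, ut_fro_smul, h2, h3, hF]
    simp only
    rw [mul_pow t c 2, mul_assoc (t ^ 2) (c ^ 2)]
    ring
  have hmp := mp_lm_abs hdS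
  have hme : MeasurableEmbedding (lm S) := by
    have hu : IsUnit S.det := by
      rw [isUnit_iff_ne_zero]
      intro h0
      rw [h0, abs_zero] at hdS
      exact zero_ne_one hdS
    have hl : Function.LeftInverse (lm S⁻¹) (lm S) := by
      intro Y
      have : Matrix.of (lm S⁻¹ (lm S Y)) = Matrix.of Y := by
        rw [Pool.Agent.RS.lm_eq, Pool.Agent.RS.lm_eq, ← Matrix.mul_assoc,
          Matrix.nonsing_inv_mul _ hu, Matrix.one_mul]
      exact Matrix.of.injective this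
    have hm : ∀ G : Matrix (Fin n) (Fin n) ℝ, Measurable (lm G) := fun G => by
      have h1 : Continuous (fun A : Matrix (Fin n) (Fin n) ℝ => G * A) :=
        continuous_const.matrix_mul continuous_id
      have h2 : Continuous (lm G) := h1
      exact h2.measurable
    exact MeasurableEmbedding.of_measurable_inverse (hm S)
      (by
        have : Set.range (lm S) = Set.univ := by
          rw [Set.range_eq_univ]
          intro Z
          refine ⟨lm S⁻¹ Z, ?_⟩
          have : Matrix.of (lm S (lm S⁻¹ Z)) = Matrix.of Z := by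
            rw [Pool.Agent.RS.lm_eq, Pool.Agent.RS.lm_eq, ← Matrix.mul_assoc,
              Matrix.mul_nonsing_inv _ hu, Matrix.one_mul]
          exact Matrix.of.injective this
        rw [this]; exact MeasurableSet.univ) (hm S⁻¹) hl
  have hXs : MeasurableSet (Xs n) := Pool.Agent.RS.measurableSet_Xs n
  calc ∫ Y in Xs n, φ (Matrix.of Y) * (((t ^ n * k) ^ a *
      Real.exp (-Real.pi * (t ^ 2 * fro (x⁻¹ * intM (natZ H * (if b then sgnM n else 1)) *
        nz Y))) : ℝ) : ℂ)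
      = ∫ Y in Xs n, F (lm S Y) := setIntegral_congr_fun hXs hpt
    _ = ∫ Z in Xs n, F Z := hmp.integral_comp hme F
    _ = _ := by rw [hF, integral_const_mul]; rfl

alias unf_term := unf_term_pr

end Pool.Agent.GJ
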