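import Pool.Agent.Lib_helper19.GJ.Defs
import Pool.Agent.Lib_helper19.GJ.CU
import Pool.Agent.Lib_helper19.GJ.GB
import Pool.Agent.Lib_helper19.GJ.HC
import Pool.Agent.Lib_helper19.GJ.HN
import Pool.Agent.Lib_helper19.GJ.NZ
import Pool.Agent.Lib_helper19.GJ.TM
import Pool.Agent.Lib_helper19.GJ.UB
import Pool.Agent.Lib_helper19.GJ.UT

/-!
# GJ, block UC: unfolding of the theta integral
-/

namespace Pool.Agent.GJ

open Complex MeasureTheory Filter Topology Matrix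
open Pool.Agent.G4 (par RSB)
open Pool.Agent.RS (Mt SLZ toR lm Xs wG cut cube)
open scoped ENNReal

/-- the indices of the outer sum -/
private abbrev uc_I (n : ℕ) : Type := (Σ m : ℕ, ↥(hnf n (m + 1))) × Bool

/-- the integral matrix of an index -/
private def uc_M {n : ℕ} (i : uc_I n) : Matrix (Fin n) (Fin n) ℤ :=
  natZ i.1.2.1 * (if i.2 then sgnM n else 1)

private theorem uc_hmap {n : ℕ} (i : uc_I n) (γ : SLZ n) :
    hmap n (i.1, i.2, γ) = uc_M i * γ.1 := rfl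

/-- the sum over all matrices as a double sum -/
private theorem uc_sum {n : ℕ} (hn : 0 < n) {E : Type} [NormedAddCommGroup E] [CompleteSpace E]
    {f : Matrix (Fin n) (Fin n) ℤ → E} (hf : Summable f) (h0 : ∀ A, A.det = 0 → f A = 0) :
    ∑' A, f A = ∑' i : uc_I n, ∑' γ : SLZ n, f (uc_M i * γ.1) := by
  obtain ⟨hinj, hran⟩ := hnf_bij hn
  have h1 : ∑' p, f (hmap n p) = ∑' A, f A := by
    refine hinj.tsum_eq ?_
    intro A hA
    rw [hran]
    intro hdet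
    exact hA (h0 A hdet)
  have h2 : Summable fun p => f (hmap n p) := hf.comp_injective hinj
  rw [← h1]
  let e : uc_I n × SLZ n ≃ (Σ m : ℕ, ↥(hnf n (m + 1))) × Bool × SLZ n := Equiv.prodAssoc _ _ _
  rw [← e.tsum_eq (fun p => f (hmap n p))]
  have h3 : Summable fun p : uc_I n × SLZ n => f (hmap n (e p)) := h2.comp_injective e.injective
  rw [h3.tsum_prod]
  rfl

/-- the inequality for sums in `[0, ∞]` -/
private theorem uc_sum_le {n : ℕ} (hn : 0 < n) (f : Matrix (Fin n) (Fin n) ℤ → ℝ≥0∞) :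
    ∑' i : uc_I n, ∑' γ : SLZ n, f (uc_M i * γ.1) ≤ ∑' A, f A := by
  obtain ⟨hinj, -⟩ := hnf_bij hn
  let e : uc_I n × SLZ n ≃ (Σ m : ℕ, ↥(hnf n (m + 1))) × Bool × SLZ n := Equiv.prodAssoc _ _ _
  have h1 : ∑' i : uc_I n, ∑' γ : SLZ n, f (uc_M i * γ.1) =
      ∑' p : uc_I n × SLZ n, f (hmap n (e p)) :=
    (ENNReal.tsum_prod (f := fun (i : uc_I n) (γ : SLZ n) => f (uc_M i * γ.1))).symm
  rw [h1, e.tsum_eq (fun p => f (hmap n p))]
  exact ENNReal.tsum_comp_le_tsum_of_injective hinj f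

private theorem uc_det_M {n : ℕ} (hn : 0 < n) (i : uc_I n) :
    (uc_M i).det = ((i.1.1 + 1 : ℕ) : ℤ) * (if i.2 then -1 else 1) := by
  have h1 : (natZ i.1.2.1).det = ((i.1.1 + 1 : ℕ) : ℤ) := (hnf_det i.1.2.2).1
  rw [uc_M, Matrix.det_mul, h1]
  congr 1
  rcases i.2 with _ | _
  · simp
  · simp only [if_true]
    rw [sgnM, Matrix.det_diagonal]
    obtain ⟨r, rfl⟩ : ∃ r, n = r + 1 := ⟨n - 1, by omega⟩
    rw [Fin.prod_univ_succ]
    simp

/-- left multiplication by `γ` -/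
private theorem uc_thT {n q : ℕ} (χ : DirichletCharacter ℂ q) (a : ℕ) (t : ℝ)
    (x : Matrix (Fin n) (Fin n) ℝ) (Y : Mt n) (M : Matrix (Fin n) (Fin n) ℤ) (γ : SLZ n) :
    thT χ a t x (nz Y) (M * γ.1) = thT χ a t x (nz (lm (toR γ) Y)) M := by
  have hdet : (toR γ).det = 1 := RS.det_toR γ
  have h1 : nz (lm (toR γ) Y) = toR γ * nz Y := nz_mul (by rw [hdet, abs_one]) Y
  have h2 : intM (M * γ.1) = intM M * toR γ := by
    have := Matrix.map_mul (L := M) (M := γ.1) (f := Int.castRingHom ℝ)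
    exact this
  have h3 : (M * γ.1).det = M.det := by rw [Matrix.det_mul, γ.2, mul_one]
  unfold thT
  rw [h1, h2, h3, Matrix.mul_assoc, Matrix.mul_assoc, Matrix.mul_assoc]

private theorem uc_nz_self {n : ℕ} {x : Matrix (Fin n) (Fin n) ℝ} (hx : |x.det| = 1) :
    nz (fun i j => x i j) = x := by
  have : (Matrix.of fun i j => x i j) = x := rfl
  unfold nz
  rw [this, hx, Real.one_rpow]
  ext i j
  simp

variable {n : ℕ} {e : Fin 2} {ν : Fin n → ℂ} {lam : ℕ → ℂ} {φ : Matrix (Fin n) (Fin n) ℝ → ℂ}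

private theorem uc_cut (h : SphericalForm n e ν lam φ) (γ : SLZ n) (Y : Mt n) :
    cut φ (lm (toR γ) Y) = cut φ Y := by
  have hdet : (toR γ).det = 1 := RS.det_toR γ
  by_cases hY : (Matrix.of Y).det = 0
  · rw [RS.cut_of_eq φ hY, RS.cut_lm_zero φ _ Y hY]
  · rw [RS.cut_lm φ (by rw [hdet]; exact one_ne_zero) Y hY, RS.cut_of_ne φ hY]
    have h1 := h.left γ.1 (by rw [γ.2]; exact isUnit_one) (Matrix.of Y) hY
    rw [γ.2] at h1
    simp only [Int.cast_one, one_pow, one_mul] at h1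
    exact h1

/-- the functions to be unfolded -/
private noncomputable def uc_F {n q : ℕ} (φ : Matrix (Fin n) (Fin n) ℝ → ℂ)
    (χ : DirichletCharacter ℂ q) (a : ℕ) (t : ℝ) (x : Matrix (Fin n) (Fin n) ℝ) (i : uc_I n)
    (Y : Mt n) : ℂ := cut φ Y * thT χ a t x (nz Y) (uc_M i)

private theorem uc_F_lm (h : SphericalForm n e ν lam φ) {q : ℕ} (χ : DirichletCharacter ℂ q)
    (a : ℕ) (t : ℝ) (x : Matrix (Fin n) (Fin n) ℝ) (i : uc_I n) (γ : SLZ n) (Y : Mt n) :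
    uc_F φ χ a t x i (lm (toR γ) Y) = cut φ Y * thT χ a t x (nz Y) (uc_M i * γ.1) := by
  rw [uc_F, uc_cut h, uc_thT]

private theorem uc_F_meas (h : SphericalForm n e ν lam φ) {q : ℕ} (χ : DirichletCharacter ℂ q)
    (a : ℕ) (t : ℝ) {x : Matrix (Fin n) (Fin n) ℝ} (hx : |x.det| = 1) (i : uc_I n) :
    Measurable (uc_F φ χ a t x i) := by
  refine (RS.measurable_cut h.continuous).mul ?_
  have h1 := ((th_meas (n := n) χ a).1 (uc_M i)).comp
    ((measurable_const (a := t)).prodMk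
      ((measurable_const (a := (fun i j => x i j : Mt n))).prodMk (measurable_id (α := Mt n))))
  have h2 : ((fun p : ℝ × Mt n × Mt n => thT χ a p.1 (nz p.2.1) (nz p.2.2) (uc_M i)) ∘
      fun Y : Mt n => (t, (fun i j => x i j : Mt n), id Y)) =
      fun Y => thT χ a t x (nz Y) (uc_M i) := by
    funext Y
    simp only [Function.comp, id]
    rw [uc_nz_self hx]
  rw [h2] at h1
  exact h1

private theorem uc_thT_meas {q : ℕ} (χ : DirichletCharacter ℂ q)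
    (a : ℕ) (t : ℝ) {x : Matrix (Fin n) (Fin n) ℝ} (hx : |x.det| = 1)
    (A : Matrix (Fin n) (Fin n) ℤ) :
    Measurable fun Y : Mt n => thT χ a t x (nz Y) A := by
  have h1 := ((th_meas (n := n) χ a).1 A).comp
    ((measurable_const (a := t)).prodMk
      ((measurable_const (a := (fun i j => x i j : Mt n))).prodMk (measurable_id (α := Mt n))))
  have h2 : ((fun p : ℝ × Mt n × Mt n => thT χ a p.1 (nz p.2.1) (nz p.2.2) A) ∘
      fun Y : Mt n => (t, (fun i j => x i j : Mt n), id Y)) =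
      fun Y => thT χ a t x (nz Y) A := by
    funext Y
    simp only [Function.comp, id]
    rw [uc_nz_self hx]
  rw [h2] at h1
  exact h1

/-- the right-hand side of UB is finite -/
private theorem uc_fin {n : ℕ} (hn : 0 < n) (a : ℕ) {t : ℝ} (ht : 0 < t) :
    2 * ∑' m : ℕ, ((hnf n (m + 1)).card : ℝ≥0∞) *
        ENNReal.ofReal (Gb n a (t * ((m + 1 : ℕ) : ℝ) ^ ((n : ℝ)⁻¹))) ≠ ⊤ := by
  obtain ⟨-, -, h3⟩ := gb_bound n a hn
  have hn1 : (1 : ℝ) ≤ n := by exact_mod_cast hn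
  set K : ℝ := n * ((n : ℝ) ^ 2 + 2) with hK
  obtain ⟨C, hC, hGb⟩ := h3 K (by rw [hK]; nlinarith [sq_nonneg (n : ℝ)])
  refine ENNReal.mul_ne_top (by norm_num) ?_
  have hle : ∀ m : ℕ, ((hnf n (m + 1)).card : ℝ≥0∞) *
        ENNReal.ofReal (Gb n a (t * ((m + 1 : ℕ) : ℝ) ^ ((n : ℝ)⁻¹))) ≤
      ENNReal.ofReal (C * t ^ (-K) * 2 ^ (n ^ 2) * (1 / ((m + 1 : ℕ) : ℝ) ^ 2)) := by
    intro m
    have hm : (0 : ℝ) < ((m + 1 : ℕ) : ℝ) := by positivity
    have hτ : 0 < t * ((m + 1 : ℕ) : ℝ) ^ ((n : ℝ)⁻¹) := by positivity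
    have h4 := hGb _ hτ
    have h5 : (t * ((m + 1 : ℕ) : ℝ) ^ ((n : ℝ)⁻¹)) ^ (-K) =
        t ^ (-K) * (((m + 1 : ℕ) : ℝ) ^ (n ^ 2 + 2))⁻¹ := by
      rw [Real.mul_rpow ht.le (by positivity), ← Real.rpow_mul hm.le]
      congr 1
      have : (n : ℝ)⁻¹ * -K = -((n ^ 2 + 2 : ℕ) : ℝ) := by
        rw [hK]; push_cast; field_simp
      rw [this, Real.rpow_neg hm.le, Real.rpow_natCast]
    have h6 : ((hnf n (m + 1)).card : ℝ) ≤ (2 * ((m + 1 : ℕ) : ℝ)) ^ (n ^ 2) := by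
      have h7 := hnf_card n (m + 1)
      calc ((hnf n (m + 1)).card : ℝ) ≤ (((m + 1 + 1) ^ (n ^ 2) : ℕ) : ℝ) := by exact_mod_cast h7
        _ ≤ (2 * ((m + 1 : ℕ) : ℝ)) ^ (n ^ 2) := by
            push_cast
            apply pow_le_pow_left₀ (by positivity)
            have : (0 : ℝ) ≤ m := Nat.cast_nonneg m
            linarith
    rw [← ENNReal.ofReal_natCast, ← ENNReal.ofReal_mul (Nat.cast_nonneg _)]
    apply ENNReal.ofReal_le_ofReal
    calc ((hnf n (m + 1)).card : ℝ) * Gb n a (t * ((m + 1 : ℕ) : ℝ) ^ ((n : ℝ)⁻¹))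
        ≤ (2 * ((m + 1 : ℕ) : ℝ)) ^ (n ^ 2) *
          (C * (t ^ (-K) * (((m + 1 : ℕ) : ℝ) ^ (n ^ 2 + 2))⁻¹)) := by
          rw [h5] at h4
          refine (mul_le_mul_of_nonneg_left h4 (Nat.cast_nonneg _)).trans ?_
          exact mul_le_mul_of_nonneg_right h6 (by positivity)
      _ = C * t ^ (-K) * 2 ^ (n ^ 2) * (1 / ((m + 1 : ℕ) : ℝ) ^ 2) := by
          rw [mul_pow, pow_add]
          field_simp
  refine ne_top_of_le_ne_top ?_ (ENNReal.tsum_le_tsum hle)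
  have hsum : Summable fun m : ℕ => C * t ^ (-K) * 2 ^ (n ^ 2) * (1 / ((m + 1 : ℕ) : ℝ) ^ 2) := by
    refine Summable.mul_left _ ?_
    exact (summable_nat_add_iff (f := fun m : ℕ => 1 / (m : ℝ) ^ 2) 1).mpr
      (Real.summable_one_div_nat_pow.mpr (by norm_num))
  exact hsum.tsum_ofReal_ne_top

/-- the integral of the majorant -/
private theorem uc_maj (h : SphericalForm n e ν lam φ) (hn : 0 < n) {q : ℕ} (hq : 1 < q)
    (χ : DirichletCharacter ℂ q) (a : ℕ) {t : ℝ} (ht : 0 < t) {x : Matrix (Fin n) (Fin n) ℝ}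
    (hx : |x.det| = 1) :
    ∑' i : uc_I n, ∫⁻ Y in Xs n, wG Y * ∑' γ : SLZ n, ‖uc_F φ χ a t x i (lm (toR γ) Y)‖ₑ ≠ ⊤ := by
  obtain ⟨M, hM⟩ := h.bounded
  have hc : ∀ Y : Mt n, ‖cut φ Y‖ₑ ≤ ENNReal.ofReal (max M 0) := by
    intro Y
    rw [← ofReal_norm]
    exact ENNReal.ofReal_le_ofReal (RS.norm_cut_le hM Y)
  have hmeas : ∀ i : uc_I n, Measurable fun Y : Mt n =>
      wG Y * ∑' γ : SLZ n, ‖uc_F φ χ a t x i (lm (toR γ) Y)‖ₑ := by
    intro i
    refine RS.measurable_wG.mul (Measurable.tsum fun γ => ?_)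
    exact ((uc_F_meas h χ a t hx i).comp (RS.measurable_lm γ)).enorm
  rw [← lintegral_tsum fun i => (hmeas i).aemeasurable]
  have hle : ∫⁻ Y in Xs n, ∑' i : uc_I n,
      wG Y * ∑' γ : SLZ n, ‖uc_F φ χ a t x i (lm (toR γ) Y)‖ₑ ≤
      ∫⁻ Y in Xs n, ENNReal.ofReal (max M 0) *
        (wG Y * ∑' A : Matrix (Fin n) (Fin n) ℤ, ‖thT χ a t x (nz Y) A‖ₑ) := by
    refine lintegral_mono fun Y => ?_
    rw [ENNReal.tsum_mul_left]
    calc wG Y * ∑' i : uc_I n, ∑' γ : SLZ n, ‖uc_F φ χ a t x i (lm (toR γ) Y)‖ₑ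
        = wG Y * ∑' i : uc_I n, ∑' γ : SLZ n,
          ‖cut φ Y‖ₑ * ‖thT χ a t x (nz Y) (uc_M i * γ.1)‖ₑ := by
          simp only [uc_F_lm h, enorm_mul]
      _ = wG Y * (‖cut φ Y‖ₑ * ∑' i : uc_I n, ∑' γ : SLZ n,
          ‖thT χ a t x (nz Y) (uc_M i * γ.1)‖ₑ) := by
          simp only [ENNReal.tsum_mul_left]
      _ ≤ wG Y * (ENNReal.ofReal (max M 0) *
          ∑' A : Matrix (Fin n) (Fin n) ℤ, ‖thT χ a t x (nz Y) A‖ₑ) := by
          gcongr
          · exact hc Y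
          · exact uc_sum_le hn fun A => ‖thT χ a t x (nz Y) A‖ₑ
      _ = ENNReal.ofReal (max M 0) *
        (wG Y * ∑' A : Matrix (Fin n) (Fin n) ℤ, ‖thT χ a t x (nz Y) A‖ₑ) := by ring
  refine ne_top_of_le_ne_top ?_ hle
  rw [lintegral_const_mul]
  · refine ENNReal.mul_ne_top ENNReal.ofReal_ne_top ?_
    exact ne_top_of_le_ne_top (uc_fin hn a ht) (unf_bound hn hq χ a ht hx)
  · have hcount : Countable (Matrix (Fin n) (Fin n) ℤ) :=
      inferInstanceAs (Countable (Fin n → Fin n → ℤ))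
    refine RS.measurable_wG.mul (Measurable.tsum fun A => ?_)
    exact (uc_thT_meas χ a t hx A).enorm

private theorem uc_sign {q : ℕ} (χ : DirichletCharacter ℂ q) (e : Fin 2) :
    χ (-1) * (-1) ^ (aa e (par χ)) * (-1) ^ (e : ℕ) = 1 := by
  rcases χ.even_or_odd with h | h
  · have hn : ¬ χ.Odd := by
      intro h2
      have h3 : χ (-1) = 1 := h
      have h4 : χ (-1) = -1 := h2
      rw [h3] at h4
      norm_num at h4
    have hp : par χ = 0 := by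
      unfold par
      rw [if_neg hn]
    have h3 : χ (-1) = 1 := h
    rw [hp, h3]
    fin_cases e <;> simp [aa]
  · have hp : par χ = 1 := by
      unfold par
      rw [if_pos h]
    have h3 : χ (-1) = -1 := h
    rw [hp, h3]
    fin_cases e <;> simp [aa]

/-- the value of the unfolded integral -/
private theorem uc_val (h : SphericalForm n e ν lam φ) (hn : 0 < n) {q : ℕ}
    (χ : DirichletCharacter ℂ q) (a : ℕ) {t : ℝ} (ht : 0 < t) {x : Matrix (Fin n) (Fin n) ℝ}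
    (hx : |x.det| = 1) (i : uc_I n) :
    ∫ Y in Xs n, uc_F φ χ a t x i Y = χ ((i.1.1 + 1 : ℕ) : ZMod q) *
      (if i.2 then χ (-1) * (-1) ^ a * (-1) ^ (e : ℕ) else 1) *
        Gk φ a (t * ((i.1.1 + 1 : ℕ) : ℝ) ^ ((n : ℝ)⁻¹)) ((natM i.1.2.1)⁻¹ * x) := by
  have hut := unf_term h hn a ht hx i.1.2.2 i.2
  have hdet := uc_det_M hn i
  have h1 : ∀ Y ∈ Xs n, uc_F φ χ a t x i Y = (χ ((i.1.1 + 1 : ℕ) : ZMod q) *
      (if i.2 then χ (-1) * (-1) ^ a else 1)) * (φ (Matrix.of Y) *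
        (((t ^ n * ((i.1.1 + 1 : ℕ) : ℝ)) ^ a *
      Real.exp (-Real.pi * (t ^ 2 * fro (x⁻¹ * intM (natZ i.1.2.1 *
        (if i.2 then sgnM n else 1)) * nz Y))) : ℝ) : ℂ)) := by
    intro Y hY
    rw [uc_F, RS.cut_of_ne φ (RS.Xs_det_ne hY), thT, hdet]
    have hM : uc_M i = natZ i.1.2.1 * (if i.2 then sgnM n else 1) := rfl
    rw [hM]
    rcases i.2 with _ | _
    · simp only [Bool.false_eq_true, if_false, mul_one]
      push_cast
      ring
    · simp only [if_true]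
      have e1 : (((((i.1.1 + 1 : ℕ) : ℤ) * (-1) : ℤ)) : ZMod q) =
          ((i.1.1 + 1 : ℕ) : ZMod q) * (-1) := by push_cast; ring
      rw [e1, map_mul]
      have e2 : ((t ^ n * ((((i.1.1 + 1 : ℕ) : ℤ) * (-1) : ℤ) : ℝ)) ^ a : ℝ) =
          (t ^ n * ((i.1.1 + 1 : ℕ) : ℝ)) ^ a * (-1) ^ a := by
        rw [← mul_pow]
        congr 1
        push_cast
        ring
      rw [e2]
      push_cast
      ring
  rw [setIntegral_congr_fun (RS.measurableSet_Xs n) h1, integral_const_mul, hut]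
  rcases i.2 with _ | _
  · simp
  · simp only [if_true]
    ring

/-- UC: unfolding of the theta integral -/
theorem unf_eq_pr (h : SphericalForm n e ν lam φ) (hn : 0 < n) {q : ℕ} (hq : 1 < q)
    (χ : DirichletCharacter ℂ q) {t : ℝ} (ht : 0 < t) {x : Matrix (Fin n) (Fin n) ℝ}
    (hx : |x.det| = 1) :
    ∫ Y in Xs n, ((wG Y).toReal : ℂ) * φ (Matrix.of Y) * th χ (aa e (par χ)) t x (nz Y) =
      2 * ∑' m : ℕ, χ ((m + 1 : ℕ) : ZMod q) * ∑ H ∈ hnf n (m + 1),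
        Gk φ (aa e (par χ)) (t * ((m + 1 : ℕ) : ℝ) ^ ((n : ℝ)⁻¹)) ((natM H)⁻¹ * x) := by
  have hF1 : Fact (1 < q) := ⟨hq⟩
  set a : ℕ := aa e (par χ) with ha
  have hmaj := uc_maj h hn hq χ a ht hx
  have hx0 : x.det ≠ 0 := by
    intro h0
    rw [h0, abs_zero] at hx
    exact zero_ne_one hx
  -- integrability
  have hFm := fun i => uc_F_meas h χ a t hx i
  have hunf : ∀ i : uc_I n, ∫⁻ Y in Xs n, wG Y *
      ∑' γ : SLZ n, ‖uc_F φ χ a t x i (lm (toR γ) Y)‖ₑ = ∫⁻ Y in Xs n, ‖uc_F φ χ a t x i Y‖ₑ :=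
    fun i => RS.unfold_SL (fun Y => ‖uc_F φ χ a t x i Y‖ₑ) (hFm i).enorm
  have hFi : ∀ i : uc_I n, IntegrableOn (uc_F φ χ a t x i) (Xs n) := by
    intro i
    refine ⟨(hFm i).aestronglyMeasurable, ?_⟩
    rw [HasFiniteIntegral, ← hunf i]
    exact lt_of_le_of_lt (ENNReal.le_tsum (f := fun i : uc_I n => ∫⁻ Y in Xs n, wG Y *
      ∑' γ : SLZ n, ‖uc_F φ χ a t x i (lm (toR γ) Y)‖ₑ) i) (lt_top_iff_ne_top.mpr hmaj)
  have hcu := fun i : uc_I n => unf_c (hFm i) (hFi i)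
  -- the integrand
  have hint : ∀ Y ∈ Xs n, ((wG Y).toReal : ℂ) * φ (Matrix.of Y) * th χ a t x (nz Y) =
      ∑' i : uc_I n, ((wG Y).toReal : ℂ) * ∑' γ : SLZ n, uc_F φ χ a t x i (lm (toR γ) Y) := by
    intro Y hY
    have hY0 := RS.Xs_det_ne hY
    have hnz : (nz Y).det ≠ 0 := by
      intro h0
      have := nz_det hn hY0
      rw [h0, abs_zero] at this
      exact zero_ne_one this
    have h1 := uc_sum hn (thT_summable χ a ht hx0 hnz).of_norm (fun A hA => by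
      rw [thT, hA, Int.cast_zero, χ.map_nonunit not_isUnit_zero, zero_mul])
    rw [th, h1]
    simp only [uc_F_lm h, tsum_mul_left]
    rw [RS.cut_of_ne φ hY0]
    ring
  rw [setIntegral_congr_fun (RS.measurableSet_Xs n) hint]
  rw [integral_tsum (fun i => (hcu i).2.1.aestronglyMeasurable) ?_]
  · -- the sum
    have hval : ∀ i : uc_I n, ∫ Y in Xs n, ((wG Y).toReal : ℂ) *
        ∑' γ : SLZ n, uc_F φ χ a t x i (lm (toR γ) Y) = χ ((i.1.1 + 1 : ℕ) : ZMod q) *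
        Gk φ a (t * ((i.1.1 + 1 : ℕ) : ℝ) ^ ((n : ℝ)⁻¹)) ((natM i.1.2.1)⁻¹ * x) := by
      intro i
      rw [(hcu i).2.2, uc_val h hn χ a ht hx i, ha, uc_sign, ite_self, mul_one]
    have hsum : Summable fun i : uc_I n => ∫ Y in Xs n, ((wG Y).toReal : ℂ) *
        ∑' γ : SLZ n, uc_F φ χ a t x i (lm (toR γ) Y) := by
      have h2 : ∑' i : uc_I n, ‖∫ Y in Xs n, ((wG Y).toReal : ℂ) *
          ∑' γ : SLZ n, uc_F φ χ a t x i (lm (toR γ) Y)‖ₑ ≠ ⊤ := by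
        refine ne_top_of_le_ne_top hmaj (ENNReal.tsum_le_tsum fun i => ?_)
        rw [(hcu i).2.2, hunf i]
        exact enorm_integral_le_lintegral_enorm _
      have h3 : Summable fun i : uc_I n => ‖∫ Y in Xs n, ((wG Y).toReal : ℂ) *
          ∑' γ : SLZ n, uc_F φ χ a t x i (lm (toR γ) Y)‖₊ :=
        ENNReal.tsum_coe_ne_top_iff_summable.mp h2
      exact (NNReal.summable_coe.mpr h3).of_norm
    rw [hsum.tsum_prod]
    have hs2 := hsum.prod
    rw [hs2.tsum_sigma, ← tsum_mul_left]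
    refine tsum_congr fun m => ?_
    have h4 : ∀ H : ↥(hnf n (m + 1)), ∑' b : Bool, ∫ Y in Xs n, ((wG Y).toReal : ℂ) *
        ∑' γ : SLZ n, uc_F φ χ a t x ((⟨m, H⟩ : Σ m : ℕ, ↥(hnf n (m + 1))), b)
          (lm (toR γ) Y) = 2 * (χ ((m + 1 : ℕ) : ZMod q) *
        Gk φ a (t * ((m + 1 : ℕ) : ℝ) ^ ((n : ℝ)⁻¹)) ((natM H.1)⁻¹ * x)) := by
      intro H
      rw [tsum_fintype, Fintype.sum_bool, hval, hval]
      ring
    rw [tsum_congr h4]
    rw [Finset.tsum_subtype (hnf n (m + 1)) (fun H => 2 * (χ ((m + 1 : ℕ) : ZMod q) *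
        Gk φ a (t * ((m + 1 : ℕ) : ℝ) ^ ((n : ℝ)⁻¹)) ((natM H)⁻¹ * x)))]
    rw [Finset.mul_sum, Finset.mul_sum]
  · refine ne_top_of_le_ne_top hmaj (ENNReal.tsum_le_tsum fun i => lintegral_mono fun Y => ?_)
    rw [enorm_mul]
    refine mul_le_mul' ?_ enorm_tsum_le_tsum_enorm
    rw [← ofReal_norm, Complex.norm_real, Real.norm_of_nonneg ENNReal.toReal_nonneg]
    exact ENNReal.ofReal_toReal_le

alias unf_eq := unf_eq_pr

end Pool.Agent.GJ
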