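import Pool.Agent.Lib_helper19.GJ.Defs
import Pool.Agent.Lib_helper19.GJ.GB
import Pool.Agent.Lib_helper19.GJ.GK
import Pool.Agent.Lib_helper19.GJ.HC
import Pool.Agent.Lib_helper19.GJ.MG
import Pool.Agent.Lib_helper19.GJ.NP
import Pool.Agent.Lib_helper19.GJ.NZ
import Pool.Agent.Lib_helper19.GJ.UC

/-!
# GJ, block JM: the Mellin transform of the theta integral
-/

namespace Pool.Agent.GJ

open Complex MeasureTheory Filter Topology Matrix
open Pool.Agent.G4 (par RSB)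
open Pool.Agent.RS (Mt SLZ toR lm Xs wG cut cube)
open scoped ENNReal

/-! ## The majorant `Gb` -/

private theorem jm_Gb_nonneg (n a : ℕ) {τ : ℝ} (hτ : 0 < τ) : 0 ≤ Gb n a τ := by
  unfold Gb
  exact integral_nonneg fun Z => by positivity

private theorem jm_Gb_int (n a : ℕ) (hn : 0 < n) {r : ℝ} (hr : (n : ℝ) ^ 2 ≤ r) :
    IntegrableOn (fun τ : ℝ => Gb n a τ * τ ^ r) (Set.Ioi 0) := by
  obtain ⟨-, hmeas, hb⟩ := gb_bound n a hn
  obtain ⟨C1, hC1, hb1⟩ := hb ((n : ℝ) ^ 2) le_rfl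
  obtain ⟨C2, hC2, hb2⟩ := hb (r + 2) (by linarith)
  have hm : Measurable fun τ : ℝ => Gb n a τ * τ ^ r := hmeas.mul (measurable_id.pow_const r)
  rw [← Set.Ioc_union_Ioi_eq_Ioi (zero_le_one (α := ℝ))]
  refine IntegrableOn.union ?_ ?_
  · refine Measure.integrableOn_of_bounded (M := C1) ?_ hm.aestronglyMeasurable ?_
    · exact measure_Ioc_lt_top.ne
    · filter_upwards [ae_restrict_mem measurableSet_Ioc] with τ hτ
      have h0 : 0 < τ := hτ.1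
      rw [Real.norm_of_nonneg (mul_nonneg (jm_Gb_nonneg n a h0) (by positivity))]
      calc Gb n a τ * τ ^ r ≤ (C1 * τ ^ (-((n : ℝ) ^ 2))) * τ ^ r :=
            mul_le_mul_of_nonneg_right (hb1 τ h0) (by positivity)
        _ = C1 * τ ^ (r - (n : ℝ) ^ 2) := by
            rw [mul_assoc, ← Real.rpow_add h0]
            congr 2
            ring
        _ ≤ C1 * 1 := by
            apply mul_le_mul_of_nonneg_left _ hC1
            exact Real.rpow_le_one h0.le hτ.2 (by linarith)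
        _ = C1 := mul_one _
  · have hi : IntegrableOn (fun τ : ℝ => C2 * τ ^ (-2 : ℝ)) (Set.Ioi 1) :=
      (integrableOn_Ioi_rpow_of_lt (by norm_num) one_pos).const_mul _
    refine Integrable.mono' hi hm.aestronglyMeasurable ?_
    filter_upwards [ae_restrict_mem measurableSet_Ioi] with τ hτ
    have h0 : 0 < τ := lt_trans one_pos hτ
    rw [Real.norm_of_nonneg (mul_nonneg (jm_Gb_nonneg n a h0) (by positivity))]
    calc Gb n a τ * τ ^ r ≤ (C2 * τ ^ (-(r + 2))) * τ ^ r :=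
          mul_le_mul_of_nonneg_right (hb2 τ h0) (by positivity)
      _ = C2 * τ ^ (-2 : ℝ) := by
          rw [mul_assoc, ← Real.rpow_add h0]
          congr 2
          ring

/-- scaling -/
private theorem jm_Gb_scale (n a : ℕ) (hn : 0 < n) {r c : ℝ} (hr : (n : ℝ) ^ 2 ≤ r)
    (hc : 0 < c) : IntegrableOn (fun t : ℝ => Gb n a (t * c) * t ^ r) (Set.Ioi 0) ∧
    ∫ t in Set.Ioi (0 : ℝ), Gb n a (t * c) * t ^ r =
      c ^ (-(r + 1)) * ∫ τ in Set.Ioi (0 : ℝ), Gb n a τ * τ ^ r := by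
  have h1 : ∀ t ∈ Set.Ioi (0 : ℝ), Gb n a (t * c) * t ^ r =
      c ^ (-r) * (fun τ : ℝ => Gb n a τ * τ ^ r) (c * t) := by
    intro t ht
    have ht0 : (0 : ℝ) < t := ht
    simp only
    rw [Real.mul_rpow hc.le ht0.le, mul_comm t c]
    have : c ^ (-r) * (Gb n a (c * t) * (c ^ r * t ^ r)) =
        (c ^ (-r) * c ^ r) * (Gb n a (c * t) * t ^ r) := by ring
    rw [this, ← Real.rpow_add hc, neg_add_cancel, Real.rpow_zero, one_mul]
  constructor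
  · rw [integrableOn_congr_fun h1 measurableSet_Ioi]
    refine Integrable.const_mul ?_ _
    have := (integrableOn_Ioi_comp_mul_left_iff (fun τ : ℝ => Gb n a τ * τ ^ r) 0 hc).mpr
      (by rw [mul_zero]; exact jm_Gb_int n a hn hr)
    exact this
  · have h2 := integral_comp_mul_left_Ioi (fun τ : ℝ => Gb n a τ * τ ^ r) 0 hc
    rw [mul_zero] at h2
    rw [setIntegral_congr_fun measurableSet_Ioi h1, integral_const_mul, h2, smul_eq_mul,
      ← mul_assoc]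
    congr 1
    rw [neg_add, Real.rpow_add hc, Real.rpow_neg_one]

/-- the sums over the Hermite normal forms -/
private theorem jm_card_le (n m : ℕ) :
    ((hnf n (m + 1)).card : ℝ) ≤ 2 ^ (n ^ 2) * ((m + 1 : ℕ) : ℝ) ^ (n ^ 2) := by
  have h7 := hnf_card n (m + 1)
  calc ((hnf n (m + 1)).card : ℝ) ≤ (((m + 1 + 1) ^ (n ^ 2) : ℕ) : ℝ) := by exact_mod_cast h7
    _ ≤ (2 * ((m + 1 : ℕ) : ℝ)) ^ (n ^ 2) := by
        push_cast
        apply pow_le_pow_left₀ (by positivity)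
        have : (0 : ℝ) ≤ m := Nat.cast_nonneg m
        linarith
    _ = _ := mul_pow _ _ _

private theorem jm_sum2 : Summable fun m : ℕ => 1 / ((m + 1 : ℕ) : ℝ) ^ 2 :=
  (summable_nat_add_iff (f := fun m : ℕ => 1 / (m : ℝ) ^ 2) 1).mpr
    (Real.summable_one_div_nat_pow.mpr (by norm_num))

private theorem jm_sum_card (n : ℕ) {σ : ℝ} (hσ : (n : ℝ) ^ 2 + 2 ≤ σ) :
    Summable fun m : ℕ => ((hnf n (m + 1)).card : ℝ) * ((m + 1 : ℕ) : ℝ) ^ (-σ) := by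
  refine Summable.of_nonneg_of_le (fun m => by positivity) (fun m => ?_)
    (jm_sum2.mul_left (2 ^ (n ^ 2)))
  have hm : (0 : ℝ) < ((m + 1 : ℕ) : ℝ) := by positivity
  have hm1 : (1 : ℝ) ≤ ((m + 1 : ℕ) : ℝ) := by
    push_cast
    have : (0 : ℝ) ≤ m := Nat.cast_nonneg m
    linarith
  calc ((hnf n (m + 1)).card : ℝ) * ((m + 1 : ℕ) : ℝ) ^ (-σ)
      ≤ (2 ^ (n ^ 2) * ((m + 1 : ℕ) : ℝ) ^ (n ^ 2)) * ((m + 1 : ℕ) : ℝ) ^ (-((n : ℝ) ^ 2 + 2)) := by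
        apply mul_le_mul (jm_card_le n m) _ (by positivity) (by positivity)
        exact Real.rpow_le_rpow_of_exponent_le hm1 (by linarith)
    _ = 2 ^ (n ^ 2) * (1 / ((m + 1 : ℕ) : ℝ) ^ 2) := by
        have e1 : (((m + 1 : ℕ) : ℝ)) ^ (-((n : ℝ) ^ 2 + 2)) =
            ((((m + 1 : ℕ) : ℝ)) ^ (n ^ 2 + 2))⁻¹ := by
          rw [Real.rpow_neg hm.le]
          congr 1
          rw [← Real.rpow_natCast (((m + 1 : ℕ) : ℝ)) (n ^ 2 + 2)]
          congr 1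
          push_cast
          ring
        rw [e1, pow_add]
        field_simp

private theorem jm_fin {n : ℕ} (hn : 0 < n) (a : ℕ) {t : ℝ} (ht : 0 < t) :
    Summable fun m : ℕ => ((hnf n (m + 1)).card : ℝ) *
        Gb n a (t * ((m + 1 : ℕ) : ℝ) ^ ((n : ℝ)⁻¹)) := by
  obtain ⟨-, -, h3⟩ := gb_bound n a hn
  have hn1 : (1 : ℝ) ≤ n := by exact_mod_cast hn
  set K : ℝ := n * ((n : ℝ) ^ 2 + 2) with hK
  obtain ⟨C, hC, hGb⟩ := h3 K (by rw [hK]; nlinarith [sq_nonneg (n : ℝ)])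
  have hs := (jm_sum_card n (σ := (n : ℝ) ^ 2 + 2) le_rfl).mul_left (C * t ^ (-K))
  refine Summable.of_nonneg_of_le (fun m => ?_) (fun m => ?_) hs
  · exact mul_nonneg (Nat.cast_nonneg _) (jm_Gb_nonneg n a (by positivity))
  · have hm : (0 : ℝ) < ((m + 1 : ℕ) : ℝ) := by positivity
    have hτ : 0 < t * ((m + 1 : ℕ) : ℝ) ^ ((n : ℝ)⁻¹) := by positivity
    have h4 := hGb _ hτ
    have h5 : (t * ((m + 1 : ℕ) : ℝ) ^ ((n : ℝ)⁻¹)) ^ (-K) =
        t ^ (-K) * (((m + 1 : ℕ) : ℝ) ^ (-((n : ℝ) ^ 2 + 2))) := by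
      rw [Real.mul_rpow ht.le (by positivity), ← Real.rpow_mul hm.le]
      congr 2
      rw [hK]
      field_simp
    rw [h5] at h4
    calc ((hnf n (m + 1)).card : ℝ) * Gb n a (t * ((m + 1 : ℕ) : ℝ) ^ ((n : ℝ)⁻¹))
        ≤ ((hnf n (m + 1)).card : ℝ) *
          (C * (t ^ (-K) * (((m + 1 : ℕ) : ℝ) ^ (-((n : ℝ) ^ 2 + 2))))) :=
          mul_le_mul_of_nonneg_left h4 (Nat.cast_nonneg _)
      _ = _ := by ring

/-! ## The functions on the product -/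

variable {n : ℕ} {e : Fin 2} {ν : Fin n → ℂ} {lam : ℕ → ℂ} {φ : Matrix (Fin n) (Fin n) ℝ → ℂ}

private noncomputable def jm_c (n m : ℕ) : ℝ := ((m + 1 : ℕ) : ℝ) ^ ((n : ℝ)⁻¹)

private theorem jm_c_pos (n m : ℕ) : 0 < jm_c n m := by
  unfold jm_c
  positivity

private noncomputable def jm_g (φ : Matrix (Fin n) (Fin n) ℝ → ℂ) (a : ℕ)
    (y : Matrix (Fin n) (Fin n) ℝ) (p : ℝ × Mt n) : ℂ :=
  if (Matrix.of p.2).det = 0 then 0 else Gk φ a p.1 (y * nz p.2)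

private noncomputable def jm_f (φ : Matrix (Fin n) (Fin n) ℝ → ℂ) {q : ℕ}
    (χ : DirichletCharacter ℂ q) (a : ℕ) (w : ℂ) (m : ℕ) (t : ℝ) (x : Mt n) : ℂ :=
  ((wG x).toReal : ℂ) * starRingEnd ℂ (cut φ x) * (2 * χ ((m + 1 : ℕ) : ZMod q) *
    ∑ H ∈ hnf n (m + 1), jm_g φ a ((natM H)⁻¹) (t * jm_c n m, x)) * (t : ℂ) ^ (n * w - 1)

private theorem jm_natM_det {n m : ℕ} {H : Fin n → Fin n → ℕ} (hH : H ∈ hnf n (m + 1)) :
    (natM H)⁻¹.det ≠ 0 := by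
  have h1 : (natM H).det = ((m + 1 : ℕ) : ℝ) := (hnf_det hH).2
  rw [Matrix.det_nonsing_inv, h1, Ring.inverse_eq_inv']
  exact inv_ne_zero (by positivity)

private theorem jm_g_meas (h : SphericalForm n e ν lam φ) (a : ℕ) {y : Matrix (Fin n) (Fin n) ℝ}
    (hy : y.det ≠ 0) : Measurable (jm_g φ a y) := by
  exact gk_meas h a y hy

private theorem jm_f_meas (h : SphericalForm n e ν lam φ) {q : ℕ} (χ : DirichletCharacter ℂ q)
    (a : ℕ) (w : ℂ) (m : ℕ) : Measurable (Function.uncurry (jm_f φ χ a w m)) := by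
  unfold jm_f
  refine Measurable.mul (Measurable.mul (Measurable.mul ?_ ?_) (Measurable.mul ?_ ?_)) ?_
  · exact Complex.measurable_ofReal.comp
      ((RS.measurable_wG.comp measurable_snd).ennreal_toReal)
  · exact (Complex.continuous_conj.measurable.comp (RS.measurable_cut h.continuous)).comp
      measurable_snd
  · exact measurable_const
  · refine Finset.measurable_sum _ fun H hH => ?_
    refine (jm_g_meas h a (jm_natM_det hH)).comp ?_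
    exact (measurable_fst.mul_const _).prodMk measurable_snd
  · exact (Complex.measurable_ofReal.comp measurable_fst).pow_const _

private theorem jm_g_eq {a : ℕ} {y : Matrix (Fin n) (Fin n) ℝ} {τ : ℝ} {x : Mt n}
    (hx : (Matrix.of x).det ≠ 0) : jm_g φ a y (τ, x) = Gk φ a τ (y * nz x) := if_neg hx

private theorem jm_nz_ne (hn : 0 < n) {x : Mt n} (hx : (Matrix.of x).det ≠ 0) :
    (nz x).det ≠ 0 := by
  intro h0
  have := nz_det hn hx
  rw [h0, abs_zero] at this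
  exact zero_ne_one this

private theorem jm_A (h : SphericalForm n e ν lam φ) (hn : 0 < n) {q : ℕ} (hq : 1 < q)
    (χ : DirichletCharacter ℂ q) (w : ℂ) {t : ℝ} (ht : 0 < t) :
    JJ φ χ (aa e (par χ)) t * (t : ℂ) ^ (n * w - 1) =
      ∫ x in Xs n, ∑' m : ℕ, jm_f φ χ (aa e (par χ)) w m t x := by
  rw [JJ, ← integral_mul_const]
  refine setIntegral_congr_fun (RS.measurableSet_Xs n) fun x hx => ?_
  have hx0 := RS.Xs_det_ne hx
  have h1 := unf_eq h hn hq χ ht (nz_det hn hx0)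
  have h2 : ∫ y in Xs n, (((wG x).toReal * (wG y).toReal : ℝ) : ℂ) *
    (starRingEnd ℂ (φ (Matrix.of x)) * φ (Matrix.of y)) * th χ (aa e (par χ)) t (nz x) (nz y) =
    ((wG x).toReal : ℂ) * starRingEnd ℂ (φ (Matrix.of x)) *
      ∫ Y in Xs n, ((wG Y).toReal : ℂ) * φ (Matrix.of Y) *
        th χ (aa e (par χ)) t (nz x) (nz Y) := by
    rw [← integral_const_mul]
    refine integral_congr_ae (Eventually.of_forall fun y => ?_)
    simp only
    push_cast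
    ring
  have h3 : ∀ m : ℕ, jm_f φ χ (aa e (par χ)) w m t x =
      ((wG x).toReal : ℂ) * starRingEnd ℂ (φ (Matrix.of x)) * (2 * (χ ((m + 1 : ℕ) : ZMod q) *
        ∑ H ∈ hnf n (m + 1), Gk φ (aa e (par χ)) (t * ((m + 1 : ℕ) : ℝ) ^ ((n : ℝ)⁻¹))
          ((natM H)⁻¹ * nz x))) * (t : ℂ) ^ (n * w - 1) := by
    intro m
    rw [jm_f, RS.cut_of_ne φ hx0, Finset.sum_congr rfl fun H _ => jm_g_eq hx0, mul_assoc (2 : ℂ)]
    rfl
  simp only [h2, h1, h3]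
  rw [tsum_mul_right, tsum_mul_left, tsum_mul_left]

private theorem jm_g_le {a : ℕ} {M : ℝ} (hn : 0 < n)
    (hM : ∀ τ : ℝ, 0 < τ → ∀ y : Matrix (Fin n) (Fin n) ℝ, y.det ≠ 0 →
      ‖Gk φ a τ y‖ ≤ M * Gb n a τ) (hM0 : 0 ≤ M)
    {y : Matrix (Fin n) (Fin n) ℝ} (hy : y.det ≠ 0) {τ : ℝ} (hτ : 0 < τ) (x : Mt n) :
    ‖jm_g φ a y (τ, x)‖ ≤ M * Gb n a τ := by
  by_cases hx : (Matrix.of x).det = 0
  · have : jm_g φ a y (τ, x) = 0 := if_pos hx
    rw [this, norm_zero]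
    exact mul_nonneg hM0 (jm_Gb_nonneg n a hτ)
  · rw [jm_g_eq hx]
    refine hM τ hτ _ ?_
    rw [Matrix.det_mul]
    exact mul_ne_zero hy (jm_nz_ne hn hx)

private theorem jm_f_bound (h : SphericalForm n e ν lam φ) (hn : 0 < n) :
    ∃ M : ℝ, 0 ≤ M ∧ ∀ (q : ℕ) (χ : DirichletCharacter ℂ q) (a : ℕ) (w : ℂ) (m : ℕ) (t : ℝ),
      0 < t → ∀ x : Mt n, ‖jm_f φ χ a w m t x‖ₑ ≤ wG x * ENNReal.ofReal
        (M * (((hnf n (m + 1)).card : ℝ) *
          (Gb n a (t * jm_c n m) * t ^ (n * w.re - 1)))) := by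
  obtain ⟨M₀, hM₀⟩ := h.bounded
  obtain ⟨M₁, hM₁, hG⟩ := gk_le h hn
  refine ⟨max M₀ 0 * (2 * M₁), by positivity, fun q χ a w m t ht x => ?_⟩
  have hc := jm_c_pos n m
  have htc : 0 < t * jm_c n m := mul_pos ht hc
  have hGb := jm_Gb_nonneg n a htc
  have h1 : ‖jm_f φ χ a w m t x‖ ≤ (wG x).toReal * (max M₀ 0 * (2 * M₁) *
      (((hnf n (m + 1)).card : ℝ) * (Gb n a (t * jm_c n m) * t ^ (n * w.re - 1)))) := by
    have e1 : ‖(t : ℂ) ^ (n * w - 1)‖ = t ^ (n * w.re - 1) := by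
      rw [Complex.norm_cpow_eq_rpow_re_of_pos ht]
      congr 1
      simp
    have e2 : ‖∑ H ∈ hnf n (m + 1), jm_g φ a ((natM H)⁻¹) (t * jm_c n m, x)‖ ≤
        ((hnf n (m + 1)).card : ℝ) * (M₁ * Gb n a (t * jm_c n m)) := by
      refine (norm_sum_le _ _).trans ?_
      refine (Finset.sum_le_card_nsmul _ _ (M₁ * Gb n a (t * jm_c n m)) fun H hH => ?_).trans
        (by rw [nsmul_eq_mul])
      exact jm_g_le hn (fun τ hτ y hy => hG a τ hτ y hy) hM₁ (jm_natM_det hH) htc x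
    rw [jm_f, norm_mul, norm_mul, norm_mul, norm_mul, norm_mul, e1, Complex.norm_real,
      Real.norm_of_nonneg ENNReal.toReal_nonneg, RCLike.norm_conj]
    have e3 : ‖χ ((m + 1 : ℕ) : ZMod q)‖ ≤ 1 := χ.norm_le_one _
    have e4 := RS.norm_cut_le hM₀ x
    have e5 : ‖(2 : ℂ)‖ = 2 := by simp
    rw [e5]
    have e6 : 0 ≤ (wG x).toReal := ENNReal.toReal_nonneg
    calc (wG x).toReal * ‖cut φ x‖ * (2 * ‖χ ((m + 1 : ℕ) : ZMod q)‖ *
          ‖∑ H ∈ hnf n (m + 1), jm_g φ a ((natM H)⁻¹) (t * jm_c n m, x)‖) * t ^ (n * w.re - 1)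
        ≤ (wG x).toReal * max M₀ 0 * (2 * 1 *
          (((hnf n (m + 1)).card : ℝ) * (M₁ * Gb n a (t * jm_c n m)))) * t ^ (n * w.re - 1) := by
          gcongr
      _ = _ := by ring
  rw [← ofReal_norm]
  refine (ENNReal.ofReal_le_ofReal h1).trans ?_
  rw [ENNReal.ofReal_mul ENNReal.toReal_nonneg]
  exact mul_le_mul' ENNReal.ofReal_toReal_le le_rfl

private theorem jm_mass {n : ℕ} (hn : 0 < n) : ∫⁻ x in Xs n, wG x ≠ ⊤ := by
  obtain ⟨r, rfl⟩ : ∃ r, n = r + 1 := ⟨n - 1, by omega⟩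
  exact RS.mass_ne_top r

private theorem jm_lint {n : ℕ} (hn : 0 < n) (a : ℕ) {M : ℝ} (hM : 0 ≤ M) {σ : ℝ}
    (hσ : (n : ℝ) ^ 2 + 2 ≤ σ) (m : ℕ) :
    ∫⁻ t in Set.Ioi (0 : ℝ), ENNReal.ofReal (M * (((hnf n (m + 1)).card : ℝ) *
      (Gb n a (t * jm_c n m) * t ^ (n * σ - 1)))) =
    ENNReal.ofReal (M * (∫ τ in Set.Ioi (0 : ℝ), Gb n a τ * τ ^ (n * σ - 1)) *
      (((hnf n (m + 1)).card : ℝ) * ((m + 1 : ℕ) : ℝ) ^ (-σ))) := by
  have hn1 : (1 : ℝ) ≤ n := by exact_mod_cast hn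
  have hn0 : (n : ℝ) ≠ 0 := by positivity
  have hm : (0 : ℝ) < ((m + 1 : ℕ) : ℝ) := by positivity
  have hr : (n : ℝ) ^ 2 ≤ n * σ - 1 := by nlinarith [sq_nonneg (n : ℝ)]
  obtain ⟨h1, h2⟩ := jm_Gb_scale n a hn hr (jm_c_pos n m)
  have h3 : Integrable (fun t : ℝ => M * (((hnf n (m + 1)).card : ℝ) *
      (Gb n a (t * jm_c n m) * t ^ (n * σ - 1)))) (volume.restrict (Set.Ioi 0)) :=
    (h1.const_mul _).const_mul _
  rw [← ofReal_integral_eq_lintegral_ofReal h3]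
  · rw [integral_const_mul, integral_const_mul, h2]
    congr 1
    have e1 : (jm_c n m) ^ (-(n * σ - 1 + 1)) = ((m + 1 : ℕ) : ℝ) ^ (-σ) := by
      rw [jm_c, ← Real.rpow_mul hm.le]
      congr 1
      field_simp
      ring
    rw [e1]
    ring
  · filter_upwards [ae_restrict_mem measurableSet_Ioi] with t ht
    have ht0 : (0 : ℝ) < t := ht
    have := jm_Gb_nonneg n a (mul_pos ht0 (jm_c_pos n m))
    positivity

/-! ## The inner integral -/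

private theorem jm_gk_int (h : SphericalForm n e ν lam φ) (hn : 0 < n) (a : ℕ) {w : ℂ}
    (hw : (n : ℝ) ^ 2 + 2 ≤ w.re) {y : Matrix (Fin n) (Fin n) ℝ} (hy : y.det ≠ 0) (m : ℕ)
    (x : Mt n) : IntegrableOn (fun t : ℝ => jm_g φ a y (t * jm_c n m, x) *
      (t : ℂ) ^ (n * w - 1)) (Set.Ioi 0) := by
  obtain ⟨M₁, hM₁, hG⟩ := gk_le h hn
  have hn1 : (1 : ℝ) ≤ n := by exact_mod_cast hn
  have hr : (n : ℝ) ^ 2 ≤ n * w.re - 1 := by nlinarith [sq_nonneg (n : ℝ)]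
  obtain ⟨h1, -⟩ := jm_Gb_scale n a hn hr (jm_c_pos n m)
  refine Integrable.mono' (h1.const_mul M₁) ?_ ?_
  · refine Measurable.aestronglyMeasurable (Measurable.mul ?_ ?_)
    · exact (jm_g_meas h a hy).comp ((measurable_id.mul_const _).prodMk measurable_const)
    · exact (Complex.measurable_ofReal.comp measurable_id).pow_const _
  · filter_upwards [ae_restrict_mem measurableSet_Ioi] with t ht
    have ht0 : (0 : ℝ) < t := ht
    have htc : 0 < t * jm_c n m := mul_pos ht0 (jm_c_pos n m)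
    have e1 : ‖(t : ℂ) ^ (n * w - 1)‖ = t ^ (n * w.re - 1) := by
      rw [Complex.norm_cpow_eq_rpow_re_of_pos ht0]
      congr 1
      simp
    rw [norm_mul, e1, ← mul_assoc]
    exact mul_le_mul_of_nonneg_right
      (jm_g_le hn (fun τ hτ y hy => hG a τ hτ y hy) hM₁ hy htc x) (by positivity)

private theorem jm_scale {n : ℕ} (hn : 0 < n) (F : ℝ → ℂ) (w : ℂ) (m : ℕ) :
    ∫ t in Set.Ioi (0 : ℝ), F (t * jm_c n m) * (t : ℂ) ^ (n * w - 1) =
      ((m + 1 : ℕ) : ℂ) ^ (-w) * ∫ τ in Set.Ioi (0 : ℝ), F τ * (τ : ℂ) ^ (n * w - 1) := by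
  have hc := jm_c_pos n m
  set c := jm_c n m with hcdef
  have hc0 : (c : ℂ) ≠ 0 := by exact_mod_cast hc.ne'
  have hn0 : (n : ℂ) ≠ 0 := by exact_mod_cast hn.ne'
  have hm : (0 : ℝ) ≤ ((m + 1 : ℕ) : ℝ) := by positivity
  have h1 : ∀ t ∈ Set.Ioi (0 : ℝ), F (t * c) * (t : ℂ) ^ (n * w - 1) =
      (c : ℂ) ^ (-(n * w - 1)) * (fun τ : ℝ => F τ * (τ : ℂ) ^ (n * w - 1)) (c * t) := by
    intro t ht
    have ht0 : (0 : ℝ) < t := ht
    simp only
    have e1 : ((c * t : ℝ) : ℂ) ^ (n * w - 1) = (c : ℂ) ^ (n * w - 1) * (t : ℂ) ^ (n * w - 1) := by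
      rw [Complex.ofReal_mul, Complex.mul_cpow_ofReal_nonneg hc.le ht0.le]
    rw [e1, mul_comm t c]
    have : (c : ℂ) ^ (-(n * w - 1)) * (F (c * t) * ((c : ℂ) ^ (n * w - 1) *
        (t : ℂ) ^ (n * w - 1))) =
        ((c : ℂ) ^ (-(n * w - 1)) * (c : ℂ) ^ (n * w - 1)) *
          (F (c * t) * (t : ℂ) ^ (n * w - 1)) := by ring
    rw [this, ← Complex.cpow_add _ _ hc0, neg_add_cancel, Complex.cpow_zero, one_mul]
  have h2 := integral_comp_mul_left_Ioi (fun τ : ℝ => F τ * (τ : ℂ) ^ (n * w - 1)) 0 hc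
  rw [mul_zero] at h2
  rw [setIntegral_congr_fun measurableSet_Ioi h1, integral_const_mul, h2, Complex.real_smul,
    ← mul_assoc]
  congr 1
  have e2 : ((c⁻¹ : ℝ) : ℂ) = (c : ℂ) ^ (-1 : ℂ) := by
    rw [Complex.cpow_neg_one, Complex.ofReal_inv]
  rw [e2, ← Complex.cpow_add _ _ hc0]
  have e3 : (c : ℂ) = ((((m + 1 : ℕ) : ℝ) : ℂ)) ^ (((n : ℝ)⁻¹ : ℝ) : ℂ) := by
    rw [hcdef, jm_c, Complex.ofReal_cpow hm]
  have e4 : (-(n * w - 1) + -1 : ℂ) = -(n * w) := by ring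
  rw [e4, e3]
  have hm' : (0 : ℝ) < ((m + 1 : ℕ) : ℝ) := by positivity
  have e5 : ((((m + 1 : ℕ) : ℝ) : ℂ)) = ((m + 1 : ℕ) : ℂ) := by push_cast; ring
  have e6 : (((((m + 1 : ℕ) : ℝ) : ℂ)) ^ (((n : ℝ)⁻¹ : ℝ) : ℂ)) ^ (-(n * w)) =
      ((((m + 1 : ℕ) : ℝ) : ℂ)) ^ ((((n : ℝ)⁻¹ : ℝ) : ℂ) * (-(n * w))) := by
    rw [Complex.cpow_mul]
    · rw [← Complex.ofReal_log hm, ← Complex.ofReal_mul, Complex.ofReal_im]
      exact neg_lt_zero.mpr Real.pi_pos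
    · rw [← Complex.ofReal_log hm, ← Complex.ofReal_mul, Complex.ofReal_im]
      exact Real.pi_pos.le
  rw [e6, e5]
  congr 1
  push_cast
  field_simp

private theorem jm_phi_nz (h : SphericalForm n e ν lam φ) (hn : 0 < n) {x : Mt n}
    (hx : (Matrix.of x).det ≠ 0) : φ (nz x) = φ (Matrix.of x) := by
  obtain ⟨r, hr, h1, -⟩ := nz_smul hn hx
  rw [h1, h.scalar r _ hr hx]

/-- the inner integral -/
private theorem jm_E (h : SphericalForm n e ν lam φ) (hn : 0 < n) {q : ℕ}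
    (χ : DirichletCharacter ℂ q) (a : ℕ) {w : ℂ} (hw : (n : ℝ) ^ 2 + 2 ≤ w.re) {κ : ℝ}
    (hmel : ∀ y : Matrix (Fin n) (Fin n) ℝ, y.det ≠ 0 →
      ∫ τ in Set.Ioi (0 : ℝ), Gk φ a τ y * (τ : ℂ) ^ (n * w - 1) =
        κ * (∏ i, Gammaℝ (w + a - (n - 1) / 2 + ν i)) * φ y) (m : ℕ) {x : Mt n}
    (hx : x ∈ Xs n) :
    ∫ t in Set.Ioi (0 : ℝ), jm_f φ χ a w m t x =
      (2 * κ * (∏ i, Gammaℝ (w + a - (n - 1) / 2 + ν i)) *
        (lam (m + 1) * χ ((m + 1 : ℕ) : ZMod q) / ((m + 1 : ℕ) : ℂ) ^ (w - (n - 1) / 2))) *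
        (((wG x).toReal * ‖φ (Matrix.of x)‖ ^ 2 : ℝ) : ℂ) := by
  have hx0 := RS.Xs_det_ne hx
  have hnz := jm_nz_ne hn hx0
  have hm : (0 : ℝ) < ((m + 1 : ℕ) : ℝ) := by positivity
  have h1 : ∀ t : ℝ, jm_f φ χ a w m t x = (((wG x).toReal : ℂ) * starRingEnd ℂ (cut φ x) *
      (2 * χ ((m + 1 : ℕ) : ZMod q))) * ∑ H ∈ hnf n (m + 1),
        jm_g φ a ((natM H)⁻¹) (t * jm_c n m, x) * (t : ℂ) ^ (n * w - 1) := by
    intro t
    rw [jm_f, ← Finset.sum_mul]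
    ring
  have h2 : ∀ H ∈ hnf n (m + 1), ∫ t in Set.Ioi (0 : ℝ),
      jm_g φ a ((natM H)⁻¹) (t * jm_c n m, x) * (t : ℂ) ^ (n * w - 1) =
      ((m + 1 : ℕ) : ℂ) ^ (-w) * (κ * (∏ i, Gammaℝ (w + a - (n - 1) / 2 + ν i))) *
        φ ((natM H)⁻¹ * nz x) := by
    intro H hH
    simp only [jm_g_eq hx0]
    rw [jm_scale hn (fun τ => Gk φ a τ ((natM H)⁻¹ * nz x)), hmel, ← mul_assoc]
    rw [Matrix.det_mul]
    exact mul_ne_zero (jm_natM_det hH) hnz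
  simp only [h1]
  rw [integral_const_mul, integral_finsetSum _ fun H hH =>
    jm_gk_int h hn a hw (jm_natM_det hH) m x, Finset.sum_congr rfl h2, ← Finset.mul_sum,
    h.hecke (m + 1) (Nat.succ_pos m) _ hnz, jm_phi_nz h hn hx0, RS.cut_of_ne φ hx0]
  have e1 : starRingEnd ℂ (φ (Matrix.of x)) * φ (Matrix.of x) =
      ((‖φ (Matrix.of x)‖ ^ 2 : ℝ) : ℂ) := by
    rw [Complex.conj_mul']
    push_cast
    rfl
  have hm0 : ((m + 1 : ℕ) : ℂ) ≠ 0 := by exact_mod_cast hm.ne'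
  have e2 : ((√((m + 1 : ℕ) : ℝ) : ℝ) : ℂ) ^ (n - 1) * ((m + 1 : ℕ) : ℂ) ^ (-w) =
      (((m + 1 : ℕ) : ℂ) ^ (w - (n - 1) / 2))⁻¹ := by
    rw [← Complex.cpow_neg]
    have e3 : ((√((m + 1 : ℕ) : ℝ) : ℝ) : ℂ) ^ (n - 1) =
        ((m + 1 : ℕ) : ℂ) ^ (((n : ℂ) - 1) / 2) := by
      have e4 : (√((m + 1 : ℕ) : ℝ)) ^ (n - 1) =
          ((m + 1 : ℕ) : ℝ) ^ (((n : ℝ) - 1) / 2) := by
        rw [Real.sqrt_eq_rpow, ← Real.rpow_natCast, ← Real.rpow_mul hm.le]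
        congr 1
        rw [Nat.cast_sub hn]
        push_cast
        ring
      rw [← Complex.ofReal_pow, e4, Complex.ofReal_cpow hm.le]
      push_cast
      ring_nf
    rw [e3, ← Complex.cpow_add _ _ hm0]
    congr 1
    ring
  rw [div_eq_mul_inv (lam (m + 1) * _), ← e2, Complex.ofReal_mul, ← e1]
  ring

/-! ## The Dirichlet series -/

private theorem jm_ne (h : SphericalForm n e ν lam φ) (hn : 0 < n) :
    ∃ g : Matrix (Fin n) (Fin n) ℝ, g.det ≠ 0 ∧ φ g ≠ 0 := by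
  by_contra hcon
  push Not at hcon
  have h1 := nrm_pos h hn
  have h2 : nrm φ = 0 := by
    unfold nrm
    rw [setIntegral_congr_fun (g := fun _ => (0 : ℝ)) (RS.measurableSet_Xs n)]
    · simp
    · intro x hx
      simp only
      rw [hcon _ (RS.Xs_det_ne hx)]
      simp
  linarith

private theorem jm_lsum (h : SphericalForm n e ν lam φ) (hn : 0 < n) {q : ℕ}
    (χ : DirichletCharacter ℂ q) {s : ℂ} (hs : (n : ℝ) ^ 2 + 1 < s.re) :
    LSeriesSummable (fun k => lam k * χ k) s := by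
  obtain ⟨M, hM⟩ := h.bounded
  obtain ⟨g, hg, hg0⟩ := jm_ne h hn
  refine LSeriesSummable_of_le_const_mul_rpow hs
    ⟨2 ^ (n ^ 2) * M / ‖φ g‖, fun k hk => ?_⟩
  obtain ⟨m, rfl⟩ : ∃ m, k = m + 1 := ⟨k - 1, by omega⟩
  have hm : (0 : ℝ) < ((m + 1 : ℕ) : ℝ) := by positivity
  have hm1 : (1 : ℝ) ≤ ((m + 1 : ℕ) : ℝ) := by
    push_cast
    have : (0 : ℝ) ≤ m := Nat.cast_nonneg m
    linarith
  have hgp : 0 < ‖φ g‖ := norm_pos_iff.mpr hg0
  have hM0 : 0 ≤ M := (norm_nonneg _).trans (hM g hg)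
  have h1 := h.hecke (m + 1) (Nat.succ_pos m) g hg
  have h2 : ‖∑ A ∈ hnf n (m + 1), φ ((natM A)⁻¹ * g)‖ ≤ ((hnf n (m + 1)).card : ℝ) * M := by
    refine (norm_sum_le _ _).trans ?_
    refine (Finset.sum_le_card_nsmul _ _ M fun H hH => ?_).trans (by rw [nsmul_eq_mul])
    refine hM _ ?_
    rw [Matrix.det_mul]
    exact mul_ne_zero (jm_natM_det hH) hg
  rw [h1, norm_mul, norm_mul, norm_pow, Complex.norm_real,
    Real.norm_of_nonneg (Real.sqrt_nonneg _)] at h2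
  have h3 : (1 : ℝ) ≤ (√((m + 1 : ℕ) : ℝ)) ^ (n - 1) := by
    apply one_le_pow₀
    rw [Real.one_le_sqrt]
    exact hm1
  have h4 : ‖lam (m + 1)‖ * ‖φ g‖ ≤ 2 ^ (n ^ 2) * ((m + 1 : ℕ) : ℝ) ^ (n ^ 2) * M := by
    calc ‖lam (m + 1)‖ * ‖φ g‖ ≤ (√((m + 1 : ℕ) : ℝ)) ^ (n - 1) * ‖lam (m + 1)‖ * ‖φ g‖ := by
          apply mul_le_mul_of_nonneg_right _ hgp.le
          exact le_mul_of_one_le_left (norm_nonneg _) h3
      _ ≤ ((hnf n (m + 1)).card : ℝ) * M := h2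
      _ ≤ _ := mul_le_mul_of_nonneg_right (jm_card_le n m) hM0
  have h5 : ‖χ ((m + 1 : ℕ) : ZMod q)‖ ≤ 1 := χ.norm_le_one _
  have h6 : (((m + 1 : ℕ) : ℝ)) ^ ((n : ℝ) ^ 2 + 1 - 1) = ((m + 1 : ℕ) : ℝ) ^ (n ^ 2) := by
    rw [← Real.rpow_natCast (((m + 1 : ℕ) : ℝ)) (n ^ 2)]
    congr 1
    push_cast
    ring
  rw [norm_mul, h6]
  calc ‖lam (m + 1)‖ * ‖χ ((m + 1 : ℕ) : ZMod q)‖ ≤ ‖lam (m + 1)‖ * 1 :=
        mul_le_mul_of_nonneg_left h5 (norm_nonneg _)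
    _ = ‖lam (m + 1)‖ * ‖φ g‖ / ‖φ g‖ := by field_simp
    _ ≤ 2 ^ (n ^ 2) * ((m + 1 : ℕ) : ℝ) ^ (n ^ 2) * M / ‖φ g‖ := by gcongr
    _ = _ := by ring

/-- JM: the Mellin transform of the theta integral -/
theorem jj_mellin_pr (h : SphericalForm n e ν lam φ) (hn : 0 < n) : ∃ κ : ℝ, 0 < κ ∧ ∃ σ₀ : ℝ,
    ∀ (q : ℕ), 1 < q → ∀ (χ : DirichletCharacter ℂ q) (w : ℂ), σ₀ < w.re →
      LSeriesSummable (fun k => lam k * χ k) (w - (n - 1) / 2) ∧
      ∫ t in Set.Ioi (0 : ℝ), JJ φ χ (aa e (par χ)) t * (t : ℂ) ^ (n * w - 1) =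
        κ * (∏ i, Gammaℝ (w + aa e (par χ) - (n - 1) / 2 + ν i)) *
          LSeries (fun k => lam k * χ k) (w - (n - 1) / 2) * nrm φ := by
  obtain ⟨κ, hκ, σ₁, hmel⟩ := mel_Gk h hn
  obtain ⟨M, hM, hb⟩ := jm_f_bound h hn
  refine ⟨2 * κ, by positivity, max σ₁ ((n : ℝ) ^ 2 + n + 3), fun q hq χ w hw => ?_⟩
  have hσ₁ : σ₁ < w.re := lt_of_le_of_lt (le_max_left _ _) hw
  have hσ₂ : (n : ℝ) ^ 2 + n + 3 < w.re := lt_of_le_of_lt (le_max_right _ _) hw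
  have hn1 : (1 : ℝ) ≤ n := by exact_mod_cast hn
  have hσ : (n : ℝ) ^ 2 + 2 ≤ w.re := by linarith
  set a : ℕ := aa e (par χ) with ha
  have hs : LSeriesSummable (fun k => lam k * χ k) (w - (n - 1) / 2) := by
    refine jm_lsum h hn χ ?_
    have e1 : (w - ((n : ℂ) - 1) / 2).re = w.re - ((n : ℝ) - 1) / 2 := by
      rw [Complex.sub_re]
      congr 1
      have : ((n : ℂ) - 1) / 2 = ((((n : ℝ) - 1) / 2 : ℝ) : ℂ) := by push_cast; ring
      rw [this, Complex.ofReal_re]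
    rw [e1]
    linarith
  refine ⟨hs, ?_⟩
  have hmass := jm_mass hn
  set mass : ℝ≥0∞ := ∫⁻ x in Xs n, wG x with hmassdef
  have hfm := fun m => jm_f_meas h χ a w m
  -- the bound of the inner integrals
  have hbx : ∀ (m : ℕ) (t : ℝ), 0 < t → ∫⁻ x in Xs n, ‖jm_f φ χ a w m t x‖ₑ ≤
      mass * ENNReal.ofReal (M * (((hnf n (m + 1)).card : ℝ) *
          (Gb n a (t * jm_c n m) * t ^ (n * w.re - 1)))) := by
    intro m t ht
    rw [hmassdef, ← lintegral_mul_const _ RS.measurable_wG]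
    exact lintegral_mono fun x => hb q χ a w m t ht x
  have hbt : ∀ m : ℕ, ∫⁻ t in Set.Ioi (0 : ℝ), ∫⁻ x in Xs n, ‖jm_f φ χ a w m t x‖ₑ ≤
      mass * ENNReal.ofReal (M * (∫ τ in Set.Ioi (0 : ℝ), Gb n a τ * τ ^ (n * w.re - 1)) *
      (((hnf n (m + 1)).card : ℝ) * ((m + 1 : ℕ) : ℝ) ^ (-w.re))) := by
    intro m
    rw [← jm_lint hn a hM hσ m, ← lintegral_const_mul' _ _ hmass]
    refine setLIntegral_mono' measurableSet_Ioi fun t ht => hbx m t ht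
  -- A
  have hA : ∫ t in Set.Ioi (0 : ℝ), JJ φ χ a t * (t : ℂ) ^ (n * w - 1) =
      ∫ t in Set.Ioi (0 : ℝ), ∑' m : ℕ, ∫ x in Xs n, jm_f φ χ a w m t x := by
    refine setIntegral_congr_fun measurableSet_Ioi fun t ht => ?_
    have ht0 : (0 : ℝ) < t := ht
    rw [ha, jm_A h hn hq χ w ht0, ← ha]
    refine integral_tsum (fun m => ((hfm m).comp measurable_prodMk_left).aestronglyMeasurable) ?_
    refine ne_top_of_le_ne_top ?_ (ENNReal.tsum_le_tsum fun m => hbx m t ht0)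
    rw [ENNReal.tsum_mul_left]
    refine ENNReal.mul_ne_top hmass ?_
    have h1 : Summable fun m : ℕ => M * (((hnf n (m + 1)).card : ℝ) *
          (Gb n a (t * jm_c n m) * t ^ (n * w.re - 1))) := by
      have h2 := ((jm_fin hn a ht0).mul_right (t ^ (n * w.re - 1))).mul_left M
      refine h2.congr fun m => ?_
      rw [jm_c]
      ring
    exact h1.tsum_ofReal_ne_top
  -- C
  have hC : ∫ t in Set.Ioi (0 : ℝ), ∑' m : ℕ, ∫ x in Xs n, jm_f φ χ a w m t x =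
      ∑' m : ℕ, ∫ t in Set.Ioi (0 : ℝ), ∫ x in Xs n, jm_f φ χ a w m t x := by
    refine integral_tsum (fun m => ?_) ?_
    · exact ((hfm m).stronglyMeasurable.integral_prod_right'
        (ν := volume.restrict (Xs n))).aestronglyMeasurable
    · refine ne_top_of_le_ne_top ?_ (ENNReal.tsum_le_tsum fun m =>
        (lintegral_mono fun t => enorm_integral_le_lintegral_enorm _).trans (hbt m))
      rw [ENNReal.tsum_mul_left]
      refine ENNReal.mul_ne_top hmass ?_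
      exact ((jm_sum_card n hσ).mul_left _).tsum_ofReal_ne_top
  -- D
  have hD : ∀ m : ℕ, ∫ t in Set.Ioi (0 : ℝ), ∫ x in Xs n, jm_f φ χ a w m t x =
      ∫ x in Xs n, ∫ t in Set.Ioi (0 : ℝ), jm_f φ χ a w m t x := by
    intro m
    refine integral_integral_swap ?_
    refine ⟨(hfm m).aestronglyMeasurable, ?_⟩
    rw [HasFiniteIntegral, lintegral_prod _ (hfm m).enorm.aemeasurable]
    exact lt_of_le_of_lt (hbt m) (ENNReal.mul_lt_top (lt_top_iff_ne_top.mpr hmass)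
      ENNReal.ofReal_lt_top)
  -- E
  have hE : ∀ m : ℕ, ∫ x in Xs n, ∫ t in Set.Ioi (0 : ℝ), jm_f φ χ a w m t x =
      (2 * κ * (∏ i, Gammaℝ (w + a - (n - 1) / 2 + ν i)) *
        (lam (m + 1) * χ ((m + 1 : ℕ) : ZMod q) / ((m + 1 : ℕ) : ℂ) ^ (w - (n - 1) / 2))) *
        nrm φ := by
    intro m
    rw [setIntegral_congr_fun (RS.measurableSet_Xs n) fun x hx =>
      jm_E h hn χ a hσ (fun y hy => hmel a w hσ₁ y hy) m hx, integral_const_mul,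
      integral_complex_ofReal]
    rfl
  rw [hA, hC]
  simp only [hD, hE]
  rw [tsum_mul_right, tsum_mul_left]
  congr 1
  push_cast
  congr 1
  rw [LSeries, hs.tsum_eq_zero_add]
  rw [LSeries.term_zero, zero_add]
  refine tsum_congr fun m => ?_
  rw [LSeries.term_of_ne_zero (Nat.succ_ne_zero m)]
  push_cast
  rfl

alias jj_mellin := jj_mellin_pr

end Pool.Agent.GJ
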