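import Pool.Agent.Lib_helper19.GJ.Defs
import Pool.Agent.Lib_helper19.GJ.GS
import Pool.Agent.Lib_helper19.GJ.JB
import Pool.Agent.Lib_helper19.GJ.JF
import Pool.Agent.Lib_helper19.GJ.JM
import Pool.Agent.Lib_helper19.GJ.NP

/-!
# Block LJ: the functional equation of the twisted L-functions
-/

namespace Pool.Agent.GJ

open Complex MeasureTheory Filter Topology Matrix
open Pool.Agent.G4 (par RSB)
open Pool.Agent.RS (Mt SLZ toR lm Xs wG cut cube)
open scoped ENNReal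

theorem lj_pow {q : ℝ} (hq : 0 < q) (n : ℕ) (z : ℂ) :
    ((q : ℂ) ^ n) ^ z = (q : ℂ) ^ ((n : ℂ) * z) := by
  have h1 : (q : ℂ) ≠ 0 := by exact_mod_cast hq.ne'
  rw [Complex.cpow_def_of_ne_zero (pow_ne_zero n h1), Complex.cpow_def_of_ne_zero h1]
  congr 1
  have h2 : Complex.log ((q : ℂ) ^ n) = n * Complex.log q := by
    rw [← Complex.ofReal_pow, ← Complex.ofReal_log (by positivity), Real.log_pow,
      ← Complex.ofReal_log hq.le]
    push_cast
    ring
  rw [h2]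
  ring

theorem lj_conj_pow {q : ℝ} (hq : 0 < q) (z : ℂ) :
    starRingEnd ℂ ((q : ℂ) ^ z) = (q : ℂ) ^ (starRingEnd ℂ z) := by
  rw [Complex.cpow_conj _ _ (by rw [Complex.arg_ofReal_of_nonneg hq.le]; exact Real.pi_pos.ne),
    Complex.conj_ofReal]

theorem lj_mellin_conj (f : ℝ → ℂ) (s : ℂ) :
    mellin (fun t => starRingEnd ℂ (f t)) s = starRingEnd ℂ (mellin f (starRingEnd ℂ s)) := by
  unfold mellin
  rw [← integral_conj]
  refine setIntegral_congr_fun measurableSet_Ioi fun t ht => ?_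
  simp only [smul_eq_mul, map_mul]
  rw [lj_conj_pow ht, map_sub, map_one, Complex.conj_conj]

/-- the functional equation of the Mellin transform -/
theorem lj_mellin_fe (J : ℝ → ℂ) (c : ℂ) (N : ℕ) {q : ℝ} (hq : 0 < q)
    (hfe : ∀ t : ℝ, 0 < t → J t = c * (((t ^ N)⁻¹ : ℝ) : ℂ) * starRingEnd ℂ (J ((t * q)⁻¹)))
    (s : ℂ) : mellin J s = c * (q : ℂ) ^ ((N : ℂ) - s) *
      starRingEnd ℂ (mellin J ((N : ℂ) - starRingEnd ℂ s)) := by
  have h1 : mellin J s = mellin (fun t => (t : ℂ) ^ (-(N : ℂ)) •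
      (c • starRingEnd ℂ (J ((q * t)⁻¹)))) s := by
    unfold mellin
    refine setIntegral_congr_fun measurableSet_Ioi fun t ht => ?_
    have ht0 : (0 : ℝ) < t := ht
    simp only [smul_eq_mul]
    congr 1
    rw [hfe t ht0, mul_comm t q]
    have h2 : (((t ^ N)⁻¹ : ℝ) : ℂ) = (t : ℂ) ^ (-(N : ℂ)) := by
      rw [Complex.cpow_neg, Complex.cpow_natCast]
      push_cast
      rfl
    rw [h2]
    ring
  rw [h1, mellin_cpow_smul, mellin_const_smul]
  have h3 := mellin_comp_mul_left (fun u => starRingEnd ℂ (J u⁻¹)) (s + -(N : ℂ)) hq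
  rw [h3]
  have h4 := mellin_comp_inv (fun u => starRingEnd ℂ (J u)) (s + -(N : ℂ))
  rw [h4, lj_mellin_conj, smul_eq_mul, smul_eq_mul]
  have e1 : -(s + -(N : ℂ)) = (N : ℂ) - s := by ring
  rw [e1, map_sub, Complex.conj_natCast]
  ring

/-- entire Mellin transforms, bounded in vertical strips -/
theorem lj_entire (J : ℝ → ℂ) (hm : AEStronglyMeasurable J (volume.restrict (Set.Ioi 0)))
    (hb : ∀ K : ℝ, ∃ C : ℝ, 0 ≤ C ∧ ∀ t : ℝ, 0 < t → ‖J t‖ ≤ C * t ^ (-K)) :
    Differentiable ℂ (mellin J) ∧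
      ∀ A B : ℝ, ∃ C : ℝ, ∀ s : ℂ, A ≤ s.re → s.re ≤ B → ‖mellin J s‖ ≤ C := by
  obtain ⟨C0, hC0, hb0⟩ := hb 0
  obtain ⟨C2, hC2, hb2⟩ := hb 2
  have hint : IntegrableOn J (Set.Ioi 0) := by
    have e : Set.Ioi (0 : ℝ) = Set.Ioc 0 1 ∪ Set.Ioi 1 :=
      (Set.Ioc_union_Ioi_eq_Ioi zero_le_one).symm
    rw [e]
    refine IntegrableOn.union ?_ ?_
    · have h0 : IntegrableOn (fun _ : ℝ => C0) (Set.Ioc 0 1) := integrableOn_const (by simp)
      refine Integrable.mono' h0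
        (hm.mono_measure (Measure.restrict_mono Set.Ioc_subset_Ioi_self le_rfl)) ?_
      refine (ae_restrict_iff' measurableSet_Ioc).2 (Eventually.of_forall fun t ht => ?_)
      have := hb0 t ht.1
      rwa [neg_zero, Real.rpow_zero, mul_one] at this
    · have h1 : IntegrableOn (fun t : ℝ => C2 * t ^ (-2 : ℝ)) (Set.Ioi 1) :=
        (integrableOn_Ioi_rpow_of_lt (by norm_num) zero_lt_one).const_mul C2
      refine Integrable.mono' h1
        (hm.mono_measure (Measure.restrict_mono (Set.Ioi_subset_Ioi zero_le_one) le_rfl)) ?_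
      refine (ae_restrict_iff' measurableSet_Ioi).2 (Eventually.of_forall fun t ht => ?_)
      exact hb2 t (zero_lt_one.trans ht)
  have hloc : LocallyIntegrableOn J (Set.Ioi 0) := hint.locallyIntegrableOn
  have htop : ∀ a : ℝ, J =O[atTop] (fun t : ℝ => t ^ (-a)) := by
    intro a
    obtain ⟨C, hC, h⟩ := hb a
    refine Asymptotics.IsBigO.of_bound C ?_
    filter_upwards [eventually_gt_atTop 0] with t ht
    rw [Real.norm_of_nonneg (Real.rpow_nonneg ht.le _)]
    exact h t ht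
  have hbot : ∀ b : ℝ, J =O[𝓝[>] 0] (fun t : ℝ => t ^ (-b)) := by
    intro b
    obtain ⟨C, hC, h⟩ := hb b
    refine Asymptotics.IsBigO.of_bound C ?_
    filter_upwards [self_mem_nhdsWithin] with t ht
    have ht0 : (0 : ℝ) < t := ht
    rw [Real.norm_of_nonneg (Real.rpow_nonneg ht0.le _)]
    exact h t ht0
  have hconv : ∀ s : ℂ, MellinConvergent J s := fun s =>
    mellinConvergent_of_isBigO_rpow hloc (htop (s.re + 1)) (by linarith) (hbot (s.re - 1))
      (by linarith)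
  refine ⟨fun s => mellin_differentiableAt_of_isBigO_rpow hloc (htop (s.re + 1)) (by linarith)
    (hbot (s.re - 1)) (by linarith), ?_⟩
  intro A B
  have hnorm : ∀ σ : ℝ, IntegrableOn (fun t : ℝ => t ^ (σ - 1) * ‖J t‖) (Set.Ioi 0) := by
    intro σ
    have h1 := (hconv (σ : ℂ)).norm
    refine IntegrableOn.congr_fun h1 (fun t ht => ?_) measurableSet_Ioi
    have ht0 : (0 : ℝ) < t := ht
    rw [norm_smul, Complex.norm_cpow_eq_rpow_re_of_pos ht0]
    congr 2
  refine ⟨∫ t in Set.Ioi (0 : ℝ), (t ^ (A - 1) * ‖J t‖ + t ^ (B - 1) * ‖J t‖), ?_⟩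
  intro s hA hB
  unfold mellin
  refine (norm_integral_le_integral_norm _).trans ?_
  refine setIntegral_mono_on (hconv s).norm ((hnorm A).add (hnorm B)) measurableSet_Ioi ?_
  intro t ht
  have ht0 : (0 : ℝ) < t := ht
  rw [norm_smul, Complex.norm_cpow_eq_rpow_re_of_pos ht0, Complex.sub_re, Complex.one_re,
    ← add_mul]
  refine mul_le_mul_of_nonneg_right ?_ (norm_nonneg _)
  rcases le_total t 1 with h1 | h1
  · have := Real.rpow_le_rpow_of_exponent_ge ht0 h1 (show A - 1 ≤ s.re - 1 by linarith)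
    have h2 : 0 ≤ t ^ (B - 1) := Real.rpow_nonneg ht0.le _
    linarith
  · have := Real.rpow_le_rpow_of_exponent_le h1 (show s.re - 1 ≤ B - 1 by linarith)
    have h2 : 0 ≤ t ^ (A - 1) := Real.rpow_nonneg ht0.le _
    linarith

theorem gj_fe_pr {n : ℕ} {e : Fin 2} {ν : Fin n → ℂ} {lam : ℕ → ℂ}
    {φ : Matrix (Fin n) (Fin n) ℝ → ℂ} (h : SphericalForm n e ν lam φ) (hn : 0 < n) {q : ℕ}
    (hq : 1 < q) {χ : DirichletCharacter ℂ q} (hχ : χ.IsPrimitive)
    (hsum : ∀ s : ℂ, 1 < s.re → LSeriesSummable lam s) :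
    ∃ (Λ : ℂ → ℂ) (W : ℂ), Differentiable ℂ Λ ∧ ‖W‖ = 1 ∧
      (∀ A B : ℝ, ∃ C : ℝ, ∀ s : ℂ, A ≤ s.re → s.re ≤ B → ‖Λ s‖ ≤ C) ∧
      (∀ s : ℂ, Λ s = W * starRingEnd ℂ (Λ (1 - starRingEnd ℂ s))) ∧
      ∀ s : ℂ, 1 < s.re → Λ s * ∏ j, (Gammaℝ (s + ν j + aa e (par χ)))⁻¹ =
        ((q : ℂ) ^ n) ^ (s / 2) * LSeries (fun k => lam k * χ k) s := by
  have hNZ : NeZero q := ⟨by omega⟩
  have hq0 : (0 : ℝ) < q := by exact_mod_cast (show 0 < q by omega)
  have hq1 : (1 : ℝ) ≤ q := by exact_mod_cast hq.le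
  set a := aa e (par χ) with ha
  have ha1 : a ≤ 1 := by
    rw [ha]; unfold aa; split_ifs <;> omega
  set J : ℝ → ℂ := JJ φ χ a with hJ
  set c : ℂ := gs χ (1 : Matrix (Fin n) (Fin n) (ZMod q)) * (-I) ^ (n * a) / (q : ℂ) ^ (n ^ 2)
    with hc
  have hfe : ∀ t : ℝ, 0 < t → J t = c * (((t ^ (n ^ 2))⁻¹ : ℝ) : ℂ) *
      starRingEnd ℂ (J ((t * q)⁻¹)) := fun t ht => jj_fe h hn hq hχ ha1 ht
  -- decay at both ends
  have hdec : ∀ K : ℝ, ∃ C : ℝ, 0 ≤ C ∧ ∀ t : ℝ, 0 < t → ‖J t‖ ≤ C * t ^ (-K) := by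
    intro K
    set K0 : ℝ := (n : ℝ) ^ 3 + 2 * n + 2 with hK0
    obtain ⟨C1, hC1, h1⟩ := jj_bound h hn hq χ a (max K K0) (le_max_right _ _)
    obtain ⟨C2, hC2, h2⟩ := jj_bound h hn hq χ a (max ((n : ℝ) ^ 2 - K) K0) (le_max_right _ _)
    set K2 : ℝ := max ((n : ℝ) ^ 2 - K) K0 with hK2
    refine ⟨C1 + ‖c‖ * (C2 * (q : ℝ) ^ K2), by positivity, ?_⟩
    intro t ht
    have hpos : 0 ≤ t ^ (-K) := Real.rpow_nonneg ht.le _
    rcases le_total 1 t with ht1 | ht1
    · have e1 : t ^ (-(max K K0)) ≤ t ^ (-K) :=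
        Real.rpow_le_rpow_of_exponent_le ht1 (neg_le_neg (le_max_left _ _))
      calc ‖J t‖ ≤ C1 * t ^ (-(max K K0)) := h1 t ht
        _ ≤ C1 * t ^ (-K) := mul_le_mul_of_nonneg_left e1 hC1
        _ ≤ _ := by
          refine mul_le_mul_of_nonneg_right ?_ hpos
          have : 0 ≤ ‖c‖ * (C2 * (q : ℝ) ^ K2) := by positivity
          linarith
    · have htq : 0 < (t * q)⁻¹ := by positivity
      have e2 : ((t * q)⁻¹) ^ (-K2) = t ^ K2 * (q : ℝ) ^ K2 := by
        rw [Real.inv_rpow (by positivity), Real.rpow_neg (by positivity), inv_inv,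
          Real.mul_rpow ht.le hq0.le]
      have e3 : (t ^ (n ^ 2))⁻¹ * t ^ K2 ≤ t ^ (-K) := by
        have e4 : (t ^ (n ^ 2))⁻¹ = t ^ (-((n : ℝ) ^ 2)) := by
          rw [Real.rpow_neg ht.le]
          congr 1
          rw [← Real.rpow_natCast]
          push_cast
          rfl
        rw [e4, ← Real.rpow_add ht]
        refine Real.rpow_le_rpow_of_exponent_ge ht ht1 ?_
        have := le_max_left ((n : ℝ) ^ 2 - K) K0
        linarith
      calc ‖J t‖ = ‖c‖ * (t ^ (n ^ 2))⁻¹ * ‖J ((t * q)⁻¹)‖ := by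
            rw [hfe t ht, norm_mul, norm_mul, Complex.norm_conj, Complex.norm_real,
              Real.norm_of_nonneg (by positivity)]
        _ ≤ ‖c‖ * (t ^ (n ^ 2))⁻¹ * (C2 * ((t * q)⁻¹) ^ (-K2)) :=
            mul_le_mul_of_nonneg_left (h2 _ htq) (by positivity)
        _ = ‖c‖ * (C2 * (q : ℝ) ^ K2) * ((t ^ (n ^ 2))⁻¹ * t ^ K2) := by rw [e2]; ring
        _ ≤ ‖c‖ * (C2 * (q : ℝ) ^ K2) * t ^ (-K) :=
            mul_le_mul_of_nonneg_left e3 (by positivity)
        _ ≤ _ := by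
          refine mul_le_mul_of_nonneg_right ?_ hpos
          linarith
  obtain ⟨hMd, hMb⟩ := lj_entire J (jj_meas h χ a) hdec
  have hMfe := lj_mellin_fe J c (n ^ 2) hq0 hfe
  obtain ⟨κ, hκ, σ₀, hmel⟩ := jj_mellin h hn
  have hnrm := nrm_pos h hn
  have hκ0 : (κ : ℂ) ≠ 0 := by exact_mod_cast hκ.ne'
  have hnrm0 : ((nrm φ : ℝ) : ℂ) ≠ 0 := by exact_mod_cast hnrm.ne'
  have hqC : ((q : ℕ) : ℂ) ≠ 0 := by exact_mod_cast (show q ≠ 0 by omega)
  have hqcast : (((q : ℕ) : ℝ) : ℂ) = ((q : ℕ) : ℂ) := by push_cast; rfl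
  -- the completed L-function
  set Λ : ℂ → ℂ := fun s => ((q : ℂ) ^ n) ^ (s / 2) *
    mellin J (n * (s + (n - 1) / 2)) / (κ * nrm φ) with hΛ
  set W : ℂ := c * (q : ℂ) ^ ((n : ℂ) ^ 2 / 2) with hW
  have hqn : ∀ z : ℂ, ((q : ℂ) ^ n) ^ z = (q : ℂ) ^ ((n : ℂ) * z) := by
    intro z
    have := lj_pow hq0 n z
    rwa [hqcast] at this
  have hqconj : ∀ z : ℂ, starRingEnd ℂ ((q : ℂ) ^ z) = (q : ℂ) ^ (starRingEnd ℂ z) := by
    intro z
    have := lj_conj_pow hq0 z
    rwa [hqcast] at this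
  have hΛd : Differentiable ℂ Λ := by
    have h1 : Differentiable ℂ fun s : ℂ => ((q : ℂ) ^ n) ^ (s / 2) := by
      intro s
      exact (differentiableAt_id.div_const 2).const_cpow (Or.inl (pow_ne_zero n hqC))
    have h2 : Differentiable ℂ fun s : ℂ => mellin J (n * (s + (n - 1) / 2)) := by
      intro s
      exact (hMd _).comp s (by fun_prop)
    exact (h1.mul h2).div_const _
  refine ⟨Λ, W, hΛd, ?_, ?_, ?_, ?_⟩
  · -- the root number
    have hg := gs_norm (n := n) hχ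
    have hgs : ‖gs χ (1 : Matrix (Fin n) (Fin n) (ZMod q))‖ = (q : ℝ) ^ ((n : ℝ) ^ 2 / 2) := by
      have h1 : ((q : ℝ) ^ ((n : ℝ) ^ 2 / 2)) ^ 2 = (q : ℝ) ^ (n ^ 2) := by
        have h2 : (n : ℝ) ^ 2 / 2 * ((2 : ℕ) : ℝ) = ((n ^ 2 : ℕ) : ℝ) := by push_cast; ring
        rw [← Real.rpow_natCast, ← Real.rpow_mul hq0.le, h2, Real.rpow_natCast]
      rw [← h1] at hg
      exact (pow_left_inj₀ (norm_nonneg _) (by positivity) two_ne_zero).1 hg
    rw [hW, hc, norm_mul, norm_div, norm_mul, norm_pow, norm_neg, Complex.norm_I, one_pow, mul_one,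
      hgs, norm_pow, Complex.norm_natCast]
    have h2 : ‖(q : ℂ) ^ ((n : ℂ) ^ 2 / 2)‖ = (q : ℝ) ^ ((n : ℝ) ^ 2 / 2) := by
      rw [← hqcast, Complex.norm_cpow_eq_rpow_re_of_pos hq0]
      congr 1
      have : ((n : ℂ) ^ 2 / 2) = (((n : ℝ) ^ 2 / 2 : ℝ) : ℂ) := by push_cast; rfl
      rw [this, Complex.ofReal_re]
    rw [h2, div_mul_eq_mul_div, ← Real.rpow_add hq0, ← Real.rpow_natCast (q : ℝ) (n ^ 2)]
    have h3 : (n : ℝ) ^ 2 / 2 + (n : ℝ) ^ 2 / 2 = ((n ^ 2 : ℕ) : ℝ) := by push_cast; ring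
    rw [h3]
    exact div_self (Real.rpow_pos_of_pos hq0 _).ne'
  · -- bounded in vertical strips
    intro A B
    obtain ⟨C, hC⟩ := hMb (n * (A + (n - 1) / 2)) (n * (B + (n - 1) / 2))
    refine ⟨((q : ℝ) ^ n) ^ (B / 2) * |C| / ‖(κ : ℂ) * nrm φ‖, ?_⟩
    intro s hA hB
    rw [hΛ]
    simp only
    rw [norm_div, norm_mul]
    have hre : ((n : ℂ) * (s + (n - 1) / 2)).re = n * (s.re + (n - 1) / 2) := by
      have : (n : ℂ) * (s + (n - 1) / 2) = ((n : ℝ) : ℂ) * (s + (((n : ℝ) - 1) / 2 : ℝ)) := by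
        push_cast; rfl
      rw [this, Complex.re_ofReal_mul, Complex.add_re, Complex.ofReal_re]
    have hn0 : (0 : ℝ) ≤ n := Nat.cast_nonneg _
    have h1 : ‖mellin J (n * (s + (n - 1) / 2))‖ ≤ |C| := by
      refine (hC _ ?_ ?_).trans (le_abs_self C)
      · rw [hre]; gcongr
      · rw [hre]; gcongr
    have h2 : ‖((q : ℂ) ^ n) ^ (s / 2)‖ ≤ ((q : ℝ) ^ n) ^ (B / 2) := by
      have e1 : ((q : ℂ) ^ n) = (((q : ℝ) ^ n : ℝ) : ℂ) := by push_cast; rfl
      rw [e1, Complex.norm_cpow_eq_rpow_re_of_pos (by positivity)]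
      refine Real.rpow_le_rpow_of_exponent_le (one_le_pow₀ hq1) ?_
      have : (s / 2).re = s.re / 2 := by
        rw [show s / 2 = ((1 / 2 : ℝ) : ℂ) * s by push_cast; ring, Complex.re_ofReal_mul]
        ring
      rw [this]
      linarith
    gcongr
  · -- functional equation
    intro s
    rw [hΛ]
    simp only
    have e1 := hMfe (n * (s + (n - 1) / 2))
    rw [e1, hqcast]
    have e2 : ((n ^ 2 : ℕ) : ℂ) - starRingEnd ℂ (n * (s + (n - 1) / 2)) =
        n * ((1 - starRingEnd ℂ s) + (n - 1) / 2) := by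
      simp only [map_mul, map_add, map_div₀, map_sub, map_one, Complex.conj_natCast]
      have : starRingEnd ℂ (2 : ℂ) = 2 := Complex.conj_ofNat 2
      rw [this]
      push_cast
      ring
    have e5 : starRingEnd ℂ ((κ : ℂ) * (nrm φ : ℂ)) = (κ : ℂ) * (nrm φ : ℂ) := by
      rw [map_mul, Complex.conj_ofReal, Complex.conj_ofReal]
    rw [e2, hqn, map_div₀, map_mul, e5, hqn, hqconj]
    have e3 : starRingEnd ℂ ((n : ℂ) * ((1 - starRingEnd ℂ s) / 2)) = n * ((1 - s) / 2) := by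
      simp only [map_mul, map_div₀, map_sub, map_one, Complex.conj_natCast, Complex.conj_conj]
      have : starRingEnd ℂ (2 : ℂ) = 2 := Complex.conj_ofNat 2
      rw [this]
    rw [e3, hW]
    have e4 : (q : ℂ) ^ ((n : ℂ) * (s / 2)) * (q : ℂ) ^ (((n ^ 2 : ℕ) : ℂ) - n * (s + (n - 1) / 2)) =
        (q : ℂ) ^ ((n : ℂ) ^ 2 / 2) * (q : ℂ) ^ ((n : ℂ) * ((1 - s) / 2)) := by
      rw [← Complex.cpow_add _ _ hqC, ← Complex.cpow_add _ _ hqC]
      congr 1
      push_cast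
      ring
    calc (q : ℂ) ^ ((n : ℂ) * (s / 2)) * (c * (q : ℂ) ^ (((n ^ 2 : ℕ) : ℂ) - n * (s + (n - 1) / 2)) *
          starRingEnd ℂ (mellin J (n * ((1 - starRingEnd ℂ s) + (n - 1) / 2)))) / (κ * nrm φ)
        = c * ((q : ℂ) ^ ((n : ℂ) * (s / 2)) *
          (q : ℂ) ^ (((n ^ 2 : ℕ) : ℂ) - n * (s + (n - 1) / 2))) *
          starRingEnd ℂ (mellin J (n * ((1 - starRingEnd ℂ s) + (n - 1) / 2))) / (κ * nrm φ) := by
          ring
      _ = _ := by rw [e4]; ring
  · -- the L-series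
    set L : ℂ → ℂ := LSeries (fun k => lam k * χ k) with hL
    have hsum' : ∀ s : ℂ, 1 < s.re → LSeriesSummable (fun k => lam k * χ k) s := by
      intro s hs
      refine Summable.of_norm_bounded (hsum s hs).norm fun k => ?_
      rw [LSeries.norm_term_eq, LSeries.norm_term_eq]
      split_ifs
      · exact le_rfl
      · rw [norm_mul]
        refine div_le_div_of_nonneg_right ?_ (by positivity)
        exact mul_le_of_le_one_right (norm_nonneg _) (DirichletCharacter.norm_le_one _ _)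
    have hab : LSeries.abscissaOfAbsConv (fun k => lam k * χ k) ≤ (1 : ℝ) :=
      LSeries.abscissaOfAbsConv_le_of_forall_lt_LSeriesSummable fun y hy =>
        hsum' _ (by rw [Complex.ofReal_re]; exact hy)
    set U : Set ℂ := {s : ℂ | 1 < s.re} with hU
    have hUo : IsOpen U := isOpen_lt continuous_const Complex.continuous_re
    have hUc : IsPreconnected U := (convex_halfSpace_re_gt 1).isPreconnected
    have hLd : DifferentiableOn ℂ L U := by
      refine (LSeries_differentiableOn _).mono fun s hs => ?_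
      have hs' : (1 : ℝ) < s.re := hs
      exact lt_of_le_of_lt hab (by exact_mod_cast hs')
    set f1 : ℂ → ℂ := fun s => Λ s * ∏ j, (Gammaℝ (s + ν j + a))⁻¹ with hf1
    set f2 : ℂ → ℂ := fun s => ((q : ℂ) ^ n) ^ (s / 2) * L s with hf2
    have hf1d : AnalyticOnNhd ℂ f1 U := by
      refine DifferentiableOn.analyticOnNhd (Differentiable.differentiableOn ?_) hUo
      refine hΛd.mul ?_
      refine Differentiable.fun_finsetProd fun j _ => ?_
      intro s
      have h1 : DifferentiableAt ℂ (fun z : ℂ => z + ν j + (a : ℂ)) s := by fun_prop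
      exact DifferentiableAt.comp (g := fun z : ℂ => (Gammaℝ z)⁻¹) s
        (differentiable_Gammaℝ_inv (s + ν j + a)) h1
    have hf2d : AnalyticOnNhd ℂ f2 U := by
      refine DifferentiableOn.analyticOnNhd ?_ hUo
      refine DifferentiableOn.mul (Differentiable.differentiableOn ?_) hLd
      intro s
      exact (differentiableAt_id.div_const 2).const_cpow (Or.inl (pow_ne_zero n hqC))
    -- agreement for large real part
    set R : ℝ := 1 + |σ₀| + ∑ j, |(ν j).re| with hR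
    have hR1 : 1 ≤ R := by
      have h1 := abs_nonneg σ₀
      have h2 : 0 ≤ ∑ j, |(ν j).re| := Finset.sum_nonneg fun _ _ => abs_nonneg _
      linarith
    have hn1 : (1 : ℝ) ≤ n := by exact_mod_cast hn
    have hagree : ∀ s : ℂ, R < s.re → f1 s = f2 s := by
      intro s hs
      have hw : σ₀ < (s + (n - 1) / 2).re := by
        have e1 : (s + ((n : ℂ) - 1) / 2).re = s.re + (n - 1) / 2 := by
          have : (s + ((n : ℂ) - 1) / 2) = s + (((n : ℝ) - 1) / 2 : ℝ) := by push_cast; rfl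
          rw [this, Complex.add_re, Complex.ofReal_re]
        rw [e1]
        have h1 := le_abs_self σ₀
        have h2 : 0 ≤ ∑ j, |(ν j).re| := Finset.sum_nonneg fun _ _ => abs_nonneg _
        have h3 : 0 ≤ ((n : ℝ) - 1) / 2 := by linarith
        linarith
      obtain ⟨_, hmel2⟩ := hmel q hq χ (s + (n - 1) / 2) hw
      have hm1 : mellin J (n * (s + (n - 1) / 2)) =
          κ * (∏ i, Gammaℝ (s + ν i + a)) * L s * nrm φ := by
        have e1 : mellin J (n * (s + (n - 1) / 2)) = ∫ t in Set.Ioi (0 : ℝ),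
            JJ φ χ (aa e (par χ)) t * (t : ℂ) ^ ((n : ℂ) * (s + (n - 1) / 2) - 1) := by
          unfold mellin
          refine setIntegral_congr_fun measurableSet_Ioi fun t _ => ?_
          simp only [smul_eq_mul]
          rw [mul_comm]
        rw [e1, hmel2]
        have e2 : ∀ i, s + (n - 1) / 2 + (aa e (par χ) : ℂ) - (n - 1) / 2 + ν i = s + ν i + a := by
          intro i
          rw [ha]
          ring
        have e3 : (s + (n - 1) / 2 - (n - 1) / 2 : ℂ) = s := by ring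
        simp_rw [e2]
        rw [e3]
      have hG : ∀ i, Gammaℝ (s + ν i + a) ≠ 0 := by
        intro i
        refine Gammaℝ_ne_zero_of_re_pos ?_
        rw [Complex.add_re, Complex.add_re, Complex.natCast_re]
        have h1 : |(ν i).re| ≤ ∑ j, |(ν j).re| :=
          Finset.single_le_sum (f := fun j => |(ν j).re|) (fun _ _ => abs_nonneg _)
            (Finset.mem_univ i)
        have h2 := neg_abs_le (ν i).re
        have h3 := abs_nonneg σ₀
        have h4 : (0 : ℝ) ≤ a := Nat.cast_nonneg _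
        linarith
      have hP : (∏ i, Gammaℝ (s + ν i + a)) * ∏ i, (Gammaℝ (s + ν i + a))⁻¹ = 1 := by
        rw [← Finset.prod_mul_distrib]
        exact Finset.prod_eq_one fun i _ => mul_inv_cancel₀ (hG i)
      rw [hf1, hf2, hΛ]
      simp only
      rw [hm1]
      calc ((q : ℂ) ^ n) ^ (s / 2) * (κ * (∏ i, Gammaℝ (s + ν i + a)) * L s * nrm φ) /
            (κ * nrm φ) * ∏ j, (Gammaℝ (s + ν j + a))⁻¹
          = ((q : ℂ) ^ n) ^ (s / 2) * L s * ((κ * nrm φ) / (κ * nrm φ)) *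
            ((∏ i, Gammaℝ (s + ν i + a)) * ∏ i, (Gammaℝ (s + ν i + a))⁻¹) := by ring
        _ = _ := by rw [hP, div_self (mul_ne_zero hκ0 hnrm0), mul_one, mul_one]
    have hz0 : ((R + 1 : ℝ) : ℂ) ∈ U := by
      show 1 < ((R + 1 : ℝ) : ℂ).re
      rw [Complex.ofReal_re]
      linarith
    have hev : f1 =ᶠ[𝓝 ((R + 1 : ℝ) : ℂ)] f2 := by
      have hopen : IsOpen {s : ℂ | R < s.re} := isOpen_lt continuous_const Complex.continuous_re
      refine Filter.eventually_of_mem (hopen.mem_nhds ?_) fun s hs => hagree s hs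
      show R < ((R + 1 : ℝ) : ℂ).re
      rw [Complex.ofReal_re]
      linarith
    intro s hs
    exact hf1d.eqOn_of_preconnected_of_eventuallyEq hf2d hUc hz0 hev hs

alias gj_fe := gj_fe_pr

end Pool.Agent.GJ
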