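import Pool.Agent.Lib_helper19.GJ.Defs

set_option autoImplicit false

namespace Pool.Agent.GJ

open Complex MeasureTheory Filter Topology Matrix
open Pool.Agent.G4 (par RSB)
open Pool.Agent.RS (Mt SLZ toR lm Xs wG cut cube)
open scoped ENNReal

theorem hr_mem {n m : ℕ} (hm : 0 < m) (A : Fin n → Fin n → ℕ) :
    A ∈ hnf n m ↔ (∀ i j, j < i → A i j = 0) ∧ (∀ i j, i < j → A i j < A i i) ∧
      ∏ i, A i i = m := by
  rw [hnf, Finset.mem_filter]
  constructor
  · exact fun h => h.2
  · rintro ⟨h1, h2, h3⟩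
    refine ⟨?_, h1, h2, h3⟩
    have hd : ∀ i, A i i ≤ m := fun i => by
      refine Nat.le_of_dvd hm ?_
      rw [← h3]
      exact Finset.dvd_prod_of_mem (fun i => A i i) (Finset.mem_univ i)
    rw [Fintype.mem_piFinset]
    intro i
    rw [Fintype.mem_piFinset]
    intro j
    rw [Finset.mem_range]
    rcases lt_trichotomy i j with h | h | h
    · have := h2 i j h; have := hd i; omega
    · subst h; have := hd i; omega
    · rw [h1 i j h]; omega

theorem hr_cc {r : ℕ} (A : Fin r → Fin r → ℕ) (b : Fin r → ℕ) (d : ℕ) (i j : Fin r) :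
    blk A b d i.castSucc j.castSucc = A i j := by
  simp [blk]

theorem hr_cl {r : ℕ} (A : Fin r → Fin r → ℕ) (b : Fin r → ℕ) (d : ℕ) (i : Fin r) :
    blk A b d i.castSucc (Fin.last r) = b i := by
  simp [blk]

theorem hr_lc {r : ℕ} (A : Fin r → Fin r → ℕ) (b : Fin r → ℕ) (d : ℕ) (j : Fin r) :
    blk A b d (Fin.last r) j.castSucc = 0 := by
  simp [blk]

theorem hr_ll {r : ℕ} (A : Fin r → Fin r → ℕ) (b : Fin r → ℕ) (d : ℕ) :
    blk A b d (Fin.last r) (Fin.last r) = d := by
  simp [blk]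

theorem hr_blk_mem {r k d : ℕ} (hk : 0 < k) (hd : d ∈ k.divisors) {A : Fin r → Fin r → ℕ}
    (hA : A ∈ hnf r (k / d)) {b : Fin r → ℕ}
    (hb : b ∈ Fintype.piFinset (fun i => Finset.range (A i i))) :
    blk A b d ∈ hnf (r + 1) k := by
  have hdk := Nat.dvd_of_mem_divisors hd
  have hd0 : 0 < d := Nat.pos_of_dvd_of_pos hdk hk
  have hkd : 0 < k / d := Nat.div_pos (Nat.le_of_dvd hk hdk) hd0
  obtain ⟨h1, h2, h3⟩ := (hr_mem hkd A).1 hA
  rw [hr_mem hk]
  refine ⟨?_, ?_, ?_⟩
  · intro i j hij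
    induction i using Fin.lastCases with
    | last =>
      induction j using Fin.lastCases with
      | last => exact absurd hij (lt_irrefl _)
      | cast j => exact hr_lc A b d j
    | cast i =>
      induction j using Fin.lastCases with
      | last => exact absurd hij (not_lt.2 (Fin.le_last _))
      | cast j => rw [hr_cc]; exact h1 i j (by simpa using hij)
  · intro i j hij
    induction i using Fin.lastCases with
    | last => exact absurd hij (not_lt.2 (Fin.le_last _))
    | cast i =>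
      rw [hr_cc A b d i i]
      induction j using Fin.lastCases with
      | last =>
        rw [hr_cl]
        exact Finset.mem_range.1 (Fintype.mem_piFinset.1 hb i)
      | cast j => rw [hr_cc]; exact h2 i j (by simpa using hij)
  · rw [Fin.prod_univ_castSucc, hr_ll]
    simp only [hr_cc]
    rw [h3, Nat.div_mul_cancel hdk]

/-- HR -/
theorem hnf_rec_pr {M : Type} [AddCommMonoid M] (r k : ℕ) (hk : 0 < k)
    (f : (Fin (r + 1) → Fin (r + 1) → ℕ) → M) :
    ∑ A ∈ hnf (r + 1) k, f A = ∑ d ∈ k.divisors, ∑ A ∈ hnf r (k / d),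
      ∑ b ∈ Fintype.piFinset (fun i => Finset.range (A i i)), f (blk A b d) := by
  have h1 : ∑ d ∈ k.divisors, ∑ A ∈ hnf r (k / d),
      ∑ b ∈ Fintype.piFinset (fun i => Finset.range (A i i)), f (blk A b d) =
      ∑ x ∈ k.divisors.sigma (fun d => (hnf r (k / d)).sigma
        (fun A => Fintype.piFinset (fun i => Finset.range (A i i)))),
        f (blk x.2.1 x.2.2 x.1) := by
    rw [Finset.sum_sigma]
    refine Finset.sum_congr rfl fun d _ => ?_
    rw [Finset.sum_sigma]
  rw [h1]
  symm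
  refine Finset.sum_nbij' (fun x => blk x.2.1 x.2.2 x.1)
    (fun A => ⟨A (Fin.last r) (Fin.last r), ⟨fun i j => A i.castSucc j.castSucc,
      fun i => A i.castSucc (Fin.last r)⟩⟩) ?_ ?_ ?_ ?_ ?_
  · rintro ⟨d, A, b⟩ hx
    rw [Finset.mem_sigma, Finset.mem_sigma] at hx
    exact hr_blk_mem hk hx.1 hx.2.1 hx.2.2
  · intro A hA
    obtain ⟨h1, h2, h3⟩ := (hr_mem hk A).1 hA
    rw [Fin.prod_univ_castSucc] at h3
    have hdk : A (Fin.last r) (Fin.last r) ∣ k := ⟨_, by rw [← h3, mul_comm]⟩
    have hd0 : 0 < A (Fin.last r) (Fin.last r) := Nat.pos_of_dvd_of_pos hdk hk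
    have hkd : 0 < k / A (Fin.last r) (Fin.last r) := Nat.div_pos (Nat.le_of_dvd hk hdk) hd0
    rw [Finset.mem_sigma, Finset.mem_sigma]
    refine ⟨Nat.mem_divisors.2 ⟨hdk, hk.ne'⟩, ?_, ?_⟩
    · rw [hr_mem hkd]
      refine ⟨fun i j hij => h1 _ _ (by simpa using hij), fun i j hij => h2 _ _ (by simpa using hij),
        ?_⟩
      simp only
      rw [← h3, Nat.mul_div_cancel _ hd0]
    · rw [Fintype.mem_piFinset]
      intro i
      rw [Finset.mem_range]
      exact h2 _ _ (Fin.castSucc_lt_last i)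
  · rintro ⟨d, A, b⟩ _
    simp only [hr_ll, hr_cc, hr_cl]
  · intro A hA
    obtain ⟨h1, _, _⟩ := (hr_mem hk A).1 hA
    funext i j
    simp only
    induction i using Fin.lastCases with
    | last =>
      induction j using Fin.lastCases with
      | last => rw [hr_ll]
      | cast j => rw [hr_lc]; exact (h1 _ _ (Fin.castSucc_lt_last j)).symm
    | cast i =>
      induction j using Fin.lastCases with
      | last => rw [hr_cl]
      | cast j => rw [hr_cc]
  · rintro ⟨d, A, b⟩ _
    rfl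

alias hnf_rec := hnf_rec_pr

end Pool.Agent.GJ
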