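import Pool.Agent.Lib_helper19.GJ.Defs

set_option autoImplicit false

namespace Pool.Agent.GJ

open Complex MeasureTheory Filter Topology Matrix
open Pool.Agent.G4 (par RSB)
open Pool.Agent.RS (Mt SLZ toR lm Xs wG cut cube)
open scoped ENNReal

/-! ### representatives of `ℤ^r / A ℤ^r` -/

theorem TO_rep_exists {r : ℕ} {A : Fin r → Fin r → ℕ} (h0 : ∀ i j, j < i → A i j = 0)
    (hd : ∀ i, 0 < A i i) (n : Fin r → ℤ) : ∃ c : Fin r → ℤ, ∀ i,
      0 ≤ n i - ∑ j, (A i j : ℤ) * c j ∧ n i - ∑ j, (A i j : ℤ) * c j < A i i := by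
  have key : ∀ s : ℕ, ∃ c : Fin r → ℤ, ∀ i : Fin r, r ≤ (i : ℕ) + s →
      0 ≤ n i - ∑ j, (A i j : ℤ) * c j ∧ n i - ∑ j, (A i j : ℤ) * c j < A i i := by
    intro s
    induction s with
    | zero =>
      refine ⟨0, fun i hi => ?_⟩
      have := i.isLt
      omega
    | succ s ih =>
      obtain ⟨c, hc⟩ := ih
      by_cases hs : s + 1 ≤ r
      · set i0 : Fin r := ⟨r - (s + 1), by omega⟩ with hi0
        set m := n i0 - ∑ j, (A i0 j : ℤ) * c j with hm
        set t := m / (A i0 i0 : ℤ) with ht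
        have hpos : (0 : ℤ) < A i0 i0 := by exact_mod_cast hd i0
        have hsum : ∀ i : Fin r, ∑ j, (A i j : ℤ) * (Function.update c i0 (c i0 + t)) j =
            ∑ j, (A i j : ℤ) * c j + (A i i0 : ℤ) * t := by
          intro i
          have h1 : ∀ j, (A i j : ℤ) * (Function.update c i0 (c i0 + t)) j =
              (A i j : ℤ) * c j + (if j = i0 then (A i i0 : ℤ) * t else 0) := by
            intro j
            by_cases hj : j = i0
            · subst hj
              rw [Function.update_self, if_pos rfl]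
              ring
            · rw [Function.update_of_ne hj, if_neg hj, add_zero]
          rw [Finset.sum_congr rfl (fun j _ => h1 j), Finset.sum_add_distrib,
            Finset.sum_ite_eq' Finset.univ i0, if_pos (Finset.mem_univ _)]
        refine ⟨Function.update c i0 (c i0 + t), fun i hi => ?_⟩
        rw [hsum]
        by_cases hii : i = i0
        · rw [hii]
          have e : n i0 - (∑ j, (A i0 j : ℤ) * c j + (A i0 i0 : ℤ) * t) = m % (A i0 i0 : ℤ) := by
            have h9 := Int.emod_add_mul_ediv m (A i0 i0 : ℤ)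
            rw [← ht] at h9
            linarith
          rw [e]
          exact ⟨Int.emod_nonneg _ hpos.ne', Int.emod_lt_of_pos _ hpos⟩
        · have hlt : i0 < i := by
            have h1 : (i : ℕ) ≠ (i0 : ℕ) := fun h => hii (Fin.ext h)
            have h2 : (i0 : ℕ) = r - (s + 1) := rfl
            rw [Fin.lt_def]
            omega
          rw [h0 i i0 hlt]
          have h3 : r ≤ (i : ℕ) + s := by
            have h2 : (i0 : ℕ) = r - (s + 1) := rfl
            have := Fin.lt_def.mp hlt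
            omega
          have := hc i h3
          simpa using this
      · refine ⟨c, fun i _ => hc i (by omega)⟩
  obtain ⟨c, hc⟩ := key r
  exact ⟨c, fun i => hc i (by omega)⟩

theorem TO_rep_unique {r : ℕ} {A : Fin r → Fin r → ℕ} (h0 : ∀ i j, j < i → A i j = 0)
    {c c' : Fin r → ℤ} {b b' : Fin r → ℕ} (hb : ∀ i, b i < A i i)
    (hb' : ∀ i, b' i < A i i)
    (h : ∀ i, ∑ j, (A i j : ℤ) * c j + b i = ∑ j, (A i j : ℤ) * c' j + b' i) :
    c = c' ∧ b = b' := by
  have hc : c = c' := by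
    by_contra hne
    have hS : (Finset.univ.filter (fun i => c i ≠ c' i)).Nonempty := by
      obtain ⟨i, hi⟩ := Function.ne_iff.mp hne
      exact ⟨i, Finset.mem_filter.mpr ⟨Finset.mem_univ _, hi⟩⟩
    set i0 := (Finset.univ.filter (fun i => c i ≠ c' i)).max' hS with hi0
    have hi0m := (Finset.mem_filter.mp (Finset.max'_mem _ hS)).2
    rw [← hi0] at hi0m
    have hbig : ∀ j, i0 < j → c j = c' j := by
      intro j hj
      by_contra hcj
      have := Finset.le_max' (Finset.univ.filter (fun i => c i ≠ c' i)) j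
        (Finset.mem_filter.mpr ⟨Finset.mem_univ _, hcj⟩)
      exact absurd hj (not_lt.mpr this)
    have h1 := h i0
    have h2 : ∑ j, (A i0 j : ℤ) * c j - ∑ j, (A i0 j : ℤ) * c' j =
        (A i0 i0 : ℤ) * (c i0 - c' i0) := by
      rw [← Finset.sum_sub_distrib, Finset.sum_eq_single i0]
      · ring
      · intro j _ hj
        rcases lt_or_gt_of_ne hj with hlt | hlt
        · rw [h0 i0 j hlt]; simp
        · rw [hbig j hlt]; ring
      · intro hn; exact absurd (Finset.mem_univ _) hn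
    have h3 : (A i0 i0 : ℤ) * (c i0 - c' i0) = b' i0 - b i0 := by linarith
    have h4 : (b i0 : ℤ) < A i0 i0 := by exact_mod_cast hb i0
    have h5 : (b' i0 : ℤ) < A i0 i0 := by exact_mod_cast hb' i0
    have h6 : (0 : ℤ) ≤ b i0 := Int.natCast_nonneg _
    have h7 : (0 : ℤ) ≤ b' i0 := Int.natCast_nonneg _
    rcases lt_or_gt_of_ne (sub_ne_zero.mpr hi0m) with hlt | hlt
    · have : c i0 - c' i0 ≤ -1 := by omega
      nlinarith
    · have : 1 ≤ c i0 - c' i0 := by omega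
      nlinarith
  refine ⟨hc, ?_⟩
  subst hc
  funext i
  have := h i
  have h1 : (b i : ℤ) = b' i := by linarith
  exact_mod_cast h1

section
variable {r k : ℕ} {A : Fin r → Fin r → ℕ}

theorem TO_hnf (hk : 0 < k) (hA : A ∈ hnf r k) : (∀ i j, j < i → A i j = 0) ∧ (∀ i, 0 < A i i) ∧
    ∏ i, A i i = k := by
  have h := (Finset.mem_filter.mp hA).2
  refine ⟨h.1, ?_, h.2.2⟩
  intro i
  rcases Nat.eq_zero_or_pos (A i i) with h1 | h1
  · exfalso
    have : ∏ i, A i i = 0 := Finset.prod_eq_zero (Finset.mem_univ i) h1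
    omega
  · exact h1

theorem TO_det (hk : 0 < k) (hA : A ∈ hnf r k) : (natM A).det = k := by
  obtain ⟨h0, -, hp⟩ := TO_hnf hk hA
  rw [Matrix.det_of_isUpperTriangular]
  · rw [← hp]
    push_cast
    rfl
  · intro i j hij
    simp only [natM, Matrix.of_apply]
    rw [h0 i j hij]
    simp

theorem TO_mulVec (c : Fin r → ℤ) : (natM A *ᵥ fun i => (c i : ℝ)) =
    fun i => ((∑ j, (A i j : ℤ) * c j : ℤ) : ℝ) := by
  funext i
  simp [natM, Matrix.mulVec, dotProduct]

theorem TO_inv (hk : 0 < k) (hA : A ∈ hnf r k) :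
    (natM A)⁻¹ * natM A = 1 ∧ natM A * (natM A)⁻¹ = 1 := by
  have hu : IsUnit (natM A).det := by
    rw [TO_det hk hA]
    exact isUnit_iff_ne_zero.mpr (by exact_mod_cast hk.ne')
  exact ⟨Matrix.nonsing_inv_mul _ hu, Matrix.mul_nonsing_inv _ hu⟩

/-- the lattice `A ℤ^r` -/
def TO_L (A : Fin r → Fin r → ℕ) : AddSubgroup (Fin r → ℝ) where
  carrier := {x | ∃ c : Fin r → ℤ, x = natM A *ᵥ fun i => (c i : ℝ)}
  add_mem' := by
    rintro _ _ ⟨c, rfl⟩ ⟨d, rfl⟩
    refine ⟨c + d, ?_⟩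
    rw [← Matrix.mulVec_add]
    congr 1
    ext i
    simp
  zero_mem' := ⟨0, by
    have : (fun i => (((0 : Fin r → ℤ) i : ℤ) : ℝ)) = 0 := by ext i; simp
    rw [this, Matrix.mulVec_zero]⟩
  neg_mem' := by
    rintro _ ⟨c, rfl⟩
    refine ⟨-c, ?_⟩
    rw [← Matrix.mulVec_neg]
    congr 1
    ext i
    simp

instance TO_countable : Countable (TO_L A) := by
  have : Function.Surjective (fun c : Fin r → ℤ =>
      (⟨natM A *ᵥ fun i => (c i : ℝ), ⟨c, rfl⟩⟩ : TO_L A)) := by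
    rintro ⟨_, c, rfl⟩
    exact ⟨c, rfl⟩
  exact this.countable

theorem TO_meas (P : Matrix (Fin r) (Fin r) ℝ) : Measurable fun u : Fin r → ℝ => P *ᵥ u := by
  have : Continuous fun u : Fin r → ℝ => P *ᵥ u := continuous_const.matrix_mulVec continuous_id
  exact this.measurable

/-- the first fundamental domain -/
def TO_D1 (A : Fin r → Fin r → ℕ) : Set (Fin r → ℝ) := {u | (natM A)⁻¹ *ᵥ u ∈ cube r}

theorem TO_fd1 (hk : 0 < k) (hA : A ∈ hnf r k) :
    IsAddFundamentalDomain (TO_L A) (TO_D1 A) volume := by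
  refine IsAddFundamentalDomain.mk'
    ((TO_meas (natM A)⁻¹) (RS.measurableSet_cube r)).nullMeasurableSet (fun x => ?_)
  obtain ⟨hi1, hi2⟩ := TO_inv hk hA
  obtain ⟨⟨_, c, rfl⟩, hg, huniq⟩ := RS.exists_unique_latt ((natM A)⁻¹ *ᵥ x)
  refine ⟨⟨natM A *ᵥ fun i => (c i : ℝ), ⟨c, rfl⟩⟩, ?_, ?_⟩
  · show (natM A)⁻¹ *ᵥ (_ + x) ∈ cube r
    rw [Matrix.mulVec_add, Matrix.mulVec_mulVec, hi1, Matrix.one_mulVec]
    exact hg
  · rintro ⟨_, d, rfl⟩ hd
    have hd' : (natM A)⁻¹ *ᵥ ((natM A *ᵥ fun i => (d i : ℝ)) + x) ∈ cube r := hd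
    rw [Matrix.mulVec_add, Matrix.mulVec_mulVec, hi1, Matrix.one_mulVec] at hd'
    have h1 := huniq ⟨fun i => (d i : ℝ), ⟨d, rfl⟩⟩ hd'
    have h2 : (fun i => (d i : ℝ)) = fun i => (c i : ℝ) := congrArg Subtype.val h1
    apply Subtype.ext
    show (natM A *ᵥ fun i => (d i : ℝ)) = natM A *ᵥ fun i => (c i : ℝ)
    rw [h2]

/-- the box of representatives -/
def TO_B (A : Fin r → Fin r → ℕ) : Finset (Fin r → ℕ) :=
  Fintype.piFinset (fun i => Finset.range (A i i))

theorem TO_mem_B {b : Fin r → ℕ} : b ∈ TO_B A ↔ ∀ i, b i < A i i := by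
  simp [TO_B, Fintype.mem_piFinset]

/-- the translated cube -/
def TO_C (b : Fin r → ℕ) : Set (Fin r → ℝ) := {u | (u + fun i => (b i : ℝ)) ∈ cube r}

theorem TO_C_meas (b : Fin r → ℕ) : MeasurableSet (TO_C b) :=
  (measurable_add_const (fun i => (b i : ℝ))) (RS.measurableSet_cube r)

/-- the second fundamental domain -/
def TO_D2 (A : Fin r → Fin r → ℕ) : Set (Fin r → ℝ) := ⋃ b ∈ TO_B A, TO_C b

theorem TO_floor {x : Fin r → ℝ} {n : Fin r → ℤ} (h : ((fun i => (n i : ℝ)) + x) ∈ cube r) (i : Fin r) :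
    n i = -⌊x i⌋ := by
  have h1 := h i (Set.mem_univ i)
  simp only [Pi.add_apply, Set.mem_Ico] at h1
  have h2 : ⌊x i⌋ = -n i := by
    rw [Int.floor_eq_iff]
    push_cast
    constructor <;> linarith
  omega

theorem TO_fd2 (hk : 0 < k) (hA : A ∈ hnf r k) :
    IsAddFundamentalDomain (TO_L A) (TO_D2 A) volume := by
  obtain ⟨h0, hd, -⟩ := TO_hnf hk hA
  refine IsAddFundamentalDomain.mk'
    (Finset.measurableSet_biUnion _ (fun b _ => TO_C_meas b)).nullMeasurableSet (fun x => ?_)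
  set n : Fin r → ℤ := fun i => -⌊x i⌋ with hn
  obtain ⟨c, hc⟩ := TO_rep_exists h0 hd n
  set b : Fin r → ℕ := fun i => (n i - ∑ j, (A i j : ℤ) * c j).toNat with hb
  have hbc : ∀ i, (b i : ℤ) = n i - ∑ j, (A i j : ℤ) * c j := fun i => Int.toNat_of_nonneg (hc i).1
  have hbB : b ∈ TO_B A := by
    rw [TO_mem_B]
    intro i
    have := (hc i).2
    rw [← hbc] at this
    exact_mod_cast this
  refine ⟨⟨natM A *ᵥ fun i => (c i : ℝ), ⟨c, rfl⟩⟩, ?_, ?_⟩
  · show (natM A *ᵥ fun i => (c i : ℝ)) + x ∈ TO_D2 A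
    simp only [TO_D2, Set.mem_iUnion]
    refine ⟨b, hbB, ?_⟩
    show ((natM A *ᵥ fun i => (c i : ℝ)) + x + fun i => (b i : ℝ)) ∈ cube r
    rw [TO_mulVec]
    intro i _
    simp only [Pi.add_apply, Set.mem_Ico]
    have h1 : ((b i : ℕ) : ℝ) = ((n i - ∑ j, (A i j : ℤ) * c j : ℤ) : ℝ) := by
      rw [← hbc]; push_cast; rfl
    rw [h1]
    have h2 : (n i : ℝ) = -(⌊x i⌋ : ℝ) := by rw [hn]; push_cast; rfl
    push_cast
    rw [h2]
    constructor
    · linarith [Int.floor_le (x i)]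
    · linarith [Int.lt_floor_add_one (x i)]
  · rintro ⟨_, c', rfl⟩ hd'
    have hd2 : (natM A *ᵥ fun i => (c' i : ℝ)) + x ∈ TO_D2 A := hd'
    simp only [TO_D2, Set.mem_iUnion] at hd2
    obtain ⟨b', hb', hd3⟩ := hd2
    have hd4 : ((natM A *ᵥ fun i => (c' i : ℝ)) + x + fun i => (b' i : ℝ)) ∈ cube r := hd3
    rw [TO_mulVec] at hd4
    have hd5 : ((fun i => ((∑ j, (A i j : ℤ) * c' j + b' i : ℤ) : ℝ)) + x) ∈ cube r := by
      have e : ((fun i => ((∑ j, (A i j : ℤ) * c' j + b' i : ℤ) : ℝ)) + x) =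
          ((fun i => ((∑ j, (A i j : ℤ) * c' j : ℤ) : ℝ)) + x + fun i => (b' i : ℝ)) := by
        funext i
        simp only [Pi.add_apply]
        push_cast
        ring
      rw [e]
      exact hd4
    have h1 := TO_floor hd5
    have h2 : c = c' := by
      refine (TO_rep_unique h0 (TO_mem_B.mp hbB) (TO_mem_B.mp hb') (fun i => ?_)).1
      rw [h1 i, hbc i, hn]
      ring
    apply Subtype.ext
    show (natM A *ᵥ fun i => (c' i : ℝ)) = natM A *ᵥ fun i => (c i : ℝ)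
    rw [h2]

/-- the integrand -/
noncomputable def TO_G (A : Fin r → Fin r → ℕ) (F : (Fin r → ℝ) → ℂ) (v : Fin r → ℤ)
    (u : Fin r → ℝ) : ℂ := F ((natM A)⁻¹ *ᵥ u) * RS.ee (-(∑ i, (v i : ℝ) * u i))

theorem TO_G_meas {F : (Fin r → ℝ) → ℂ} (hF : Measurable F) (v : Fin r → ℤ) :
    Measurable (TO_G A F v) := by
  refine (hF.comp (TO_meas _)).mul ?_
  exact (RS.continuous_ee.comp (by fun_prop)).measurable

theorem TO_G_bd {F : (Fin r → ℝ) → ℂ} {M : ℝ} (hM : ∀ x, ‖F x‖ ≤ M) (v : Fin r → ℤ)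
    (u : Fin r → ℝ) : ‖TO_G A F v u‖ ≤ M := by
  unfold TO_G
  rw [norm_mul, RS.norm_ee, mul_one]
  exact hM _

theorem TO_ee_int (x : ℝ) (n : ℤ) : RS.ee (-(x + n)) = RS.ee (-x) := by
  have : -(x + n) = -x + ((-n : ℤ) : ℝ) := by push_cast; ring
  rw [this, RS.ee_add_int]

theorem TO_G_inv (hk : 0 < k) (hA : A ∈ hnf r k) {F : (Fin r → ℝ) → ℂ}
    (hp : ∀ (c : Fin r → ℤ) (x : Fin r → ℝ), F (x + fun i => (c i : ℝ)) = F x)
    (v : Fin r → ℤ) (c : Fin r → ℤ) (u : Fin r → ℝ) :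
    TO_G A F v ((natM A *ᵥ fun i => (c i : ℝ)) + u) = TO_G A F v u := by
  obtain ⟨hi1, -⟩ := TO_inv hk hA
  unfold TO_G
  rw [Matrix.mulVec_add, Matrix.mulVec_mulVec, hi1, Matrix.one_mulVec, add_comm
    (fun i => (c i : ℝ)), hp]
  congr 1
  rw [TO_mulVec]
  have e : ∑ i, (v i : ℝ) * ((fun i => ((∑ j, (A i j : ℤ) * c j : ℤ) : ℝ)) + u) i =
      ∑ i, (v i : ℝ) * u i + ((∑ i, v i * ∑ j, (A i j : ℤ) * c j : ℤ) : ℝ) := by
    push_cast
    rw [← Finset.sum_add_distrib]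
    apply Finset.sum_congr rfl
    intro i _
    simp only [Pi.add_apply]
    ring
  rw [e, TO_ee_int]

theorem TO_C_vol (b : Fin r → ℕ) : volume (TO_C b) < ⊤ := by
  have h1 : volume (TO_C b) = volume (cube r) := by
    have h2 := (measurePreserving_add_right (volume : Measure (Fin r → ℝ)) (fun i => (b i : ℝ))).measure_preimage
      (RS.measurableSet_cube r).nullMeasurableSet
    exact h2
  rw [h1, RS.volume_cube]
  exact ENNReal.one_lt_top

theorem TO_disj (hk : 0 < k) (hA : A ∈ hnf r k) :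
    (TO_B A : Set (Fin r → ℕ)).PairwiseDisjoint TO_C := by
  obtain ⟨h0, -, -⟩ := TO_hnf hk hA
  intro b hb b' hb' hne
  rw [Function.onFun, Set.disjoint_left]
  intro x hx hx'
  apply hne
  have h1 : ((fun i => (((b i : ℕ) : ℤ) : ℝ)) + x) ∈ cube r := by
    have : (x + fun i => (b i : ℝ)) ∈ cube r := hx
    rw [add_comm] at this
    simpa using this
  have h2 : ((fun i => (((b' i : ℕ) : ℤ) : ℝ)) + x) ∈ cube r := by
    have : (x + fun i => (b' i : ℝ)) ∈ cube r := hx'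
    rw [add_comm] at this
    simpa using this
  funext i
  have e1 := TO_floor h1 i
  have e2 := TO_floor h2 i
  have e3 : (b i : ℤ) = b' i := by rw [e1, e2]
  exact_mod_cast e3

/-- the linear change of variables -/
theorem TO_lin (hk : 0 < k) (hA : A ∈ hnf r k) {G : (Fin r → ℝ) → ℂ} :
    ∫ u in TO_D1 A, G u = k * ∫ w in cube r, G (natM A *ᵥ w) := by
  obtain ⟨hi1, hi2⟩ := TO_inv hk hA
  have hdet := TO_det hk hA
  have hk0 : (k : ℝ) ≠ 0 := by exact_mod_cast hk.ne'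
  have hk0' : (0 : ℝ) < k := by exact_mod_cast hk
  let e : (Fin r → ℝ) ≃ᵐ (Fin r → ℝ) :=
    { toFun := fun b => natM A *ᵥ b
      invFun := fun b => (natM A)⁻¹ *ᵥ b
      left_inv := fun b => by
        show (natM A)⁻¹ *ᵥ (natM A *ᵥ b) = b
        rw [Matrix.mulVec_mulVec, hi1, Matrix.one_mulVec]
      right_inv := fun b => by
        show natM A *ᵥ ((natM A)⁻¹ *ᵥ b) = b
        rw [Matrix.mulVec_mulVec, hi2, Matrix.one_mulVec]
      measurable_toFun := TO_meas _
      measurable_invFun := TO_meas _ }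
  have h1 := Real.map_matrix_volume_pi_eq_smul_volume_pi (M := natM A) (by rw [hdet]; exact hk0)
  have h2 : ⇑(Matrix.toLin' (natM A)) = ⇑e := by
    funext b
    show Matrix.toLin' (natM A) b = natM A *ᵥ b
    simp
  rw [h2, hdet] at h1
  have hpre : e ⁻¹' (TO_D1 A) = cube r := by
    ext w
    show (natM A)⁻¹ *ᵥ (natM A *ᵥ w) ∈ cube r ↔ w ∈ cube r
    rw [Matrix.mulVec_mulVec, hi1, Matrix.one_mulVec]
  have h3 := e.measurableEmbedding.setIntegral_map (μ := volume) G (TO_D1 A)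
  rw [h1, hpre, Measure.restrict_smul, integral_smul_measure] at h3
  have h4 : ∫ w in cube r, G (natM A *ᵥ w) = ∫ x in cube r, G (e x) := rfl
  rw [h4, ← h3]
  have h5 : (ENNReal.ofReal |((k : ℝ))⁻¹|).toReal = (k : ℝ)⁻¹ := by
    rw [ENNReal.toReal_ofReal (abs_nonneg _), abs_of_nonneg (by positivity)]
  rw [h5, Complex.real_smul]
  have hk1 : (k : ℂ) ≠ 0 := by exact_mod_cast hk.ne'
  push_cast
  field_simp

theorem TO_shift (b : Fin r → ℕ) (G : (Fin r → ℝ) → ℂ) :
    ∫ u in cube r, G (u - fun i => (b i : ℝ)) = ∫ u in TO_C b, G u := by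
  have h1 := (measurePreserving_add_right (volume : Measure (Fin r → ℝ)) (fun i => (b i : ℝ))).setIntegral_preimage_emb
    (MeasurableEquiv.addRight (fun i => (b i : ℝ))).measurableEmbedding
    (fun u => G (u - fun i => (b i : ℝ))) (cube r)
  rw [← h1]
  have e : (fun x : Fin r → ℝ => x + fun i => (b i : ℝ)) ⁻¹' (cube r) = TO_C b := rfl
  rw [e]
  congr 1
  funext u
  rw [add_sub_cancel_right]

theorem tor_eq_pr {r k : ℕ} (hk : 0 < k) {A : Fin r → Fin r → ℕ} (hA : A ∈ hnf r k)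
    {F : (Fin r → ℝ) → ℂ} (hF : Measurable F) {M : ℝ} (hM : ∀ x, ‖F x‖ ≤ M)
    (hp : ∀ (c : Fin r → ℤ) (x : Fin r → ℝ), F (x + fun i => (c i : ℝ)) = F x)
    (v : Fin r → ℤ) :
    ∑ b ∈ Fintype.piFinset (fun i => Finset.range (A i i)),
      ∫ u in cube r, F ((natM A)⁻¹ *ᵥ (u - fun i => (b i : ℝ))) * RS.ee (-(∑ i, (v i : ℝ) * u i)) =
    k * ∫ w in cube r, F w * RS.ee (-(∑ i, ((v ᵥ* natZ A) i : ℝ) * w i)) := by
  obtain ⟨hi1, -⟩ := TO_inv hk hA
  have h1 : ∀ b : Fin r → ℕ, ∫ u in cube r, F ((natM A)⁻¹ *ᵥ (u - fun i => (b i : ℝ))) *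
      RS.ee (-(∑ i, (v i : ℝ) * u i)) = ∫ u in TO_C b, TO_G A F v u := by
    intro b
    rw [← TO_shift b (TO_G A F v)]
    congr 1
    funext u
    unfold TO_G
    congr 1
    have e : ∑ i, (v i : ℝ) * u i = ∑ i, (v i : ℝ) * (u - fun i => (b i : ℝ)) i +
        ((∑ i, v i * b i : ℤ) : ℝ) := by
      push_cast
      rw [← Finset.sum_add_distrib]
      apply Finset.sum_congr rfl
      intro i _
      simp only [Pi.sub_apply]
      ring
    rw [e, TO_ee_int]
  have h2 : ∑ b ∈ TO_B A, ∫ u in TO_C b, TO_G A F v u = ∫ u in TO_D2 A, TO_G A F v u := by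
    symm
    refine integral_biUnion_finset (TO_B A) (fun b _ => TO_C_meas b) (TO_disj hk hA) ?_
    intro b _
    have : IsFiniteMeasure (volume.restrict (TO_C b)) :=
      ⟨by rw [Measure.restrict_apply_univ]; exact TO_C_vol b⟩
    exact Integrable.of_bound (TO_G_meas hF v).aestronglyMeasurable M
      (Eventually.of_forall (fun u => TO_G_bd hM v u))
  have h3 : ∫ u in TO_D2 A, TO_G A F v u = ∫ u in TO_D1 A, TO_G A F v u := by
    refine (TO_fd2 hk hA).setIntegral_eq (TO_fd1 hk hA) ?_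
    rintro ⟨_, c, rfl⟩ x
    exact TO_G_inv hk hA hp v c x
  have h4 : ∀ w, TO_G A F v (natM A *ᵥ w) =
      F w * RS.ee (-(∑ i, ((v ᵥ* natZ A) i : ℝ) * w i)) := by
    intro w
    unfold TO_G
    rw [Matrix.mulVec_mulVec, hi1, Matrix.one_mulVec]
    congr 3
    simp only [Matrix.mulVec, Matrix.vecMul, dotProduct, natM, natZ, Matrix.of_apply]
    push_cast
    simp only [Finset.mul_sum, Finset.sum_mul]
    rw [Finset.sum_comm]
    apply Finset.sum_congr rfl
    intro i _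
    apply Finset.sum_congr rfl
    intro j _
    ring
  rw [Finset.sum_congr rfl (fun b _ => h1 b)]
  refine h2.trans (h3.trans ?_)
  rw [TO_lin hk hA]
  simp only [h4]

/-- representatives of shifted vectors -/
noncomputable def TO_rho (A : Fin r → Fin r → ℕ) (n : Fin r → ℤ) (b : Fin r → ℕ) : Fin r → ℕ :=
  open Classical in
  if h : ∃ (b' : Fin r → ℕ) (c : Fin r → ℤ), b' ∈ TO_B A ∧
    ∀ i, (b i : ℤ) - n i = ∑ j, (A i j : ℤ) * c j + b' i then h.choose else b

theorem TO_rho_spec (hk : 0 < k) (hA : A ∈ hnf r k) (n : Fin r → ℤ) (b : Fin r → ℕ) :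
    TO_rho A n b ∈ TO_B A ∧ ∃ c : Fin r → ℤ,
      ∀ i, (b i : ℤ) - n i = ∑ j, (A i j : ℤ) * c j + TO_rho A n b i := by
  obtain ⟨h0, hd, -⟩ := TO_hnf hk hA
  have h : ∃ (b' : Fin r → ℕ) (c : Fin r → ℤ), b' ∈ TO_B A ∧
      ∀ i, (b i : ℤ) - n i = ∑ j, (A i j : ℤ) * c j + b' i := by
    obtain ⟨c, hc⟩ := TO_rep_exists h0 hd (fun i => (b i : ℤ) - n i)
    refine ⟨fun i => ((b i : ℤ) - n i - ∑ j, (A i j : ℤ) * c j).toNat, c, ?_, ?_⟩
    · rw [TO_mem_B]
      intro i
      have h1 := (hc i).2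
      rw [← Int.toNat_of_nonneg (hc i).1] at h1
      exact_mod_cast h1
    · intro i
      rw [Int.toNat_of_nonneg (hc i).1]
      ring
  unfold TO_rho
  rw [dif_pos h]
  obtain ⟨c, h1, h2⟩ := h.choose_spec
  exact ⟨h1, c, h2⟩

theorem TO_rho_rho (hk : 0 < k) (hA : A ∈ hnf r k) (n : Fin r → ℤ) {b : Fin r → ℕ}
    (hb : b ∈ TO_B A) : TO_rho A (-n) (TO_rho A n b) = b := by
  obtain ⟨h0, hd, -⟩ := TO_hnf hk hA
  obtain ⟨h1, c, hc⟩ := TO_rho_spec hk hA n b
  obtain ⟨h2, c', hc'⟩ := TO_rho_spec hk hA (-n) (TO_rho A n b)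
  refine (TO_rep_unique (c := c' + c) (c' := 0) h0 (TO_mem_B.mp h2) (TO_mem_B.mp hb)
    (fun i => ?_)).2
  have a1 := hc i
  have a2 := hc' i
  simp only [Pi.neg_apply] at a2
  simp only [Pi.add_apply, Pi.zero_apply, mul_zero, Finset.sum_const_zero, zero_add, mul_add,
    Finset.sum_add_distrib]
  linarith

/-- the periodic sum -/
noncomputable def TO_H (A : Fin r → Fin r → ℕ) (F : (Fin r → ℝ) → ℂ) (x : Fin r → ℝ) : ℂ :=
  ∑ b ∈ TO_B A, F ((natM A)⁻¹ *ᵥ (x - fun i => (b i : ℝ)))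

theorem TO_H_per (hk : 0 < k) (hA : A ∈ hnf r k) {F : (Fin r → ℝ) → ℂ}
    (hp : ∀ (c : Fin r → ℤ) (x : Fin r → ℝ), F (x + fun i => (c i : ℝ)) = F x)
    (n : Fin r → ℤ) (x : Fin r → ℝ) : TO_H A F (x + fun i => (n i : ℝ)) = TO_H A F x := by
  obtain ⟨hi1, -⟩ := TO_inv hk hA
  unfold TO_H
  refine Finset.sum_nbij' (TO_rho A n) (TO_rho A (-n)) (fun b _ => (TO_rho_spec hk hA n b).1)
    (fun b _ => (TO_rho_spec hk hA (-n) b).1) (fun b hb => TO_rho_rho hk hA n hb) ?_ ?_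
  · intro b hb
    have := TO_rho_rho hk hA (-n) hb
    rwa [neg_neg] at this
  · intro b _
    obtain ⟨-, c, hc⟩ := TO_rho_spec hk hA n b
    have e : ((x + fun i => (n i : ℝ)) - fun i => (b i : ℝ)) =
        (x - fun i => (TO_rho A n b i : ℝ)) + natM A *ᵥ fun i => ((-c) i : ℝ) := by
      rw [TO_mulVec]
      funext i
      simp only [Pi.add_apply, Pi.sub_apply, Pi.neg_apply]
      have h1 : ((b i : ℕ) : ℝ) - (n i : ℝ) =
          ((∑ j, (A i j : ℤ) * c j : ℤ) : ℝ) + ((TO_rho A n b i : ℕ) : ℝ) := by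
        have := hc i
        exact_mod_cast congrArg (fun z : ℤ => (z : ℝ)) this
      have h2 : ((∑ j, (A i j : ℤ) * -c j : ℤ) : ℝ) = -((∑ j, (A i j : ℤ) * c j : ℤ) : ℝ) := by
        push_cast
        rw [← Finset.sum_neg_distrib]
        exact Finset.sum_congr rfl (fun j _ => by ring)
      rw [h2]
      linarith
    rw [e, Matrix.mulVec_add, Matrix.mulVec_mulVec, hi1, Matrix.one_mulVec, hp]

/-- translation invariance of the integral of a periodic function -/
theorem TO_trans {Q : (Fin r → ℝ) → ℂ}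
    (hQ : ∀ (c : Fin r → ℤ) (x : Fin r → ℝ), Q ((fun i => (c i : ℝ)) + x) = Q x)
    (s : Fin r → ℝ) : ∫ u in cube r, Q (u + s) = ∫ u in cube r, Q u := by
  have h1 := (measurePreserving_add_right (volume : Measure (Fin r → ℝ)) (-s)).setIntegral_preimage_emb
    (MeasurableEquiv.addRight (-s)).measurableEmbedding (fun u => Q (u + s)) (cube r)
  rw [← h1]
  have e : ∀ x : Fin r → ℝ, Q (x + -s + s) = Q x := by
    intro x
    rw [add_assoc, neg_add_cancel, add_zero]
  simp only [e]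
  have hfd : IsAddFundamentalDomain (RS.latt r) ((fun x : Fin r → ℝ => x + -s) ⁻¹' cube r) volume := by
    refine IsAddFundamentalDomain.mk'
      ((measurable_add_const (-s)) (RS.measurableSet_cube r)).nullMeasurableSet (fun x => ?_)
    obtain ⟨g, hg, hu⟩ := RS.exists_unique_latt (x + -s)
    refine ⟨g, ?_, ?_⟩
    · show (g : Fin r → ℝ) + x + -s ∈ cube r
      rw [add_assoc]
      exact hg
    · intro g' hg'
      have h2 : (g' : Fin r → ℝ) + x + -s ∈ cube r := hg'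
      rw [add_assoc] at h2
      exact hu g' h2
  refine hfd.setIntegral_eq (RS.isAFD_cube r) ?_
  rintro ⟨_, c, rfl⟩ x
  exact hQ c x

theorem TO_ee_ne {x : ℝ} (hx : ∀ n : ℤ, x ≠ n) : RS.ee x ≠ 1 := by
  intro h
  unfold RS.ee at h
  rw [Complex.exp_eq_one_iff] at h
  obtain ⟨n, hn⟩ := h
  apply hx n
  have h1 : (2 * (Real.pi : ℂ) * Complex.I) ≠ 0 := by
    simp [Real.pi_ne_zero]
  have h2 : (x : ℂ) = n := by
    have h3 : (2 * (Real.pi : ℂ) * Complex.I) * (x : ℂ) = (2 * (Real.pi : ℂ) * Complex.I) * n := by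
      rw [hn]; ring
    exact mul_left_cancel₀ h1 h3
  exact_mod_cast h2

theorem tor_vanish_pr {r k : ℕ} (hk : 0 < k) {A : Fin r → Fin r → ℕ} (hA : A ∈ hnf r k)
    {F : (Fin r → ℝ) → ℂ} (hF : Measurable F) {M : ℝ} (hM : ∀ x, ‖F x‖ ≤ M)
    (hp : ∀ (c : Fin r → ℤ) (x : Fin r → ℝ), F (x + fun i => (c i : ℝ)) = F x)
    (v : Fin r → ℤ) {d : ℕ} (hd : ∃ i, ¬ (d : ℤ) ∣ v i) :
    ∑ b ∈ Fintype.piFinset (fun i => Finset.range (A i i)),
      ∫ u in cube r, F ((natM A)⁻¹ *ᵥ ((d : ℝ) • u - fun i => (b i : ℝ))) *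
        RS.ee (-(∑ i, (v i : ℝ) * u i)) = 0 := by
  obtain ⟨i0, hi0⟩ := hd
  have hvi : v i0 ≠ 0 := fun h => hi0 (by rw [h]; exact dvd_zero _)
  have hvi' : (v i0 : ℝ) ≠ 0 := by exact_mod_cast hvi
  -- exchange sum and integral
  have hsum : ∑ b ∈ Fintype.piFinset (fun i => Finset.range (A i i)),
      ∫ u in cube r, F ((natM A)⁻¹ *ᵥ ((d : ℝ) • u - fun i => (b i : ℝ))) *
        RS.ee (-(∑ i, (v i : ℝ) * u i)) =
      ∫ u in cube r, TO_H A F ((d : ℝ) • u) * RS.ee (-(∑ i, (v i : ℝ) * u i)) := by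
    rw [← integral_finsetSum]
    · congr 1
      funext u
      unfold TO_H TO_B
      rw [Finset.sum_mul]
    · intro b _
      refine Integrable.of_bound (C := M) ?_ (Eventually.of_forall (fun u => ?_))
      · refine Measurable.aestronglyMeasurable ?_
        refine (hF.comp ((TO_meas _).comp ?_)).mul ?_
        · exact ((measurable_const_smul (d : ℝ)).sub_const _)
        · exact (RS.continuous_ee.comp (by fun_prop)).measurable
      · rw [norm_mul, RS.norm_ee, mul_one]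
        exact hM _
  rw [hsum]
  set Q : (Fin r → ℝ) → ℂ := fun u => TO_H A F ((d : ℝ) • u) *
    RS.ee (-(∑ i, (v i : ℝ) * u i)) with hQ
  have hQper : ∀ (c : Fin r → ℤ) (x : Fin r → ℝ), Q ((fun i => (c i : ℝ)) + x) = Q x := by
    intro c x
    simp only [hQ]
    congr 1
    · have e : (d : ℝ) • ((fun i => (c i : ℝ)) + x) = (d : ℝ) • x +
          fun i => (((d : ℤ) * c i : ℤ) : ℝ) := by
        funext i
        simp only [Pi.smul_apply, Pi.add_apply, smul_eq_mul]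
        push_cast
        ring
      rw [e]
      exact TO_H_per hk hA hp (fun i => (d : ℤ) * c i) _
    · have e : ∑ i, (v i : ℝ) * ((fun i => (c i : ℝ)) + x) i =
          ∑ i, (v i : ℝ) * x i + ((∑ i, v i * c i : ℤ) : ℝ) := by
        push_cast
        rw [← Finset.sum_add_distrib]
        apply Finset.sum_congr rfl
        intro i _
        simp only [Pi.add_apply]
        ring
      rw [e, TO_ee_int]
  -- the shift
  obtain ⟨s, hs1, hs2⟩ : ∃ s : ℝ, (∃ n : ℤ, (d : ℝ) * s = n) ∧ ∀ n : ℤ, (v i0 : ℝ) * s ≠ n := by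
    rcases Nat.eq_zero_or_pos d with h0 | h0
    · refine ⟨1 / (2 * v i0), ⟨0, by rw [h0]; simp⟩, ?_⟩
      intro n hn
      have h1 : (v i0 : ℝ) * (1 / (2 * v i0)) = 1 / 2 := by field_simp
      rw [h1] at hn
      have h2 : (1 : ℝ) = 2 * n := by linarith
      have h3 : (1 : ℤ) = 2 * n := by exact_mod_cast h2
      omega
    · have hd0 : (d : ℝ) ≠ 0 := by exact_mod_cast h0.ne'
      refine ⟨1 / d, ⟨1, by field_simp; norm_num⟩, ?_⟩
      intro n hn
      apply hi0
      have h1 : (v i0 : ℝ) = d * n := by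
        rw [← hn]; field_simp
      exact ⟨n, by exact_mod_cast h1⟩
  set sv : Fin r → ℝ := Pi.single i0 s with hsv
  have hQs : ∀ u, Q (u + sv) = RS.ee (-((v i0 : ℝ) * s)) * Q u := by
    intro u
    simp only [hQ]
    obtain ⟨n, hn⟩ := hs1
    have e1 : TO_H A F ((d : ℝ) • (u + sv)) = TO_H A F ((d : ℝ) • u) := by
      have e : (d : ℝ) • (u + sv) = (d : ℝ) • u +
          fun i => (((Pi.single i0 n : Fin r → ℤ) i : ℤ) : ℝ) := by
        funext i
        simp only [Pi.smul_apply, Pi.add_apply, smul_eq_mul, hsv, mul_add]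
        by_cases hi : i = i0
        · subst hi
          rw [Pi.single_eq_same, Pi.single_eq_same, hn]
        · rw [Pi.single_eq_of_ne hi, Pi.single_eq_of_ne hi]
          simp
      rw [e]
      exact TO_H_per hk hA hp _ _
    have e2 : -(∑ i, (v i : ℝ) * (u + sv) i) = -((v i0 : ℝ) * s) + -(∑ i, (v i : ℝ) * u i) := by
      have e3 : ∑ i, (v i : ℝ) * (u + sv) i = ∑ i, (v i : ℝ) * u i + (v i0 : ℝ) * s := by
        simp only [Pi.add_apply, mul_add, Finset.sum_add_distrib]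
        congr 1
        rw [Finset.sum_eq_single i0]
        · rw [hsv, Pi.single_eq_same]
        · intro j _ hj
          rw [hsv, Pi.single_eq_of_ne hj, mul_zero]
        · intro hn'; exact absurd (Finset.mem_univ _) hn'
      rw [e3]
      ring
    rw [e1, e2, RS.ee_add]
    ring
  have hT := TO_trans hQper sv
  simp only [hQs] at hT
  rw [integral_const_mul] at hT
  have hne : RS.ee (-((v i0 : ℝ) * s)) ≠ 1 := by
    apply TO_ee_ne
    intro n hn
    apply hs2 (-n)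
    push_cast
    linarith
  have h1 : (RS.ee (-((v i0 : ℝ) * s)) - 1) * ∫ u in cube r, Q u = 0 := by
    rw [sub_mul, hT, one_mul, sub_self]
  rcases mul_eq_zero.mp h1 with h2 | h2
  · exact absurd (sub_eq_zero.mp h2) hne
  · exact h2

end

alias tor_eq := tor_eq_pr
alias tor_vanish := tor_vanish_pr

end Pool.Agent.GJ
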