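import Pool.Agent.Lib_helper19.GJ.Defs
import Pool.Agent.Lib_helper19.GJ.HR
import Pool.Agent.Lib_helper19.GJ.TO

/-! Block WA: Fourier coefficients of sums over Hermite normal forms. -/

namespace Pool.Agent.GJ

open Complex MeasureTheory Filter Topology Matrix
open Pool.Agent.G4 (par RSB)
open Pool.Agent.RS (Mt SLZ toR lm Xs wG cut cube)
open scoped ENNReal

theorem wa_det {r k : ℕ} {A : Fin r → Fin r → ℕ} (hA : A ∈ hnf r k) : (natM A).det = k := by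
  unfold hnf at hA
  rw [Finset.mem_filter] at hA
  obtain ⟨-, h1, -, h3⟩ := hA
  have h4 : (natM A).BlockTriangular id := by
    intro i j hij
    have hij' : j < i := hij
    show ((A i j : ℕ) : ℝ) = 0
    rw [h1 i j hij', Nat.cast_zero]
  rw [Matrix.det_of_isUpperTriangular h4, ← h3]
  push_cast
  rfl

/-- `diag(1, ..., 1, 1/d)` -/
noncomputable def wa_D (r d : ℕ) : Matrix (Fin (r + 1)) (Fin (r + 1)) ℝ :=
  Matrix.diagonal (Fin.lastCases (motive := fun _ => ℝ) ((d : ℝ)⁻¹) (fun _ => 1))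

theorem wa_D_one (r : ℕ) : wa_D r 1 = 1 := by
  unfold wa_D
  rw [← Matrix.diagonal_one]
  congr 1
  funext i
  refine Fin.lastCases ?_ (fun i => ?_) i <;> simp

theorem wa_blk {r : ℕ} (A : Fin r → Fin r → ℕ) (c : Fin r → ℕ) (d : ℕ) :
    (∀ i j : Fin r, natM (blk A c d) i.castSucc j.castSucc = natM A i j) ∧
    (∀ i : Fin r, natM (blk A c d) i.castSucc (Fin.last r) = c i) ∧
    (∀ j : Fin r, natM (blk A c d) (Fin.last r) j.castSucc = 0) ∧
    natM (blk A c d) (Fin.last r) (Fin.last r) = d := by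
  refine ⟨fun i j => ?_, fun i => ?_, fun j => ?_, ?_⟩ <;> simp [natM, blk]

theorem wa_last {r : ℕ} (A : Fin r → Fin r → ℕ) (c : Fin r → ℕ) (d : ℕ) :
    blk A c d (Fin.last r) (Fin.last r) = d := by
  simp [blk]

theorem wa_mul {r k d : ℕ} (hk : 0 < k) (hd : 0 < d) {A : Fin r → Fin r → ℕ} (hA : A ∈ hnf r k)
    (c : Fin r → ℕ) (B : Matrix (Fin r) (Fin r) ℝ) (u : Fin r → ℝ) :
    natM (blk A c d) * (RS.emb ((natM A)⁻¹ * B) ((natM A)⁻¹ *ᵥ ((d : ℝ) • u - fun i => (c i : ℝ))) *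
      wa_D r d) = RS.emb B u := by
  have hu : IsUnit (natM A).det := by
    rw [wa_det hA]
    exact (Nat.cast_ne_zero.mpr hk.ne').isUnit
  have hd0 : (d : ℝ) ≠ 0 := Nat.cast_ne_zero.mpr hd.ne'
  obtain ⟨h1, h2, h3, h4⟩ := wa_blk A c d
  have e1 : natM A * ((natM A)⁻¹ * B) = B := Matrix.mul_nonsing_inv_cancel_left _ _ hu
  have e2 : natM A *ᵥ ((natM A)⁻¹ *ᵥ ((d : ℝ) • u - fun i => (c i : ℝ))) =
      (d : ℝ) • u - fun i => (c i : ℝ) := by
    rw [Matrix.mulVec_mulVec, Matrix.mul_nonsing_inv _ hu, Matrix.one_mulVec]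
  ext i j
  unfold wa_D
  rw [← Matrix.mul_assoc, Matrix.mul_diagonal, Matrix.mul_apply, Fin.sum_univ_castSucc]
  refine Fin.lastCases ?_ (fun i => ?_) i <;> refine Fin.lastCases ?_ (fun j => ?_) j
  · simp only [h3, h4, RS.emb_ll, Fin.lastCases_last, zero_mul, Finset.sum_const_zero, zero_add,
      mul_one]
    exact mul_inv_cancel₀ hd0
  · simp only [h3, h4, RS.emb_lc, zero_mul, mul_zero, Finset.sum_const_zero, add_zero]
  · simp only [h1, h2, RS.emb_cl, RS.emb_ll, Fin.lastCases_last, mul_one]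
    have e3 := congrFun e2 i
    rw [Matrix.mulVec, dotProduct] at e3
    rw [e3]
    simp only [Pi.sub_apply, Pi.smul_apply, smul_eq_mul]
    field_simp
    ring
  · simp only [h1, h2, RS.emb_cc, RS.emb_lc, Fin.lastCases_castSucc, mul_zero, add_zero, mul_one]
    have e3 := congrFun (congrFun e1 i) j
    rw [Matrix.mul_apply] at e3
    exact e3

theorem wa_inv {r k d : ℕ} (hk : 0 < k) (hd : 0 < d) {A : Fin r → Fin r → ℕ} (hA : A ∈ hnf r k)
    (c : Fin r → ℕ) (g : Matrix (Fin (r + 1)) (Fin (r + 1)) ℝ) (B : Mt r) (u : Fin r → ℝ) :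
    lm (natM (blk A c d))⁻¹ (RS.cm g B u) =
      RS.cm (wa_D r d * g) (lm (natM A)⁻¹ B)
        ((natM A)⁻¹ *ᵥ ((d : ℝ) • u - fun i => (c i : ℝ))) := by
  have h1 := wa_mul hk hd hA c (1 : Matrix (Fin r) (Fin r) ℝ) 0
  rw [RS.emb_one] at h1
  have hu : IsUnit (natM (blk A c d)).det := by
    have h2 := congrArg Matrix.det h1
    rw [Matrix.det_mul, Matrix.det_one] at h2
    exact IsUnit.of_mul_eq_one _ h2
  have h3 := wa_mul hk hd hA c (Matrix.of B) u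
  show ((natM (blk A c d))⁻¹ * (RS.emb (Matrix.of B) u * g) : Matrix _ _ ℝ) =
    (RS.emb ((natM A)⁻¹ * Matrix.of B) ((natM A)⁻¹ *ᵥ ((d : ℝ) • u - fun i => (c i : ℝ))) *
      (wa_D r d * g) : Matrix _ _ ℝ)
  rw [← h3, Matrix.mul_assoc, Matrix.nonsing_inv_mul_cancel_left _ _ hu, Matrix.mul_assoc]

theorem wa_per {r : ℕ} {Ψ : Mt (r + 1) → ℂ} (hP : RS.PInv Ψ)
    (h : Matrix (Fin (r + 1)) (Fin (r + 1)) ℝ) (A : Mt r) (c : Fin r → ℤ) (x : Fin r → ℝ) :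
    Ψ (RS.cm h A (x + fun i => (c i : ℝ))) = Ψ (RS.cm h A x) := by
  have h1 := hP 1 c (RS.cm h A x)
  rw [RS.lm_cm, RS.toR_one, RS.lm_one, Matrix.one_mulVec] at h1
  exact h1

theorem wa_cont {r : ℕ} (g : Matrix (Fin (r + 1)) (Fin (r + 1)) ℝ) (B : Mt r) :
    Continuous (fun b : Fin r → ℝ => RS.cm g B b) := by
  have h2 : Continuous (fun b : Fin r → ℝ => (B, b)) := by fun_prop
  exact (RS.continuous_cm g).comp h2

theorem wa_meas {r : ℕ} (g : Matrix (Fin (r + 1)) (Fin (r + 1)) ℝ) (B : Mt r) :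
    Measurable (fun b : Fin r → ℝ => RS.cm g B b) := (wa_cont g B).measurable

theorem wh_gen_pr {r k : ℕ} (hk : 0 < k) {Ψ : ℕ → Mt (r + 2) → ℂ} (hΨ : ∀ d, Measurable (Ψ d))
    {M : ℝ} (hM : ∀ d Y, ‖Ψ d Y‖ ≤ M) (hP : ∀ d, RS.PInv (Ψ d))
    (g : Matrix (Fin (r + 2)) (Fin (r + 2)) ℝ) {v : Fin (r + 1) → ℤ}
    (hv : ∀ d : ℕ, 1 < d → d ∣ k → ∃ i, ¬ (d : ℤ) ∣ v i) (B : Mt (r + 1)) :
    RS.Fc (fun Y => ∑ A ∈ hnf (r + 2) k, Ψ (A (Fin.last (r + 1)) (Fin.last (r + 1)))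
      (lm (natM A)⁻¹ Y)) g v B =
      k * ∑ A ∈ hnf (r + 1) k, RS.Fc (Ψ 1) g (v ᵥ* natZ A) (lm (natM A)⁻¹ B) := by
  -- the functions on the torus
  set F : ℕ → (Fin (r + 1) → Fin (r + 1) → ℕ) → (Fin (r + 1) → ℝ) → ℂ := fun d A w =>
    Ψ d (RS.cm (wa_D (r + 1) d * g) (lm (natM A)⁻¹ B) w) with hF
  have hcm : ∀ (g' : Matrix (Fin (r + 2)) (Fin (r + 2)) ℝ) (B' : Mt (r + 1)),
      Measurable (fun b : Fin (r + 1) → ℝ => RS.cm g' B' b) := fun g' B' =>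
    wa_meas g' B'
  have hFm : ∀ d A, Measurable (F d A) := fun d A => (hΨ d).comp (hcm _ _)
  have hFb : ∀ d A x, ‖F d A x‖ ≤ M := fun d A x => hM d _
  have hFp : ∀ d A (c : Fin (r + 1) → ℤ) (x : Fin (r + 1) → ℝ),
      F d A (x + fun i => (c i : ℝ)) = F d A x := fun d A c x => wa_per (hP d) _ _ c x
  have hterm : ∀ A ∈ hnf (r + 2) k, Integrable (fun b : Fin (r + 1) → ℝ =>
      Ψ (A (Fin.last (r + 1)) (Fin.last (r + 1))) (lm (natM A)⁻¹ (RS.cm g B b)) *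
        RS.ee (-(∑ i, (v i : ℝ) * b i))) (volume.restrict (cube (r + 1))) := by
    intro A _
    refine Integrable.of_bound (C := M) ?_ (Filter.Eventually.of_forall fun b => ?_)
    · apply Measurable.aestronglyMeasurable
      apply Measurable.mul
      · exact (hΨ _).comp ((RS.continuous_lm _).measurable.comp (hcm _ _))
      · exact (RS.continuous_ee.comp (by fun_prop)).measurable
    · rw [norm_mul, RS.norm_ee, mul_one]
      exact hM _ _
  have h1 : RS.Fc (fun Y => ∑ A ∈ hnf (r + 2) k, Ψ (A (Fin.last (r + 1)) (Fin.last (r + 1)))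
      (lm (natM A)⁻¹ Y)) g v B = ∑ A ∈ hnf (r + 2) k, ∫ b in cube (r + 1),
        Ψ (A (Fin.last (r + 1)) (Fin.last (r + 1))) (lm (natM A)⁻¹ (RS.cm g B b)) *
        RS.ee (-(∑ i, (v i : ℝ) * b i)) := by
    unfold RS.Fc
    rw [← integral_finsetSum _ hterm]
    simp only [Finset.sum_mul]
  rw [h1, hnf_rec (r + 1) k hk (fun A => ∫ b in cube (r + 1),
        Ψ (A (Fin.last (r + 1)) (Fin.last (r + 1))) (lm (natM A)⁻¹ (RS.cm g B b)) *
        RS.ee (-(∑ i, (v i : ℝ) * b i)))]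
  have h2 : ∀ d ∈ k.divisors, ∀ A ∈ hnf (r + 1) (k / d),
      ∑ c ∈ Fintype.piFinset (fun i => Finset.range (A i i)), ∫ b in cube (r + 1),
        Ψ (blk A c d (Fin.last (r + 1)) (Fin.last (r + 1)))
          (lm (natM (blk A c d))⁻¹ (RS.cm g B b)) * RS.ee (-(∑ i, (v i : ℝ) * b i)) =
      ∑ c ∈ Fintype.piFinset (fun i => Finset.range (A i i)), ∫ u in cube (r + 1),
        F d A ((natM A)⁻¹ *ᵥ ((d : ℝ) • u - fun i => (c i : ℝ))) *
          RS.ee (-(∑ i, (v i : ℝ) * u i)) := by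
    intro d hd A hA
    have hd0 : 0 < d := Nat.pos_of_mem_divisors hd
    have hkd : 0 < k / d := Nat.div_pos (Nat.le_of_dvd hk (Nat.dvd_of_mem_divisors hd)) hd0
    refine Finset.sum_congr rfl (fun c _ => ?_)
    refine integral_congr_ae (Filter.Eventually.of_forall fun b => ?_)
    show Ψ (blk A c d (Fin.last (r + 1)) (Fin.last (r + 1)))
          (lm (natM (blk A c d))⁻¹ (RS.cm g B b)) * RS.ee (-(∑ i, (v i : ℝ) * b i)) =
      F d A ((natM A)⁻¹ *ᵥ ((d : ℝ) • b - fun i => (c i : ℝ))) *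
          RS.ee (-(∑ i, (v i : ℝ) * b i))
    rw [wa_last, wa_inv hkd hd0 hA]
  have h3 : ∀ d ∈ k.divisors, d ≠ 1 → ∑ A ∈ hnf (r + 1) (k / d),
      ∑ c ∈ Fintype.piFinset (fun i => Finset.range (A i i)), ∫ b in cube (r + 1),
        Ψ (blk A c d (Fin.last (r + 1)) (Fin.last (r + 1)))
          (lm (natM (blk A c d))⁻¹ (RS.cm g B b)) * RS.ee (-(∑ i, (v i : ℝ) * b i)) = 0 := by
    intro d hd hd1
    have hd0 : 0 < d := Nat.pos_of_mem_divisors hd
    have hkd : 0 < k / d := Nat.div_pos (Nat.le_of_dvd hk (Nat.dvd_of_mem_divisors hd)) hd0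
    refine Finset.sum_eq_zero (fun A hA => ?_)
    rw [h2 d hd A hA]
    exact tor_vanish hkd hA (hFm d A) (hFb d A) (hFp d A) v
      (hv d (by omega) (Nat.dvd_of_mem_divisors hd))
  rw [Finset.sum_eq_single_of_mem 1 (Nat.one_mem_divisors.mpr hk.ne') h3, Nat.div_one,
    Finset.mul_sum]
  refine Finset.sum_congr rfl (fun A hA => ?_)
  have h4 := h2 1 (Nat.one_mem_divisors.mpr hk.ne') A (by rwa [Nat.div_one])
  rw [h4]
  simp only [Nat.cast_one, one_smul]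
  rw [tor_eq hk hA (hFm 1 A) (hFb 1 A) (hFp 1 A) v]
  congr 1
  unfold RS.Fc
  simp only [hF, wa_D_one, Matrix.one_mul]

alias wh_gen := wh_gen_pr

end Pool.Agent.GJ
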