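import Pool.Agent.Lib_helper19.GJ.Defs
import Pool.Agent.Lib_helper19.GJ.WA

/-!
# Whittaker coefficients and Hecke operators (block WT)
-/

namespace Pool.Agent.GJ

open Complex MeasureTheory Filter Topology Matrix
open Pool.Agent.G4 (par RSB)
open Pool.Agent.RS (Mt SLZ toR lm Xs wG cut cube)
open scoped ENNReal

theorem wt_mem {n m : ℕ} {A : Fin n → Fin n → ℕ} : A ∈ hnf n m ↔
    (∀ i j, A i j ≤ m) ∧ (∀ i j, j < i → A i j = 0) ∧ (∀ i j, i < j → A i j < A i i) ∧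
      ∏ i, A i i = m := by
  unfold hnf
  rw [Finset.mem_filter, Fintype.mem_piFinset]
  simp only [Fintype.mem_piFinset, Finset.mem_range, Nat.lt_succ_iff]

theorem wt_hnf_one (k : ℕ) : hnf 1 k = {fun _ _ => k} := by
  ext A
  rw [wt_mem, Finset.mem_singleton]
  constructor
  · rintro ⟨_, _, _, h⟩
    funext i j
    have hi : i = 0 := Subsingleton.elim _ _
    have hj : j = 0 := Subsingleton.elim _ _
    subst hi hj
    simpa using h
  · rintro rfl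
    refine ⟨fun _ _ => le_rfl, ?_, ?_, by simp⟩
    · intro i j hij
      exact absurd hij (by rw [Subsingleton.elim j i]; exact lt_irrefl _)
    · intro i j hij
      exact absurd hij (by rw [Subsingleton.elim j i]; exact lt_irrefl _)

theorem wt_row {s k : ℕ} {A : Fin (s + 1) → Fin (s + 1) → ℕ} (hA : A ∈ hnf (s + 1) k) :
    (Pi.single (Fin.last s) 1 : Fin (s + 1) → ℤ) ᵥ* natZ A =
      Pi.single (Fin.last s) ((A (Fin.last s) (Fin.last s) : ℕ) : ℤ) := by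
  rw [Matrix.single_one_vecMul]
  funext j
  by_cases hj : j = Fin.last s
  · subst hj
    rw [Pi.single_eq_same]
    rfl
  · rw [Pi.single_eq_of_ne hj]
    have h1 := (wt_mem.1 hA).2.1 (Fin.last s) j (lt_of_le_of_ne (Fin.le_last j) hj)
    show ((A (Fin.last s) j : ℕ) : ℤ) = 0
    rw [h1]
    rfl

/-- the Whittaker coefficients of sums over Hermite normal forms -/
theorem wt_gen (s : ℕ) {k m : ℕ} (hk : 0 < k) (hkm : k.Coprime m) :
    ∀ (Ψ : ℕ → Mt (s + 2) → ℂ), (∀ d, Measurable (Ψ d)) → (∃ M : ℝ, ∀ d Y, ‖Ψ d Y‖ ≤ M) →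
      (∀ d, RS.PInv (Ψ d)) → ∀ g : Matrix (Fin (s + 2)) (Fin (s + 2)) ℝ,
      RS.Wr s (fun Y => ∑ A ∈ hnf (s + 2) k, Ψ (A (Fin.last (s + 1)) (Fin.last (s + 1)))
        (lm (natM A)⁻¹ Y)) m g =
      (k : ℂ) ^ (s + 1) * RS.Wr s (Ψ 1) (k * m) (RS.td (s + 1) (k : ℝ)⁻¹ * g) := by
  induction s with
  | zero =>
    intro Ψ hΨ ⟨M, hM⟩ hP g
    have hv : ∀ d : ℕ, 1 < d → d ∣ k → ∃ i : Fin 1, ¬ (d : ℤ) ∣ (fun _ : Fin 1 => (m : ℤ)) i := by
      intro d hd hdk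
      refine ⟨0, fun h => ?_⟩
      have h1 : d ∣ m := Int.natCast_dvd_natCast.1 h
      have h2 : d ∣ 1 := by
        rw [← hkm]
        exact Nat.dvd_gcd hdk h1
      exact absurd (Nat.dvd_one.1 h2) (by omega)
    have h1 := wh_gen hk hΨ hM hP g hv (RS.idm 1)
    show RS.Fc (fun Y => ∑ A ∈ hnf (0 + 2) k, Ψ (A (Fin.last (0 + 1)) (Fin.last (0 + 1)))
        (lm (natM A)⁻¹ Y)) g (fun _ => (m : ℤ)) (RS.idm 1) = _
    rw [h1, wt_hnf_one, Finset.sum_singleton]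
    have e1 : (fun _ : Fin (0 + 1) => (m : ℤ)) ᵥ* natZ (fun _ _ : Fin (0 + 1) => k) =
        fun _ => ((k * m : ℕ) : ℤ) := by
      funext j
      have h3 : ∑ _x : Fin (0 + 1), (m : ℤ) * (k : ℤ) = (m : ℤ) * (k : ℤ) := by
        rw [Finset.sum_const, Finset.card_univ, Fintype.card_fin, zero_add, one_smul]
      simp only [Matrix.vecMul, dotProduct, natZ, Matrix.of_apply]
      rw [h3]
      push_cast
      ring
    have hk0 : (k : ℝ) ≠ 0 := by exact_mod_cast hk.ne'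
    have e0 : (natM (fun _ _ : Fin (0 + 1) => k) : Matrix (Fin 1) (Fin 1) ℝ)⁻¹ =
        RS.td 0 (k : ℝ)⁻¹ := by
      apply Matrix.inv_eq_right_inv
      ext i j
      have hi : i = 0 := Subsingleton.elim _ _
      have hj : j = 0 := Subsingleton.elim _ _
      subst hi hj
      simp [natM, RS.td, Matrix.mul_apply, hk0]
    have e2 : (lm (natM (fun _ _ : Fin (0 + 1) => k))⁻¹ (RS.idm 1) : Mt 1) =
        (RS.td 0 (k : ℝ)⁻¹ : Matrix (Fin 1) (Fin 1) ℝ) := by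
      show ((natM (fun _ _ : Fin (0 + 1) => k))⁻¹ * (1 : Matrix (Fin 1) (Fin 1) ℝ) :
        Matrix (Fin 1) (Fin 1) ℝ) = _
      rw [Matrix.mul_one]
      exact e0
    rw [e1, e2]
    have h2 := RS.Wr_zero_emb (Ψ 1) (k * m) (RS.td 0 (k : ℝ)⁻¹) g
    rw [RS.emb_td] at h2
    rw [h2]
    simp
  | succ s ih =>
    intro Ψ hΨ ⟨M, hM⟩ hP g
    have hv : ∀ d : ℕ, 1 < d → d ∣ k → ∃ i : Fin (s + 2),
        ¬ (d : ℤ) ∣ (Pi.single (Fin.last (s + 1)) 1 : Fin (s + 2) → ℤ) i := by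
      intro d hd hdk
      refine ⟨Fin.last (s + 1), fun h => ?_⟩
      rw [Pi.single_eq_same] at h
      have h2 : d ∣ 1 := by exact_mod_cast h
      exact absurd (Nat.dvd_one.1 h2) (by omega)
    have h1 : RS.Fc (fun Y => ∑ A ∈ hnf (s + 1 + 2) k,
        Ψ (A (Fin.last (s + 1 + 1)) (Fin.last (s + 1 + 1))) (lm (natM A)⁻¹ Y)) g
          (Pi.single (Fin.last (s + 1)) 1) = fun B => (k : ℂ) * ∑ A ∈ hnf (s + 2) k,
        (fun d : ℕ => RS.Fc (Ψ 1) g (Pi.single (Fin.last (s + 1)) ((d : ℕ) : ℤ)))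
          (A (Fin.last (s + 1)) (Fin.last (s + 1))) (lm (natM A)⁻¹ B) := by
      funext B
      rw [wh_gen hk hΨ hM hP g hv B]
      congr 1
      apply Finset.sum_congr rfl
      intro A hA
      rw [wt_row hA]
    show RS.Wr s (RS.Fc (fun Y => ∑ A ∈ hnf (s + 1 + 2) k,
        Ψ (A (Fin.last (s + 1 + 1)) (Fin.last (s + 1 + 1))) (lm (natM A)⁻¹ Y)) g
          (Pi.single (Fin.last (s + 1)) 1)) m 1 = _
    rw [h1, RS.Wr_const_mul, ih (fun d : ℕ => RS.Fc (Ψ 1) g (Pi.single (Fin.last (s + 1)) (d : ℤ)))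
      (fun d => RS.measurable_Fc (hΨ 1) _ _) ⟨M, fun d Y => RS.norm_Fc_le (hM 1) _ _ Y⟩
      (fun d => RS.PInv_Fc_smul (hP 1) _ _) 1]
    rw [Matrix.mul_one]
    have h2 := RS.Wr_succ_emb s (Ψ 1) (k * m) (RS.td (s + 1) (k : ℝ)⁻¹) g
    rw [RS.emb_td] at h2
    rw [h2]
    simp only [Nat.cast_one]
    ring

variable {lam : ℕ → ℂ} {e : Fin 2}

theorem wt_pinv {s : ℕ} {ν : Fin (s + 2) → ℂ} {φ : Matrix (Fin (s + 2)) (Fin (s + 2)) ℝ → ℂ}
    (h : SphericalForm (s + 2) e ν lam φ) : RS.PInv (cut φ) := by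
  intro γ c Y
  by_cases hY : (Matrix.of Y).det = 0
  · rw [RS.cut_lm_zero φ _ Y hY, RS.cut_of_eq φ hY]
  · rw [RS.cut_lm φ (by rw [RS.det_toR]; exact one_ne_zero) Y hY, RS.cut_of_ne φ hY]
    have hd : (RS.par γ c).1.det = 1 := (RS.par γ c).2
    have h1 := h.left (RS.par γ c).1 (by rw [hd]; exact isUnit_one) (Matrix.of Y) hY
    rw [hd, Int.cast_one, one_pow, one_mul] at h1
    exact h1

theorem wt_det {n m : ℕ} {A : Fin n → Fin n → ℕ} (hA : A ∈ hnf n m) :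
    (natM A).det = m := by
  obtain ⟨_, h1, _, h2⟩ := wt_mem.1 hA
  have h3 : (natM A).BlockTriangular id := by
    intro i j hij
    have hij' : j < i := hij
    simp [natM, h1 i j hij']
  rw [Matrix.det_of_isUpperTriangular h3]
  simp only [natM, Matrix.of_apply]
  rw [← h2]
  push_cast
  rfl

theorem wt_heig {s : ℕ} {ν : Fin (s + 2) → ℂ} {φ : Matrix (Fin (s + 2)) (Fin (s + 2)) ℝ → ℂ}
    (h : SphericalForm (s + 2) e ν lam φ) {k : ℕ} (hk : 0 < k) (Y : Mt (s + 2)) :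
    ∑ A ∈ hnf (s + 2) k, cut φ (lm (natM A)⁻¹ Y) =
      ((√(k : ℝ) : ℝ) : ℂ) ^ (s + 1) * lam k * cut φ Y := by
  by_cases hY : (Matrix.of Y).det = 0
  · rw [RS.cut_of_eq φ hY, mul_zero]
    exact Finset.sum_eq_zero fun A _ => RS.cut_lm_zero φ _ Y hY
  · rw [RS.cut_of_ne φ hY]
    have h1 := h.hecke k hk (Matrix.of Y) hY
    rw [show s + 2 - 1 = s + 1 by omega] at h1
    rw [← h1]
    apply Finset.sum_congr rfl
    intro A hA
    apply RS.cut_lm φ _ Y hY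
    have h2 : ((natM A)⁻¹ * natM A).det = 1 := by
      rw [Matrix.nonsing_inv_mul _ (by
        rw [wt_det hA]
        exact isUnit_iff_ne_zero.2 (by exact_mod_cast hk.ne')), Matrix.det_one]
    rw [Matrix.det_mul] at h2
    exact left_ne_zero_of_mul_eq_one h2

/-- WT -/
theorem wr_hecke_pr {s : ℕ} {ν : Fin (s + 2) → ℂ} {φ : Matrix (Fin (s + 2)) (Fin (s + 2)) ℝ → ℂ}
    (h : SphericalForm (s + 2) e ν lam φ) {k m : ℕ} (hk : 0 < k) (hkm : k.Coprime m)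
    {g : Matrix (Fin (s + 2)) (Fin (s + 2)) ℝ} (_hg : g.det ≠ 0) :
    ((√(k : ℝ) : ℝ) : ℂ) ^ (s + 1) * RS.Wr s (cut φ) (k * m) g =
      lam k * RS.Wr s (cut φ) m (RS.td (s + 1) k * g) := by
  obtain ⟨M, hM⟩ := h.bounded
  have hk0 : (0 : ℝ) < k := by exact_mod_cast hk
  have h1 := wt_gen s hk hkm (fun _ => cut φ) (fun _ => RS.measurable_cut h.continuous)
    ⟨_, fun _ => RS.norm_cut_le hM⟩ (fun _ => wt_pinv h) (RS.td (s + 1) k * g)
  have h2 : (fun Y => ∑ A ∈ hnf (s + 2) k, cut φ (lm (natM A)⁻¹ Y)) =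
      fun Y => ((√(k : ℝ) : ℝ) : ℂ) ^ (s + 1) * lam k * cut φ Y :=
    funext fun Y => wt_heig h hk Y
  rw [← Matrix.mul_assoc, RS.td_inv' hk0.ne', Matrix.one_mul] at h1
  have h3 : RS.Wr s (fun Y => ∑ A ∈ hnf (s + 2) k, cut φ (lm (natM A)⁻¹ Y)) m
      (RS.td (s + 1) k * g) = (k : ℂ) ^ (s + 1) * RS.Wr s (cut φ) (k * m) g := h1
  rw [h2, RS.Wr_const_mul] at h3
  have e3 : (k : ℂ) = ((√(k : ℝ) : ℝ) : ℂ) * ((√(k : ℝ) : ℝ) : ℂ) := by
    rw [← Complex.ofReal_mul, Real.mul_self_sqrt hk0.le]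
    simp
  have e4 : ((√(k : ℝ) : ℝ) : ℂ) ^ (s + 1) ≠ 0 := by
    apply pow_ne_zero
    have : √(k : ℝ) ≠ 0 := (Real.sqrt_pos.2 hk0).ne'
    exact_mod_cast this
  rw [e3, mul_pow] at h3
  have h4 : ((√(k : ℝ) : ℝ) : ℂ) ^ (s + 1) * (lam k * RS.Wr s (cut φ) m
        (RS.td (s + 1) k * g)) =
      ((√(k : ℝ) : ℝ) : ℂ) ^ (s + 1) * (((√(k : ℝ) : ℝ) : ℂ) ^ (s + 1) *
        RS.Wr s (cut φ) (k * m) g) := by
    linear_combination h3
  exact (mul_left_cancel₀ e4 h4).symm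

alias wr_hecke := wr_hecke_pr

end Pool.Agent.GJ
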