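import Pool.Agent.Lib_helper19.GJ.Defs
import Pool.Agent.Lib_helper19.GJ.WT

/-! GJ, block LM -/

namespace Pool.Agent.GJ

open Complex MeasureTheory Filter Topology Matrix
open Pool.Agent.G4 (par RSB)
open Pool.Agent.RS (Mt SLZ toR lm Xs wG cut cube)
open scoped ENNReal

variable {n : ℕ} {e : Fin 2} {ν : Fin n → ℂ} {lam : ℕ → ℂ} {φ : Matrix (Fin n) (Fin n) ℝ → ℂ}

/-- LM -/
theorem lam_mul_pr {s : ℕ} {ν : Fin (s + 2) → ℂ} {φ : Matrix (Fin (s + 2)) (Fin (s + 2)) ℝ → ℂ}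
    (h : SphericalForm (s + 2) e ν lam φ) : lam 1 = 1 ∧ ∀ k m : ℕ, 0 < k → 0 < m →
      k.Coprime m → lam (k * m) = lam k * lam m := by
  obtain ⟨M, hM⟩ := h.bounded
  have hmeas := RS.measurable_cut h.continuous
  have hbd := RS.norm_cut_le hM
  obtain ⟨g₀, hg₀, hW⟩ := h.generic
  rw [RS.whittaker_eq φ hg₀, RS.whit_eq_Wr s (cut φ) hmeas ⟨_, hbd⟩ 1 g₀] at hW
  have htd1 : ∀ g : Matrix (Fin (s + 2)) (Fin (s + 2)) ℝ, RS.td (s + 1) 1 * g = g := by
    intro g
    have : RS.td (s + 1) 1 = 1 := by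
      unfold RS.td
      simp
    rw [this, one_mul]
  have hdtd : ∀ X : ℝ, (RS.td (s + 1) X).det = X := by
    intro X
    unfold RS.td
    rw [Matrix.det_diagonal, Finset.prod_ite_eq']
    simp
  constructor
  · have h1 := wr_hecke h (k := 1) (m := 1) one_pos (Nat.coprime_one_left 1) hg₀
    rw [mul_one, Nat.cast_one, Real.sqrt_one, Complex.ofReal_one, one_pow, one_mul,
      htd1] at h1
    have h2 : (lam 1 - 1) * RS.Wr s (cut φ) 1 g₀ = 0 := by linear_combination -h1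
    rcases mul_eq_zero.1 h2 with h3 | h3
    · linear_combination h3
    · exact absurd h3 hW
  · intro k m hk hm hkm
    have hkR : (0 : ℝ) < k := by exact_mod_cast hk
    have hmR : (0 : ℝ) < m := by exact_mod_cast hm
    set g : Matrix (Fin (s + 2)) (Fin (s + 2)) ℝ := RS.td (s + 1) (((k * m : ℕ) : ℝ)⁻¹) * g₀
      with hg
    have hkm0 : ((k * m : ℕ) : ℝ) ≠ 0 := by push_cast; positivity
    have hgd : g.det ≠ 0 := by
      rw [hg, Matrix.det_mul, hdtd]
      exact mul_ne_zero (inv_ne_zero hkm0) hg₀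
    have e1 := wr_hecke h (k := k * m) (m := 1) (Nat.mul_pos hk hm) (Nat.coprime_one_right _) hgd
    have e2 := wr_hecke h (k := k) (m := m) hk hkm hgd
    have hgd2 : (RS.td (s + 1) k * g).det ≠ 0 := by
      rw [Matrix.det_mul, hdtd]
      exact mul_ne_zero hkR.ne' hgd
    have e3 := wr_hecke h (k := m) (m := 1) hm (Nat.coprime_one_right _) hgd2
    rw [mul_one] at e1 e3
    have t1 : RS.td (s + 1) ((k * m : ℕ) : ℝ) * g = g₀ := by
      rw [hg, ← Matrix.mul_assoc, RS.td_mul, mul_inv_cancel₀ hkm0, htd1]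
    have t2 : RS.td (s + 1) (m : ℝ) * (RS.td (s + 1) (k : ℝ) * g) = g₀ := by
      rw [← Matrix.mul_assoc, RS.td_mul, mul_comm (m : ℝ), ← Nat.cast_mul]
      exact t1
    rw [t1] at e1
    rw [t2] at e3
    have hs : ((√((k * m : ℕ) : ℝ) : ℝ) : ℂ) = ((√(k : ℝ) : ℝ) : ℂ) * ((√(m : ℝ) : ℝ) : ℂ) := by
      rw [Nat.cast_mul, Real.sqrt_mul hkR.le]
      push_cast
      ring
    rw [hs, mul_pow] at e1
    have h2 : (lam (k * m) - lam k * lam m) * RS.Wr s (cut φ) 1 g₀ = 0 := by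
      linear_combination -e1 + ((√(m : ℝ) : ℝ) : ℂ) ^ (s + 1) * e2 + lam k * e3
    rcases mul_eq_zero.1 h2 with h3 | h3
    · linear_combination h3
    · exact absurd h3 hW

alias lam_mul := lam_mul_pr

end Pool.Agent.GJ
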