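import Pool.Agent.Lib_helper19.GJ.Defs
import Pool.Agent.Lib_helper19.GJ.WT

namespace Pool.Agent.GJ

open Complex MeasureTheory Filter Topology Matrix
open Pool.Agent.G4 (par RSB)
open Pool.Agent.RS (Mt SLZ toR lm Xs wG cut cube)
open scoped ENNReal

section
open Pool.Agent.RS

theorem ra_short {s : ℕ} {φ : Mt (s + 2) → ℂ} (hφ : Measurable φ) {M : ℝ}
    (hM : ∀ Y, ‖φ Y‖ ≤ M) (hP : PInv φ) {lam : ℕ → ℂ}
    (hH : ∀ m : ℕ, 0 < m → ∀ g : Matrix (Fin (s + 2)) (Fin (s + 2)) ℝ, g.det ≠ 0 →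
      ((√(m : ℝ) : ℝ) : ℂ) ^ (s + 1) * Wr s φ m g = lam m * Wr s φ 1 (td (s + 1) m * g))
    {g₀ : Matrix (Fin (s + 2)) (Fin (s + 2)) ℝ} (hg₀ : g₀.det ≠ 0)
    (hc : ContinuousAt (Wr s φ 1) g₀) (h0 : Wr s φ 1 g₀ ≠ 0) :
    ∃ C η : ℝ, 0 < η ∧ 0 < C ∧ ∀ X : ℝ, 1 ≤ X → ∀ S : Finset ℕ,
      (∀ m ∈ S, X ≤ m ∧ (m : ℝ) ≤ (1 + η) * X) →
      ∑ m ∈ S, ‖lam m‖ ^ 2 ≤ C * X := by
  obtain ⟨c, hc0, η, hη, B, hB, hcB⟩ := exists_nhds_W _ hc h0
  have hBi : {L ∈ B | L.det ≠ 0} ∈ 𝓝 (1 : Matrix (Fin (s + 1)) (Fin (s + 1)) ℝ) := by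
    have : ∀ᶠ L in 𝓝 (1 : Matrix (Fin (s + 1)) (Fin (s + 1)) ℝ), L.det ≠ 0 := by
      have hcd : Continuous fun L : Matrix (Fin (s + 1)) (Fin (s + 1)) ℝ => L.det :=
        Continuous.matrix_det continuous_id
      exact hcd.continuousAt.eventually_ne (by rw [Matrix.det_one]; exact one_ne_zero)
    exact Filter.inter_mem hB this
  obtain ⟨κ₀, hκ₀, hκ₀2⟩ := LB s _ hBi
  -- make `κ` real
  set κ : ℝ≥0∞ := min κ₀ 1 with hκdef
  have hκ0 : κ ≠ 0 := by
    rw [hκdef, Ne, ← nonpos_iff_eq_zero, min_le_iff]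
    push Not
    exact ⟨pos_iff_ne_zero.2 hκ₀, by simp⟩
  have hκt : κ ≠ ⊤ := ne_top_of_le_ne_top ENNReal.one_ne_top (min_le_right _ _)
  have hκp : 0 < κ.toReal := ENNReal.toReal_pos hκ0 hκt
  have hM0 : 0 ≤ M := (norm_nonneg _).trans (hM 0)
  set K : ℝ := (mass s).toReal * M ^ 2 with hK
  have hK0 : 0 ≤ K := by positivity
  refine ⟨(K + 1) / (κ.toReal * c ^ 2) * (1 + η) ^ (s + 1), η, hη, by positivity, ?_⟩
  intro X hX S hS
  have hX0 : (0 : ℝ) < X := by linarith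
  have hXne : X ≠ 0 := hX0.ne'
  have hη1 : 0 < 1 + η := by linarith
  set D : ℝ := ((1 + η) * X) ^ (s + 1) with hD
  have hD0 : 0 < D := by positivity
  set h : Matrix (Fin (s + 2)) (Fin (s + 2)) ℝ := td (s + 1) X⁻¹ * g₀ with hh
  have hyp : LBhyp s {L ∈ B | L.det ≠ 0} X φ h S
      (fun m => ENNReal.ofReal (‖lam m‖ ^ 2 * (c ^ 2 / D))) := by
    intro L hL m hm
    obtain ⟨hm1, hm2⟩ := hS m hm
    have hm0 : 0 < (m : ℝ) := by linarith
    set g := td (s + 1) X⁻¹ * emb L 0 * g₀ with hg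
    have e1 : emb (cj X L) 0 * h = g := by
      have h1 : (emb (cj X L) 0 : Matrix (Fin (s + 2)) (Fin (s + 2)) ℝ) =
          td (s + 1) X⁻¹ * emb L 0 * td (s + 1) X := by
        unfold cj
        rw [← emb_td, ← emb_td, emb_mul, emb_mul]
        simp
      rw [h1, hh, hg]
      calc td (s + 1) X⁻¹ * emb L 0 * td (s + 1) X * (td (s + 1) X⁻¹ * g₀)
          = td (s + 1) X⁻¹ * emb L 0 * (td (s + 1) X * td (s + 1) X⁻¹) * g₀ := by
            simp only [Matrix.mul_assoc]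
        _ = _ := by rw [td_inv hXne, Matrix.mul_one]
    have hgd : g.det ≠ 0 := by
      rw [hg, Matrix.det_mul, Matrix.det_mul, det_td, det_emb]
      exact mul_ne_zero (mul_ne_zero (inv_ne_zero hXne) hL.2) hg₀
    have e2 : td (s + 1) m * g = td (s + 1) ((m : ℝ) / X) * emb L 0 * g₀ := by
      rw [hg, ← Matrix.mul_assoc, ← Matrix.mul_assoc, td_mul, div_eq_mul_inv]
    have h2 := hH m (by exact_mod_cast hm0) g hgd
    rw [e2] at h2
    have h3 : |(m : ℝ) / X - 1| ≤ η := by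
      rw [abs_of_nonneg (by rw [sub_nonneg, le_div_iff₀ hX0]; linarith), sub_le_iff_le_add,
        div_le_iff₀ hX0]
      linarith
    have h4 := hcB _ h3 L hL.1
    have h5 : (m : ℝ) ^ (s + 1) * ‖Wr s φ m g‖ ^ 2 = ‖lam m‖ ^ 2 *
        ‖Wr s φ 1 (td (s + 1) ((m : ℝ) / X) * emb L 0 * g₀)‖ ^ 2 := by
      have h6 := congrArg (fun z => ‖z‖ ^ 2) h2
      simp only [norm_mul, norm_pow, Complex.norm_real, Real.norm_eq_abs,
        abs_of_nonneg (Real.sqrt_nonneg _), mul_pow] at h6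
      rw [← h6, ← pow_mul, mul_comm (s + 1) 2, pow_mul, Real.sq_sqrt hm0.le]
    have h7 : (m : ℝ) ^ (s + 1) ≤ D := pow_le_pow_left₀ hm0.le hm2 _
    have h8 : ‖lam m‖ ^ 2 * (c ^ 2 / D) ≤ ‖Wr s φ m g‖ ^ 2 := by
      rw [mul_div_assoc', div_le_iff₀ hD0]
      calc ‖lam m‖ ^ 2 * c ^ 2 ≤ ‖lam m‖ ^ 2 *
            ‖Wr s φ 1 (td (s + 1) ((m : ℝ) / X) * emb L 0 * g₀)‖ ^ 2 := by
            gcongr
        _ = (m : ℝ) ^ (s + 1) * ‖Wr s φ m g‖ ^ 2 := h5.symm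
        _ ≤ D * ‖Wr s φ m g‖ ^ 2 := by gcongr
        _ = _ := mul_comm _ _
    rw [e1, ← ofReal_norm, ← ENNReal.ofReal_pow (norm_nonneg _)]
    exact ENNReal.ofReal_le_ofReal h8
  have hmain := hκ₀2 X hX φ hφ ⟨M, hM⟩ hP h S _ hyp
  have hup := En_le hM h (s := s)
  have h9 : κ * ENNReal.ofReal (X ^ s) *
      ∑ m ∈ S, ENNReal.ofReal (‖lam m‖ ^ 2 * (c ^ 2 / D)) ≤
      mass s * ENNReal.ofReal M ^ 2 := by
    refine le_trans ?_ (hmain.trans hup)
    gcongr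
    exact min_le_left _ _
  rw [← ENNReal.ofReal_sum_of_nonneg (fun m _ => by positivity)] at h9
  have h10 := ENNReal.toReal_mono
    (ENNReal.mul_ne_top (mass_ne_top s) (ENNReal.pow_ne_top ENNReal.ofReal_ne_top)) h9
  rw [ENNReal.toReal_mul, ENNReal.toReal_mul, ENNReal.toReal_mul, ENNReal.toReal_pow,
    ENNReal.toReal_ofReal (by positivity), ENNReal.toReal_ofReal hM0,
    ENNReal.toReal_ofReal (Finset.sum_nonneg fun m _ => by positivity), ← Finset.sum_mul] at h10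
  have h11 : κ.toReal * X ^ s * ((∑ m ∈ S, ‖lam m‖ ^ 2) * (c ^ 2 / D)) ≤ K := h10
  set T := ∑ m ∈ S, ‖lam m‖ ^ 2 with hT
  have h12 : T * (κ.toReal * c ^ 2 * X ^ s) ≤ K * D := by
    have : κ.toReal * X ^ s * (T * (c ^ 2 / D)) = T * (κ.toReal * c ^ 2 * X ^ s) / D := by
      ring
    rw [this, div_le_iff₀ hD0] at h11
    exact h11
  have h13 : K * D ≤ (K + 1) * D := by gcongr; linarith
  have h14 : (K + 1) / (κ.toReal * c ^ 2) * (1 + η) ^ (s + 1) * X =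
      (K + 1) * D / (κ.toReal * c ^ 2 * X ^ s) := by
    rw [hD, mul_pow]
    field_simp
    ring
  rw [h14, le_div_iff₀ (by positivity)]
  exact h12.trans h13

end

theorem ra_ind {f : ℕ → ℝ} (hf : ∀ k, 0 ≤ f k) {C η : ℝ} (hη : 0 < η) (hC : 0 < C)
    (h : ∀ X : ℝ, 1 ≤ X → ∀ S : Finset ℕ, (∀ m ∈ S, X ≤ m ∧ (m : ℝ) ≤ (1 + η) * X) →
      ∑ m ∈ S, f m ≤ C * X) (x : ℕ) : ∑ k ∈ Finset.Icc 1 x, f k ≤ (C + C / η) * x := by
  have hCη : 0 < C / η := by positivity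
  induction x using Nat.strong_induction_on with
  | _ x ih =>
    by_cases hx0 : x = 0
    · subst hx0
      simp
    have hx1 : (1 : ℝ) ≤ x := by exact_mod_cast Nat.pos_of_ne_zero hx0
    have h1η : 0 < 1 + η := by linarith
    by_cases hx : (x : ℝ) ≤ 1 + η
    · have h1 := h 1 le_rfl (Finset.Icc 1 x) (by
        intro m hm
        rw [Finset.mem_Icc] at hm
        have h2 : (1 : ℝ) ≤ m := by exact_mod_cast hm.1
        have h3 : (m : ℝ) ≤ x := by exact_mod_cast hm.2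
        exact ⟨h2, by linarith⟩)
      nlinarith
    · push Not at hx
      set X : ℝ := x / (1 + η) with hX
      have hX1 : 1 ≤ X := by
        rw [hX, le_div_iff₀ h1η]
        linarith
      have hXx : X * (1 + η) = x := by rw [hX]; field_simp
      set y : ℕ := ⌊X⌋₊ with hy
      have hyX : (y : ℝ) ≤ X := Nat.floor_le (by linarith)
      have hXy : X < y + 1 := Nat.lt_floor_add_one X
      have hyx : y < x := by
        have : (y : ℝ) < x := by nlinarith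
        exact_mod_cast this
      have h1 := ih y hyx
      have h2 := h X hX1 (Finset.Icc (y + 1) x) (by
        intro m hm
        rw [Finset.mem_Icc] at hm
        have h2 : ((y + 1 : ℕ) : ℝ) ≤ m := by exact_mod_cast hm.1
        have h3 : (m : ℝ) ≤ x := by exact_mod_cast hm.2
        push_cast at h2
        exact ⟨by linarith, by linarith⟩)
      have h3 : Finset.Icc 1 x ⊆ Finset.Icc 1 y ∪ Finset.Icc (y + 1) x := by
        intro k hk
        rw [Finset.mem_Icc] at hk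
        rw [Finset.mem_union, Finset.mem_Icc, Finset.mem_Icc]
        omega
      have h4 : ∑ k ∈ Finset.Icc 1 x, f k ≤ ∑ k ∈ Finset.Icc 1 y, f k +
          ∑ k ∈ Finset.Icc (y + 1) x, f k := by
        refine (Finset.sum_le_sum_of_subset_of_nonneg h3 (fun k _ _ => hf k)).trans ?_
        rw [← Finset.sum_union_inter]
        exact le_add_of_nonneg_right (Finset.sum_nonneg fun k _ => hf k)
      have h5 : (C + C / η) * (y : ℝ) ≤ (C + C / η) * X :=
        mul_le_mul_of_nonneg_left hyX (by positivity)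
      have h6 : (C + C / η) * x = (C + C / η) * X + C * η * X + C * X := by
        rw [← hXx]
        field_simp
        ring
      have h7 : 0 ≤ C * η * X := by positivity
      linarith

/-- RA: the Rankin-Selberg upper bound -/
theorem rs_all_pr {e : Fin 2} {lam : ℕ → ℂ} {s : ℕ} {ν : Fin (s + 2) → ℂ}
    {φ : Matrix (Fin (s + 2)) (Fin (s + 2)) ℝ → ℂ}
    (h : SphericalForm (s + 2) e ν lam φ) :
    ∃ C : ℝ, ∀ x : ℕ, ∑ k ∈ Finset.Icc 1 x, ‖lam k‖ ^ 2 ≤ C * x := by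
  obtain ⟨M, hM⟩ := h.bounded
  have hmeas := RS.measurable_cut h.continuous
  have hbd := RS.norm_cut_le hM
  have hP : RS.PInv (cut φ) := by
    intro γ c Y
    by_cases hY : (Matrix.of Y).det = 0
    · rw [RS.cut_lm_zero φ _ Y hY, RS.cut_of_eq φ hY]
    · rw [RS.cut_lm φ (by rw [RS.det_toR]; exact one_ne_zero) Y hY, RS.cut_of_ne φ hY]
      have h1 := h.left (RS.par γ c).1 (by rw [Matrix.SpecialLinearGroup.det_coe]; exact isUnit_one)
        (Matrix.of Y) hY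
      rw [Matrix.SpecialLinearGroup.det_coe, Int.cast_one, one_pow, one_mul] at h1
      exact h1
  obtain ⟨g₀, hg₀, hW⟩ := h.generic
  rw [RS.whittaker_eq φ hg₀] at hW
  have heq : (fun g : Mt (s + 2) => RS.whit (cut φ) 1 g) = RS.Wr s (cut φ) 1 := by
    funext g
    exact RS.whit_eq_Wr s (cut φ) hmeas ⟨_, hbd⟩ 1 g
  have hc := RS.continuousAt_whit hmeas hbd (RS.continuousAt_cut h.continuous) 1 (g₀ := g₀) hg₀
  rw [heq] at hc
  rw [RS.whit_eq_Wr s (cut φ) hmeas ⟨_, hbd⟩ 1 g₀] at hW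
  have hH : ∀ m : ℕ, 0 < m → ∀ g : Matrix (Fin (s + 2)) (Fin (s + 2)) ℝ, g.det ≠ 0 →
      ((√(m : ℝ) : ℝ) : ℂ) ^ (s + 1) * RS.Wr s (cut φ) m g =
        lam m * RS.Wr s (cut φ) 1 (RS.td (s + 1) m * g) := by
    intro m hm g hg
    have := wr_hecke h (k := m) (m := 1) hm (Nat.coprime_one_right m) hg
    rwa [mul_one] at this
  obtain ⟨C, η, hη, hC, hb⟩ := ra_short hmeas hbd hP hH hg₀ hc hW
  exact ⟨C + C / η, ra_ind (fun k => by positivity) hη hC hb⟩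

alias rs_all := rs_all_pr

end Pool.Agent.GJ
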