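import Pool.Agent.Lib_helper19.GJ.Defs
import Pool.Agent.Lib_helper19.GJ.HC

set_option autoImplicit false

namespace Pool.Agent.GJ

open Complex MeasureTheory Filter Topology Matrix
open Pool.Agent.G4 (par RSB)
open Pool.Agent.RS (Mt SLZ toR lm Xs wG cut cube)
open scoped ENNReal

theorem TA_ne {n : ℕ} {φ : Matrix (Fin n) (Fin n) ℝ → ℂ}
    (h : ∃ g : Matrix (Fin n) (Fin n) ℝ, g.det ≠ 0 ∧ RS.Main.whittaker φ g ≠ 0) :
    ∃ g : Matrix (Fin n) (Fin n) ℝ, g.det ≠ 0 ∧ φ g ≠ 0 := by
  obtain ⟨g, hg, hw⟩ := h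
  by_contra hcon
  push Not at hcon
  apply hw
  unfold RS.Main.whittaker
  have h0 : ∀ x : Fin n → Fin n → ℝ, φ (RS.Main.unipotent x * g) = 0 := by
    intro x
    apply hcon
    rw [Matrix.det_mul]
    have : (RS.Main.unipotent x).det = 1 := by
      rw [Matrix.det_of_isUpperTriangular]
      · simp [RS.Main.unipotent]
      · intro i j hij
        have hij' : j < i := hij
        simp [RS.Main.unipotent, not_lt.2 hij'.le, hij'.ne']
    rw [this, one_mul]; exact hg
  simp only [h0, zero_mul, integral_zero]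

theorem TA_mem {n m : ℕ} {A : Fin n → Fin n → ℕ} (hA : A ∈ hnf n m) :
    (∀ i j, j < i → A i j = 0) ∧ (∀ i j, i < j → A i j < A i i) ∧ ∏ i, A i i = m := by
  unfold hnf at hA
  exact (Finset.mem_filter.1 hA).2

theorem TA_mem_of {n m : ℕ} {A : Fin n → Fin n → ℕ} (hm : 0 < m)
    (h1 : ∀ i j, j < i → A i j = 0) (h2 : ∀ i j, i < j → A i j < A i i)
    (h3 : ∏ i, A i i = m) : A ∈ hnf n m := by
  unfold hnf
  rw [Finset.mem_filter]
  refine ⟨?_, h1, h2, h3⟩
  have hd : ∀ i, A i i ≤ m := by
    intro i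
    apply Nat.le_of_dvd hm
    rw [← h3]
    exact Finset.dvd_prod_of_mem (fun i => A i i) (Finset.mem_univ i)
  rw [Fintype.mem_piFinset]
  intro i
  rw [Fintype.mem_piFinset]
  intro j
  rw [Finset.mem_range]
  rcases lt_trichotomy i j with h | h | h
  · have := h2 i j h; have := hd i; omega
  · subst h; have := hd i; omega
  · rw [h1 i j h]; omega

/-- the Hermite normal forms whose rows from `i` on are those of the identity -/
def TA_S (n m i : ℕ) : Finset (Fin n → Fin n → ℕ) :=
  (hnf n m).filter fun A => ∀ a : Fin n, i ≤ (a : ℕ) → ∀ c : Fin n, A a c = if a = c then 1 else 0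

def TA_B (n p : ℕ) (i : Fin n) : Finset (Fin n → ℕ) :=
  Fintype.piFinset fun c => if i < c then Finset.range p else {0}

theorem TA_B_mem {n p : ℕ} {i : Fin n} {b : Fin n → ℕ} : b ∈ TA_B n p i ↔
    (∀ c, i < c → b c < p) ∧ ∀ c, ¬ i < c → b c = 0 := by
  unfold TA_B
  rw [Fintype.mem_piFinset]
  constructor
  · intro h
    constructor
    · intro c hc
      have := h c
      rw [if_pos hc, Finset.mem_range] at this
      exact this
    · intro c hc
      have := h c
      rw [if_neg hc, Finset.mem_singleton] at this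
      exact this
  · rintro ⟨h1, h2⟩ c
    by_cases hc : i < c
    · rw [if_pos hc, Finset.mem_range]; exact h1 c hc
    · rw [if_neg hc, Finset.mem_singleton]; exact h2 c hc

def TA_up {n : ℕ} (p : ℕ) (i : Fin n) (b : Fin n → ℕ) (A : Fin n → Fin n → ℕ) :
    Fin n → Fin n → ℕ :=
  fun a c => if a = i then p * A a c + b c else A a c

def TA_dn {n : ℕ} (p : ℕ) (i : Fin n) (A : Fin n → Fin n → ℕ) : Fin n → Fin n → ℕ :=
  fun a c => if a = i then A a c / p else A a c

noncomputable def TA_E {n : ℕ} (p : ℕ) (i : Fin n) (b : Fin n → ℕ) : Matrix (Fin n) (Fin n) ℝ :=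
  Matrix.of fun a c => if a = i then (if c = i then (p : ℝ) else (b c : ℝ)) else
    if a = c then 1 else 0

theorem TA_mul {n m p : ℕ} {i : Fin n} {b : Fin n → ℕ} (hb : b ∈ TA_B n p i)
    {A : Fin n → Fin n → ℕ} (hA : A ∈ TA_S n m (i + 1)) :
    natM (TA_up p i b A) = TA_E p i b * natM A := by
  obtain ⟨hb1, hb2⟩ := TA_B_mem.1 hb
  obtain ⟨hA1, hA2⟩ := Finset.mem_filter.1 hA
  ext a c
  rw [Matrix.mul_apply]
  by_cases ha : a = i
  · subst ha
    simp only [natM, TA_up, TA_E, Matrix.of_apply, if_true]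
    push_cast
    have e1 : ∀ m' : Fin n, (if m' = a then (p : ℝ) else (b m' : ℝ)) * (A m' c : ℝ) =
        (if m' = a then (p : ℝ) * (A a c : ℝ) else 0) + (if m' = c then (b c : ℝ) else 0) := by
      intro m'
      by_cases h1 : m' = a
      · subst h1
        rw [if_pos rfl, if_pos rfl]
        by_cases h2 : m' = c
        · subst h2
          rw [if_pos rfl, hb2 m' (lt_irrefl _)]; simp
        · rw [if_neg h2]; simp
      · rw [if_neg h1, if_neg h1, zero_add]
        by_cases h3 : a < m'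
        · rw [hA2 m' (by simp only [Fin.lt_def] at h3; omega) c]
          by_cases h2 : m' = c
          · subst h2; simp
          · rw [if_neg h2, if_neg h2]; simp
        · rw [hb2 m' h3]
          by_cases h2 : m' = c
          · subst h2; rw [if_pos rfl, hb2 m' h3]; simp
          · rw [if_neg h2]; simp
    rw [Finset.sum_congr rfl fun m' _ => e1 m', Finset.sum_add_distrib]
    simp
  · simp only [natM, TA_up, TA_E, Matrix.of_apply, if_neg ha]
    simp

theorem TA_up_mem {n k p : ℕ} (hp : p.Prime) {i : Fin n} {b : Fin n → ℕ} (hb : b ∈ TA_B n p i)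
    {A : Fin n → Fin n → ℕ} (hA : A ∈ TA_S n (p ^ k) (i + 1)) :
    TA_up p i b A ∈ TA_S n (p ^ (k + 1)) (i + 1) ∧ TA_up p i b A ∉ TA_S n (p ^ (k + 1)) i := by
  obtain ⟨hb1, hb2⟩ := TA_B_mem.1 hb
  obtain ⟨hA1, hA2⟩ := Finset.mem_filter.1 hA
  obtain ⟨a1, a2, a3⟩ := TA_mem hA1
  have hpp := hp.pos
  have hpos : ∀ a, 0 < A a a := by
    intro a
    rcases Nat.eq_zero_or_pos (A a a) with h | h
    · exfalso
      have h0 : ∏ i, A i i = 0 := Finset.prod_eq_zero (Finset.mem_univ a) h
      rw [h0] at a3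
      exact absurd a3.symm (pow_pos hpp k).ne'
    · exact h
  have hdiag : TA_up p i b A i i = p * A i i := by
    simp [TA_up, hb2 i (lt_irrefl _)]
  refine ⟨?_, ?_⟩
  · unfold TA_S
    rw [Finset.mem_filter]
    refine ⟨TA_mem_of (pow_pos hpp _) ?_ ?_ ?_, ?_⟩
    · intro a c h
      unfold TA_up
      by_cases ha : a = i
      · rw [if_pos ha]
        subst ha
        rw [a1 a c h, hb2 c (not_lt.2 h.le), mul_zero]
      · rw [if_neg ha]; exact a1 a c h
    · intro a c h
      by_cases ha : a = i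
      · subst ha
        rw [hdiag]
        have h1 := a2 a c h
        have h2 := hb1 c h
        have h3 : TA_up p a b A a c = p * A a c + b c := by simp [TA_up]
        rw [h3]
        calc p * A a c + b c < p * A a c + p := by omega
          _ = p * (A a c + 1) := by ring
          _ ≤ p * A a a := Nat.mul_le_mul_left p h1
      · unfold TA_up
        rw [if_neg ha, if_neg ha]; exact a2 a c h
    · have h4 : ∀ a, TA_up p i b A a a = (if a = i then p else 1) * A a a := by
        intro a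
        by_cases ha : a = i
        · subst ha; rw [hdiag, if_pos rfl]
        · rw [if_neg ha, one_mul]; simp [TA_up, ha]
      rw [Finset.prod_congr rfl fun a _ => h4 a, Finset.prod_mul_distrib, a3,
        Finset.prod_ite_eq' Finset.univ i (fun _ => p), if_pos (Finset.mem_univ i)]
      ring
    · intro a ha c
      have hai : a ≠ i := by
        rintro rfl; omega
      simp only [TA_up, if_neg hai]
      exact hA2 a ha c
  · intro hcon
    have h5 := (Finset.mem_filter.1 hcon).2 i le_rfl i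
    rw [hdiag, if_pos rfl] at h5
    have h6 := hp.two_le
    have h7 := hpos i
    nlinarith

theorem TA_dn_mem {n k p : ℕ} (hp : p.Prime) {i : Fin n}
    {A : Fin n → Fin n → ℕ} (hA : A ∈ TA_S n (p ^ (k + 1)) (i + 1))
    (hA' : A ∉ TA_S n (p ^ (k + 1)) i) :
    TA_dn p i A ∈ TA_S n (p ^ k) (i + 1) ∧ (fun c => A i c % p) ∈ TA_B n p i := by
  obtain ⟨hA1, hA2⟩ := Finset.mem_filter.1 hA
  obtain ⟨a1, a2, a3⟩ := TA_mem hA1
  have hpp := hp.pos
  have hdvd : A i i ∣ p ^ (k + 1) := by
    rw [← a3]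
    exact Finset.dvd_prod_of_mem (fun i => A i i) (Finset.mem_univ i)
  have hone : A i i ≠ 1 := by
    intro h1
    apply hA'
    unfold TA_S
    rw [Finset.mem_filter]
    refine ⟨hA1, ?_⟩
    intro a ha c
    by_cases hai : a = i
    · subst hai
      rcases lt_trichotomy a c with h | h | h
      · rw [if_neg h.ne]; have := a2 a c h; omega
      · subst h; rw [if_pos rfl]; exact h1
      · rw [if_neg h.ne']; exact a1 a c h
    · have : (i : ℕ) ≠ (a : ℕ) := fun h => hai (Fin.ext h.symm)
      exact hA2 a (by omega) c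
  have hpd : p ∣ A i i := by
    obtain ⟨j, hj, hj'⟩ := (Nat.dvd_prime_pow hp).1 hdvd
    rcases j with _ | j
    · exact absurd hj' hone
    · rw [hj', pow_succ]; exact dvd_mul_left _ _
  obtain ⟨q, hq⟩ := hpd
  refine ⟨?_, ?_⟩
  · unfold TA_S
    rw [Finset.mem_filter]
    refine ⟨TA_mem_of (pow_pos hpp _) ?_ ?_ ?_, ?_⟩
    · intro a c h
      unfold TA_dn
      split_ifs
      · rw [a1 a c h]; exact Nat.zero_div p
      · exact a1 a c h
    · intro a c h
      by_cases ha : a = i
      · subst ha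
        have h1 := a2 a c h
        simp only [TA_dn, if_true]
        rw [hq, Nat.mul_div_cancel_left _ hpp]
        rw [hq] at h1
        exact Nat.div_lt_of_lt_mul h1
      · simp only [TA_dn, if_neg ha]; exact a2 a c h
    · have h4 : ∀ a, (if a = i then p else 1) * TA_dn p i A a a = A a a := by
        intro a
        by_cases ha : a = i
        · subst ha
          simp only [TA_dn, if_true]
          rw [hq, Nat.mul_div_cancel_left _ hpp]
        · simp [TA_dn, ha]
      have h5 : p * ∏ a, TA_dn p i A a a = p * p ^ k := by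
        have h6 : ∏ a, (if a = i then p else 1) * TA_dn p i A a a = p ^ (k + 1) := by
          rw [Finset.prod_congr rfl fun a _ => h4 a, a3]
        rw [Finset.prod_mul_distrib, Finset.prod_ite_eq' Finset.univ i (fun _ => p),
          if_pos (Finset.mem_univ i)] at h6
        rw [h6]; ring
      exact Nat.eq_of_mul_eq_mul_left hpp h5
    · intro a ha c
      have hai : a ≠ i := by
        rintro rfl; omega
      simp only [TA_dn, if_neg hai]
      exact hA2 a ha c
  · rw [TA_B_mem]
    refine ⟨fun c _ => Nat.mod_lt _ hpp, fun c hc => ?_⟩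
    rcases lt_or_eq_of_le (not_lt.1 hc) with h | h
    · show A i c % p = 0
      rw [a1 i c h]; exact Nat.zero_mod p
    · subst h
      show A c c % p = 0
      rw [hq]; exact Nat.mul_mod_right p q

theorem TA_rec {n p k : ℕ} (hp : p.Prime) (i : Fin n) (f : Matrix (Fin n) (Fin n) ℝ → ℂ)
    (x : Matrix (Fin n) (Fin n) ℝ) :
    ∑ A ∈ TA_S n (p ^ (k + 1)) (i + 1), f ((natM A)⁻¹ * x) =
      ∑ A ∈ TA_S n (p ^ (k + 1)) i, f ((natM A)⁻¹ * x) +
        ∑ b ∈ TA_B n p i, ∑ A ∈ TA_S n (p ^ k) (i + 1),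
          f ((natM A)⁻¹ * ((TA_E p i b)⁻¹ * x)) := by
  have hpp := hp.pos
  have hsub : TA_S n (p ^ (k + 1)) i ⊆ TA_S n (p ^ (k + 1)) (i + 1) := by
    intro A hA
    unfold TA_S at hA ⊢
    rw [Finset.mem_filter] at hA ⊢
    exact ⟨hA.1, fun a ha c => hA.2 a (by omega) c⟩
  rw [← Finset.sum_sdiff hsub, add_comm]
  congr 1
  rw [← Finset.sum_product']
  refine Finset.sum_nbij' (fun A => ((fun c => A i c % p), TA_dn p i A))
    (fun q => TA_up p i q.1 q.2) ?_ ?_ ?_ ?_ ?_
  · intro A hA
    rw [Finset.mem_sdiff] at hA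
    obtain ⟨h1, h2⟩ := TA_dn_mem hp hA.1 hA.2
    exact Finset.mem_product.2 ⟨h2, h1⟩
  · rintro ⟨b, A⟩ hq
    obtain ⟨h1, h2⟩ := Finset.mem_product.1 hq
    exact Finset.mem_sdiff.2 (TA_up_mem hp h1 h2)
  · intro A hA
    funext a c
    simp only [TA_up, TA_dn]
    by_cases ha : a = i
    · subst ha
      simp only [if_true]
      exact Nat.div_add_mod (A a c) p
    · simp only [if_neg ha]
  · rintro ⟨b, A⟩ hq
    obtain ⟨h1, h2⟩ := Finset.mem_product.1 hq
    obtain ⟨hb1, hb2⟩ := TA_B_mem.1 h1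
    have hb : ∀ c, b c < p := by
      intro c
      by_cases hc : i < c
      · exact hb1 c hc
      · have := hb2 c hc; simp only at this; omega
    refine Prod.ext ?_ ?_
    · funext c
      simp only [TA_up, if_true]
      rw [Nat.mul_add_mod, Nat.mod_eq_of_lt (hb c)]
    · funext a c
      simp only [TA_up, TA_dn]
      by_cases ha : a = i
      · subst ha
        simp only [if_true]
        rw [Nat.mul_add_div hpp, Nat.div_eq_of_lt (hb c), add_zero]
      · simp only [if_neg ha]
  · intro A hA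
    rw [Finset.mem_sdiff] at hA
    obtain ⟨h1, h2⟩ := TA_dn_mem hp hA.1 hA.2
    have h3 := TA_mul h2 h1
    have h4 : TA_up p i (fun c => A i c % p) (TA_dn p i A) = A := by
      funext a c
      simp only [TA_up, TA_dn]
      by_cases ha : a = i
      · subst ha
        simp only [if_true]
        exact Nat.div_add_mod (A a c) p
      · simp only [if_neg ha]
    rw [h4] at h3
    show f ((natM A)⁻¹ * x) = f ((natM (TA_dn p i A))⁻¹ * ((TA_E p i fun c => A i c % p)⁻¹ * x))
    rw [h3, Matrix.mul_inv_rev, Matrix.mul_assoc]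

theorem TA_one (n i : ℕ) : TA_S n 1 i = hnf n 1 := by
  unfold TA_S
  rw [Finset.filter_eq_self]
  intro A hA a _ c
  obtain ⟨a1, a2, a3⟩ := TA_mem hA
  have hd : ∀ a, A a a = 1 := by
    intro a
    apply Nat.eq_one_of_dvd_one
    rw [← a3]
    exact Finset.dvd_prod_of_mem (fun i => A i i) (Finset.mem_univ a)
  rcases lt_trichotomy a c with h | h | h
  · rw [if_neg h.ne]; have := a2 a c h; have := hd a; omega
  · subst h; rw [if_pos rfl]; exact hd a
  · rw [if_neg h.ne']; exact a1 a c h

theorem TA_top (n m : ℕ) : TA_S n m n = hnf n m := by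
  unfold TA_S
  rw [Finset.filter_eq_self]
  intro A _ a ha
  exact absurd a.2 (not_lt.2 ha)

theorem TA_bot {n m : ℕ} (hm : m ≠ 1) : TA_S n m 0 = ∅ := by
  unfold TA_S
  rw [Finset.filter_eq_empty_iff]
  intro A hA hA'
  obtain ⟨-, -, a3⟩ := TA_mem hA
  apply hm
  rw [← a3]
  exact Finset.prod_eq_one fun i _ => by rw [hA' i (Nat.zero_le _) i, if_pos rfl]

theorem TA_main {n p : ℕ} (hp : p.Prime) {f : Matrix (Fin n) (Fin n) ℝ → ℂ} {l : ℕ → ℂ}
    (hf : ∀ k x, ∑ A ∈ hnf n (p ^ k), f ((natM A)⁻¹ * x) = l k * f x) :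
    ∀ t : ℕ, t ≤ n → ∃ G : ℕ → Matrix (Fin n) (Fin n) ℝ → ℂ, G 0 = f ∧ (∀ j, t < j → G j = 0) ∧
      ∀ k x, ∑ A ∈ TA_S n (p ^ k) (n - t), f ((natM A)⁻¹ * x) =
        ∑ j ∈ Finset.range (k + 1), l (k - j) * G j x := by
  intro t
  induction t with
  | zero =>
      intro _
      refine ⟨fun j => if j = 0 then f else 0, by simp, fun j hj => by simp [hj.ne'], ?_⟩
      intro k x
      rw [Nat.sub_zero, TA_top, hf, Finset.sum_range_succ']
      simp
  | succ t ih =>
      intro ht
      obtain ⟨G, hG0, hG1, hG2⟩ := ih (by omega)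
      set i : Fin n := ⟨n - (t + 1), by omega⟩ with hi
      have hi1 : (i : ℕ) + 1 = n - t := by simp [hi]; omega
      have hi0 : (i : ℕ) = n - (t + 1) := rfl
      set D : (Matrix (Fin n) (Fin n) ℝ → ℂ) → Matrix (Fin n) (Fin n) ℝ → ℂ := fun g x =>
        ∑ b ∈ TA_B n p i, g ((TA_E p i b)⁻¹ * x) with hD
      refine ⟨fun j => Nat.casesOn j (G 0) (fun j' => G (j' + 1) - D (G j')), hG0, ?_, ?_⟩
      · intro j hj
        rcases j with _ | j
        · omega
        · show G (j + 1) - D (G j) = 0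
          rw [hG1 (j + 1) (by omega), hG1 j (by omega)]
          funext x
          simp [hD]
      · intro k x
        rcases k with _ | k
        · have h1 := hG2 0 x
          rw [pow_zero, TA_one] at h1 ⊢
          rw [h1]
          simp
        · have h1 := hG2 (k + 1) x
          rw [← hi1, TA_rec hp i f x] at h1
          have h2 : ∑ b ∈ TA_B n p i, ∑ A ∈ TA_S n (p ^ k) (i + 1),
              f ((natM A)⁻¹ * ((TA_E p i b)⁻¹ * x)) =
              ∑ j ∈ Finset.range (k + 1), l (k - j) * D (G j) x := by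
            simp only [hD, Finset.mul_sum]
            conv_rhs => rw [Finset.sum_comm]
            refine Finset.sum_congr rfl fun b _ => ?_
            rw [hi1]
            exact hG2 k _
          rw [h2] at h1
          rw [← hi0, eq_sub_of_add_eq h1, Finset.sum_range_succ' _ (k + 1),
            Finset.sum_range_succ' _ (k + 1), add_sub_right_comm, ← Finset.sum_sub_distrib]
          congr 1
          refine Finset.sum_congr rfl fun j _ => ?_
          show _ = l (k + 1 - (j + 1)) * (G (j + 1) x - D (G j) x)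
          rw [Nat.add_sub_add_right]
          ring

variable {n : ℕ} {e : Fin 2} {ν : Fin n → ℂ} {lam : ℕ → ℂ} {φ : Matrix (Fin n) (Fin n) ℝ → ℂ}

/-- TA: rationality of the Euler factors -/
theorem tam_pr (h : SphericalForm n e ν lam φ) (hn : 0 < n) {p : ℕ} (hp : p.Prime) :
    ∃ c : ℕ → ℂ, c 0 = 1 ∧ (∀ i, n < i → c i = 0) ∧ ∀ k : ℕ, 0 < k →
      ∑ i ∈ Finset.range (k + 1), c i * lam (p ^ (k - i)) = 0 := by
  have hpp := hp.pos
  obtain ⟨x₀, hx₀, hφ⟩ := TA_ne h.generic
  set f : Matrix (Fin n) (Fin n) ℝ → ℂ := fun x => if x.det = 0 then 0 else φ x with hf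
  set q : ℂ := ((√(p : ℝ) : ℝ) : ℂ) ^ (n - 1) with hq
  have hq0 : q ≠ 0 := by
    rw [hq]
    apply pow_ne_zero
    rw [Complex.ofReal_ne_zero]
    exact (Real.sqrt_pos.2 (by exact_mod_cast hpp)).ne'
  have hsq : ∀ k : ℕ, ((√((p ^ k : ℕ) : ℝ) : ℝ) : ℂ) ^ (n - 1) = q ^ k := by
    intro k
    have h1 : √((p ^ k : ℕ) : ℝ) = √(p : ℝ) ^ k := by
      rw [Real.sqrt_eq_iff_mul_self_eq (by positivity) (by positivity)]
      push_cast
      rw [← mul_pow, Real.mul_self_sqrt (by positivity)]
    rw [h1, hq]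
    push_cast
    rw [← pow_mul, ← pow_mul, mul_comm]
  have hH : ∀ k x, ∑ A ∈ hnf n (p ^ k), f ((natM A)⁻¹ * x) = (q ^ k * lam (p ^ k)) * f x := by
    intro k x
    have hdet : ∀ A ∈ hnf n (p ^ k), ((natM A)⁻¹).det ≠ 0 := by
      intro A hA
      have h2 := (hnf_det hA).2
      rw [Matrix.det_nonsing_inv, h2, Ring.inverse_eq_inv']
      apply inv_ne_zero
      exact_mod_cast (pow_pos hpp k).ne'
    by_cases hx : x.det = 0
    · rw [Finset.sum_eq_zero]
      · simp [hf, hx]
      · intro A hA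
        simp [hf, Matrix.det_mul, hx]
    · have h3 : ∀ A ∈ hnf n (p ^ k), f ((natM A)⁻¹ * x) = φ ((natM A)⁻¹ * x) := by
        intro A hA
        simp only [hf]
        rw [if_neg]
        rw [Matrix.det_mul]
        exact mul_ne_zero (hdet A hA) hx
      rw [Finset.sum_congr rfl h3, h.hecke (p ^ k) (pow_pos hpp k) x hx, hsq]
      simp only [hf]
      rw [if_neg hx]
  obtain ⟨G, hG0, hG1, hG2⟩ := TA_main hp hH n le_rfl
  have hf0 : f x₀ ≠ 0 := by simp only [hf]; rw [if_neg hx₀]; exact hφ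
  refine ⟨fun j => G j x₀ / f x₀ / q ^ j, ?_, ?_, ?_⟩
  · simp only [hG0, pow_zero, div_one]
    exact div_self hf0
  · intro j hj
    simp [hG1 j hj]
  · intro k hk
    have h1 := hG2 k x₀
    rw [Nat.sub_self, TA_bot, Finset.sum_empty] at h1
    · have h2 : ∑ i ∈ Finset.range (k + 1), G i x₀ / f x₀ / q ^ i * lam (p ^ (k - i)) =
          (∑ j ∈ Finset.range (k + 1), q ^ (k - j) * lam (p ^ (k - j)) * G j x₀) /
            (f x₀ * q ^ k) := by
        rw [Finset.sum_div]
        refine Finset.sum_congr rfl fun i hi => ?_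
        have hik : i ≤ k := by rw [Finset.mem_range] at hi; omega
        have h3 : q ^ k = q ^ (k - i) * q ^ i := by rw [← pow_add]; congr 1; omega
        rw [h3]
        field_simp
      rw [h2, ← h1, zero_div]
    · exact (Nat.one_lt_pow hk.ne' hp.one_lt).ne'

alias tam := tam_pr

end Pool.Agent.GJ
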