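import Pool.Agent.Lib_helper19.GJ.Defs
import Pool.Agent.Lib_helper19.GJ.EF
import Pool.Agent.Lib_helper19.GJ.LJ
import Pool.Agent.Lib_helper19.GJ.LM
import Pool.Agent.Lib_helper19.GJ.RA
import Pool.Agent.Lib_helper19.GJ.TA

/-!
# The system of a spherical form (block EX)
-/

namespace Pool.Agent.GJ

open Complex MeasureTheory Filter Topology Matrix
open Pool.Agent.G4 (par RSB)
open Pool.Agent.RS (Mt SLZ toR lm Xs wG cut cube)
open scoped ENNReal

theorem ex_sum {a : ℕ → ℂ} {C : ℝ}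
    (h : ∀ x : ℕ, ∑ k ∈ Finset.Icc 1 x, ‖a k‖ ^ 2 ≤ C * x) {s : ℂ} (hs : 1 < s.re) :
    LSeriesSummable a s := by
  have hC : 0 ≤ C := by
    have := h 1
    have h2 : 0 ≤ ∑ k ∈ Finset.Icc 1 1, ‖a k‖ ^ 2 := Finset.sum_nonneg fun k _ => by positivity
    rw [Nat.cast_one, mul_one] at this
    exact h2.trans this
  apply LSeriesSummable_of_sum_norm_bigO (r := 1) _ zero_le_one hs
  apply Asymptotics.IsBigO.of_bound (1 + C)
  filter_upwards with x
  have h1 : ∑ k ∈ Finset.Icc 1 x, ‖a k‖ ≤ ∑ k ∈ Finset.Icc 1 x, (1 + ‖a k‖ ^ 2) := by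
    apply Finset.sum_le_sum
    intro k _
    nlinarith [sq_nonneg (‖a k‖ - 1), norm_nonneg (a k)]
  rw [Finset.sum_add_distrib] at h1
  simp only [Finset.sum_const, Nat.card_Icc, Nat.add_sub_cancel, nsmul_eq_mul, mul_one] at h1
  have h2 := h x
  rw [Real.norm_of_nonneg (Finset.sum_nonneg fun k _ => norm_nonneg _), Real.rpow_one,
    Real.norm_of_nonneg (Nat.cast_nonneg x)]
  linarith

variable {n : ℕ} {e : Fin 2} {ν : Fin n → ℂ} {lam : ℕ → ℂ} {φ : Matrix (Fin n) (Fin n) ℝ → ℂ}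

/-- EX: the system of a spherical form -/
theorem exists_wsys_pr (h : SphericalForm n e ν lam φ) (hn : 2 ≤ n) : ∃ S : G5.WSys n,
    (∀ k : ℕ, 0 < k → S.a k = lam k) ∧ S.N = 1 ∧
      ∀ δ j, S.μ δ j = -(ν j) - aa e δ := by
  obtain ⟨s, rfl⟩ : ∃ s, n = s + 2 := ⟨n - 2, by omega⟩
  have hn0 : 0 < s + 2 := by omega
  obtain ⟨h1, hmul⟩ := lam_mul h
  obtain ⟨C, hC⟩ := rs_all h
  have hE : ∀ p : ℕ, ∃ α : Fin (s + 2) → ℂ, p.Prime →
      PowerSeries.mk (fun k => lam (p ^ k)) *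
        ∏ j, (1 - PowerSeries.C (α j) * PowerSeries.X) = 1 := by
    intro p
    by_cases hp : p.Prime
    · obtain ⟨c, c0, cn, hc⟩ := tam h hn0 hp
      obtain ⟨α, hα⟩ := eul_fac (s + 2) (l := fun k => lam (p ^ k)) (by simpa using h1) c0 cn hc
      exact ⟨α, fun _ => hα⟩
    · exact ⟨0, fun h => absurd h hp⟩
  choose α hα using hE
  let a : ℕ → ℂ := fun k => if k = 0 then 0 else lam k
  have ha : ∀ k : ℕ, k ≠ 0 → a k = lam k := fun k hk => if_neg hk
  refine ⟨{
    a := a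
    N := 1
    α := α
    μ := fun δ j => -(ν j) - aa e δ
    N_pos := one_pos
    a_zero := if_pos rfl
    a_one := (ha 1 one_ne_zero).trans h1
    a_mul := ?_
    euler := ?_
    rs := ?_
    fe := ?_ }, fun k hk => ha k hk.ne', rfl, fun δ j => rfl⟩
  · intro k m hkm
    by_cases hk : k = 0
    · subst hk
      rw [zero_mul]
      have h0 : a 0 = 0 := if_pos rfl
      rw [h0, zero_mul]
    · by_cases hm : m = 0
      · subst hm
        rw [mul_zero]
        have h0 : a 0 = 0 := if_pos rfl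
        rw [h0, mul_zero]
      · rw [ha k hk, ha m hm, ha _ (mul_ne_zero hk hm)]
        exact hmul k m (Nat.pos_of_ne_zero hk) (Nat.pos_of_ne_zero hm) hkm
  · intro p hp
    have e1 : (fun k => a (p ^ k)) = fun k => lam (p ^ k) :=
      funext fun k => ha _ (pow_ne_zero k hp.ne_zero)
    rw [e1]
    exact hα p hp
  · refine ⟨C, fun x => ?_⟩
    refine le_trans (le_of_eq ?_) (hC x)
    apply Finset.sum_congr rfl
    intro k hk
    rw [ha k (by have := (Finset.mem_Icc.1 hk).1; omega)]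
  · intro q hq _ χ hχ
    obtain ⟨Λ, W, hd, hW, hb, hfe, hL⟩ := gj_fe h hn0 hq hχ (fun s hs => ex_sum hC hs)
    refine ⟨Λ, W, hd, hW, hb, hfe, fun z hz => ?_⟩
    have h3 := hL z hz
    have e2 : LSeries (fun k => a k * χ k) z = LSeries (fun k => lam k * χ k) z := by
      apply LSeries_congr
      intro k hk
      show a k * χ k = lam k * χ k
      rw [ha k hk]
    rw [e2, Nat.cast_one, one_mul, ← h3, mul_comm]
    congr 1
    apply Finset.prod_congr rfl
    intro j _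
    congr 2
    ring

alias exists_wsys := exists_wsys_pr

end Pool.Agent.GJ
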