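import Pool.Agent.Lib_helper54.RS.Defs

/-!
# Spherical Hecke eigenforms of level one on `GL_n(ℝ)`: definitions

The Whittaker coefficient `RS.Main.whittaker` is defined in `Pool/Agent/Lib_helper54/RS/Defs.lean`.
-/

namespace Pool.Agent.GJ

open Complex MeasureTheory Matrix

/-- The Hermite normal forms of determinant `m > 0`: upper triangular matrices with entries in
`ℕ`, diagonal entries with product `m`, and `A i j < A i i` for `i < j`.  They represent the
cosets `A GL_n(ℤ)` of the integral matrices `A` of determinant `± m`. -/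
def hnf (n m : ℕ) : Finset (Fin n → Fin n → ℕ) :=
  (Fintype.piFinset fun _ => Fintype.piFinset fun _ => Finset.range (m + 1)).filter fun A =>
    (∀ i j, j < i → A i j = 0) ∧ (∀ i j, i < j → A i j < A i i) ∧ ∏ i, A i i = m

/-- `A` as a real matrix. -/
def natM {n : ℕ} (A : Fin n → Fin n → ℕ) : Matrix (Fin n) (Fin n) ℝ :=
  Matrix.of fun i j => (A i j : ℝ)

/-- The upper triangular part of `z`. -/
def upTri {n : ℕ} (z : Fin n → Fin n → ℝ) : Matrix (Fin n) (Fin n) ℝ :=
  Matrix.of fun i j => if j < i then 0 else z i j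

/-- The spherical transform at `ν` of a bi-`O(n)`-invariant function `f` on `GL_n(ℝ)`, in the
triangular (Iwasawa) coordinates: the integral of `f(b) ∏ b_ii^{ν_i - (n+1)/2}` over the upper
triangular matrices `b` with positive diagonal.  (The coordinates `z i j` with `j < i` do not
matter; they are integrated over `[0, 1)`.) -/
noncomputable def sphT {n : ℕ} (ν : Fin n → ℂ) (f : Matrix (Fin n) (Fin n) ℝ → ℂ) : ℂ :=
  ∫ z : Fin n → Fin n → ℝ in {z | (∀ i, 0 < z i i) ∧ ∀ i j, j < i → 0 ≤ z i j ∧ z i j < 1},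
    f (upTri z) * ∏ i, ((z i i : ℝ) : ℂ) ^ (ν i - (n + 1) / 2)

/-- `φ` is a bounded spherical Hecke eigenform of level one on `GL_n(ℝ)`, that is, on
`SL_n(ℤ) \ GL_n(ℝ) / O(n) ℝ_{>0}`, with the spectral parameter `ν` and the Hecke eigenvalues `lam`.
Every Hecke-Maass cusp form for `SL_n(ℤ)` that is even or odd under `GL_n(ℤ)` (for odd `n` all are
even, for even `n` all are even or odd by multiplicity one) satisfies this, up to a constant factor:
cusp forms are bounded and continuous, eigenfunctions of the invariant differential operators are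
eigenfunctions of the convolution operators, and the first Whittaker coefficient of a cuspidal Hecke
eigenform on `GL_n` does not vanish.  Only the values of `φ` at invertible matrices matter. -/
structure SphericalForm (n : ℕ) (e : Fin 2) (ν : Fin n → ℂ) (lam : ℕ → ℂ)
    (φ : Matrix (Fin n) (Fin n) ℝ → ℂ) : Prop where
  /-- `φ` is continuous. -/
  continuous : ContinuousOn φ {g | g.det ≠ 0}
  /-- `φ` is bounded. -/
  bounded : ∃ M : ℝ, ∀ g : Matrix (Fin n) (Fin n) ℝ, g.det ≠ 0 → ‖φ g‖ ≤ M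
  /-- `φ` is invariant under the positive scalars. -/
  scalar : ∀ (t : ℝ) (g : Matrix (Fin n) (Fin n) ℝ), 0 < t → g.det ≠ 0 → φ (t • g) = φ g
  /-- `φ(γ g) = (det γ)^e φ(g)` for `γ` in `GL_n(ℤ)`: even for `e = 0`, odd for `e = 1`. -/
  left : ∀ γ : Matrix (Fin n) (Fin n) ℤ, IsUnit γ.det → ∀ g : Matrix (Fin n) (Fin n) ℝ,
    g.det ≠ 0 → φ (γ.map (fun z : ℤ => (z : ℝ)) * g) = ((γ.det : ℤ) : ℂ) ^ (e : ℕ) * φ g
  /-- `φ(g k) = φ(g)` for `k` in `O(n)`. -/
  right : ∀ k : Matrix (Fin n) (Fin n) ℝ, k * kᵀ = 1 → ∀ g : Matrix (Fin n) (Fin n) ℝ,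
    g.det ≠ 0 → φ (g * k) = φ g
  /-- The Hecke operators: the sum of `φ(A⁻¹ g)` over the integral matrices `A` of determinant `± m`
  modulo `GL_n(ℤ)` is `m^{(n-1)/2} lam(m) φ(g)`; so `L(s, φ) = ∑ lam(m) m^{-s}`. -/
  hecke : ∀ m : ℕ, 0 < m → ∀ g : Matrix (Fin n) (Fin n) ℝ, g.det ≠ 0 →
    ∑ A ∈ hnf n m, φ ((natM A)⁻¹ * g) = ((√(m : ℝ) : ℝ) : ℂ) ^ (n - 1) * lam m * φ g
  /-- The spherical property: for every continuous bi-`O(n)`-invariant function `f` of compact
  support on `GL_n(ℝ)`, `φ` is an eigenfunction of the convolution operator of `f`, with the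
  spherical transform of `f` at `ν` as eigenvalue (`c` depends on the normalization of the measures
  only; `|det g|^{-n} ∏ dg_ij` is the Haar measure). -/
  spherical : ∃ c : ℝ, 0 < c ∧ ∀ f : Matrix (Fin n) (Fin n) ℝ → ℂ, Continuous f →
    (∃ K : Set (Matrix (Fin n) (Fin n) ℝ), IsCompact K ∧ (∀ g ∈ K, g.det ≠ 0) ∧
      ∀ g, g ∉ K → f g = 0) →
    (∀ k k' : Matrix (Fin n) (Fin n) ℝ, k * kᵀ = 1 → k' * k'ᵀ = 1 → ∀ g,
      f (k * g * k') = f g) →
    ∀ x : Matrix (Fin n) (Fin n) ℝ, x.det ≠ 0 →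
      ∫ g : Fin n → Fin n → ℝ, f (Matrix.of g) * φ (x * Matrix.of g) *
        (((|(Matrix.of g).det| ^ n)⁻¹ : ℝ) : ℂ) = c * sphT ν f * φ x
  /-- The first Whittaker coefficient of `φ` is not zero. -/
  generic : ∃ g : Matrix (Fin n) (Fin n) ℝ, g.det ≠ 0 ∧ RS.Main.whittaker φ g ≠ 0

end Pool.Agent.GJ
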